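import Pool.Agent.Lib.MP_438f30_pr.C.St2

/-! Cheap circles at all scales along a segment join its ends. -/

namespace Pool.Agent.GC

open Real Finset Filter Topology Pool.Agent.Lib.MP_a0a493_pr Pool.Agent.GL

namespace AdL

theorem norm_ax (e : Fin 2) : ‖ax e‖ = 1 := by
  rw [EuclideanSpace.norm_eq, Fin.sum_univ_two]
  fin_cases e <;> simp [ax, pt_apply]

theorem dist_ax (e : Fin 2) (a b : ℝ) : dist (a • ax e) (b • ax e) = |a - b| := by
  rw [dist_eq_norm, ← sub_smul, norm_smul, norm_ax, mul_one, Real.norm_eq_abs]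

theorem sq_bd (m : ℕ) {ρ : ℝ} (h : ρ ≤ 1 / (8 * 2 ^ m)) : 4 ^ (m / 8) * √ρ ≤ (7 / 8) ^ m := by
  have h1 : (16 : ℝ) ^ (m / 8) ≤ (49 / 32) ^ m :=
    calc (16 : ℝ) ^ (m / 8) ≤ ((49 / 32) ^ 8) ^ (m / 8) :=
          pow_le_pow_left₀ (by norm_num) (by norm_num) _
      _ ≤ (49 / 32) ^ m := by
          rw [← pow_mul]; exact pow_le_pow_right₀ (by norm_num) (Nat.mul_div_le m 8)
  have h2 : ((4 : ℝ) ^ (m / 8)) ^ 2 = 16 ^ (m / 8) := by
    rw [← pow_mul, mul_comm, pow_mul]; norm_num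
  have h3 : (((7 : ℝ) / 8) ^ m) ^ 2 * 2 ^ m = (49 / 32) ^ m := by
    rw [← pow_mul, mul_comm m, pow_mul, ← mul_pow]; norm_num
  rw [mul_comm, ← le_div_iff₀ (by positivity)]
  refine Real.sqrt_le_iff.2 ⟨by positivity, h.trans ?_⟩
  rw [div_pow, div_le_div_iff₀ (by positivity) (by positivity), h2]
  have : (0 : ℝ) ≤ (49 / 32) ^ m := by positivity
  nlinarith

theorem dy (M : ℕ) {y : ℝ} (h0 : 1 / 2 ^ (M + 2) ≤ y) (h1 : y ≤ 1 / 2) :
    ∃ m ≤ M, 1 / 4 ≤ y * 2 ^ m ∧ y * 2 ^ m ≤ 1 / 2 := by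
  induction M with
  | zero => exact ⟨0, le_rfl, by norm_num at h0 ⊢; linarith, by simpa using h1⟩
  | succ M ih =>
    by_cases h : 1 / 2 ^ (M + 2) ≤ y
    · obtain ⟨m, a, b⟩ := ih h
      exact ⟨m, by omega, b⟩
    · rw [not_le, lt_div_iff₀ (by positivity)] at h
      rw [div_le_iff₀ (by positivity)] at h0
      refine ⟨M + 1, le_rfl, ?_, ?_⟩
      · rw [pow_add] at h0; linarith
      · rw [show M + 2 = M + 1 + 1 from rfl, pow_succ] at h; linarith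

theorem cov (M : ℕ) (N : ℕ → ℕ) (hN : ∀ m, ∃ n, 0 < n ∧ N m = 4 * n) {y : ℝ}
    (h0 : 1 / 2 ^ (M + 2) ≤ y) (h1 : y ≤ 1 / 2) : ∃ m ≤ M, ∃ k : ℕ, N m ≤ 4 * k ∧ 2 * k ≤ N m ∧
      |y - k / (2 ^ m * N m)| ≤ 1 / (2 ^ m * N m) := by
  obtain ⟨m, hm, a, b⟩ := dy M h0 h1
  obtain ⟨n, hn, e⟩ := hN m
  have hn' : (0 : ℝ) < n := by exact_mod_cast hn
  have hy : 0 ≤ y * 2 ^ m * (4 * n) := by nlinarith
  have f1 := Nat.floor_le hy
  have f2 := Nat.lt_floor_add_one (y * 2 ^ m * (4 * n))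
  refine ⟨m, hm, ⌊y * 2 ^ m * (4 * n)⌋₊, ?_, ?_, ?_⟩
  · rw [e]
    exact Nat.mul_le_mul_left 4 (Nat.le_floor (by nlinarith))
  · rw [e]
    have : (2 : ℝ) * ⌊y * 2 ^ m * (4 * n)⌋₊ ≤ 4 * n := by nlinarith
    exact_mod_cast this
  · rw [e, Nat.cast_mul, Nat.cast_ofNat]
    have hp : (0 : ℝ) < 2 ^ m * (4 * n) := by positivity
    rw [show y - (⌊y * 2 ^ m * (4 * n)⌋₊ : ℝ) / (2 ^ m * (4 * n)) =
      (y * 2 ^ m * (4 * n) - ⌊y * 2 ^ m * (4 * n)⌋₊) / (2 ^ m * (4 * n)) by field_simp,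
      abs_div, abs_of_pos hp]
    exact div_le_div_of_nonneg_right (abs_le.2 ⟨by linarith, by linarith⟩) hp.le

/-- The sites. -/
noncomputable def st (N : ℕ → ℕ) (i : Σ _ : ℕ, ℕ × Bool) : ℝ :=
  if i.2.2 then i.2.1 / (2 ^ i.1 * N i.1) else 1 - i.2.1 / (2 ^ i.1 * N i.1)

end AdL

open AdL in
theorem ad (ma : MA) (h : sGL) : sAD := by
  classical
  intro d e c K A hd hA hc H
  set N : ℕ → ℕ := fun m => 2 ^ (c + 2 * (K + m / 8)) with hNd
  have hN : ∀ m, ∃ n, 0 < n ∧ N m = 4 * n := fun m =>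
    ⟨2 ^ (c - 2 + 2 * (K + m / 8)), by positivity, by
      rw [show 4 = 2 ^ 2 from rfl, ← pow_add]; simp only [hNd]; congr 1; omega⟩
  have hE : ∀ m, (2 : ℝ) ^ (m + c + 2 * (K + m / 8)) = 2 ^ m * N m := fun m => by
    simp only [hNd]; push_cast; rw [add_assoc, pow_add]
  have H2 : ∀ i : Σ _ : ℕ, ℕ × Bool, N i.1 ≤ 4 * i.2.1 ∧ 2 * i.2.1 ≤ N i.1 → ∃ ρ : ℝ,
      1 / (2 ^ i.1 * N i.1) < ρ ∧ ρ ≤ 1 / (8 * 2 ^ i.1) ∧ ∀ u u', dist u (st N i • ax e) = ρ →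
        dist u' (st N i • ax e) = ρ → Tc d (Bx 0 8) u u' (A * √ρ) := by
    rintro ⟨m, k, b⟩ ⟨h1, h2⟩
    have := H m k h1 h2 (st N ⟨m, k, b⟩) (by rw [hE]; cases b <;> simp [st])
    rwa [hE] at this
  choose! ρ hρ using H2
  have o := (ma.opn 0 8).1
  obtain ⟨ε, hε, n1⟩ := Metric.eventually_nhds_iff.1
    (ma.near hd o (show (0 : R2) ∈ Bx 0 8 from fun i => by simp) one_pos)
  obtain ⟨ε', hε', n2⟩ := Metric.eventually_nhds_iff.1
    (ma.near hd o (show ax e ∈ Bx 0 8 from fun i => by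
      have := PiLp.norm_apply_le (ax e) i
      rw [norm_ax, Real.norm_eq_abs] at this
      simp only [PiLp.zero_apply, sub_zero]
      linarith) one_pos)
  obtain ⟨M, hM⟩ := exists_pow_lt_of_lt_one (lt_min hε hε') (show (1 / 2 : ℝ) < 1 by norm_num)
  have hα : (0 : ℝ) < 1 / 2 ^ (M + 2) := by positivity
  have hα2 : (4 : ℝ) * (1 / 2 ^ (M + 2)) = (1 / 2) ^ M := by
    rw [pow_add, one_div_pow]; field_simp; norm_num
  have hα3 : ((1 : ℝ) / 2) ^ M ≤ 1 := pow_le_one₀ (by norm_num) (by norm_num)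
  have hm1 := hM.trans_le (min_le_left _ _)
  have hm2 := hM.trans_le (min_le_right _ _)
  set S : Finset (Σ _ : ℕ, ℕ × Bool) :=
    ((range (M + 1)).sigma fun m => range (N m) ×ˢ univ).filter
      fun i => N i.1 ≤ 4 * i.2.1 ∧ 2 * i.2.1 ≤ N i.1 with hS
  have hpos : ∀ m, (0 : ℝ) < 2 ^ m * N m := fun m => by rw [← hE]; positivity
  have hS1 : ∀ i ∈ S, 0 < ρ i ∧ 2 * ρ i ≤ st N i ∧ 2 * ρ i ≤ 1 - st N i := by
    rintro ⟨m, k, b⟩ hi
    obtain ⟨h1, h2⟩ := (mem_filter.1 hi).2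
    obtain ⟨a1, a2, -⟩ := hρ ⟨m, k, b⟩ ⟨h1, h2⟩
    have p1 : (N m : ℝ) ≤ 4 * k := by exact_mod_cast h1
    have p2 : (2 : ℝ) * k ≤ N m := by exact_mod_cast h2
    have p0 : (1 : ℝ) ≤ 2 ^ m := one_le_pow₀ one_le_two
    have p3 : 2 * (1 / (8 * 2 ^ m)) ≤ (k : ℝ) / (2 ^ m * N m) := by
      rw [mul_one_div, div_le_div_iff₀ (by positivity) (hpos m)]; nlinarith
    have p4 : (k : ℝ) / (2 ^ m * N m) ≤ 1 / 2 := by
      rw [div_le_div_iff₀ (hpos m) two_pos]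
      have : (0 : ℝ) ≤ k := k.cast_nonneg
      nlinarith
    refine ⟨(one_div_pos.2 (hpos m)).trans a1, ?_, ?_⟩ <;> cases b <;>
      simp only [st, if_true, Bool.false_eq_true, if_false] at a2 ⊢ <;> linarith
  have hmem : ∀ m ≤ M, ∀ k b, N m ≤ 4 * k → 2 * k ≤ N m → (⟨m, k, b⟩ : Σ _ : ℕ, ℕ × Bool) ∈ S :=
    fun m hm k b h1 h2 => mem_filter.2 ⟨mem_sigma.2 ⟨mem_range.2 (by simpa using by omega),
      mem_product.2 ⟨mem_range.2 (by
        obtain ⟨n, hn, e⟩ := hN m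
        show k < N m
        omega), mem_univ _⟩⟩, h1, h2⟩
  obtain ⟨I, hI, I', hI', b1, b2, u, u', c1, c2, hT⟩ := h d (Bx 0 8) (ax e)
    (S.image fun i => (st N i, ρ i)) (fun I => A * √I.2) (1 / 2 ^ (M + 2)) (1 - 1 / 2 ^ (M + 2))
    hd (norm_ax e) (by linarith) (fun I hI => by
      obtain ⟨i, hi, rfl⟩ := mem_image.1 hI
      exact ⟨(hS1 i hi).1, (hρ i (mem_filter.1 hi).2).2.2⟩) (fun x hx => by
      rcases le_total x (1 / 2) with h1 | h1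
      · obtain ⟨m, hm, k, k1, k2, k3⟩ := cov M N hN hx.1 h1
        exact ⟨_, mem_image_of_mem _ (hmem m hm k true k1 k2),
          k3.trans_lt (hρ ⟨m, k, true⟩ ⟨k1, k2⟩).1⟩
      · obtain ⟨m, hm, k, k1, k2, k3⟩ := cov M N hN (y := 1 - x) (by linarith [hx.2])
          (by linarith)
        refine ⟨_, mem_image_of_mem _ (hmem m hm k false k1 k2),
          (le_of_eq_of_le ?_ k3).trans_lt (hρ ⟨m, k, false⟩ ⟨k1, k2⟩).1⟩
        rw [abs_sub_comm]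
        simp only [st, Bool.false_eq_true, if_false]
        congr 1
        ring)
  obtain ⟨i, hi, rfl⟩ := mem_image.1 hI
  obtain ⟨i', hi', rfl⟩ := mem_image.1 hI'
  obtain ⟨d1, d2, -⟩ := hS1 i hi
  obtain ⟨d3, -, d4⟩ := hS1 i' hi'
  simp only at b1 b2 c1 c2
  have e1 : dist u 0 < ε := by
    have t := dist_triangle u (st N i • ax e) ((0 : ℝ) • ax e)
    rw [c1, dist_ax, zero_smul, sub_zero, abs_of_nonneg (by linarith)] at t
    linarith [(abs_lt.1 b1).1]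
  have e2 : dist u' (ax e) < ε' := by
    have t := dist_triangle u' (st N i' • ax e) ((1 : ℝ) • ax e)
    rw [c2, dist_ax, one_smul, abs_of_nonpos (by linarith)] at t
    linarith [(abs_le.1 b2).2]
  refine ma.mono (ma.trans hd (ma.trans hd (n1 e1) hT) (ma.symm (n2 e2))) subset_rfl ?_
  have s1 : ∑ J ∈ S.image (fun i => (st N i, ρ i)), A * √J.2 ≤ ∑ i ∈ S, A * √(ρ i) :=
    sum_image_le_of_nonneg fun J _ => by positivity
  have s2 : ∑ i ∈ S, A * √(ρ i) ≤ ∑ i ∈ (range (M + 1)).sigma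
      (fun m => range (N m) ×ˢ (univ : Finset Bool)), A * ((7 / 8) ^ i.1 / 4 ^ (i.1 / 8)) := by
    refine (sum_le_sum fun i hi => mul_le_mul_of_nonneg_left ?_ hA.le).trans
      (sum_le_sum_of_subset_of_nonneg (filter_subset _ _) fun i _ _ => by positivity)
    rw [le_div_iff₀' (by positivity)]
    exact sq_bd _ (hρ i (mem_filter.1 hi).2).2.1
  have s3 : ∑ i ∈ (range (M + 1)).sigma (fun m => range (N m) ×ˢ (univ : Finset Bool)),
      A * ((7 / 8) ^ i.1 / 4 ^ (i.1 / 8)) =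
      2 * 2 ^ c * 4 ^ K * A * ∑ m ∈ range (M + 1), (7 / 8 : ℝ) ^ m := by
    rw [sum_sigma, mul_sum]
    refine sum_congr rfl fun m _ => ?_
    simp only [sum_const, card_product, card_range, card_univ, Fintype.card_bool, nsmul_eq_mul,
      hNd]
    push_cast
    rw [pow_add, pow_mul, pow_add, show (2 : ℝ) ^ 2 = 4 by norm_num]
    field_simp
  have s4 : ∑ m ∈ range (M + 1), (7 / 8 : ℝ) ^ m ≤ 8 := by
    rw [geom_sum_eq (by norm_num), div_le_iff_of_neg (by norm_num)]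
    have : (0 : ℝ) ≤ (7 / 8) ^ (M + 1) := by positivity
    linarith
  have s5 : (0 : ℝ) ≤ 2 ^ c * 4 ^ K * A := by positivity
  nlinarith

end Pool.Agent.GC
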