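import Pool.Agent.Lib.MP_438f30_pr.C.St2

/-! A first lower tail for the cost of a crossing. -/

namespace Pool.Agent.GC

open MeasureTheory Real Finset Filter Topology Pool.Agent.Lib.MP_a0a493_pr Pool.Agent.GL

namespace AlL

theorem co (x y : R2) (i : Fin 2) : |x i - y i| ≤ dist x y := by
  rw [← Real.dist_eq]
  exact PiLp.dist_apply_le x y i

theorem ds {x y : R2} {r : ℝ} (h : x ∈ Bx y r) : dist x y ≤ 2 * r := by
  have h0 := abs_lt.1 (h 0)
  have h1 := abs_lt.1 (h 1)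
  rw [EuclideanSpace.dist_eq, Fin.sum_univ_two, Real.dist_eq, Real.dist_eq, sq_abs, sq_abs]
  exact Real.sqrt_le_iff.2 ⟨by linarith, by nlinarith⟩

/-- a good annulus near the starting point makes the crossing expensive -/
theorem det (ma : MA) {d d' : Mt} {g : R2 → ℝ} {u u' z : R2} {ρ s S c : ℝ} (hd : IsMet d)
    (hc : Cmp d d' g) (h0 : 0 < ρ) (h1 : 36 * ρ ≤ 1) (hz : z ∈ Bx 0 2) (hu : u ∈ Bx z ρ)
    (hu' : u' ∈ Ot 0 4) (hg : ∀ y ∈ Bx 0 4, g y ≤ c) (h : Gd d' z ρ s S) :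
    exp (-c) * s ≤ d u u' := by
  refine ma.gd hd hc h0 (fun y hy => hg y fun i => ?_) h (by linarith [ds hu]) ?_
  · have a := abs_le.1 (co y z i)
    have b := abs_lt.1 (hz i)
    have c := hy.2
    rw [abs_lt]
    constructor <;> linarith [a.1, a.2, b.1, b.2]
  · obtain ⟨i, hi⟩ := hu'
    have a := abs_le.1 (co u' z i)
    have b := abs_lt.1 (hz i)
    rcases lt_abs.1 hi with c | c <;> linarith [a.1, a.2, b.1, b.2]

theorem un {Ω : Type} [MeasurableSpace Ω] (P : Measure Ω) [IsProbabilityMeasure P] {A B : Set Ω}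
    {E : ℕ → Set Ω} {p : Ω → Prop} {N : ℕ} {x y : ℝ} (hp : ∀ᵐ ω ∂P, p ω) (hB : P.real B ≤ x)
    (hE : ∀ i < N, P.real (E i) ≤ y) (h : ∀ ω ∈ A, p ω → ω ∉ B → ∃ i < N, ω ∈ E i) :
    P.real A ≤ x + N * y := by
  have h1 : A ⊆ {ω | ¬ p ω} ∪ (B ∪ ⋃ i ∈ range N, E i) := fun ω hω => by
    by_cases a : p ω
    · by_cases b : ω ∈ B
      · exact Or.inr (Or.inl b)
      · obtain ⟨i, c, e⟩ := h ω hω a b
        exact Or.inr (Or.inr (Set.mem_iUnion₂.2 ⟨i, mem_range.2 c, e⟩))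
    · exact Or.inl a
  have h2 : P.real {ω | ¬ p ω} = 0 := by rw [measureReal_def, ae_iff.1 hp, ENNReal.toReal_zero]
  have h3 : P.real (⋃ i ∈ range N, E i) ≤ N * y := by
    have := (measureReal_biUnion_finset_le (μ := P) (range N) E).trans
      (sum_le_card_nsmul _ _ y fun i hi => hE i (mem_range.1 hi))
    rwa [card_range, nsmul_eq_mul] at this
  have h4 := measureReal_mono (μ := P) h1 (measure_ne_top _ _)
  have h5 := measureReal_union_le (μ := P) {ω | ¬ p ω} (B ∪ ⋃ i ∈ range N, E i)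
  have h6 := measureReal_union_le (μ := P) B (⋃ i ∈ range N, E i)
  linarith

theorem e16 : (16 : ℝ) ≤ exp 3 := by
  have h : (2.7 : ℝ) ≤ exp 1 := by linarith [Real.exp_one_gt_d9]
  calc (16 : ℝ) ≤ 2.7 ^ 3 := by norm_num
    _ ≤ exp 1 ^ 3 := by gcongr
    _ = exp 3 := by rw [← Real.exp_nat_mul]; norm_num

theorem p16 (c N : ℕ) : (4 : ℝ) ^ (c + 2 * N) ≤ 4 ^ c * exp (3 * N) := by
  rw [pow_add, pow_mul, mul_comm (3 : ℝ), Real.exp_nat_mul]
  gcongr
  exact le_trans (by norm_num) e16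

theorem zp (n e : ℕ) : (2 : ℝ) ^ (n + e) * 2 ^ (-(n : ℤ)) = 2 ^ e := by
  rw [zpow_neg, zpow_natCast, pow_add]
  field_simp

end AlL

theorem al : sAL := by
  intro Ω H _ _ _ P _ M η h ms
  obtain ⟨Q, Q1, Q2⟩ : ∃ Q : ℝ, 1 ≤ Q ∧ M.q ≤ Q := ⟨max M.q 1, le_max_right _ _, le_max_left _ _⟩
  obtain ⟨c, hc⟩ : ∃ c : ℕ, (36 * M.C0 : ℝ) ≤ 2 ^ c :=
    (pow_unbounded_of_one_lt (36 * M.C0 : ℝ) one_lt_two).imp fun _ h => h.le
  obtain ⟨C, C1, hC⟩ := ms (exp (-(480 * η * Q + 3))) (exp_pos _)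
  have η1 := h.eta
  have lC := log_nonneg C1
  have c0 : (0 : ℝ) ≤ c := c.cast_nonneg
  have C0 : (1 : ℝ) ≤ M.C0 := by exact_mod_cast h.bz.one
  obtain ⟨t₀, ht₀⟩ : ∃ t₀, t₀ = 2 * (Q * c + log C) + c + 1 := ⟨_, rfl⟩
  have Qc : 0 ≤ Q * c := by positivity
  refine ⟨exp (60 * η * t₀) + (25 * 4 ^ (c + 1) * exp (480 * η * Q) + 300 * 4 ^ (c + 2)),
    fun t => ?_⟩
  have ex := exp_pos (-(60 * η * t))
  rw [add_mul]
  rcases le_total t t₀ with ht | ht
  · refine le_add_of_le_of_nonneg (measureReal_le_one.trans ?_) (by positivity)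
    rw [← exp_add]
    exact one_le_exp (by nlinarith)
  refine le_add_of_nonneg_of_le (by positivity) ?_
  have t1 : 1 ≤ t := by linarith
  obtain ⟨N, N1, N2⟩ : ∃ N : ℕ, 8 * Q * N ≤ t ∧ t ≤ 8 * Q * (N + 1) := by
    refine ⟨⌊t / (8 * Q)⌋₊, ?_, ?_⟩
    · rw [← le_div_iff₀' (by positivity)]
      exact Nat.floor_le (by positivity)
    · rw [← div_le_iff₀' (by positivity)]
      exact (Nat.lt_floor_add_one _).le
  have N0 : (0 : ℝ) ≤ N := N.cast_nonneg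
  have N3 : 8 * (N : ℝ) ≤ t := by nlinarith
  have b1 := h.pa.grid P (-((c + 2 * N : ℕ) : ℤ)) (c + 2 * N + 1) 0 _
    fun q => hC (-c) (gp (-((c + 2 * N : ℕ) : ℤ)) q) N
  rw [AlL.zp] at b1
  have b2 : ∀ i < N, P.real {ω | ∃ y ∈ Bx 0 4,
      t / 4 < |M.Y 0 ω y - M.Y (-((c + 2 * i : ℕ) : ℤ)) ω y|} ≤
      300 * (4 ^ (c + 2) * exp (3 * N)) * exp (-(10 ^ 5 * η * (t / 4))) := fun i hi => by
    have i1 : (i : ℝ) ≤ N := Nat.cast_le.2 hi.le
    have := h.sp (-((c + 2 * i : ℕ) : ℤ)) (c + 2 * i) (c + 2 * i + 2) 0 (t / 4) (by linarith)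
      (by push_cast; linarith)
    rw [AlL.zp, neg_add_cancel, show (2 : ℝ) ^ 2 = 4 by norm_num] at this
    refine this.trans ?_
    gcongr
    exact (pow_le_pow_right₀ (by norm_num) (by omega)).trans (AlL.p16 (c + 2) N)
  refine (AlL.un P h.ba.all b1 b2 ?_).trans ?_
  · rintro ω ⟨u, hu, u', hu', hx⟩ ⟨hm, hcmp⟩ hB
    rw [zpow_zero] at hu hu'
    rw [mul_one] at hu'
    obtain ⟨z1, z2⟩ := h.ma.cell (-((c + 2 * N : ℕ) : ℤ)) u
    have s1 : (2 : ℝ) ^ (-((c + 2 * N : ℕ) : ℤ)) ≤ 1 :=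
      zpow_le_one_of_nonpos₀ one_le_two (by omega)
    have z3 : gp (-((c + 2 * N : ℕ) : ℤ)) (fz (-((c + 2 * N : ℕ) : ℤ)) u) ∈ Bx 0 2 := fun i => by
      have a := abs_lt.1 (z1 i)
      have b := abs_lt.1 (hu i)
      rw [abs_lt]
      constructor <;> linarith [a.1, a.2, b.1, b.2]
    by_contra hn
    refine hB ⟨fz _ u, by rwa [pow_one], fun i hi hg => hn ⟨i, hi, ?_⟩⟩
    by_contra hy
    have e : (-c - 2 * (i : ℕ) : ℤ) = -((c + 2 * i : ℕ) : ℤ) := by push_cast; ring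
    rw [e] at hg
    have p0 : (0 : ℝ) < 2 ^ (-((c + 2 * i : ℕ) : ℤ)) := by positivity
    have p1 : (2 : ℝ) ^ c * 2 ^ (-((c + 2 * i : ℕ) : ℤ)) ≤ 1 := by
      rw [← zpow_natCast, ← zpow_add₀ two_ne_zero]
      exact zpow_le_one_of_nonpos₀ one_le_two (by omega)
    have p2 : (2 : ℝ) ^ (-((c + 2 * N : ℕ) : ℤ)) ≤ 2 ^ (-((c + 2 * i : ℕ) : ℤ)) :=
      zpow_le_zpow_right₀ one_le_two (by omega)
    have k := AlL.det h.ma (hm 0) (hcmp 0 _) (c := t / 4) (by positivity)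
      (by nlinarith [mul_le_mul_of_nonneg_right hc p0.le]) z3
      (fun j => (z2 j).trans_le (by nlinarith)) hu' (fun y hy' => by
        have := abs_le.1 (le_of_not_gt fun k => hy ⟨y, hy', k⟩)
        linarith [this.1]) hg
    have k2 := k.trans_lt hx
    rw [← exp_log (one_pos.trans_le C1), ← exp_sub, ← exp_add, exp_lt_exp] at k2
    have i1 : (i : ℝ) ≤ N := Nat.cast_le.2 hi.le
    have i0 : (0 : ℝ) ≤ i := i.cast_nonneg
    push_cast at k2
    nlinarith [mul_le_mul_of_nonneg_right Q2 (show (0 : ℝ) ≤ c + 2 * i by positivity),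
      mul_le_mul_of_nonneg_left i1 (show 0 ≤ Q by linarith)]
  · rw [add_mul]
    refine add_le_add ?_ ?_
    · rw [show c + 2 * N + 1 = c + 1 + 2 * N by ring, ← Real.exp_nat_mul]
      calc _ ≤ 25 * (4 ^ (c + 1) * exp (3 * N)) * exp (N * -(480 * η * Q + 3)) := by
            gcongr
            exact AlL.p16 _ N
        _ = 25 * 4 ^ (c + 1) * exp (3 * N + N * -(480 * η * Q + 3)) := by rw [exp_add]; ring
        _ ≤ 25 * 4 ^ (c + 1) * exp (480 * η * Q + -(60 * η * t)) := by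
            gcongr 25 * 4 ^ (c + 1) * exp ?_
            nlinarith [mul_le_mul_of_nonneg_left N2 (show 0 ≤ η by linarith)]
        _ = _ := by rw [exp_add]; ring
    · have n1 : (N : ℝ) ≤ exp t := by linarith [add_one_le_exp t]
      calc _ ≤ exp t * (300 * (4 ^ (c + 2) * exp (3 * N)) * exp (-(10 ^ 5 * η * (t / 4)))) := by
            gcongr
        _ = 300 * 4 ^ (c + 2) * exp (t + 3 * N + -(10 ^ 5 * η * (t / 4))) := by
            rw [exp_add, exp_add]; ring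
        _ ≤ _ := by
            gcongr
            nlinarith

end Pool.Agent.GC
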