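import Pool.Agent.Lib.MP_438f30_pr.C.St
import Pool.Agent.Lib.MP_438f30_pr.GBdd

/-! Discretisation of crossings. -/

namespace Pool.Agent.GC

open Real Finset Filter Topology Pool.Agent.GL

namespace DsL

theorem bsymm {a y : R2} {r : ℝ} (h : y ∈ Bx a r) : a ∈ Bx y r := fun i => by
  rw [abs_sub_comm]
  exact h i

theorem btri {a y z : R2} {r s t : ℝ} (h : y ∈ Bx a r) (h' : z ∈ Bx y s) (e : r + s ≤ t) :
    z ∈ Bx a t := fun i => by
  have h1 := h i
  have h2 := h' i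
  have := abs_sub_le (z i) (y i) (a i)
  linarith

theorem bself (a : R2) {r : ℝ} (h : 0 < r) : a ∈ Bx a r := fun i => by simpa using h

theorem bdist {a y : R2} {r : ℝ} (h : dist y a < r) : y ∈ Bx a r := fun i => by
  have := PiLp.norm_apply_le (y - a) i
  rw [dist_eq_norm] at h
  rw [PiLp.sub_apply, Real.norm_eq_abs] at this
  linarith

theorem bconv (a : R2) (r : ℝ) : Convex ℝ (Bx a r) := by
  intro x hx y hy s t hs ht e i
  have h1 := abs_lt.1 (hx i)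
  have h2 := abs_lt.1 (hy i)
  have e1 : (s • x + t • y) i - a i = s * (x i - a i) + t * (y i - a i) := by
    simp only [PiLp.add_apply, PiLp.smul_apply, smul_eq_mul]
    linear_combination (a i) * e
  rw [e1, abs_lt]
  have c := convex_Ioo (𝕜 := ℝ) (-r) r h1 h2 hs ht e
  simpa using c

theorem enum (S : Set R2) (v w : R2) (ρ R δ : ℝ) (hS : S.Countable)
    (h : ∃ m u, Adm S v ρ R w δ m u) :
    ∃ (mm : ℕ → ℕ) (uu : ℕ → ℕ → R2), (∀ γ, Adm S v ρ R w δ (mm γ) (uu γ)) ∧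
      ∀ m u, Adm S v ρ R w δ m u → ∃ γ, mm γ = m ∧ uu γ = u := by
  have := hS.to_subtype
  let F : (Σ m : ℕ, Fin (m + 1) → S) → ℕ × (ℕ → R2) := fun q =>
    (q.1, fun l => if h : l < q.1 + 1 then (q.2 ⟨l, h⟩ : R2) else v)
  have c : {q : ℕ × (ℕ → R2) | Adm S v ρ R w δ q.1 q.2}.Countable :=
    (Set.countable_range F).mono fun q hq => by
      refine ⟨⟨q.1, fun i => ⟨q.2 i, hq.2.1 i⟩⟩, Prod.ext rfl (funext fun l => ?_)⟩
      simp only [F]
      split_ifs with e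
      · rfl
      · exact (hq.2.2.1 l (by omega)).symm
  obtain ⟨m, u, h⟩ := h
  obtain ⟨f, hf⟩ := c.exists_eq_range ⟨(m, u), h⟩
  refine ⟨fun γ => (f γ).1, fun γ => (f γ).2, fun γ => ?_, fun m u h => ?_⟩
  · exact (hf.ge ⟨γ, rfl⟩ :)
  · obtain ⟨γ, e⟩ := hf.le (show (m, u) ∈ _ from h)
    exact ⟨γ, congrArg Prod.fst e, congrArg Prod.snd e⟩

theorem low (ma : MA) (d d' : Mt) (g : R2 → ℝ) (u : ℕ → R2) (l : ℕ) (δ o : ℝ) (hd : IsMet d)
    (hd' : IsMet d') (hc : Cmp d' d g) (hu : u (l + 1) ∈ Bx (u l) δ)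
    (hg : ∀ y ∈ Bx (u l) (2 * δ), g y ≤ g (u l) + o) :
    d (u l) (u (l + 1)) ≤ exp o * (wt d' δ u l * exp (g (u l))) := by
  have δ0 : 0 < δ := (abs_nonneg _).trans_lt (hu 0)
  obtain ⟨S, hS⟩ := GBdd.bd hd' (ma.opn (u l) (2 * δ)).1 (bconv _ _).isPreconnected
    (K := {u l, u (l + 1)}) (Set.toFinite _).isCompact (by
      rintro y (rfl | rfl)
      · exact bself _ (by linarith)
      · exact btri hu (bself _ δ0) (by linarith))
  have fin := ((hS (u l) (by simp) (u (l + 1)) (by simp)).trans_lt ENNReal.ofReal_lt_top).ne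
  refine le_of_forall_gt_imp_ge_of_dense fun a ha => ?_
  have e0 := exp_pos (g (u l) + o)
  have e1 : wt d' δ u l < a / exp (g (u l) + o) := by
    rw [lt_div_iff₀ e0, exp_add]
    linarith
  have := ma.le hd (hc _ (u l) (u (l + 1)) (a / exp (g (u l) + o)) _ hg
    ((ENNReal.lt_ofReal_iff_toReal_lt fin).2 e1))
  rw [mul_div_cancel₀ _ e0.ne'] at this
  exact this.le

theorem up (ma : MA) (d d' : Mt) (g : R2 → ℝ) (S : Set R2) (v w : R2) (ρ R δ o x : ℝ)
    (hd : IsMet d) (hc : Cmp d d' fun y => -g y) (hS : Dense S) (hv : v ∈ S) (hw : w ∈ S)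
    (ρ0 : 0 ≤ ρ) (ρR : ρ ≤ R) (δ0 : 0 < δ)
    (hg : ∀ y ∈ Bx v (R + 1), ∀ y' ∈ Bx y (2 * δ), g y ≤ g y' + o) (h : Lc d v ρ R w x) :
    ∃ m u, Adm S v ρ R w δ m u ∧ cw m (wt d' δ u) (fun l => g (u l)) ≤ exp o * x := by
  obtain ⟨a, b, ha, hb, hab⟩ := h
  have vv : v ∈ Bx v (R + 1) := bself _ (by linarith)
  have a1 : a ∈ Bx v (R + 1) := by
    rcases ha with rfl | ha
    · exact vv
    · exact btri ha (bself _ one_pos) (by linarith)
  obtain ⟨t, ht, hT⟩ : ∃ t, (t = w ∨ t ∈ Ot v R) ∧ Tc d (Bx v (R + 1)) a t x := by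
    rcases ma.trunc hd hab a1 (lt_add_one R) with e | ⟨t, e, e'⟩
    exacts [⟨b, hb, e⟩, ⟨t, Or.inr e, e'⟩]
  obtain ⟨p, L, hp, p0, p1, pU, hL⟩ := mg1.path hT
  have L0 := hp.1
  obtain ⟨η, η0, hη⟩ := Metric.uniformContinuousOn_iff.1
    (isCompact_Icc.uniformContinuousOn_of_continuous (mg1.cont hd hp)) (δ / 2) (by linarith)
  obtain ⟨m, hm⟩ := exists_nat_gt (L / η)
  have m0 : (0 : ℝ) < m := (div_nonneg L0 η0.le).trans_lt hm
  have m1 : 0 < m := Nat.cast_pos.1 m0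
  obtain ⟨s, hs⟩ : ∃ s, s = L / m := ⟨_, rfl⟩
  have s0 : 0 ≤ s := hs ▸ div_nonneg L0 m0.le
  have sm : m * s = L := by rw [hs, mul_div_cancel₀ _ m0.ne']
  have sη : s < η := by
    rw [hs, div_lt_iff₀ m0, mul_comm, ← div_lt_iff₀ η0]
    exact hm
  obtain ⟨ε, hε⟩ : ∃ ε, ε = (x - L) / (3 * m) := ⟨_, rfl⟩
  have ε0 : 0 < ε := hε ▸ div_pos (by linarith) (by linarith)
  have εm : 3 * m * ε = x - L := by rw [hε, mul_div_cancel₀ _ (by positivity)]
  have tm : ∀ l : ℕ, l ≤ m → l * s ∈ Set.Icc 0 L := fun l hl =>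
    ⟨by positivity, sm ▸ mul_le_mul_of_nonneg_right (Nat.cast_le.2 hl) s0⟩
  have ex : ∀ l : ℕ, ∃ y, y ∈ S ∧ y ∈ Bx v (R + 1) ∧ (m < l → y = v) ∧ (l ≤ m →
      Tc d (Bx (p (l * s)) (δ / 4)) (p (l * s)) y ε) ∧ (l = 0 → y = v ∨ y ∈ Bx v ρ) ∧
      (l = m → y = w ∨ y ∈ Ot v R) := fun l => by
    rcases lt_or_ge m l with hl | hl
    · exact ⟨v, hv, vv, fun _ => rfl, fun e => by omega, fun e => by omega, fun e => by omega⟩
    have n1 := (ma.near hd (ma.opn (p (l * s)) (δ / 4)).1 (bself _ (by linarith)) ε0).and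
      ((ma.opn v (R + 1)).1.mem_nhds (pU _ (tm l hl)))
    have k : (p (l * s) ∈ S ∧ (l = 0 → p (l * s) = v ∨ p (l * s) ∈ Bx v ρ) ∧
        (l = m → p (l * s) = w ∨ p (l * s) ∈ Ot v R)) ∨ ∀ᶠ y in 𝓝 (p (l * s)),
          (l = 0 → y = v ∨ y ∈ Bx v ρ) ∧ (l = m → y = w ∨ y ∈ Ot v R) := by
      by_cases e : l = 0
      · subst e
        rw [Nat.cast_zero, zero_mul, p0]
        rcases ha with rfl | ha
        · exact Or.inl ⟨hv, fun _ => Or.inl rfl, fun e => by omega⟩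
        · exact Or.inr (Filter.mem_of_superset ((ma.opn v ρ).1.mem_nhds ha) fun y hy =>
            ⟨fun _ => Or.inr hy, fun e => by omega⟩)
      by_cases e' : l = m
      · subst e'
        rw [sm, p1]
        rcases ht with rfl | ht
        · exact Or.inl ⟨hw, fun e' => absurd e' e, fun _ => Or.inl rfl⟩
        · exact Or.inr (Filter.mem_of_superset ((ma.opn v R).2.mem_nhds ht) fun y hy =>
            ⟨fun e' => absurd e' e, fun _ => Or.inr hy⟩)
      · exact Or.inr (Eventually.of_forall fun y => ⟨fun h => absurd h e, fun h => absurd h e'⟩)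
    rcases k with ⟨k1, k2⟩ | k
    · exact ⟨_, k1, n1.self_of_nhds.2, fun e => by omega, fun _ => n1.self_of_nhds.1, k2⟩
    · obtain ⟨y, y1, y2, y3⟩ :=
        ((mem_closure_iff_frequently.1 (hS (p (l * s)))).and_eventually (n1.and k)).exists
      exact ⟨y, y1, y2.2, fun e => by omega, fun _ => y2.1, y3⟩
  choose u u1 u2 u3 u4 u5 u6 using ex
  have ub : ∀ l ≤ m, u l ∈ Bx (p (l * s)) (δ / 4) := fun l hl => (ma.mem (u4 l hl)).2.1
  have st : ∀ l < m, ∀ r ∈ Set.Icc (l * s) ((l + 1 : ℕ) * s), p r ∈ Bx (p (l * s)) (δ / 2) :=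
    fun l hl r hr => by
      have t1 := tm l hl.le
      have t2 := tm (l + 1) hl
      refine bdist (hη r ⟨t1.1.trans hr.1, hr.2.trans t2.2⟩ _ t1 ?_)
      have := hr.2
      rw [Nat.cast_succ] at this
      rw [Real.dist_eq, abs_of_nonneg (by linarith [hr.1])]
      linarith
  have le1 : ∀ l : ℕ, l * s ≤ (l + 1 : ℕ) * s := fun l => by
    rw [Nat.cast_succ]
    linarith
  have nx : ∀ l < m, p ((l + 1 : ℕ) * s) ∈ Bx (u l) (3 * δ / 4) := fun l hl =>
    btri (bsymm (ub l hl.le)) (st l hl _ ⟨le1 l, le_rfl⟩) (by linarith)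
  refine ⟨m, u, ⟨m1, u1, u3, u5 0 rfl, u6 m rfl, u2, fun l hl =>
    btri (nx l hl) (ub (l + 1) hl) (by linarith)⟩, ?_⟩
  have key : ∀ l ∈ range m, wt d' δ u l * exp (g (u l)) ≤ exp o * (s + 3 * ε) := fun l hl => by
    have hl := mem_range.1 hl
    have c1 : Tc d (Bx (u l) (2 * δ)) (u l) (p (l * s)) ε := ma.mono (ma.symm (u4 l hl.le))
      (fun y hy => btri (bsymm (ub l hl.le)) hy (by linarith)) le_rfl
    have c2 : Tc d (Bx (u l) (2 * δ)) (p (l * s)) (p ((l + 1 : ℕ) * s)) (s + ε) :=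
      (mg1.up (M := 1) hp _ _ (tm l hl.le).1 (le1 l) (tm (l + 1) hl).2 fun r hr =>
        ⟨le_rfl, btri (bsymm (ub l hl.le)) (st l hl r hr) (by linarith)⟩).trans_lt
          ((ENNReal.ofReal_lt_ofReal_iff (by linarith)).2 (by rw [Nat.cast_succ]; linarith))
    have c3 : Tc d (Bx (u l) (2 * δ)) (p ((l + 1 : ℕ) * s)) (u (l + 1)) ε :=
      ma.mono (u4 (l + 1) hl) (fun y hy => btri (nx l hl) hy (by linarith)) le_rfl
    have c4 := hc _ _ _ _ (-g (u l) + o) (fun y hy => by linarith [hg _ (u2 l) y hy])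
      (ma.trans hd (ma.trans hd c1 c2) c3)
    have c5 : wt d' δ u l ≤ exp (-g (u l) + o) * (ε + (s + ε) + ε) :=
      ENNReal.toReal_le_of_le_ofReal (by positivity) c4.le
    calc _ ≤ exp (-g (u l) + o) * (ε + (s + ε) + ε) * exp (g (u l)) := by gcongr
      _ = exp (-g (u l) + o) * exp (g (u l)) * (s + 3 * ε) := by ring
      _ = _ := by rw [← exp_add]; congr 2; ring
  refine (sum_le_card_nsmul _ _ _ key).trans (le_of_eq ?_)
  rw [card_range, nsmul_eq_mul]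
  linear_combination exp o * sm + exp o * εm

end DsL

theorem ds (ma : MA) : DS where
  enum := DsL.enum
  low := DsL.low ma
  up := fun d d' g S v w ρ R δ o x hd _ => DsL.up ma d d' g S v w ρ R δ o x hd

end Pool.Agent.GC
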