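import Pool.Agent.Lib.MP_438f30_pr.C.St2
import Pool.Agent.Lib.MP_438f30_pr.C.Ds

/-! Approximation of crossings by a finite family of chains. -/

namespace Pool.Agent.GC

open MeasureTheory Real Finset Filter Topology Pool.Agent.Lib.MP_a0a493_pr Pool.Agent.GL
open Pool.Agent.GU (FK FK_le FK_mono pmono)

namespace ApxL

theorem small {Ω : Type} [MeasurableSpace Ω] {P : Measure Ω} [IsProbabilityMeasure P]
    {E : ℕ → Set Ω} (hm : ∀ n, NullMeasurableSet (E n) P) (ha : Antitone E)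
    (h : ∀ᵐ ω ∂P, ∃ n, ω ∉ E n) {ε : ℝ} (hε : 0 < ε) : ∃ n, P.real (E n) ≤ ε := by
  have t := tendsto_measure_iInter_atTop hm ha ⟨0, measure_ne_top _ _⟩
  have z : P (⋂ n, E n) = 0 := by
    rw [ae_iff] at h
    simpa only [not_exists, not_not, Set.ofPred_forall, Set.ofPred_mem_eq] using h
  rw [z] at t
  obtain ⟨n, hn⟩ := (t.eventually (gt_mem_nhds (ENNReal.ofReal_pos.2 hε))).exists
  exact ⟨n, ENNReal.toReal_le_of_le_ofReal hε.le hn.le⟩

theorem cmp0 (ma : MA) (d : Mt) {g : R2 → ℝ} (hg : ∀ y, g y = 0) : Cmp d d g := by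
  intro U u v x c hc h
  obtain ⟨hu, -, hx⟩ := ma.mem h
  have := one_le_exp (hg u ▸ hc u hu)
  exact ma.mono h subset_rfl (by nlinarith)

theorem lc_mono {d : Mt} {v w : R2} {ρ R x y : ℝ} (h : Lc d v ρ R w x) (e : x ≤ y) :
    Lc d v ρ R w y := by
  obtain ⟨u, u', a, b, c⟩ := h
  exact ⟨u, u', a, b, c.trans_le e⟩

/-- the oscillation event -/
def Os (g : R2 → ℝ) (v : R2) (R δ o : ℝ) : Prop :=
  ∃ y ∈ Bx v R, ∃ y' ∈ Bx y δ, o < |g y - g y'|

theorem os_iff (ma : MA) {g : R2 → ℝ} (hg : Continuous g) {S : Set R2} (hS : Dense S) (v : R2)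
    (R δ o : ℝ) : Os g v R δ o ↔
      ∃ y : S, ∃ y' : S, (y.1 ∈ Bx v R ∧ y'.1 ∈ Bx y δ) ∧ o < |g y - g y'| := by
  refine ⟨fun ⟨y, a, y', b, c⟩ => ?_, fun ⟨y, y', ⟨a, b⟩, c⟩ => ⟨y, a, y', b, c⟩⟩
  have o1 : IsOpen {p : R2 × R2 | (p.1 ∈ Bx v R ∧ p.2 ∈ Bx p.1 δ) ∧ o < |g p.1 - g p.2|} := by
    refine IsOpen.inter (IsOpen.inter ((ma.opn v R).1.preimage continuous_fst) ?_)
      (isOpen_lt continuous_const ((hg.comp continuous_fst).sub (hg.comp continuous_snd)).abs)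
    have : {p : R2 × R2 | p.2 ∈ Bx p.1 δ} = ⋂ i : Fin 2, {p | |p.2 i - p.1 i| < δ} := by
      ext p
      simp [Bx]
    show IsOpen {p : R2 × R2 | p.2 ∈ Bx p.1 δ}
    rw [this]
    exact isOpen_iInter_of_finite fun i => isOpen_lt (by fun_prop) continuous_const
  obtain ⟨p, hp, q⟩ := (hS.prod hS).exists_mem_open o1 ⟨(y, y'), ⟨a, b⟩, c⟩
  exact ⟨⟨p.1, hp.1⟩, ⟨p.2, hp.2⟩, q⟩

theorem dist_le {a y : R2} {r : ℝ} (h : y ∈ Bx a r) : dist y a ≤ 2 * r := by
  rw [EuclideanSpace.dist_eq, Fin.sum_univ_two, Real.dist_eq, Real.dist_eq]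
  have a0 := h 0
  have a1 := h 1
  have b0 := abs_nonneg (y 0 - a 0)
  have b1 := abs_nonneg (y 1 - a 1)
  exact sqrt_le_iff.2 ⟨by linarith, by nlinarith⟩

theorem os_not {g : R2 → ℝ} (hg : Continuous g) (v : R2) (R : ℝ) {o : ℝ} (ho : 0 < o) (N : ℕ) :
    ∃ n : ℕ, ¬ Os g v R (2 * (1 / 2 ^ (N + n))) o := by
  obtain ⟨δ, δ0, h⟩ := Metric.uniformContinuousOn_iff.1
    ((isCompact_closedBall v (2 * R + 4)).uniformContinuousOn_of_continuous hg.continuousOn) o ho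
  obtain ⟨n, hn⟩ := exists_pow_lt_of_lt_one (show 0 < δ / 4 by positivity)
    (show (1 / 2 : ℝ) < 1 by norm_num)
  refine ⟨n, fun ⟨y, a, y', b, c⟩ => ?_⟩
  have a' := dist_le a
  have b' := dist_le b
  have e : (1 : ℝ) / 2 ^ (N + n) ≤ (1 / 2) ^ n := by
    rw [one_div_pow]
    exact one_div_le_one_div_of_le (by positivity) (pow_le_pow_right₀ one_le_two (by omega))
  have e1 : ((1 : ℝ) / 2) ^ n ≤ 1 := pow_le_one₀ (by norm_num) (by norm_num)
  have := h y (by rw [Metric.mem_closedBall]; linarith) y'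
    (by rw [Metric.mem_closedBall]; linarith [dist_triangle y' y v])
    (by rw [dist_comm]; linarith)
  rw [Real.dist_eq] at this
  linarith

theorem chain {d : Mt} (hd : IsMet d) (u : ℕ → R2) (c : ℕ → ℝ) (m : ℕ)
    (h : ∀ l < m, d (u l) (u (l + 1)) ≤ c l) : d (u 0) (u m) ≤ ∑ l ∈ range m, c l := by
  induction m with
  | zero => simp [hd.self]
  | succ m ih =>
    rw [sum_range_succ]
    linarith [hd.tri (u 0) (u m) (u (m + 1)), ih fun l hl => h l (by omega), h m (by omega)]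

theorem best (ma : MA) (hp : sPos) {d d' : Mt} {g : R2 → ℝ} {S : Set R2} {v w : R2}
    {ρ R δ o : ℝ} (hd : IsMet d) (hd' : IsMet d') (hc : Cmp d d' fun y => -g y) (hS : Dense S)
    (hv : v ∈ S) (hw : w ∈ S) (h0 : 0 ≤ ρ) (h1 : ρ + 1 ≤ R) (hw' : w ∉ Bx v (ρ + 1)) (hδ : 0 < δ)
    (ho : 0 < o) (hg : ¬ Os g v (R + 1) (2 * δ) (o / 2)) :
    ∃ m u, Adm S v ρ R w δ m u ∧ ∀ y, Lc d v ρ R w y →
      cw m (wt d' δ u) (fun l => g (u l)) ≤ exp o * y := by
  obtain ⟨s, s0, hs⟩ := hp d v w ρ R hd h0 h1 hw'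
  have ne : {y | Lc d v ρ R w y}.Nonempty := ⟨d v w + 1, v, w, .inl rfl, .inl rfl, by linarith⟩
  have lb : ∀ y ∈ {y | Lc d v ρ R w y}, s ≤ y := fun y hy =>
    not_lt.1 fun e => hs (lc_mono hy e.le)
  have D0 : s ≤ sInf {y | Lc d v ρ R w y} := le_csInf ne lb
  have e1 : 1 < exp (o / 2) := one_lt_exp_iff.2 (by linarith)
  obtain ⟨y0, hy, lt⟩ := exists_lt_of_csInf_lt ne
    (show sInf {y | Lc d v ρ R w y} < exp (o / 2) * sInf {y | Lc d v ρ R w y} by nlinarith)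
  obtain ⟨m, u, a, b⟩ := (ds ma).up d d' g S v w ρ R δ (o / 2) y0 hd hd' hc hS hv hw h0
    (by linarith) hδ (fun y hy y' hy' => by
      have := not_lt.1 fun e => hg ⟨y, hy, y', hy', e⟩
      linarith [le_abs_self (g y - g y')]) hy
  refine ⟨m, u, a, fun y hy' => b.trans ?_⟩
  have := csInf_le ⟨s, lb⟩ hy'
  have e : exp o = exp (o / 2) * exp (o / 2) := by rw [← exp_add, add_halves]
  rw [e, mul_assoc]
  exact mul_le_mul_of_nonneg_left (by nlinarith) (exp_pos _).le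

end ApxL

open ApxL in
theorem apx (hp : sPos) : sApx := by
  intro Ω H _ _ _ P _ M η h v w ρ R o ε N h0 h1 hw ho hε
  have ma := h.ma
  obtain ⟨S0, c0, d0⟩ := TopologicalSpace.exists_countable_dense R2
  obtain ⟨S, cS, dS, hv, hw'⟩ : ∃ S : Set R2, S.Countable ∧ Dense S ∧ v ∈ S ∧ w ∈ S :=
    ⟨insert v (insert w S0), (c0.insert w).insert v,
      d0.mono ((Set.subset_insert _ _).trans (Set.subset_insert _ _)), by simp, by simp⟩
  have := cS.to_subtype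
  set g : Ω → R2 → ℝ := fun ω x => M.Y 0 ω x - M.Y (-N) ω x with hg
  have gc : ∀ ω, Continuous (g ω) := fun ω => (h.cont 0 ω).sub (h.cont _ ω)
  have gW : ∀ x, (fun ω => g ω x) =ᵐ[P] M.W (bn M N x) := fun x => by
    have := h.ba.sum (-N) N x
    rwa [neg_add_cancel, h.ba.neg] at this
  have gm : ∀ x, AEMeasurable (fun ω => g ω x) P := fun x =>
    (h.iso.meas _).aemeasurable.congr (gW x).symm
  have om0 : ∀ δ, NullMeasurableSet {ω | Os (g ω) v (R + 1) δ (o / 2)} P := fun δ => by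
    simp only [os_iff ma (gc _) dS, Set.ofPred_exists, Set.ofPred_and]
    exact .iUnion fun y => .iUnion fun y' => .inter
      ((MeasurableSet.const _).inter (MeasurableSet.const _)).nullMeasurableSet
      (nullMeasurableSet_lt aemeasurable_const (continuous_abs.measurable.comp_aemeasurable
        ((gm y).sub (gm y'))))
  obtain ⟨n, hn⟩ := small (P := P)
    (E := fun n => {ω | Os (g ω) v (R + 1) (2 * (1 / 2 ^ (N + n))) (o / 2)}) (fun n => om0 _)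
    (fun a b hab ω ⟨y, hy, y', hy', e⟩ => ⟨y, hy, y', fun i => (hy' i).trans_le (by
      gcongr
      · exact one_le_two), e⟩)
    (.of_forall fun ω => os_not (gc ω) v _ (half_pos ho) N) (half_pos hε)
  have δN : (1 : ℝ) / 2 ^ (N + n) ≤ 1 / 2 ^ N :=
    one_div_le_one_div_of_le (by positivity) (pow_le_pow_right₀ one_le_two (by omega))
  have δ0 : (0 : ℝ) < 1 / 2 ^ (N + n) := by positivity
  generalize (1 : ℝ) / 2 ^ (N + n) = δ at hn δN δ0
  obtain ⟨mm, uu, adm, sur⟩ := (ds ma).enum S v w ρ R δ cS (by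
    obtain ⟨ω, hω, -⟩ := h.ba.all.exists
    obtain ⟨m, u, a, -⟩ := best ma hp (g := fun _ => 0) (o := 1) (hω 0) (hω 0)
      (cmp0 ma _ fun _ => neg_zero) dS hv hw' h0 h1 hw δ0 one_pos
      (fun ⟨_, _, _, _, e⟩ => by norm_num at e)
    exact ⟨m, u, a⟩)
  choose G Gm Ge using fun γ l => h.loc (-N) (Bx (uu γ l) (2 * δ)) (ma.opn _ _).1 (uu γ l)
    (uu γ (l + 1))
  have wm : ∀ γ l, Measurable[FK M.W (M.K (-N) Set.univ)] fun ω => (G γ l ω).toReal := fun γ l =>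
    (ENNReal.measurable_toReal.comp (Gm γ l)).mono
      (FK_mono _ (h.mono _ _ _ (Set.subset_univ _))) le_rfl
  have good : ∀ᵐ ω ∂P, ((∀ k, IsMet (M.d k ω)) ∧
      ∀ j k, Cmp (M.d j ω) (M.d k ω) fun x => M.Y k ω x - M.Y j ω x) ∧
      (∀ γ l, (G γ l ω).toReal = wt (M.d (-N) ω) δ (uu γ) l) ∧
      ∀ γ l, M.W (bn M N (uu γ l)) ω = g ω (uu γ l) :=
    h.ba.all.and <| .and
      (ae_all_iff.2 fun γ => ae_all_iff.2 fun l => (Ge γ l).mono fun ω e => by rw [wt, e])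
      (ae_all_iff.2 fun γ => ae_all_iff.2 fun l => (gW _).symm)
  obtain ⟨J, hJ⟩ := small (P := P)
    (E := fun J => {ω | ∀ γ < J, ∃ y : ℚ, Lc (M.d 0 ω) v ρ R w y ∧ exp o * y <
      cw (mm γ) (fun l => (G γ l ω).toReal) fun l => M.W (bn M N (uu γ l)) ω} \
        {ω | Os (g ω) v (R + 1) (2 * δ) (o / 2)}) (fun J => by
      refine .diff ?_ (om0 _)
      simp only [Set.ofPred_forall, Set.ofPred_exists, Set.ofPred_and]
      refine .iInter fun γ => .iInter fun _ => .iUnion fun y =>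
        .inter (h.lc.nm 0 _ _ (h.la.lc v w ρ R y)) (measurableSet_lt measurable_const
          (Finset.measurable_sum _ fun l _ => ?_)).nullMeasurableSet
      exact ((wm γ l).mono (FK_le h.iso _) le_rfl).mul (h.iso.meas _).exp)
    (fun a b hab ω hω => ⟨fun γ hγ => hω.1 γ (hγ.trans_le hab), hω.2⟩)
    (good.mono fun ω ⟨⟨a, b⟩, c, e⟩ => by
      by_cases hO : Os (g ω) v (R + 1) (2 * δ) (o / 2)
      · exact ⟨0, fun k => k.2 hO⟩
      obtain ⟨m, u, a1, a2⟩ := best ma hp (g := g ω) (a 0) (a (-N))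
        (by simpa only [hg, neg_sub] using b 0 (-N)) dS hv hw' h0 h1 hw δ0 ho hO
      obtain ⟨γ, rfl, rfl⟩ := sur m u a1
      refine ⟨γ + 1, fun k => ?_⟩
      obtain ⟨y, y1, y2⟩ := k.1 γ (Nat.lt_succ_self γ)
      simp only [c, e] at y2
      exact y2.not_ge (a2 y y1)) (half_pos hε)
  have z := ae_iff.1 good
  refine ⟨J, mm, uu, fun ω γ l => (G γ l ω).toReal, (_ ∪ _) ∪ _,
    (measureReal_union_le _ _).trans ((add_le_add ((measureReal_union_le _ _).trans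
      (add_le_add hn hJ)) (show P.real _ ≤ 0 by rw [measureReal_def, z]; rfl)).trans_eq (by ring)),
    wm, fun γ => ?_, good.mono fun ω ⟨⟨a, _⟩, c, _⟩ γ => ⟨fun _ => ENNReal.toReal_nonneg, ?_⟩,
    fun ω hω => ?_⟩
  · obtain ⟨-, -, -, a, b, c, e⟩ := adm γ
    exact ⟨a, b, c, fun l hl i => (e l hl i).trans_le δN⟩
  · obtain ⟨-, -, -, a1, a2, -, e⟩ := adm γ
    obtain ⟨s, s0, hs⟩ := hp _ v w ρ R (a (-N)) h0 h1 hw
    refine s0.trans_le ((not_lt.1 fun k => hs ⟨_, _, a1, a2, k⟩).trans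
      (chain (a (-N)) _ _ _ fun l hl => ?_))
    simpa only [c, exp_zero, one_mul, mul_one] using (ds ma).low _ _ (fun _ => 0) (uu γ) l δ 0
      (a (-N)) (a (-N)) (cmp0 ma _ fun _ => rfl) (e l hl) fun _ _ => by simp
  · have hO := fun k => hω (.inl (.inl k))
    have hE := fun k => hω (.inl (.inr k))
    obtain ⟨⟨a, b⟩, c, e⟩ := not_not.1 fun k => hω (.inr k)
    refine ⟨a 0, fun γ => ⟨fun _ => ENNReal.toReal_nonneg, fun l hl => ?_⟩, ?_⟩
    · obtain ⟨-, -, -, -, -, a1, a2⟩ := adm γ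
      refine ((ds ma).low _ _ (g ω) (uu γ) l δ (o / 2) (a 0) (a (-N)) (b (-N) 0) (a2 l hl)
        fun y hy => ?_).trans ?_
      · have := not_lt.1 fun k => hO ⟨_, a1 l, y, hy, k⟩
        linarith [neg_abs_le (g ω (uu γ l) - g ω y)]
      · rw [← c, e]
        exact mul_le_mul_of_nonneg_right (exp_le_exp.2 (by linarith))
          (mul_nonneg ENNReal.toReal_nonneg (exp_pos _).le)
    · by_contra k
      refine hE ⟨fun γ hγ => ?_, hO⟩
      obtain ⟨y, hy⟩ := not_forall.1 fun q => k ⟨γ, hγ, q⟩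
      obtain ⟨y1, y2⟩ := Classical.not_imp.1 hy
      obtain ⟨q, q1, q2⟩ := exists_rat_btwn ((lt_div_iff₀' (exp_pos o)).2 (not_le.1 y2))
      exact ⟨q, lc_mono y1 q1.le, (lt_div_iff₀' (exp_pos o)).1 q2⟩

end Pool.Agent.GC
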