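import Pool.Agent.Lib.MP_438f30_pr.C.St

/-! Union bounds over grids of all scales. -/

namespace Pool.Agent.GC

open MeasureTheory Real Finset Filter Topology Pool.Agent.Lib.MP_a0a493_pr Pool.Agent.GL
open Pool.Agent.GU (Z2 pmono prob_fin bx mem_bx card_bx)

namespace PaL

theorem grid {Ω : Type} [MeasurableSpace Ω] (P : Measure Ω) [IsProbabilityMeasure P] (j : ℤ) (e : ℕ)
    (v : R2) (E : Z2 → Ω → Prop) {ε : ℝ} (h : ∀ q, P.real {ω | E q ω} ≤ ε) :
    P.real {ω | ∃ q, gp j q ∈ Bx v (2 ^ e * 2 ^ j) ∧ E q ω} ≤ 25 * 4 ^ e * ε := by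
  have e0 : 0 ≤ ε := measureReal_nonneg.trans (h 0)
  refine (pmono ?_).trans ((prob_fin P (bx (fz j v) (2 ^ e + 1)) E fun q _ => h q).trans
    (mul_le_mul_of_nonneg_right ?_ e0))
  · rintro ω ⟨q, hq, hω⟩
    refine ⟨q, mem_bx.2 fun i => ?_, hω⟩
    have c : (0 : ℝ) < 2 ^ j := by positivity
    have a := abs_lt.1 (hq i)
    have b1 := Int.floor_le (v i / 2 ^ j)
    have b2 := Int.lt_floor_add_one (v i / 2 ^ j)
    rw [le_div_iff₀ c] at b1
    rw [div_lt_iff₀ c] at b2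
    simp only [gp, PiLp.smul_apply, pt_apply, smul_eq_mul] at a
    have k : |((fz j v i - q i : ℤ) : ℝ)| ≤ ((2 ^ e + 1 : ℕ) : ℤ) := by
      simp only [fz]
      push_cast
      rw [abs_le]
      constructor
      · refine le_of_mul_le_mul_right ?_ c
        nlinarith [a.1, a.2]
      · refine le_of_mul_le_mul_right ?_ c
        nlinarith [a.1, a.2]
    exact_mod_cast k
  · have a : (1 : ℝ) ≤ 2 ^ e := one_le_pow₀ one_le_two
    have b : (4 : ℝ) ^ e = 2 ^ e * 2 ^ e := by rw [← mul_pow]; norm_num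
    rw [card_bx]
    push_cast
    nlinarith

theorem geo {Ω : Type} [MeasurableSpace Ω] (P : Measure Ω) [IsProbabilityMeasure P]
    (s : ℕ → Set Ω) {c r : ℝ} (c0 : 0 ≤ c) (r0 : 0 ≤ r) (r1 : r < 1)
    (h : ∀ n, P.real (s n) ≤ c * r ^ n) : P.real (⋃ n, s n) ≤ c * (1 - r)⁻¹ := by
  have sm := (summable_geometric_of_lt_one r0 r1).mul_left c
  refine ENNReal.toReal_le_of_le_ofReal (mul_nonneg c0 (inv_nonneg.2 (by linarith))) ?_
  refine (measure_iUnion_le s).trans ?_
  rw [← tsum_geometric_of_lt_one r0 r1, ← tsum_mul_left,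
    ENNReal.ofReal_tsum_of_nonneg (fun n => by positivity) sm]
  exact ENNReal.tsum_le_tsum fun n =>
    (ENNReal.le_ofReal_iff_toReal_le (measure_ne_top _ _) (by positivity)).2 (h n)

end PaL

theorem pa (_ma : MA) : PA := by
  refine ⟨fun P _ j e v E _ h => PaL.grid P j e v E h, ?_⟩
  intro Ω _ P _ d lm i e μ k η v D hη h hD
  have s : {ω | ¬ NIc lm (d ω) μ k i D} ⊆ ⋃ n : ℕ, {ω | ∃ q, gp (k - n) q ∈
      Bx v (2 ^ (e + n) * 2 ^ (k - n)) ∧ (i ≤ n ∧ ¬ Nc lm (d ω) μ k n (gp (k - n) q))} := by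
    intro ω hω
    simp only [NIc, Set.mem_ofPred_eq, not_forall] at hω
    obtain ⟨n, hn, q, hq, hω⟩ := hω
    refine Set.mem_iUnion.2 ⟨n, q, ?_, hn, hω⟩
    have : (2 : ℝ) ^ (e + n) * 2 ^ (k - n) = 2 ^ e * 2 ^ k := by
      rw [zpow_sub₀ two_ne_zero, zpow_natCast, pow_add]
      field_simp
    rw [this]
    exact hD hq
  have r1 : 4 * exp (-2) ≤ 0.55 := by
    have h2 : exp (2 : ℝ) = exp 1 * exp 1 := by rw [← exp_add]; norm_num
    rw [exp_neg, ← div_eq_mul_inv, div_le_iff₀ (exp_pos _), h2]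
    nlinarith [exp_one_gt_d9]
  refine (pmono s).trans ((PaL.geo P _ (c := 25 * 4 ^ e * exp (-η - (η - 2) * i)) (r := 0.55)
    (by positivity) (by norm_num) (by norm_num) fun n => ?_).trans ?_)
  · refine (PaL.grid P (k - n) (e + n) v _ (ε := exp (-η - (η - 2) * i) * exp (-2) ^ n)
      fun q => ?_).trans ?_
    · by_cases hn : i ≤ n
      · refine (pmono fun ω hω => hω.2).trans ((h n _).trans ?_)
        have a1 : (i : ℝ) ≤ n := Nat.cast_le.2 hn
        rw [← exp_nat_mul, ← exp_add]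
        exact exp_le_exp.2 (by nlinarith)
      · simp only [hn, false_and, Set.ofPred_false, measureReal_empty]
        positivity
    · have a3 := pow_le_pow_left₀ (by positivity) r1 n
      rw [mul_pow] at a3
      rw [pow_add]
      calc _ = 25 * 4 ^ e * exp (-η - (η - 2) * i) * (4 ^ n * exp (-2) ^ n) := by ring
        _ ≤ _ := by gcongr
  · have p : 0 < 4 ^ e * exp (-η - (η - 2) * i) := by positivity
    norm_num
    nlinarith

end Pool.Agent.GC
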