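import Pool.Agent.Lib.MP_438f30_pr.C.St2
import Pool.Agent.Lib.MP_438f30_pr.C.Pa
import Pool.Agent.Lib.MP_438f30_pr.C.Ds

/-! A first upper tail. -/

namespace Pool.Agent.GC

open MeasureTheory Real Finset Filter Topology Pool.Agent.Lib.MP_a0a493_pr Pool.Agent.GL
open Pool.Agent.GU (pmono prob_fin)

namespace AuL

theorem one (ma : MA) {d d' : Mt} {g : R2 → ℝ} {z u u' : R2} {q C κ r s : ℝ} {n : ℕ}
    (hc : Cmp d' d g) (hq : log (9 / 5) ≤ q) (hC : 1 ≤ C) (r1 : 1 / 2 ^ n ≤ r) (r2 : 36 * r ≤ 1)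
    (hz : z ∈ Bx 0 7) (hg : ∀ y ∈ Bx 0 8, g y ≤ n / 100 + κ)
    (h : Gd d' z r s (C * exp (q * -n))) (hu : dist u z = 28 * r) (hu' : dist u' z = 28 * r) :
    Tc d (Bx 0 8) u u' (2 * C * exp κ * √(28 * r)) := by
  have r0 : 0 < r := lt_of_lt_of_le (by positivity) r1
  have sub : An z (20 * r) (36 * r) ⊆ Bx 0 8 := fun y hy =>
    DsL.btri hz (DsL.bdist (hy.2.trans_le r2)) (by norm_num)
  have S0 : 0 < C * exp (q * -n) := by positivity
  have t1 : Tc d' (An z (20 * r) (36 * r)) u u' (2 * (C * exp (q * -n))) :=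
    (h.2 u ⟨by linarith, by linarith⟩ u' ⟨by linarith, by linarith⟩).trans_lt
      ((ENNReal.ofReal_lt_ofReal_iff (by linarith)).2 (by linarith))
  refine ma.mono (hc _ _ _ _ (n / 100 + κ) (fun y hy => hg y (sub hy)) t1) sub ?_
  have k : exp (n / 100 + q * -n) ≤ √(28 * r) := by
    refine le_sqrt_of_sq_le ?_
    have l1 := one_sub_inv_le_log_of_pos (show (0 : ℝ) < 9 / 5 by norm_num)
    have l2 := log_two_lt_d9
    have n0 : (0 : ℝ) ≤ n := Nat.cast_nonneg _
    have e : exp (-(n * log 2)) = 1 / 2 ^ n := by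
      rw [exp_neg, exp_nat_mul, exp_log two_pos, one_div]
    rw [sq, ← exp_add]
    refine (exp_le_exp.2 ?_).trans (e.le.trans (by linarith))
    norm_num at l1 l2
    nlinarith
  calc _ = 2 * C * exp κ * exp (n / 100 + q * -n) := by rw [exp_add, exp_add]; ring
    _ ≤ _ := by gcongr

theorem seg (e : Fin 2) {x : ℝ} (h : |x| ≤ 1) : x • ax e ∈ Bx 0 7 := fun i => by
  have : |ax e i| ≤ 1 := by
    simp only [ax, pt_apply, Pi.single_apply]
    split_ifs <;> simp
  rw [PiLp.smul_apply, smul_eq_mul, PiLp.zero_apply, sub_zero, abs_mul]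
  nlinarith [abs_nonneg x, abs_nonneg (ax e i)]

/-- the centres -/
noncomputable def xx (L : ℕ) (p : ℕ × Bool) : ℝ := if p.2 then p.1 / 2 ^ L else 1 - p.1 / 2 ^ L

theorem four {η : ℝ} (h : 100 ≤ η) : 256 ≤ exp η := by
  have := quadratic_le_exp_of_nonneg (show 0 ≤ η by linarith)
  nlinarith

theorem pa1 {η : ℝ} (h : 100 ≤ η) (c K m : ℕ) :
    (2 ^ (c + 2 * (K + m / 8)) * 2 : ℝ) * exp (-(100 * η)) ^ (K + m / 8) ≤
      256 * 2 ^ c * exp (-(99 * η * K)) * (1 / 2) ^ m := by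
  have f := four h
  have a1 : 4 * exp (-(100 * η)) ≤ exp (-(99 * η)) := by
    rw [show -(99 * η) = η + -(100 * η) by ring, exp_add]
    exact mul_le_mul_of_nonneg_right (by linarith) (exp_pos _).le
  have a2 : exp (-(99 * η)) ≤ (1 / 2) ^ 8 := by
    refine (exp_le_exp.2 (show _ ≤ -η by linarith)).trans ?_
    rw [exp_neg, inv_le_comm₀ (exp_pos _) (by norm_num)]
    linarith
  have a3 : exp (-(99 * η)) ^ (m / 8) ≤ 128 * (1 / 2) ^ m := by
    refine (pow_le_pow_left₀ (exp_pos _).le a2 _).trans ?_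
    have := pow_le_pow_of_le_one (show (0 : ℝ) ≤ 1 / 2 by norm_num) (by norm_num)
      (show m ≤ 8 * (m / 8) + 7 by omega)
    rw [← pow_mul]
    rw [pow_add] at this
    linarith
  calc _ = 2 * 2 ^ c * (4 * exp (-(100 * η))) ^ (K + m / 8) := by
        rw [pow_add 2 c, pow_mul, mul_pow]
        norm_num
        ring
    _ ≤ 2 * 2 ^ c * exp (-(99 * η)) ^ (K + m / 8) := by gcongr
    _ = 2 * 2 ^ c * exp (-(99 * η * K)) * exp (-(99 * η)) ^ (m / 8) := by
        rw [pow_add, ← exp_nat_mul _ K, mul_assoc (2 * 2 ^ c)]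
        congr 3
        ring
    _ ≤ 2 * 2 ^ c * exp (-(99 * η * K)) * (128 * (1 / 2) ^ m) := by gcongr
    _ = _ := by ring

theorem pa2 {η : ℝ} (h : 100 ≤ η) (K n : ℕ) :
    300 * 4 ^ (n + 3) * exp (-(10 ^ 5 * η * (n / 100 + K / 50))) ≤
      19200 * exp (-(99 * η * K)) * (1 / 2) ^ n := by
  have f := four h
  have a1 : 4 * exp (-η) ≤ 1 / 2 := by
    rw [exp_neg, ← div_eq_mul_inv, div_le_iff₀ (exp_pos _)]
    linarith
  have n0 : (0 : ℝ) ≤ η * n := by positivity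
  have K0 : (0 : ℝ) ≤ η * K := by positivity
  calc _ ≤ 300 * 4 ^ (n + 3) * exp (-(99 * η * K) + n * -η) := by
        gcongr
        linarith
    _ = 19200 * exp (-(99 * η * K)) * (4 * exp (-η)) ^ n := by
        rw [exp_add, exp_nat_mul, mul_pow]
        ring
    _ ≤ _ := by gcongr

end AuL

open AuL in
theorem au (h : sAD) : sAU := by
  intro Ω H _ _ _ P _ M η hS hM hq
  obtain ⟨C, hC, hM⟩ := hM (exp (-(100 * η))) (exp_pos _)
  have hη := hS.eta
  have c0 : (1 : ℝ) ≤ M.C0 := Nat.one_le_cast.2 hS.bz.one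
  obtain ⟨c, c1, c2⟩ : ∃ c : ℕ, 288 * (M.C0 : ℝ) ≤ 2 ^ c ∧ 2 ≤ c :=
    ⟨288 * M.C0, by exact_mod_cast (Nat.lt_two_pow_self (n := 288 * M.C0)).le, by
      have := hS.bz.one
      omega⟩
  have key : ∀ (e : Fin 2) (K : ℕ), 3 ≤ K → P.real {ω | ¬ Tc (M.d 0 ω) (Bx 0 8) 0 (ax e)
      (32 * 2 ^ c * 4 ^ K * (2 * C * exp (K / 50)) + 2)} ≤
        (256 * 2 ^ c + 19200) * exp (-(99 * η * K)) * (1 - 1 / 2)⁻¹ := fun e K hK => by
    have K3 : (3 : ℝ) ≤ K := by exact_mod_cast hK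
    let G : ℤ → R2 → Ω → Prop := fun j z ω =>
      Gd (M.d j ω) z (M.C0 * 2 ^ j) (exp (M.q * j) / C) (C * exp (M.q * j))
    refine le_trans ?_ (PaL.geo P (fun n => {ω | ∃ p ∈ range (2 ^ (c + 2 * (K + n / 8))) ×ˢ univ,
      ∀ i < K + n / 8, ¬ G (-(n + c : ℕ) - 2 * (i : ℕ)) (xx (n + c + 2 * (K + n / 8)) p • ax e) ω} ∪
      {ω | ∃ y ∈ Bx 0 (2 ^ (n + 3) * 2 ^ (-n : ℤ)),
        n / 100 + K / 50 < |M.Y (-n + n) ω y - M.Y (-n) ω y|}) (by positivity) (by norm_num)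
      (by norm_num) fun n => ?_)
    · refine ENNReal.toReal_mono (measure_ne_top _ _) (measure_mono_ae ?_)
      filter_upwards [hS.ba.all] with ω hω hb
      by_contra hn
      refine hb (h _ e c K _ (hω.1 0) (by positivity) c2 fun m k _ hk x hx => ?_)
      have hn : ∀ n, ¬ (_ ∨ _) := fun n e => hn (Set.mem_iUnion.2 ⟨n, e⟩)
      have k1 : k < 2 ^ (c + 2 * (K + m / 8)) := by
        have := Nat.two_pow_pos (c + 2 * (K + m / 8))
        omega
      have k2 : (k : ℝ) / 2 ^ (m + c + 2 * (K + m / 8)) ≤ 1 := by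
        rw [div_le_one (by positivity)]
        exact_mod_cast k1.le.trans (Nat.pow_le_pow_right two_pos (by omega))
      have k3 : (0 : ℝ) ≤ k / 2 ^ (m + c + 2 * (K + m / 8)) := by positivity
      obtain ⟨b, hb⟩ : ∃ b, xx (m + c + 2 * (K + m / 8)) (k, b) = x := by
        rcases hx with rfl | rfl
        exacts [⟨true, rfl⟩, ⟨false, rfl⟩]
      have x1 : |x| ≤ 1 := by
        rw [abs_le]
        rcases hx with rfl | rfl <;> constructor <;> linarith
      obtain ⟨i, hi, hG⟩ : ∃ i < K + m / 8, G (-(m + c : ℕ) - 2 * (i : ℕ)) (x • ax e) ω := by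
        by_contra! a
        exact hn m (Or.inl ⟨(k, b), mem_product.2 ⟨mem_range.2 k1, mem_univ _⟩, hb ▸ a⟩)
      rw [show -((m + c : ℕ) : ℤ) - 2 * (i : ℕ) = -(m + c + 2 * i : ℕ) by push_cast; ring] at hG
      obtain ⟨n, en⟩ : ∃ n, n = m + c + 2 * i := ⟨_, rfl⟩
      rw [← en] at hG
      simp only [G, zpow_neg, zpow_natCast, Int.cast_neg, Int.cast_natCast] at hG
      have p0 : (0 : ℝ) < 2 ^ n := by positivity
      have r1 : (1 : ℝ) / 2 ^ n ≤ M.C0 * (2 ^ n)⁻¹ := by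
        rw [← div_eq_mul_inv]
        gcongr
      have r2 : (M.C0 : ℝ) * (2 ^ n)⁻¹ ≤ 1 / (288 * 2 ^ m) := by
        rw [← div_eq_mul_inv, div_le_div_iff₀ p0 (by positivity), one_mul]
        calc _ = 2 ^ m * (288 * (M.C0 : ℝ)) := by ring
          _ ≤ 2 ^ m * 2 ^ c := by gcongr
          _ ≤ _ := by
            rw [← pow_add]
            exact pow_le_pow_right₀ one_le_two (by omega)
      have r3 : (1 : ℝ) / (288 * 2 ^ m) = 1 / 36 * (1 / (8 * 2 ^ m)) := by
        field_simp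
        norm_num
      have r4 : (1 : ℝ) / (8 * 2 ^ m) ≤ 1 := by
        rw [div_le_one (by positivity)]
        linarith [one_le_pow₀ (M₀ := ℝ) one_le_two (n := m)]
      have r5 : (0 : ℝ) < 1 / 2 ^ n := by positivity
      have r6 : (1 : ℝ) / 2 ^ (m + c + 2 * (K + m / 8)) ≤ 1 / 2 ^ n :=
        one_div_le_one_div_of_le p0 (pow_le_pow_right₀ one_le_two (by omega))
      refine ⟨28 * (M.C0 * (2 ^ n)⁻¹), by linarith, by linarith, fun u u' hu hu' =>
        one hS.ma (hω.2 (-n) 0) hq hC r1 (by linarith) (seg e x1) (fun y hy => ?_) hG hu hu'⟩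
      by_contra! a
      refine hn n (Or.inr ⟨y, ?_, ?_⟩)
      · rwa [zpow_neg, zpow_natCast, pow_add, mul_comm, inv_mul_cancel_left₀ p0.ne',
          show (2 : ℝ) ^ 3 = 8 by norm_num]
      · rw [neg_add_cancel]
        exact a.trans_le (le_abs_self _)
    · have n0 : (0 : ℝ) ≤ n := Nat.cast_nonneg _
      refine (measureReal_union_le _ _).trans ((add_le_add
        (prob_fin P _ _ fun p _ => hM _ _ _) (hS.sp _ _ _ _ _ (by linarith) (by linarith))).trans ?_)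
      rw [card_product, card_range, card_univ, Fintype.card_bool]
      push_cast
      linarith [pa1 hη c K n, pa2 hη K n]
  obtain ⟨B, hB⟩ : ∃ B : ℝ, B = 64 * 2 ^ c * C + 2 := ⟨_, rfl⟩
  have B0 : 2 ≤ B := by
    have : (0 : ℝ) ≤ 64 * 2 ^ c * C := by positivity
    linarith
  refine ⟨exp (40 * η * (4 * B)) + (256 * 2 ^ c + 19200) * exp (99 * η) * 2, fun e t => ?_⟩
  have q0 : (0 : ℝ) ≤ (256 * 2 ^ c + 19200) * exp (99 * η) * 2 := by positivity
  rcases le_or_gt t (4 * B) with ht | ht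
  · refine measureReal_le_one.trans (le_trans ?_
      (mul_le_mul_of_nonneg_right (le_add_of_nonneg_right q0) (exp_pos _).le))
    rw [← exp_add]
    exact one_le_exp (by nlinarith)
  have f1 := Nat.floor_le (show 0 ≤ t / 2 by linarith)
  have f2 := Nat.lt_floor_add_one (t / 2)
  have f3 : 3 ≤ ⌊t / 2⌋₊ := Nat.le_floor (by push_cast; linarith)
  generalize ⌊t / 2⌋₊ = K at f1 f2 f3
  have K0 : (0 : ℝ) ≤ K := Nat.cast_nonneg _
  refine le_trans (le_trans (pmono fun ω (hω : ¬ _) a => hω (hS.ma.mono a subset_rfl ?_))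
    (key e K f3)) ?_
  · have a1 : (4 : ℝ) ^ K * exp (K / 50) ≤ exp (3 * t / 4) := by
      have l2 := log_two_lt_d9
      have e4 : exp (2 * log 2) = 4 := by
        rw [two_mul, exp_add, exp_log two_pos]
        norm_num
      calc _ = exp (K * (2 * log 2) + K / 50) := by rw [exp_add, exp_nat_mul, e4]
        _ ≤ _ := exp_le_exp.2 (by norm_num at l2; nlinarith)
    have a2 : 1 ≤ exp (3 * t / 4) := one_le_exp (by linarith)
    have a3 : B ≤ exp (t / 4) := by linarith [add_one_le_exp (t / 4)]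
    calc _ = 64 * 2 ^ c * C * (4 ^ K * exp (K / 50)) + 2 * 1 := by ring
      _ ≤ 64 * 2 ^ c * C * exp (3 * t / 4) + 2 * exp (3 * t / 4) := by gcongr
      _ = B * exp (3 * t / 4) := by rw [hB]; ring
      _ ≤ exp (t / 4) * exp (3 * t / 4) := by gcongr
      _ = _ := by rw [← exp_add]; congr 1; ring
  · refine le_trans ?_ (mul_le_mul_of_nonneg_right (le_add_of_nonneg_left (exp_pos _).le)
      (exp_pos _).le)
    calc _ ≤ (256 * 2 ^ c + 19200) * exp (99 * η + -(40 * η * t)) * (1 - 1 / 2)⁻¹ := by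
          gcongr
          nlinarith
      _ = _ := by rw [exp_add]; ring

end Pool.Agent.GC
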