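import Pool.Agent.Lib.MP_438f30_pr.C.St2
import Pool.Agent.Lib.MP_438f30_pr.U.Mp
import Pool.Agent.Lib.MP_438f30_pr.U.Osc
import Pool.Agent.Lib.MP_438f30_pr.U.Rt
import Pool.Agent.Lib.MP_438f30_pr.U.Ml

/-! Sums of bands. -/

namespace Pool.Agent.GC

open MeasureTheory Real Finset Filter Topology Pool.Agent.Lib.MP_a0a493_pr Pool.Agent.GL
open Pool.Agent.GU (Z2 FK Su X)
open scoped InnerProductSpace

namespace BaL

variable {Ω H : Type} [MeasurableSpace Ω] [NormedAddCommGroup H] [InnerProductSpace ℝ H]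
  {P : Measure Ω} {M : Dat Ω H}

theorem sum (h : Mo P M) (j : ℤ) (n : ℕ) (x : R2) :
    (fun ω => M.Y (j + n) ω x - M.Y j ω x) =ᵐ[P] M.W (bs M j n x) := by
  induction n with
  | zero => exact Eventually.of_forall fun ω => by simp [bs]
  | succ n ih =>
    filter_upwards [ih, h.ver (j + n) x] with ω e1 e2
    have e : bs M j (n + 1) x = bs M j n x + M.ξ • M.a (j + n + 1) x := by
      rw [bs, bs, sum_range_succ, smul_add, show j + 1 + (n : ℤ) = j + n + 1 by ring]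
    rw [e, map_add, Pi.add_apply, ← e1, ← e2, Nat.cast_succ, ← add_assoc]
    ring

theorem geo (j : ℤ) (n : ℕ) :
    ∑ i ∈ range n, (1 : ℝ) / 2 ^ (j + 1 + i) = 1 / 2 ^ j - 1 / 2 ^ (j + n) := by
  induction n with
  | zero => simp
  | succ n ih =>
    rw [sum_range_succ, ih, show j + 1 + (n : ℤ) = j + n + 1 by ring, Nat.cast_succ, ← add_assoc,
      zpow_add_one₀ two_ne_zero]
    have : (0 : ℝ) < 2 ^ (j + n) := by positivity
    field_simp
    ring

omit [MeasurableSpace Ω] in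
theorem lip (hb : BZ M.a M.C0) (hξ : 0 < M.ξ) (j : ℤ) (n : ℕ) (x y : R2) :
    ‖bs M j n x - bs M j n y‖ ≤ M.ξ * M.C0 / 2 ^ j * ‖x - y‖ := by
  rw [bs, bs, ← smul_sub, ← sum_sub_distrib, norm_smul, Real.norm_eq_abs, abs_of_pos hξ]
  have k : ‖∑ i ∈ range n, (M.a (j + 1 + i) x - M.a (j + 1 + i) y)‖ ≤
      M.C0 * ‖x - y‖ * (1 / 2 ^ j) := by
    refine (norm_sum_le _ _).trans ((sum_le_sum (g := fun i : ℕ =>
      M.C0 * ‖x - y‖ * ((1 : ℝ) / 2 ^ (j + 1 + i))) fun i _ => (hb.lip _ _ _).trans_eq ?_).trans ?_)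
    · rw [mul_one_div]
    · rw [← mul_sum, geo]
      exact mul_le_mul_of_nonneg_left (sub_le_self _ (by positivity)) (by positivity)
  refine (mul_le_mul_of_nonneg_left k hξ.le).trans_eq ?_
  ring

omit [MeasurableSpace Ω] in
theorem neg (N : ℕ) : bs M (-N) N = bn M N := by
  funext x
  rw [bs, bn, ← sum_range_reflect]
  refine congrArg _ (sum_congr rfl fun i hi => ?_)
  have := mem_range.1 hi
  congr 1
  omega

omit [MeasurableSpace Ω] in
theorem nrm (hb : BZ M.a M.C0) (N : ℕ) (x : R2) : ‖bn M N x‖ ^ 2 ≤ M.ξ ^ 2 * M.C0 ^ 2 * N := by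
  rw [bn, norm_smul, mul_pow, Real.norm_eq_abs, sq_abs,
    orth_sum _ fun i i' h => hb.orth _ _ (by omega) _ _, mul_assoc]
  refine mul_le_mul_of_nonneg_left ?_ (sq_nonneg _)
  have := sum_le_card_nsmul (range N) (fun i => ‖M.a (-(i : ℕ)) x‖ ^ 2) ((M.C0 : ℝ) ^ 2)
    fun i _ => pow_le_pow_left₀ (norm_nonneg _) (hb.nrm _ _) 2
  rwa [card_range, nsmul_eq_mul, mul_comm] at this

theorem nr (j : ℤ) (z x y : R2) :
    ‖((2 : ℝ) ^ j • x + z) - ((2 : ℝ) ^ j • y + z)‖ = 2 ^ j * ‖x - y‖ := by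
  rw [add_sub_add_right_eq_sub, ← smul_sub, norm_smul, Real.norm_eq_abs,
    abs_of_pos (by positivity)]

omit [MeasurableSpace Ω] in
theorem bf (hb : BZ M.a M.C0) (j : ℤ) (z : R2) : GU.BF (sa M j z) M.C0 where
  one := hb.one
  orth := fun b b' h x y => hb.orth _ _ (by omega) _ _
  far := fun b x y h => hb.far _ _ _ (by
    rw [nr, zpow_add₀ two_ne_zero, zpow_natCast, mul_left_comm]
    exact mul_le_mul_of_nonneg_left h (by positivity))
  nrm := fun b x => hb.nrm _ _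
  lip := fun b _ x y => (hb.lip _ _ _).trans_eq (by
    rw [nr, zpow_add₀ two_ne_zero, zpow_natCast]
    have : (0 : ℝ) < 2 ^ j := by positivity
    field_simp)
  rot := fun b x y x' y' h => hb.rot _ _ _ _ _ (by rw [nr, nr, h])

omit [MeasurableSpace Ω] in
theorem xs (j : ℤ) (z : R2) (k : ℕ) (ω : Ω) (v : Z2) :
    X M.W (sa M j z) M.ξ k ω v = M.W (bs M j k ((2 : ℝ) ^ j • pt v + z)) ω +
      M.W (M.ξ • M.a j ((2 : ℝ) ^ j • pt v + z)) ω := by
  have e : GU.A (sa M j z) k (pt v) = ∑ i ∈ range k, M.a (j + 1 + i) ((2 : ℝ) ^ j • pt v + z) +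
      M.a j ((2 : ℝ) ^ j • pt v + z) := by
    rw [GU.A, sum_range_succ']
    congr 1
    · exact sum_congr rfl fun i _ => by
        rw [sa, Nat.cast_succ, show j + ((i : ℤ) + 1) = j + 1 + i by ring]
    · rw [sa, Nat.cast_zero, add_zero]
  rw [X, e, smul_add, map_add, Pi.add_apply, bs]

end BaL

theorem ba : sBA := by
  intro Ω H _ _ _ P _ M η h
  refine ⟨?_, BaL.sum h.toMo, BaL.lip h.bz h.xi, BaL.neg, BaL.nrm h.bz, fun j z =>
    ⟨h.iso, BaL.bf h.bz j z, h.xi, h.eta, h.small, GU.mp, GU.osc, GU.rt, GU.ml⟩, fun j z => ?_⟩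
  · filter_upwards [ae_all_iff.2 h.met, ae_all_iff.2 fun j => ae_all_iff.2 (h.wy j)] with ω a b
    exact ⟨a, fun j k => h.ma.cmp (b j k)⟩
  · have k : ∀ᵐ ω ∂P, ∀ (k : ℕ) (v : Z2), M.Y (j + k) ω ((2 : ℝ) ^ j • pt v + z) -
        M.Y j ω ((2 : ℝ) ^ j • pt v + z) = M.W (bs M j k ((2 : ℝ) ^ j • pt v + z)) ω :=
      ae_all_iff.2 fun k => ae_all_iff.2 fun v => BaL.sum h.toMo j k _
    filter_upwards [k] with ω a k c v
    rw [BaL.xs, BaL.xs, ← a, ← a]
    ring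

end Pool.Agent.GC
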