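import Pool.Agent.Lib.MP_438f30_pr.C.St2

/-! From one scale to all scales. -/

namespace Pool.Agent.GC

open MeasureTheory Real Finset Filter Topology Pool.Agent.Lib.MP_a0a493_pr Pool.Agent.GL

namespace BcL

theorem bx_smul {c : ℝ} (hc : 0 < c) (x v : R2) (r : ℝ) :
    c • x ∈ Bx (c • v) (c * r) ↔ x ∈ Bx v r := by
  simp only [Bx, Set.mem_ofPred_eq, PiLp.smul_apply, smul_eq_mul, ← mul_sub, abs_mul, abs_of_pos hc,
    mul_lt_mul_iff_right₀ hc]

theorem scale {S : Set R2} {d : Mt} {a c K h R r b : ℝ} (ha : 0 < a) (hc : 0 < c)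
    (H : Ev' Set.univ d K (c * h) (c * R) (c * r) b) :
    Ev' S (fun u v => a * d (c • u + 0) (c • v + 0)) K h R r b := by
  intro T y _ hq hs hR hr
  refine H T (fun s => c • y s) (fun _ _ => trivial) (fun i k hi hk => ?_) (fun i hi => ?_)
    (fun s h1 => ?_) (fun s h1 s' h2 => (bx_smul hc _ _ _).2 (hr s h1 s' h2))
  · have := hq i k hi hk
    simp only [add_zero, ← mul_sum] at this
    exact le_of_mul_le_mul_left (this.trans_eq (by ring)) ha
  · have e : ∀ x : ℝ, x * (c * h) = c * (x * h) := fun x => by ring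
    simp only [e, bx_smul hc]
    exact hs i hi
  · have := (bx_smul hc _ _ _).2 (hR s h1)
    rwa [smul_zero] at this

end BcL

theorem bc (h : sEvM) : sBC := by
  intro Ω H _ _ _ P _ M β S hM hS h1
  obtain ⟨j, hj⟩ := h1
  refine ae_all_iff.2 fun L => ?_
  obtain ⟨A, hA⟩ := hj L
  obtain ⟨N, hN⟩ := eventually_atTop.1 hA
  have hb : ∀ n : ℕ, P {ω | N ≤ n ∧
      ¬ Ev' S (M.d 0 ω) 10 (1 / 2 ^ n) L (1 / 2 ^ j) (2 ^ (β * n))} ≤
      ENNReal.ofReal (|A| * (1 / 2) ^ n) := by
    intro n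
    by_cases hn : N ≤ n
    · have e := hM.inv n 0 _ ((h S hS).1 10 (1 / 2 ^ n) L (1 / 2 ^ j) (2 ^ (β * n))).compl
      have p2 : (0 : ℝ) < 2 ^ n := by positivity
      calc _ = P {ω | M.d 0 ω ∈ {d : Mt | Ev' S d 10 (1 / 2 ^ n) L (1 / 2 ^ j) (2 ^ (β * n))}ᶜ} := by
            simp only [hn, true_and, Set.mem_compl_iff, Set.mem_ofPred_eq]
        _ ≤ P {ω | ¬ Ev' Set.univ (M.d n ω) 10 1 (L * 2 ^ n) (2 ^ n / 2 ^ j) (2 ^ (β * n))} := by
            rw [← e]
            refine measure_mono fun ω hω hE => hω ?_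
            rw [zpow_natCast]
            refine BcL.scale (exp_pos _) p2 ?_
            rwa [mul_one_div_cancel p2.ne', mul_comm, mul_one_div]
        _ ≤ _ := by
            rw [← ENNReal.ofReal_toReal (measure_ne_top P _)]
            exact ENNReal.ofReal_le_ofReal ((hN n hn).trans
              (mul_le_mul_of_nonneg_right (le_abs_self A) (by positivity)))
    · simp [hn]
  have hs : Summable fun n : ℕ => |A| * (1 / 2 : ℝ) ^ n := summable_geometric_two.mul_left _
  filter_upwards [ae_eventually_notMem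
    (ne_top_of_le_ne_top hs.tsum_ofReal_ne_top (ENNReal.tsum_le_tsum hb))] with ω hω
  refine ⟨j, ?_⟩
  filter_upwards [hω, eventually_ge_atTop N] with n h2 h3
  by_contra h4
  exact h2 ⟨h3, h4⟩

end Pool.Agent.GC
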