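import Pool.Agent.Lib.MP_438f30_pr.C.St
import Pool.Agent.Lib.MP_438f30_pr.U.Bl

/-! Greedy pieces of a chain. -/

namespace Pool.Agent.GC

open Real Finset Pool.Agent.Lib.MP_a0a493_pr Pool.Agent.GL
open Pool.Agent.GU (Z2 Cv Cp near_mono near_nonneg)

namespace BlL

theorem btri {u v w : R2} {a b c : ℝ} (h : v ∈ Bx u a) (h' : w ∈ Bx v b) (hc : a + b ≤ c) :
    w ∈ Bx u c := fun i => by
  have := abs_sub_le (w i) (v i) (u i)
  linarith [h i, h' i]

theorem bsymm {u v : R2} {a : ℝ} (h : v ∈ Bx u a) : u ∈ Bx v a := fun i => by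
  rw [abs_sub_comm]; exact h i

theorem bmono {u v : R2} {a b : ℝ} (h : v ∈ Bx u a) (hb : a ≤ b) : v ∈ Bx u b :=
  fun i => (h i).trans_le hb

theorem fz_near {j a : ℤ} {u v : R2} {r : ℝ} (h : v ∈ Bx u r) (hr : r ≤ a * 2 ^ j) :
    Near a (fz j u) (fz j v) := fun i => by
  have p : (0 : ℝ) < 2 ^ j := by positivity
  obtain ⟨h1, h2⟩ := abs_lt.1 ((h i).trans_le hr)
  have e1 : u i / 2 ^ j ≤ v i / 2 ^ j + a := by
    rw [div_add' _ _ _ p.ne', div_le_div_iff_of_pos_right p]; linarith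
  have e2 : v i / 2 ^ j ≤ u i / 2 ^ j + a := by
    rw [div_add' _ _ _ p.ne', div_le_div_iff_of_pos_right p]; linarith
  have f1 := Int.floor_mono e1
  have f2 := Int.floor_mono e2
  rw [Int.floor_add_intCast] at f1 f2
  exact abs_le.2 ⟨by simp only [fz]; omega, by simp only [fz]; omega⟩

theorem near_fz {j a : ℤ} {u v : R2} {r : ℝ} (h : Near a (fz j u) (fz j v))
    (hr : (a + 1) * 2 ^ j ≤ r) : v ∈ Bx u r := fun i => by
  have p : (0 : ℝ) < 2 ^ j := by positivity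
  obtain ⟨h1, h2⟩ := abs_le.1 (h i)
  simp only [fz] at h1 h2
  have k1 : (-a : ℝ) ≤ ⌊u i / 2 ^ j⌋ - ⌊v i / 2 ^ j⌋ := by exact_mod_cast h1
  have k2 : (⌊u i / 2 ^ j⌋ : ℝ) - ⌊v i / 2 ^ j⌋ ≤ a := by exact_mod_cast h2
  have a1 := Int.floor_le (u i / 2 ^ j)
  have a2 := Int.lt_floor_add_one (u i / 2 ^ j)
  have a3 := Int.floor_le (v i / 2 ^ j)
  have a4 := Int.lt_floor_add_one (v i / 2 ^ j)
  have e : |v i / 2 ^ j - u i / 2 ^ j| < a + 1 := abs_lt.2 ⟨by linarith, by linarith⟩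
  rw [← sub_div, abs_div, abs_of_pos p, div_lt_iff₀ p] at e
  exact e.trans_le hr

theorem fz_gp (j : ℤ) (q : Z2) : fz j (gp j q) = q := by
  funext i
  have p : (0 : ℝ) < 2 ^ j := by positivity
  simp only [fz, gp, PiLp.smul_apply, smul_eq_mul, pt_apply]
  rw [mul_div_cancel_left₀ _ p.ne', Int.floor_intCast]

theorem nn {d : Mt} (hd : IsMet d) (u v : R2) : 0 ≤ d u v := by
  have := hd.tri u v u
  rw [hd.self, hd.symm v u] at this
  linarith

theorem chain {d : Mt} (hd : IsMet d) (y : ℕ → R2) {a b : ℕ} (h : a ≤ b) :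
    d (y a) (y b) ≤ ∑ s ∈ Ico a b, d (y s) (y (s + 1)) := by
  induction b, h using Nat.le_induction with
  | base => simp [hd.self]
  | succ b hb ih =>
    rw [sum_Ico_succ_top hb]
    linarith [hd.tri (y a) (y b) (y (b + 1))]

theorem pw (c n k : ℕ) (hk : 20 ≤ k) : (1 : ℝ) ≤ 2 ^ c ∧ (0 : ℝ) < 2 ^ ((c : ℤ) - n) ∧
    (2 : ℝ) ^ ((c : ℤ) - n) ≤ 2 ^ c ∧ (∀ e : ℕ, (2 : ℝ) ^ (n + e) * 2 ^ ((c : ℤ) - n) = 2 ^ (c + e)) ∧
    1048576 * (2 : ℝ) ^ c ≤ 2 ^ (c + k) := by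
  have e : (2 : ℝ) ^ n * 2 ^ ((c : ℤ) - n) = 2 ^ c := by
    rw [zpow_sub₀ two_ne_zero, zpow_natCast, zpow_natCast]; field_simp
  have p : (0 : ℝ) < 2 ^ ((c : ℤ) - n) := by positivity
  refine ⟨one_le_pow₀ one_le_two, p, ?_, fun x => ?_, ?_⟩
  · rw [← e]
    exact le_mul_of_one_le_left p.le (one_le_pow₀ one_le_two)
  · rw [pow_add, pow_add, ← e]; ring
  · exact le_trans (le_of_eq (by ring)) (pow_le_pow_right₀ one_le_two (show c + 20 ≤ c + k by omega))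

theorem ann {z : Z2} {u : R2} {c k : ℕ} (hk : 20 ≤ k) (h1 : u ∈ Bx (pt z) (2 ^ (c + k)))
    (h2 : u ∉ Bx (pt z) (5 * 2 ^ (c + 15))) {R : ℝ} (hR : R ≤ 61 * 2 ^ c) : Bx u R ⊆ Anc z c k := by
  obtain ⟨a0, -, -, -, a3⟩ := pw c 0 k hk
  refine fun y hy => ⟨btri h1 hy (by linarith), fun h => h2 (btri h (bsymm hy) ?_)⟩
  rw [pow_add, pow_add]
  linarith

variable {d d' : Mt} {G : R2 → ℝ} {μ : ℤ → ℝ} {c n k : ℕ} {z : Z2} {u u' : R2} {o : ℝ}

theorem piece (ma : MA) (cx : CX) (hd : IsMet d) (hd' : IsMet d') (hc : Cmp d d' fun x => -G x)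
    (hk : 20 ≤ k) (μ0 : 0 < μ (c - n)) (hN : NIc 0 d' μ c n (Anc z c k))
    (ho : ∀ q v, gp (c - n) q ∈ Bx (pt z) (4 * 2 ^ (c + k)) → v ∈ Bx (gp (c - n) q) (2 ^ (c + 18)) →
      |G v - G (gp (c - n) q)| ≤ o)
    (h1 : u ∈ Bx (pt z) (2 ^ (c + k))) (h2 : u ∉ Bx (pt z) (5 * 2 ^ (c + 15)))
    (h3 : u' ∉ Bx u (5 * 2 ^ (c + 16))) :
    exp (G (gp (c - n) (fz (c - n) u))) * (60 * 2 ^ n * μ (c - n) / (33 * (10 / 9) ^ n)) ≤
      exp o * d u u' := by
  obtain ⟨a0, a1, a2, a3, a4⟩ := pw c n k hk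
  have a5 : (2 : ℝ) ^ ((c : ℤ) - n) * (60 * 2 ^ n) = 60 * 2 ^ c := by
    have := a3 0
    rw [add_zero, add_zero] at this
    linarith
  by_contra h
  rw [not_le, mul_comm, ← lt_div_iff₀ (exp_pos o)] at h
  obtain ⟨t, t1, t2⟩ := (ma.trunc (v := u) (R := 60 * 2 ^ c) (R' := 61 * 2 ^ c) hd h
    (fun i => by simp only [sub_self, abs_zero]; linarith) (by linarith)).resolve_left fun e =>
      h3 (bmono (ma.mem e).2.1 (by rw [pow_add]; linarith))
  obtain ⟨c1, c2⟩ := ma.cell (c - n) u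
  have e1 := ma.le hd' (hc _ _ _ _ (o - G (gp (c - n) (fz (c - n) u))) (fun v hv => by
    have := abs_le.1 (ho _ v (btri h1 c1 (by linarith)) (btri c2 hv (by rw [pow_add]; linarith)))
    linarith [this.1]) t2)
  have e2 := cx.cross (u := u) (u' := t) (l := 60 * 2 ^ n) hd' hN μ0
    (by linarith [one_le_pow₀ (n := n) (one_le_two (α := ℝ))])
    (by rw [a5]; exact fun e => t1.elim fun i hi => (e i).not_gt hi)
    (ann hk h1 h2 (by linarith))
  have e3 := e2.trans_lt e1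
  rw [Nat.cast_zero, mul_zero, exp_zero, mul_one, exp_sub] at e3
  refine e3.ne ?_
  have := exp_pos o
  have := exp_pos (G (gp (c - n) (fz (c - n) u)))
  field_simp

theorem link (cx : CX) (hd : IsMet d) (hd' : IsMet d') (hc : Cmp d' d G) (hk : 20 ≤ k) (hG : GRc μ)
    (hN : NIc 0 d' μ c n (Anc z c k))
    (ho : ∀ q v, gp (c - n) q ∈ Bx (pt z) (4 * 2 ^ (c + k)) → v ∈ Bx (gp (c - n) q) (2 ^ (c + 18)) →
      |G v - G (gp (c - n) q)| ≤ o)
    (h1 : u ∈ Bx (pt z) (2 ^ (c + k))) (h2 : u ∉ Bx (pt z) (5 * 2 ^ (c + 15)))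
    (h1' : u' ∈ Bx (pt z) (2 ^ (c + k))) (h2' : u' ∉ Bx (pt z) (5 * 2 ^ (c + 15))) {D : ℤ} {y : ℝ}
    (hD : Near D (fz (c - n) u) (fz (c - n) u'))
    (hy : ∀ (q : Z2) (e : Fin 2) (r : ℕ), (r : ℤ) ≤ D + 2 ^ (n + 20) →
      (∀ s < r, Near (3 * 2 ^ (n + k)) (fz (c - n) (pt z)) (q + Pi.single e (s : ℤ)) ∧
        Near (D + 2 ^ (n + 20)) (fz (c - n) u) (q + Pi.single e (s : ℤ))) →
      ∑ s ∈ range r, exp (G (gp (c - n) (q + Pi.single e (s : ℤ)))) ≤ y) :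
    d u u' ≤ 100 * (900 * μ (c - n) * (10 / 9) ^ n) * (exp o * y) := by
  obtain ⟨a0, a1, a2, a3, a4⟩ := pw c n k hk
  obtain ⟨b0, b1, -, -, b2, -, b4⟩ := GU.Bl.pw n k hk
  have k1 : ∀ w, w ∉ Bx (pt z) (5 * 2 ^ (c + 15)) →
      ¬ Near (2 ^ (n + 17) + 1) (fz (c - n) (pt z)) (fz (c - n) w) := fun w hw e =>
    hw (near_fz e (by
      push_cast
      rw [add_mul, add_mul, a3, pow_add, pow_add]
      linarith))
  have k2 : ∀ w, w ∈ Bx (pt z) (2 ^ (c + k)) →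
      Near (3 * 2 ^ (n + k)) (fz (c - n) (pt z)) (fz (c - n) w) := fun w hw =>
    fz_near hw (by push_cast; rw [mul_assoc, a3]; linarith)
  have k3 : ∀ q, Near (3 * 2 ^ (n + k)) (fz (c - n) (pt z)) q →
      gp (c - n) q ∈ Bx (pt z) (4 * 2 ^ (c + k)) := fun q hq =>
    near_fz (j := c - n) (by rwa [fz_gp]) (by push_cast; rw [add_mul, mul_assoc, a3]; linarith)
  have := cx.conn (z := fz (c - n) (pt z)) (ρ := 2 ^ (n + 17) + 1) (R := 3 * 2 ^ (n + k))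
    (G := fun q => G (gp (c - n) q) + o) (x := exp o * y) hd hd' hc hN hG
    (ann hk h1 h2 (by linarith)) (ann hk h1' h2' (by linarith)) (by linarith) (by linarith) hD
    (k1 u h2) (k1 u' h2') (k2 u h1) (k2 u' h1')
    (fun q e hq => ⟨k3 q hq, fun e' => e (by
      have := fz_near (j := c - n) (a := 2 ^ (n + 17) + 1) e' (by
        push_cast; rw [add_mul, a3]; linarith)
      rwa [fz_gp] at this)⟩)
    (fun q v hq hv => by
      linarith [(abs_le.1 (ho q v (k3 q hq) (bmono hv (by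
        rw [zpow_natCast, pow_add 2 c, mul_comm])))).2])
    fun q e m hm hq => by
      simp only [exp_add]
      rw [← sum_mul, mul_comm]
      exact mul_le_mul_of_nonneg_left (hy q e m (by linarith) fun s hs =>
        ⟨(hq s hs).1, near_mono (hq s hs).2 (by linarith)⟩) (exp_pos _).le
  rwa [Nat.cast_zero, mul_zero, exp_zero, mul_one] at this

end BlL

open BlL in
theorem bl (ma : MA) (cx : CX) : sBL := by
  intro d d' G μ c n k T a b y z o hd hd' hc hc' hq hs hb hk hG hN hz ho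
  obtain ⟨a0, a1, a2, a3, a4⟩ := pw c n k hk
  have μ0 := (hG (c - n) 0).1
  obtain ⟨m, τ, cv, t0, t⟩ := GU.Bl.greedy (fun s => fz 0 (y s)) (r := 5 * 2 ^ (c + 16))
    (by positivity) b _ a le_rfl
  have mono : ∀ i i', i ≤ i' → i' ≤ m → τ i ≤ τ i' := fun i i' h h' =>
    (GU.Bl.glue (fun l hl => (t l hl).1) 0 h h').1
  have st : ∀ l < m, y (τ (l + 1)) ∈ Bx (y (τ l)) (2 ^ (c + 20)) := fun l hl => by
    obtain ⟨t1, t2, -, t4⟩ := t l hl
    obtain ⟨e, he⟩ : ∃ e, τ (l + 1) = e + 1 := ⟨τ (l + 1) - 1, by omega⟩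
    have e1 := near_fz (t4 e (mem_Ico.2 ⟨by omega, by omega⟩)) le_rfl
    rw [he]
    refine btri e1 (hs e (by omega)).2 ?_
    push_cast
    rw [zpow_zero, pow_add, pow_add]
    linarith
  have ex : ∀ l < m, ∃ s, (s = τ l ∨ s = τ (l + 1)) ∧ y s ∉ Bx (pt z) (5 * 2 ^ (c + 15)) ∧
      ∃ w, w ∉ Bx (y s) (5 * 2 ^ (c + 16)) ∧ d (y s) w = d (y (τ l)) (y (τ (l + 1))) := fun l hl => by
    have e : y (τ (l + 1)) ∉ Bx (y (τ l)) (5 * 2 ^ (c + 16)) := fun e =>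
      (t l hl).2.2.1 (fz_near e (by push_cast; rw [zpow_zero, mul_one]))
    by_cases h : y (τ l) ∈ Bx (pt z) (5 * 2 ^ (c + 15))
    · exact ⟨_, Or.inr rfl, fun h' => e (btri (bsymm h) h' (by rw [pow_add, pow_add]; linarith)), _,
        fun h' => e (bsymm h'), hd.symm _ _⟩
    · exact ⟨_, Or.inl rfl, h, _, e, rfl⟩
  choose! s s1 s2 w s3 s4 using ex
  have sb : ∀ l < m, τ l ≤ s l ∧ s l ≤ τ (l + 1) ∧ τ (l + 1) < b := fun l hl => by
    have := s1 l hl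
    have := t l hl
    omega
  have nz : ∀ l < m, y (s l) ∈ Bx (pt z) (2 ^ (c + k)) := fun l hl => by
    have e1 := sb l hl
    have e2 := mono 0 l (by omega) hl.le
    exact hz _ (mem_Ico.2 ⟨by omega, by omega⟩)
  refine ⟨m, fun l => fz (c - n) (y (s l)), by rwa [show (10 : ℤ) * 2 ^ (c + 16) =
    2 * (5 * 2 ^ (c + 16)) by ring], fun l hl => fz_near (nz l hl) ?_, fun l hl => ?_, ?_⟩
  · push_cast
    rw [add_mul, a3]
    linarith
  · have r : y (τ (l + 1)) ∈ Bx (y (τ (l + 1))) (2 ^ (c + 20)) := fun i => by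
      simp only [sub_self, abs_zero]; positivity
    have e1 : y (τ (l + 1)) ∈ Bx (y (s l)) (2 ^ (c + 20)) := by
      rcases s1 l (by omega) with h | h <;> rw [h]
      exacts [st l (by omega), r]
    have e2 : y (s (l + 1)) ∈ Bx (y (τ (l + 1))) (2 ^ (c + 20)) := by
      rcases s1 _ hl with h | h <;> rw [h]
      exacts [r, st _ hl]
    exact fz_near (btri e1 e2 le_rfl) (by push_cast; rw [a3, pow_add, pow_add]; linarith)
  · intro i i' hi hi' D x hD hy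
    have y0 : 0 ≤ x := by
      simpa using hy 0 0 0 (by have := near_nonneg hD; push_cast; positivity) (by omega)
    have e1 := sb i (by omega)
    have e2 := sb i' hi'
    obtain ⟨e4, e5⟩ := GU.Bl.glue (fun l hl => (t l hl).1) (fun s => d (y s) (y (s + 1)))
      (show i + 1 ≤ i' from hi) hi'.le
    have e6 := hq (s i) (s i') (by omega) (by omega)
    have e8 := link cx hd hd' hc hk hG hN ho (nz i (by omega)) (s2 i (by omega)) (nz i' hi')
      (s2 i' hi') hD hy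
    have e7 : ∑ s ∈ Ico (τ (i + 1)) (τ i'), d (y s) (y (s + 1)) ≤
        ∑ s ∈ Ico (s i) (s i'), d (y s) (y (s + 1)) :=
      sum_le_sum_of_subset_of_nonneg (Ico_subset_Ico (by omega) (by omega)) fun _ _ _ => nn hd _ _
    have e9 : (∑ l ∈ Ioo i i', exp (G (gp (c - n) (fz (c - n) (y (s l)))))) *
        (60 * 2 ^ n * μ (c - n) / (33 * (10 / 9) ^ n)) ≤ exp o *
          ∑ l ∈ Ico (i + 1) i', ∑ s ∈ Ico (τ l) (τ (l + 1)), d (y s) (y (s + 1)) := by
      rw [sum_mul, mul_sum, show Ioo i i' = Ico (i + 1) i' from (Ico_add_one_left_eq_Ioo i i').symm]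
      refine sum_le_sum fun l hl => ?_
      have hl' : l < m := (mem_Ico.1 hl).2.trans hi'
      refine (piece ma cx hd hd' hc' hk μ0 hN ho (nz l hl') (s2 l hl') (s3 l hl')).trans ?_
      rw [s4 l hl']
      exact mul_le_mul_of_nonneg_left (chain hd y (t l hl').1.le) (exp_pos _).le
    refine GU.Bl.num n μ0 y0 ?_
    have e10 := mul_le_mul_of_nonneg_left (e5.le.trans (e7.trans (e6.trans
      (mul_le_mul_of_nonneg_left e8 (by norm_num))))) (exp_pos o).le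
    have e11 := e9.trans e10
    rw [show (60 : ℝ) * 2 ^ n * μ (c - n) / (33 * (10 / 9) ^ n) =
      10 * (6 * 2 ^ n * μ (c - n) / (33 * (10 / 9) ^ n)) by ring] at e11
    linarith

end Pool.Agent.GC
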