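import Pool.Agent.Lib.MP_438f30_pr.C.St2

/-! The bootstrap: tightness with absolute constants. -/

namespace Pool.Agent.GC

open MeasureTheory Real Pool.Agent.Lib.MP_a0a493_pr Pool.Agent.GL

theorem sd (ma : MA) (la : LA) (cx : CX) (pa : PA) (h1 : sBA) (h2 : sLC) (h3 : sIV) (h4 : sSP) :
    sSd := fun Ω H _ _ _ P _ M η h e1 e2 =>
  have s : Sc P M η := ⟨h, e1, e2, ma, la, cx, pa⟩
  ⟨s, h1 Ω H P M η s, h2 Ω H P M η s, h3 Ω H P M η s, h4 Ω H P M η s (h1 Ω H P M η s)⟩

theorem boot (md : sMd) (np : sNP) (apx : sApx) (con : sCON) (tl : sTL) (r1 : sR1) (r2 : sR2)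
    (r3 : sR3) (tu : sTU) (ms : sMS) (al : sAL) (q0 : sQ0) (au : sAU) (ap : sAP) : sBoot := by
  intro Ω H _ _ _ P _ M η h
  obtain ⟨m, hm⟩ := md Ω H P M η h
  have a1 := al Ω H P M η h (ms Ω H P M η h)
  have hq := q0 Ω H P M η h a1
  have gr : GRc (mu M m) := fun j n => ⟨mul_pos hm.1 (exp_pos _), by
    have e : exp (-M.q) ≤ 5 / 9 := by
      rw [exp_neg, ← inv_div, inv_le_inv₀ (exp_pos _) (by norm_num)]
      exact (log_le_iff_le_exp (by norm_num)).1 hq
    have := pow_le_pow_left₀ (exp_pos _).le e n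
    rw [mu, mu, show M.q * ((j - n : ℤ) : ℝ) = n * -M.q + M.q * j by push_cast; ring, exp_add,
      exp_nat_mul, mul_left_comm]
    exact mul_le_mul_of_nonneg_right this (mul_pos hm.1 (exp_pos _)).le⟩
  have key : ∀ lm, TLc P M η m lm → TUc P M η m lm → NPc P M η m 0 := fun lm => by
    induction lm using Nat.strong_induction_on with
    | _ lm ih =>
      intro b1 b2
      have n := np Ω H P M η h m lm hm.1 b1 b2
      rcases Nat.eq_zero_or_pos lm with rfl | l0
      · exact n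
      have c := con Ω H P M η h (apx Ω H P M η h) m lm gr n
      have t := tl Ω H P M η h m lm hm c
      refine ih (6 * (lm / 14)) (by omega) (fun i => le_trans (GU.pmono ?_) (t i))
        (tu Ω H P M η h m lm hm.1 c t (r3 Ω H P M η h m _ _ hm ?_ t
          (r2 Ω H P M η h m lm gr n c t (r1 Ω H P M η h m lm hm gr n))))
      · rintro ω ⟨u, hu, u', hu', k⟩
        refine ⟨u, hu, u', hu', k.trans_le (mul_le_mul_of_nonneg_left (exp_le_exp.2 ?_) hm.1.le)⟩
        push_cast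
        linarith [Nat.cast_nonneg (α := ℝ) (lm / 14)]
      · omega
  obtain ⟨lm, b1, b2⟩ := ap Ω H P M η h m hm.1 a1 (au Ω H P M η h (ms Ω H P M η h) hq)
  exact ⟨hq, m, gr, key lm b1 b2⟩

end Pool.Agent.GC
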