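import Pool.Agent.Lib.MP_438f30_pr.C.St2

/-! Concentration of the cost of a crossing. -/

namespace Pool.Agent.GC

open MeasureTheory Real Finset Filter Topology Pool.Agent.Lib.MP_a0a493_pr Pool.Agent.GL
open Pool.Agent.GU (FK pmono)
open scoped InnerProductSpace symmDiff

namespace ConL

theorem chain {d : Mt} (hd : IsMet d) {u : ℕ → R2} {c : ℕ → ℝ} {κ : ℝ} (m : ℕ)
    (hc : ∀ l < m, d (u l) (u (l + 1)) ≤ κ * c l) : d (u 0) (u m) ≤ κ * ∑ l ∈ range m, c l := by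
  induction m with
  | zero => simp [hd.self]
  | succ t ih =>
    rw [sum_range_succ, mul_add]
    have := hd.tri (u 0) (u t) (u (t + 1))
    linarith [ih fun l hl => hc l (by omega), hc t (by omega)]

variable {H : Type} [NormedAddCommGroup H] [InnerProductSpace ℝ H]

theorem conv {m : ℕ} {c : ℕ → ℝ} {g : ℕ → H} {S : ℝ} (c0 : ∀ l, 0 ≤ c l)
    (c1 : 0 < ∑ l ∈ range m, c l) (S0 : 0 ≤ S) (hg : ∀ l, ‖g l‖ ^ 2 ≤ S) :
    ‖∑ l ∈ range m, (c l / ∑ l ∈ range m, c l) • g l‖ ^ 2 ≤ S := by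
  have a : ‖∑ l ∈ range m, (c l / ∑ l ∈ range m, c l) • g l‖ ≤ √S := by
    refine (norm_sum_le _ _).trans ((sum_le_sum (g := fun l => c l / (∑ l ∈ range m, c l) * √S)
      fun l _ => ?_).trans ?_)
    · have p := div_nonneg (c0 l) c1.le
      rw [norm_smul, Real.norm_of_nonneg p]
      exact mul_le_mul_of_nonneg_left (Real.le_sqrt_of_sq_le (hg l)) p
    · rw [← sum_mul, ← sum_div, div_self c1.ne', one_mul]
  exact (pow_le_pow_left₀ (norm_nonneg _) a 2).trans (Real.sq_sqrt S0).le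

theorem sb_mono (a : ℤ → R2 → H) : Monotone (Sb a) := fun _ _ h =>
  Submodule.span_mono fun _ ⟨n, hn, x, e⟩ => ⟨n, hn.trans_le h, x, e⟩

variable {Ω : Type} [MeasurableSpace Ω] {P : Measure Ω} {M : Dat Ω H}

omit [MeasurableSpace Ω] in
theorem bn_mem (M : Dat Ω H) (N : ℕ) (x : R2) : bn M N x ∈ Sb M.a N :=
  Submodule.smul_mem _ _ (Submodule.sum_mem _ fun n hn =>
    Submodule.subset_span ⟨n, mem_range.1 hn, x, rfl⟩)

theorem orth (h : Mo P M) (N : ℕ) :
    ∀ k ∈ M.K (-N) Set.univ, ∀ k' ∈ Sb M.a N, ⟪k, k'⟫_ℝ = 0 := fun k hk k' hk' => by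
  induction hk' using Submodule.span_induction with
  | mem x hx =>
    obtain ⟨n, hn, x, rfl⟩ := hx
    exact h.o1 _ _ (by omega) k hk x
  | zero => exact inner_zero_right _
  | add x y _ _ a b => rw [inner_add_right, a, b, add_zero]
  | smul c x _ a => rw [real_inner_smul_right, a, mul_zero]

theorem kap {N : ℕ} (hN : 1 ≤ N) : (exp (1 / (4 * N)) ^ 2 - 1) * N ≤ (1 : ℝ) := by
  have n1 : (1 : ℝ) ≤ N := Nat.one_le_cast.2 hN
  have e : exp (1 / (4 * N)) ^ 2 = exp (1 / (2 * (N : ℝ))) := by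
    rw [← exp_nat_mul]; congr 1; push_cast; field_simp; norm_num
  have a := Real.exp_bound_div_one_sub_of_interval (x := 1 / (2 * (N : ℝ))) (by positivity)
    (by rw [div_lt_one (by positivity)]; linarith)
  have b : 1 / (1 - 1 / (2 * (N : ℝ))) ≤ 1 + 1 / N := by
    have : (0 : ℝ) < 2 * N - 1 := by linarith
    rw [show 1 / (1 - 1 / (2 * (N : ℝ))) = 1 + 1 / (2 * N - 1) by field_simp; ring]
    have := one_div_le_one_div_of_le (show (0 : ℝ) < N by linarith) (show (N : ℝ) ≤ 2 * N - 1 by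
      linarith)
    linarith
  rw [e, ← le_div_iff₀ (by linarith)]
  linarith

theorem sd [IsProbabilityMeasure P] {E C0 C B : Set Ω} {ε : ℝ} (h0 : E =ᵐ[P] C0)
    (h1 : P.real (C0 ∆ C) ≤ ε) (hB : P.real B ≤ ε) :
    P.real E ≤ P.real C + ε ∧ ∀ F : Set Ω, (∀ ω ∈ F, ω ∉ B → ω ∉ E) → P.real (C ∩ F) ≤ 2 * ε := by
  have e : P.real (E ∆ C) ≤ ε := by
    rwa [measureReal_congr (h0.symmDiff (ae_eq_refl C))]
  refine ⟨?_, fun F hF => ?_⟩
  · refine (pmono (t := C ∪ E ∆ C) fun ω hω => ?_).trans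
      ((measureReal_union_le _ _).trans (by linarith))
    by_cases k : ω ∈ C
    · exact Or.inl k
    · exact Or.inr (Or.inl ⟨hω, k⟩)
  · refine (pmono (t := B ∪ E ∆ C) fun ω hω => ?_).trans
      ((measureReal_union_le _ _).trans (by linarith))
    by_cases k : ω ∈ B
    · exact Or.inl k
    · exact Or.inr (Or.inr ⟨hω.1, hF ω hω.2 k⟩)

end ConL

open ConL in
theorem con (h1 : sMPF) (h2 : sTail) (h3 : sGI) : sCON := by
  intro Ω H _ _ _ P _ M η h ap m lm hG hN v w ρ R x t e r0 r1 r2 hw x0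
  have hη := h.eta
  have η0 : 0 < η := by linarith
  refine le_of_forall_pos_le_add fun δ δ0 => ?_
  obtain ⟨ε, ε0, rfl⟩ : ∃ ε : ℝ, 0 < ε ∧ δ = 6 * ε := ⟨δ / 6, by positivity, by ring⟩
  obtain ⟨C0, mC0, eC0⟩ := h.lc.ver 0 _ _ (h.la.lc v w ρ R (x * exp t)).not
  obtain ⟨A0, mA0, eA0⟩ := h.lc.ver 0 _ _ (h.la.lc v w ρ R x)
  obtain ⟨N, ⟨C, mC, hC⟩, ⟨A, mA, hA⟩, N1, N2⟩ :=
    ((h2 Ω P H M.W h.iso _ _ (sb_mono M.a) h.den C0 mC0 ε ε0).and
      ((h2 Ω P H M.W h.iso _ _ (sb_mono M.a) h.den A0 mA0 ε ε0).and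
        ((eventually_ge_atTop 1).and (eventually_ge_atTop ⌈120 * η⌉₊)))).exists
  have n1 : (1 : ℝ) ≤ N := Nat.one_le_cast.2 N1
  have n2 : 120 * η ≤ N := Nat.ceil_le.1 N2
  have k1 := kap N1
  obtain ⟨o, ho⟩ : ∃ o : ℝ, o = 1 / (4 * N) := ⟨_, rfl⟩
  have o0 : 0 < o := by rw [ho]; positivity
  have o2 : exp (240 * η * o) ≤ 2 := by
    have a : 240 * η * o ≤ 1 / 2 := by
      rw [ho, mul_one_div, div_le_iff₀ (by positivity)]; linarith
    have b := Real.exp_bound_div_one_sub_of_interval (x := 1 / 2) (by norm_num) (by norm_num)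
    have := exp_le_exp.2 a
    norm_num at b this ⊢
    linarith [exp_le_exp.2 a]
  rw [← ho] at k1
  obtain ⟨σ, hσ⟩ : ∃ σ : ℝ, σ = 1 / (16000 * η) := ⟨_, rfl⟩
  have σ0 : 0 < σ := by rw [hσ]; positivity
  obtain ⟨i0, hi0⟩ := exists_nat_ge (M.ξ ^ 2 * M.C0 ^ 2 * N / σ)
  rw [div_le_iff₀ σ0] at hi0
  obtain ⟨J, mm, uu, ww, B, hB, mw, hu, w0, hb⟩ := ap v w ρ R o (min ε (exp (-(η * i0)))) N r0 r1 hw
    o0 (lt_min ε0 (exp_pos _))
  have e1 : (1 : ℝ) ≤ 4 ^ e := one_le_pow₀ (by norm_num)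
  have l0 : (0 : ℝ) ≤ lm := Nat.cast_nonneg _
  have l1 : 1 ≤ exp ((η - 2) * lm) := one_le_exp (mul_nonneg (by linarith) l0)
  have l2 : 1 ≤ 4 ^ e * exp ((η - 2) * lm) := one_le_mul_of_one_le_of_one_le e1 l1
  have key := h1 Ω P H M.W h.iso _ _ (range J) mm (fun γ l => bn M N (uu γ l)) ww A C σ
    (1000 * (4 ^ e * exp ((η - 2) * lm))) (η - 3) (80 * η) (exp o * x) (t - 3 * o)
    (orth h.toMo N) (fun γ l => bn_mem M N _) mw mA mC
    (w0.mono fun ω k γ _ => ⟨fun l _ => (k γ).1 l, (k γ).2⟩) σ0.le (by linarith) (by linarith)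
    (by positivity) (by rw [hσ]; field_simp; nlinarith) fun i => by
      have i1 : (0 : ℝ) ≤ i := Nat.cast_nonneg _
      have p := exp_pos (-((η - 3 + 1) * i))
      rcases lt_or_ge i lm with hi | hi
      · have a : (i : ℝ) ≤ lm := Nat.cast_le.2 hi.le
        have b : 1 ≤ exp ((η - 2) * lm) * exp (-((η - 3 + 1) * i)) := by
          rw [← exp_add]; exact one_le_exp (by nlinarith)
        refine measureReal_le_one.trans ?_
        nlinarith
      rcases le_or_gt i0 i with hj | hj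
      · have a : (i0 : ℝ) ≤ i := Nat.cast_le.2 hj
        refine le_trans (le_of_eq ?_) (show (0 : ℝ) ≤ _ by positivity)
        refine (measureReal_eq_zero_iff (measure_ne_top _ _)).2 (measure_eq_zero_iff_ae_notMem.2
          (w0.mono ?_))
        rintro ω k ⟨γ, _, _, hω⟩
        have c0 : ∀ l, 0 ≤ ww ω γ l * exp (M.W (bn M N (uu γ l)) ω) := fun l =>
          mul_nonneg ((k γ).1 l) (exp_pos _).le
        obtain ⟨l, hl, hl'⟩ := (sum_pos_iff_of_nonneg fun l _ => (k γ).1 l).1 (k γ).2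
        have := conv (g := fun l => bn M N (uu γ l)) c0
          (sum_pos' (fun l _ => c0 l) ⟨l, hl, mul_pos hl' (exp_pos _)⟩) (by positivity)
          fun l => h.ba.nrm N _
        refine absurd (hω.trans_le this) (not_lt.2 ?_)
        nlinarith
      obtain ⟨i, rfl⟩ := Nat.exists_eq_add_of_le' hi
      have b1 := h.pa.ni P (M.d 0) lm (i + 1) (e + 2) (mu M m) 0 η v (Bx v (4 * 2 ^ e))
        (by linarith) (hN 0) (by rw [zpow_zero, pow_add]; norm_num [mul_comm])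
      have b2 : P.real B ≤ exp (-((η - 3 + 1) * (i + lm : ℕ))) := by
        have a : ((i + lm : ℕ) : ℝ) ≤ i0 := Nat.cast_le.2 hj.le
        exact (hB.trans (min_le_right _ _)).trans (exp_le_exp.2 (by nlinarith))
      have b3 : exp (-η - (η - 2) * (i + 1 : ℕ)) ≤
          exp ((η - 2) * lm) * exp (-((η - 3 + 1) * (i + lm : ℕ))) := by
        rw [← exp_add]; refine exp_le_exp.2 ?_; push_cast; nlinarith
      refine (pmono (t := B ∪ {ω | ¬ NIc lm (M.d 0 ω) (mu M m) 0 (i + 1) (Bx v (4 * 2 ^ e))})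
        ?_).trans ((measureReal_union_le _ _).trans ?_)
      · rintro ω ⟨γ, _, hm, hω⟩
        by_contra k
        rw [Set.mem_union, not_or, Set.mem_ofPred_eq, not_not] at k
        obtain ⟨a1, a2, γ0, a3, a4⟩ := hb ω k.1
        have := h3 H M.a M.C0 h.bz (M.d 0 ω) (mu M m) lm i e N (mm γ) v w ρ R (exp o) M.ξ (uu γ)
          (fun l => ww ω γ l * exp (M.W (bn M N (uu γ l)) ω)) a1 hG k.2 r0 r1 r2 hw (hu γ).1
          (hu γ).2.1 (hu γ).2.2.1 (hu γ).2.2.2 (one_le_exp o0.le) k1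
          (fun l hl => ⟨mul_nonneg ((a2 γ).1 l) (exp_pos _).le, (a2 γ).2 l hl⟩)
          fun y hy => (hm γ0 (mem_range.2 a3)).trans (a4 y hy)
        refine absurd (hω.trans_le this) (not_lt.2 ?_)
        rw [show ((i + lm : ℕ) : ℝ) + 1 = i + 1 + lm by push_cast; ring]
        refine mul_le_mul_of_nonneg_right ?_ (by positivity)
        rw [hσ, le_div_iff₀ (by positivity)]
        linarith [h.small]
      · have b4 := mul_le_mul_of_nonneg_left b3 (show (0 : ℝ) ≤ 960 * 4 ^ e by positivity)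
        have b5 := mul_le_mul_of_nonneg_right l2 p.le
        rw [pow_add] at b1
        nlinarith
  have hB' := hB.trans (min_le_left _ _)
  obtain ⟨c1, c2⟩ := sd eC0 hC hB'
  obtain ⟨a1, a2⟩ := sd eA0 hA hB'
  have c3 := c2 {ω | ∃ γ ∈ range J, cw (mm γ) (ww ω γ) (fun l => M.W (bn M N (uu γ l)) ω) ≤
      exp o * x * exp (t - 3 * o)} (by
    rintro ω ⟨γ, _, k⟩ k' k''
    obtain ⟨b1, b2, -⟩ := hb ω k'
    refine k'' ⟨_, _, (hu γ).1, (hu γ).2.1, ((chain b1 _ (b2 γ).2).trans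
      (mul_le_mul_of_nonneg_left k (exp_pos o).le)).trans_lt ?_⟩
    rw [show exp o * (exp o * x * exp (t - 3 * o)) = x * (exp o * exp o * exp (t - 3 * o)) by ring,
      ← exp_add, ← exp_add]
    exact mul_lt_mul_of_pos_left (exp_lt_exp.2 (by linarith)) x0)
  have a3 := a2 {ω | ∀ γ ∈ range J, exp o * x <
      cw (mm γ) (ww ω γ) fun l => M.W (bn M N (uu γ l)) ω} (by
    intro ω k k' k''
    obtain ⟨-, -, γ, b1, b2⟩ := hb ω k'
    exact absurd (k γ (mem_range.2 b1)) (not_lt.2 (b2 x k'')))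
  have f1 : exp (4 * (80 * η) ^ 2 * σ - 80 * η * (t - 3 * o)) ≤ 2 * exp (1.6 * η - 80 * η * t) := by
    rw [show 4 * (80 * η) ^ 2 * σ - 80 * η * (t - 3 * o) = 240 * η * o + (1.6 * η - 80 * η * t) by
      rw [hσ]; field_simp; ring, exp_add]
    exact mul_le_mul_of_nonneg_right o2 (exp_pos _).le
  have f2 : (1 + 4 * (1000 * (4 ^ e * exp ((η - 2) * lm)))) * 2 ≤ 10 ^ 4 * 4 ^ e * exp (η * lm) := by
    have : 4 ^ e * exp ((η - 2) * lm) ≤ 4 ^ e * exp (η * lm) :=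
      mul_le_mul_of_nonneg_left (exp_le_exp.2 (by nlinarith)) (by positivity)
    linarith
  have f3 := mul_le_mul_of_nonneg_left f1
    (show 0 ≤ 1 + 4 * (1000 * (4 ^ e * exp ((η - 2) * lm))) by linarith)
  have f4 := mul_le_mul_of_nonneg_right f2 (exp_pos (1.6 * η - 80 * η * t)).le
  rw [show η * lm + 1.6 * η - 80 * η * t = η * lm + (1.6 * η - 80 * η * t) by ring, exp_add]
  have g1 := mul_le_mul_of_nonneg_right c1
    (measureReal_nonneg (μ := P) (s := {ω | Lc (M.d 0 ω) v ρ R w x}))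
  have g2 := mul_le_mul_of_nonneg_left a1 (measureReal_nonneg (μ := P) (s := C))
  have g3 := mul_le_mul_of_nonneg_left
    (measureReal_le_one (μ := P) (s := {ω | Lc (M.d 0 ω) v ρ R w x})) ε0.le
  have g4 := mul_le_mul_of_nonneg_right (measureReal_le_one (μ := P) (s := C)) ε0.le
  linarith

end Pool.Agent.GC
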