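import Pool.Agent.Lib.MP_438f30_pr.C.St
import Pool.Agent.Lib.MP_438f30_pr.U.Lt
import Pool.Agent.Lib.MP_438f30_pr.U.Rt

/-! Cheap connections from cheap grid edges, in the continuum. -/

namespace Pool.Agent.GC

open Real Finset Filter Topology Pool.Agent.Lib.MP_a0a493_pr Pool.Agent.GL
open Pool.Agent.GU (Z2 Adj Cn near_refl near_mono near_nonneg)

namespace CxL

theorem gp_apply (j : ℤ) (q : Z2) (i : Fin 2) : gp j q i = 2 ^ j * (q i : ℝ) := by
  simp [gp, pt_apply]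

theorem gp_add (j : ℤ) (q : Z2) (e : Fin 2) :
    gp j (q + Pi.single e 1) = gp j q + (2 : ℝ) ^ j • ax e := by
  simp only [gp, ax, pt_add, smul_add]

theorem bx_tri {u v y : R2} {a b c : ℝ} (h : v ∈ Bx u a) (h' : y ∈ Bx v b) (hc : a + b ≤ c) :
    y ∈ Bx u c := fun i => by
  have := abs_sub_le (y i) (v i) (u i)
  linarith [h i, h' i]

theorem bx_mono {u y : R2} {a c : ℝ} (h : y ∈ Bx u a) (hc : a ≤ c) : y ∈ Bx u c :=
  fun i => (h i).trans_le hc

theorem z2 (j : ℤ) : (0 : ℝ) < 2 ^ j := by positivity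

theorem z2_le (k : ℤ) (n : ℕ) : (2 : ℝ) ^ (k - n) ≤ 2 ^ k :=
  zpow_le_zpow_right₀ one_le_two (by omega)

theorem big (lm : ℕ) (k : ℤ) (n a : ℕ) :
    (2 : ℝ) ^ (k - n) + 2 ^ (a + 4 * lm) * 2 ^ k ≤ 2 ^ (a + 1 + 4 * lm) * 2 ^ k := by
  have h1 : (1 : ℝ) ≤ 2 ^ (a + 4 * lm) := one_le_pow₀ one_le_two
  have h2 := z2_le k n
  have h3 := z2 k
  rw [show a + 1 + 4 * lm = a + 4 * lm + 1 by omega, pow_succ]
  nlinarith

theorem fz_succ (j : ℤ) (u : R2) (i : Fin 2) :
    fz (j - 1) u i = 2 * fz j u i ∨ fz (j - 1) u i = 2 * fz j u i + 1 := by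
  have e : u i / 2 ^ (j - 1) = 2 * (u i / 2 ^ j) := by
    rw [zpow_sub_one₀ two_ne_zero]; field_simp
  simp only [fz, e]
  have a := Int.floor_le (u i / 2 ^ j)
  have b := Int.lt_floor_add_one (u i / 2 ^ j)
  have c : 2 * ⌊u i / 2 ^ j⌋ ≤ ⌊2 * (u i / 2 ^ j)⌋ := Int.le_floor.2 (by push_cast; linarith)
  have d : ⌊2 * (u i / 2 ^ j)⌋ < 2 * ⌊u i / 2 ^ j⌋ + 2 := Int.floor_lt.2 (by push_cast; linarith)
  omega

theorem fz_near {j : ℤ} {u u' : R2} {a : ℕ} (h : u' ∈ Bx u (2 ^ j * a)) :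
    Near (a + 1) (fz j u) (fz j u') := fun i => by
  have h1 := abs_lt.1 (h i)
  have c := z2 j
  have e1 : u' i / 2 ^ j - u i / 2 ^ j < a := by
    rw [← sub_div, div_lt_iff₀ c]; linarith [h1.2]
  have e2 : u i / 2 ^ j - u' i / 2 ^ j < a := by
    rw [← sub_div, div_lt_iff₀ c]; linarith [h1.1]
  have a1 := Int.floor_le (u i / 2 ^ j)
  have a2 := Int.lt_floor_add_one (u i / 2 ^ j)
  have b1 := Int.floor_le (u' i / 2 ^ j)
  have b2 := Int.lt_floor_add_one (u' i / 2 ^ j)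
  have : |((⌊u i / 2 ^ j⌋ - ⌊u' i / 2 ^ j⌋ : ℤ) : ℝ)| ≤ ((a + 1 : ℤ) : ℝ) := by
    push_cast
    exact abs_le.2 ⟨by linarith, by linarith⟩
  exact_mod_cast this

/-- distances along a connected set of grid points -/
theorem chain {d : Mt} (hd : IsMet d) (f : Z2 → R2) (c : Z2 → ℝ) (c0 : ∀ q, 0 ≤ c q) (q : Z2) :
    ∀ (N : ℕ) (S : Finset Z2) (p : Z2), S.card = N → Cn ↑S p q →
      (∀ x ∈ S, ∀ e : Fin 2, d (f x) (f (x + Pi.single e 1)) ≤ c x) →
      d (f p) (f q) + c p ≤ 2 * ∑ x ∈ S, c x := by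
  classical
  intro N
  induction N with
  | zero =>
    intro S p hS h _
    rw [card_eq_zero.1 hS] at h
    simpa using h.1
  | succ N ih =>
    intro S p hS h hc
    have hp : p ∈ S := h.1
    have sm := add_sum_erase S c hp
    have s0 : 0 ≤ ∑ x ∈ S.erase p, c x := sum_nonneg fun x _ => c0 x
    have key : q = p ∨ ∃ p', Adj p p' ∧ Cn ↑(S.erase p) p' q :=
      h.induct (R := fun x => x = p ∨ ∃ p', Adj p p' ∧ Cn ↑(S.erase p) p' x) (Or.inl rfl)
        fun x y _ hx hy hn => by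
          by_cases e : y = p
          · exact Or.inl e
          have my : y ∈ (↑(S.erase p) : Set Z2) := mem_erase.2 ⟨e, hy⟩
          rcases hx with rfl | ⟨p', a, b⟩
          · exact Or.inr ⟨y, hn, .refl my⟩
          · exact Or.inr ⟨p', a, b.tail my hn⟩
    rcases key with rfl | ⟨p', a, b⟩
    · rw [hd.self]
      linarith [c0 q]
    · have i1 := ih (S.erase p) p' (by rw [card_erase_of_mem hp]; omega) b
        fun x hx => hc x (mem_of_mem_erase hx)
      have i2 : d (f p) (f p') ≤ c p + c p' := by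
        obtain ⟨e, h1 | h1⟩ := a.cases
        · have := hc p hp e
          rw [← h1] at this
          linarith [c0 p']
        · have := hc p' (mem_of_mem_erase b.1) e
          rw [← h1, hd.symm] at this
          linarith [c0 p]
      linarith [hd.tri (f p) (f p') (f q)]

variable {lm n : ℕ} {d d' : Mt} {μ : ℤ → ℝ} {k : ℤ} {D : Set R2} {u u' : R2}

theorem edge (ma : MA) (h : NIc lm d μ k n D) (hG : GRc μ) (i : ℕ) {q : Z2}
    (hq : gp (k - n - i) q ∈ D) (e : Fin 2) :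
    Tc d (Bx (gp (k - n - i) q) (2 ^ (16 + 4 * lm) * 2 ^ k)) (gp (k - n - i) q)
      (gp (k - n - i) (q + Pi.single e 1))
      (900 * exp (2 * lm) * μ (k - n) * (10 / 9) ^ n * (50 / 81) ^ i) := by
  have e1 : k - n - i = k - (n + i : ℕ) := by push_cast; ring
  have a := mul_le_mul_of_nonneg_right (hG (k - n) i).2
    (show (0 : ℝ) ≤ 900 * exp (2 * lm) * (10 / 9) ^ (n + i) by positivity)
  rw [gp_add]
  rw [e1] at hq a ⊢
  refine ma.mono ((h (n + i) (by omega) q hq).2 e) (fun y hy => bx_mono hy ?_) ?_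
  · obtain ⟨m, hm⟩ : ∃ m, m = n + i := ⟨_, rfl⟩
    rw [← hm, pow_add _ _ (m / 2), mul_assoc, ← zpow_natCast (2 : ℝ) (m / 2),
      ← zpow_add₀ two_ne_zero]
    exact mul_le_mul_of_nonneg_left (zpow_le_zpow_right₀ one_le_two (by omega)) (by positivity)
  · have b : (50 / 81 : ℝ) ^ i = (5 / 9) ^ i * (10 / 9) ^ i := by
      rw [← mul_pow]; norm_num
    rw [pow_add] at a ⊢
    rw [b]
    linarith

theorem dm (ma : MA) (hd : IsMet d) (h : NIc lm d μ k n D) (hG : GRc μ)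
    (hD : Bx u (2 ^ (k - n)) ⊆ D) :
    Tc d (Bx u (2 ^ (17 + 4 * lm) * 2 ^ k)) u (gp (k - n) (fz (k - n) u))
      (44 * (900 * exp (2 * lm) * μ (k - n) * (10 / 9) ^ n)) := by
  have μ0 := (hG (k - n) 0).1
  have ed := fun i q hq e => edge (q := q) ma h hG i hq e
  obtain ⟨K, hK⟩ : ∃ K, K = 900 * exp (2 * lm) * μ (k - n) * (10 / 9 : ℝ) ^ n := ⟨_, rfl⟩
  have K0 : 0 < K := by rw [hK]; positivity
  have bg := big lm k n 16
  rw [← hK] at ed ⊢
  obtain ⟨j, hj⟩ : ∃ j, j = k - n := ⟨_, rfl⟩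
  rw [← hj] at ed hD bg ⊢
  obtain ⟨U, hU⟩ : ∃ U, U = Bx u (2 ^ (17 + 4 * lm) * 2 ^ k) := ⟨_, rfl⟩
  have Uo : IsOpen U := hU ▸ (ma.opn _ _).1
  have sub : Bx u (2 ^ j) ⊆ U := fun y hy => hU ▸ bx_mono hy (by
    have : (0 : ℝ) ≤ 2 ^ (16 + 4 * lm) * 2 ^ k := by positivity
    linarith)
  rw [← hU]
  have st : ∀ (i : ℕ) (q : Z2) (e : Fin 2) (r : ℤ), gp (j - i) q ∈ Bx u (2 ^ j) → r = 0 ∨ r = 1 →
      Tc d U (gp (j - i) q) (gp (j - i) (q + Pi.single e r)) (K * (50 / 81) ^ i) := by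
    rintro i q e r hq (rfl | rfl)
    · rw [Pi.single_zero, add_zero]
      exact (ma.near hd Uo (sub hq) (by positivity)).self_of_nhds
    · exact ma.mono (ed i q (hD hq) e) (fun y hy => hU ▸ bx_tri hq hy bg) le_rfl
  have cl : ∀ i : ℕ, gp (j - i) (fz (j - i) u) ∈ Bx u (2 ^ j) := fun i =>
    bx_mono (ma.cell _ u).1 (z2_le j i)
  have key : ∀ i : ℕ, Tc d U (gp j (fz j u)) (gp (j - i) (fz (j - i) u))
      (5 * K - 4 * (K * (50 / 81) ^ i)) := by
    intro i
    induction i with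
    | zero =>
      have := st 0 (fz j u) 0 0 (by simpa using cl 0) (Or.inl rfl)
      simp only [Nat.cast_zero, sub_zero, Pi.single_zero, add_zero, pow_zero, mul_one] at this ⊢
      exact ma.mono this subset_rfl (by linarith)
    | succ i ih =>
      have e0 : j - (i + 1 : ℕ) = j - i - 1 := by push_cast; ring
      have s := fz_succ (j - i) u
      have e1 : gp (j - i) (fz (j - i) u) = gp (j - (i + 1 : ℕ)) (2 • fz (j - i) u) := by
        ext l
        rw [e0, gp_apply, gp_apply, zpow_sub_one₀ two_ne_zero]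
        simp
        ring
      rw [← e0] at s
      obtain ⟨A, hA⟩ : ∃ A, A = fz (j - i) u := ⟨_, rfl⟩
      obtain ⟨B, hB⟩ : ∃ B, B = fz (j - (i + 1 : ℕ)) u := ⟨_, rfl⟩
      have c1 := cl i
      have c2 := cl (i + 1)
      rw [e1] at c1 ih
      rw [← hA] at c1 ih s
      rw [← hB] at c2 s ⊢
      have e2 : B = 2 • A + Pi.single 0 (B 0 - 2 * A 0) + Pi.single 1 (B 1 - 2 * A 1) := by
        funext l; fin_cases l <;> simp
      have t1 := st (i + 1) (2 • A) 0 (B 0 - 2 * A 0) c1 (by have := s 0; omega)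
      have t2 := st (i + 1) (2 • A + Pi.single 0 (B 0 - 2 * A 0)) 1 (B 1 - 2 * A 1)
        (fun l => by
          have a := c2 0
          have b := c1 1
          rw [gp_apply] at a b ⊢
          fin_cases l
          · simpa using a
          · simpa using b) (by have := s 1; omega)
      rw [← e2] at t2
      refine ma.mono (ma.trans hd ih (ma.trans hd t1 t2)) subset_rfl ?_
      rw [pow_succ]
      have : 0 < K * (50 / 81) ^ i := by positivity
      linarith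
  have u0 : u ∈ U := sub fun i => by simpa using z2 j
  have lim : Tendsto (fun i : ℕ => gp (j - i) (fz (j - i) u)) atTop (𝓝 u) := by
    rw [tendsto_iff_dist_tendsto_zero]
    have l := (tendsto_pow_atTop_nhds_zero_of_lt_one (r := (1 / 2 : ℝ)) (by norm_num)
      (by norm_num)).const_mul (2 * 2 ^ j)
    rw [mul_zero] at l
    refine squeeze_zero (fun _ => dist_nonneg) (fun i => ?_) l
    refine (dist_le_of (z2 (j - i)).le fun l => ((ma.cell (j - i) u).1 l).le).trans (le_of_eq ?_)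
    rw [zpow_sub₀ two_ne_zero, zpow_natCast, one_div, inv_pow]
    push_cast
    ring
  obtain ⟨i, hi⟩ := (lim.eventually (ma.near hd Uo u0 K0)).exists
  refine ma.mono (ma.trans hd hi (ma.symm (key i))) subset_rfl ?_
  have : 0 < K * (50 / 81) ^ i := by positivity
  linarith

theorem conn (ma : MA) {g : R2 → ℝ} {z : Z2} {ρ a R : ℤ} {G : Z2 → ℝ} {x : ℝ} (hd : IsMet d)
    (hd' : IsMet d') (hc : Cmp d' d g) (h : NIc lm d' μ k n D) (hG : GRc μ)
    (hu : Bx u (2 ^ (k - n)) ⊆ D) (hu' : Bx u' (2 ^ (k - n)) ⊆ D) (hρ : -1 ≤ ρ) (hR : ρ + 1 ≤ R)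
    (ha : Near a (fz (k - n) u) (fz (k - n) u')) (h1 : ¬ Near ρ z (fz (k - n) u))
    (h2 : ¬ Near ρ z (fz (k - n) u')) (h3 : Near R z (fz (k - n) u))
    (h4 : Near R z (fz (k - n) u')) (hD : ∀ q, ¬ Near ρ z q → Near R z q → gp (k - n) q ∈ D)
    (hf : ∀ q y, Near R z q → y ∈ Bx (gp (k - n) q) (2 ^ (18 + 4 * lm) * 2 ^ k) → g y ≤ G q)
    (hx : ∀ (q : Z2) (e : Fin 2) (m : ℕ), (m : ℤ) ≤ a + 2 * ρ + 3 →
      (∀ i < m, Near R z (q + Pi.single e (i : ℤ)) ∧
        Near (a + 2 * ρ + 2) (fz (k - n) u) (q + Pi.single e (i : ℤ))) →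
      ∑ i ∈ range m, exp (G (q + Pi.single e (i : ℤ))) ≤ x) :
    d u u' ≤ 100 * (900 * exp (2 * lm) * μ (k - n) * (10 / 9) ^ n) * x := by
  have μ0 := (hG (k - n) 0).1
  have ed := fun q hq e => edge (q := q) ma h hG 0 hq e
  simp only [Nat.cast_zero, sub_zero, pow_zero, mul_one] at ed
  have dd := fun w hw => dm (u := w) ma hd' h hG hw
  obtain ⟨c, hK⟩ : ∃ c, c = 900 * exp (2 * lm) * μ (k - n) * (10 / 9 : ℝ) ^ n := ⟨_, rfl⟩
  have c0 : 0 < c := by rw [hK]; positivity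
  rw [← hK] at ed dd ⊢
  have a0 := near_nonneg ha
  have b1 := big lm k n 17
  have b2 : (2 : ℝ) ^ (16 + 4 * lm) * 2 ^ k ≤ 2 ^ (18 + 4 * lm) * 2 ^ k :=
    mul_le_mul_of_nonneg_right (pow_le_pow_right₀ one_le_two (by omega)) (z2 k).le
  have en : ∀ w, Bx w (2 ^ (k - n)) ⊆ D → Near R z (fz (k - n) w) →
      Near (a + 2 * ρ + 2) (fz (k - n) u) (fz (k - n) w) →
      d w (gp (k - n) (fz (k - n) w)) ≤ 44 * c * x := fun w k1 k2 k3 => by
    have e := hx (fz (k - n) w) 0 1 (by omega) fun i hi => by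
      rw [show i = 0 by omega, Nat.cast_zero, Pi.single_zero, add_zero]; exact ⟨k2, k3⟩
    simp only [range_one, sum_singleton, Nat.cast_zero, Pi.single_zero, add_zero] at e
    have e1 := ma.le hd (hc _ _ _ _ (G (fz (k - n) w))
      (fun y hy => hf _ y k2 (bx_tri (ma.cell _ w).2 hy b1)) (dd w k1))
    linarith [mul_le_mul_of_nonneg_left e c0.le]
  obtain ⟨S, s1, s2, s3⟩ := GU.rt _ _ z ρ a R hρ hR ha h1 h2 h3 h4
  have s4 := s3 (fun q => exp (G q)) x (fun _ => (exp_pos _).le) hx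
  have mid := chain hd (gp (k - n)) (fun q => exp (G q) * c) (fun q => by positivity) _ _ S _ rfl s1
    fun q hq e => (ma.le hd (hc _ _ _ _ (G q) (fun y hy => hf q y (s2 q hq).2.1 (bx_mono hy b2))
      (ed q (hD q (s2 q hq).1 (s2 q hq).2.1) e))).le
  rw [← sum_mul] at mid
  have f1 := en u hu h3 (near_refl (by omega) _)
  have f2 := en u' hu' h4 (near_mono ha (by omega))
  rw [hd.symm] at f2
  have f3 : 0 < exp (G (fz (k - n) u)) * c := by positivity
  linarith [hd.tri u (gp (k - n) (fz (k - n) u)) u',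
    hd.tri (gp (k - n) (fz (k - n) u)) (gp (k - n) (fz (k - n) u')) u',
    mul_le_mul_of_nonneg_left s4 c0.le]

theorem conn0 (ma : MA) {a : ℕ} (hd : IsMet d) (h : NIc lm d μ k n D) (hG : GRc μ)
    (ha : u' ∈ Bx u (2 ^ (k - n) * a)) (hD : Bx u (2 ^ (k - n) * (a + 2)) ⊆ D) :
    d u u' ≤ 100 * (900 * exp (2 * lm) * μ (k - n) * (10 / 9) ^ n) * (a + 2) := by
  have c := z2 (k - n)
  have a0 : (0 : ℝ) ≤ 2 ^ (k - n) * a := by positivity
  refine conn ma (g := fun _ => 0) (G := fun _ => 0) hd hd (fun U v w x t ht hT => ?_) h hG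
    (fun y hy => hD (bx_mono hy (by linarith))) (fun y hy => hD (bx_tri ha hy (by linarith)))
    (z := fz (k - n) u) (ρ := -1) (R := a + 1) le_rfl (by omega) (fz_near ha)
    (fun k => by simpa using near_nonneg k) (fun k => by simpa using near_nonneg k)
    (near_refl (by omega) _) (fz_near ha) (fun q _ hq => hD fun i => ?_) (fun _ _ _ _ => le_rfl)
    fun q e m hm _ => ?_
  · have m := ma.mem hT
    exact ma.mono hT subset_rfl (le_mul_of_one_le_left m.2.2.le (one_le_exp (ht v m.1)))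
  · have b1 := (ma.cell (k - n) u).1 i
    have b2 : |((fz (k - n) u i - q i : ℤ) : ℝ)| ≤ ((a + 1 : ℤ) : ℝ) := by exact_mod_cast hq i
    push_cast at b2
    have b3 := mul_le_mul_of_nonneg_left b2 c.le
    rw [← abs_of_pos c, ← abs_mul, abs_of_pos c, mul_sub, abs_sub_comm] at b3
    rw [gp_apply] at b1 ⊢
    linarith [abs_sub_le (2 ^ (k - n) * (q i : ℝ)) (2 ^ (k - n) * (fz (k - n) u i : ℝ)) (u i)]
  · simp only [exp_zero, sum_const, card_range, nsmul_eq_mul, mul_one]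
    exact_mod_cast (show (m : ℤ) ≤ a + 2 by omega)

theorem cross (ma : MA) {l : ℝ} (hd : IsMet d) (h : NIc lm d μ k n D) (μ0 : 0 < μ (k - n))
    (hl : 5 ≤ l) (hu : u' ∉ Bx u (2 ^ (k - n) * l)) (hD : Bx u (2 ^ (k - n) * l) ⊆ D) :
    l * μ (k - n) / (33 * exp (2 * lm) * (10 / 9) ^ n) ≤ d u u' := by
  have c := z2 (k - n)
  refine le_trans (le_of_eq ?_) (ma.cr (j := k - n)
    (m := μ (k - n) / (3 * exp (2 * lm) * (10 / 9) ^ n)) hd (by positivity) (by nlinarith) hu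
    fun q hq => (h n le_rfl q (hD hq)).1)
  field_simp
  ring

end CxL

theorem cx (ma : MA) : CX :=
  ⟨CxL.cross ma, CxL.dm ma, CxL.conn ma, CxL.conn0 ma⟩

end Pool.Agent.GC
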