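import Pool.Agent.Lib.MP_438f30_pr.C.St
import Pool.Agent.Lib.MP_438f30_pr.GDim
import Pool.Agent.Lib.MP_438f30_pr.G8a

/-! From the length of chains to the dimension of quasi-geodesics. -/

namespace Pool.Agent.GC

open Real Finset Filter Topology Pool.Agent.GL

namespace DimL

/-- the distance in the sup norm -/
noncomputable def sn (u v : R2) : ℝ := dist u.ofLp v.ofLp

theorem mem {u v : R2} {r : ℝ} (hr : 0 < r) : u ∈ Bx v r ↔ sn u v < r := by
  rw [sn, dist_pi_lt_iff hr]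
  rfl

theorem tri (u v w : R2) : sn u w ≤ sn u v + sn v w := dist_triangle _ _ _

theorem comm (u v : R2) : sn u v = sn v u := dist_comm _ _

theorem le_dist (u v : R2) : sn u v ≤ dist u v :=
  (dist_pi_le_iff dist_nonneg).2 fun i => PiLp.dist_apply_le u v i

theorem dist_le (u v : R2) : dist u v ≤ 2 * sn u v := by
  rw [EuclideanSpace.dist_eq, Fin.sum_univ_two, sn]
  have a := dist_le_pi_dist u.ofLp v.ofLp 0
  have b := dist_le_pi_dist u.ofLp v.ofLp 1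
  have a0 : 0 ≤ dist (u.ofLp 0) (v.ofLp 0) := dist_nonneg
  have b0 : 0 ≤ dist (u.ofLp 1) (v.ofLp 1) := dist_nonneg
  exact Real.sqrt_le_iff.2 ⟨by positivity, by nlinarith⟩

variable {S : Set R2} {d : Mt} {p : ℝ → R2} {l : ℝ}

theorem gap (hd : IsMet d) (hp : Lip d p l) {ρ : ℝ} (h : 0 < ρ) : ∃ δ > (0 : ℝ),
    ∀ s ∈ Set.Icc 0 l, ∀ t ∈ Set.Icc 0 l, |s - t| < δ → sn (p s) (p t) < ρ := by
  obtain ⟨δ, δ0, hδ⟩ := Metric.uniformContinuousOn_iff.1
    (isCompact_Icc.uniformContinuousOn_of_continuous (mg1.cont hd hp)) ρ h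
  exact ⟨δ, δ0, fun s hs t ht e => (le_dist _ _).trans_lt (hδ s hs t ht e)⟩

theorem pert (hd : IsMet d) (hS : Dense S) {ε : ℝ} (h : 0 < ε) (x : R2) :
    ∃ y ∈ S, d x y < ε ∧ sn y x < ε := by
  have o : IsOpen {b | d x b < ε} :=
    isOpen_lt (hd.cont.comp (continuous_const.prodMk continuous_id)) continuous_const
  obtain ⟨y, a, b, c⟩ := hS.exists_mem_open (o.inter (Metric.isOpen_ball (x := x) (ε := ε)))
    ⟨x, by simp [hd.self, h], Metric.mem_ball_self h⟩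
  exact ⟨y, a, b, (le_dist _ _).trans_lt c⟩

/-- chains of points of the curve are short -/
theorem short (hd : IsMet d) (hS : Dense S) (hq : QG d 4 p l) {h R r B : ℝ} (h0 : 0 < h)
    (r0 : 0 < r) (hE : Ev' S d 5 h R r B) {T : ℕ} {t : ℕ → ℝ} (h1 : ∀ i ≤ T, t i ∈ Set.Icc 0 l)
    (h2 : ∀ i < T, t i ≤ t (i + 1) ∧ sn (p (t (i + 1))) (p (t i)) = 21 * 2 ^ 15 * h)
    (h3 : ∀ i ≤ T, sn (p (t i)) 0 ≤ R - 1)
    (h4 : ∀ i ≤ T, ∀ j ≤ T, sn (p (t i)) (p (t j)) < r / 2) : (T : ℝ) ≤ B := by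
  obtain ⟨δ, δ0, hδ⟩ := gap hd hq.1 (show 0 < 21 * 2 ^ 15 * h by positivity)
  obtain ⟨ε, ε0, e1, e2, e3, e4⟩ : ∃ ε > (0 : ℝ), ε ≤ h ∧ ε ≤ 1 ∧ ε ≤ r / 4 ∧
      ε ≤ δ / (4 * (2 * T + 10)) :=
    ⟨min (min h 1) (min (r / 4) (δ / (4 * (2 * T + 10)))), by positivity,
      (min_le_left _ _).trans (min_le_left _ _), (min_le_left _ _).trans (min_le_right _ _),
      (min_le_right _ _).trans (min_le_left _ _), (min_le_right _ _).trans (min_le_right _ _)⟩
  rw [le_div_iff₀ (by positivity)] at e4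
  choose y y1 y2 y3 using fun i => pert hd hS ε0 (p (t i))
  have up (a b : ℕ) : sn (y a) (y b) < sn (p (t a)) (p (t b)) + 2 * ε := by
    have := tri (y a) (p (t a)) (y b)
    have := tri (p (t a)) (p (t b)) (y b)
    linarith [y3 a, y3 b, comm (y b) (p (t b))]
  have lo (a b : ℕ) : sn (p (t a)) (p (t b)) < sn (y a) (y b) + 2 * ε := by
    have := tri (p (t a)) (y a) (p (t b))
    have := tri (y a) (y b) (p (t b))
    linarith [y3 a, y3 b, comm (y a) (p (t a))]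
  have gp (i : ℕ) (hi : i < T) : δ ≤ t (i + 1) - t i := le_of_not_gt fun e =>
    (hδ _ (h1 _ hi) _ (h1 _ hi.le) (by rwa [abs_of_nonneg (sub_nonneg.2 (h2 i hi).1)])).ne
      (h2 i hi).2
  have st (i : ℕ) (hi : i < T) : d (y i) (y (i + 1)) ≤ t (i + 1) - t i + 2 * ε := by
    have a := hq.1.2 _ (h1 _ hi.le) _ (h1 _ hi)
    rw [abs_sub_comm, abs_of_nonneg (sub_nonneg.2 (h2 i hi).1)] at a
    have := hd.tri (y i) (p (t i)) (y (i + 1))
    have := hd.tri (p (t i)) (p (t (i + 1))) (y (i + 1))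
    linarith [y2 i, y2 (i + 1), hd.symm (y i) (p (t i))]
  have sm (a b : ℕ) (hab : a ≤ b) (hb : b ≤ T) : (a = b ∨ δ ≤ t b - t a) ∧
      ∑ i ∈ Ico a b, d (y i) (y (i + 1)) ≤ t b - t a + 2 * b * ε := by
    induction b, hab using Nat.le_induction with
    | base => exact ⟨Or.inl rfl, by simp; positivity⟩
    | succ b hab ih =>
      obtain ⟨i1, i2⟩ := ih (Nat.le_of_succ_le hb)
      have := gp b hb
      have := st b hb
      refine ⟨Or.inr (i1.elim (fun e => by rwa [e]) fun e => by linarith), ?_⟩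
      rw [sum_Ico_succ_top hab]
      push_cast
      linarith
  refine hE T y (fun s _ => y1 s) (fun a b hab hb => ?_) (fun i hi => ?_) (fun s hs => ?_)
    fun s hs s' hs' => ?_
  · obtain ⟨i1, i2⟩ := sm a b hab hb
    rcases i1 with rfl | i1
    · simp [hd.self]
    have a1 := hq.2 _ (h1 _ (hab.trans hb)) _ (h1 _ hb)
    rw [abs_sub_comm, abs_of_nonneg (δ0.le.trans i1)] at a1
    have := hd.tri (p (t a)) (y a) (p (t b))
    have := hd.tri (y a) (y b) (p (t b))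
    have := mul_le_mul_of_nonneg_right (Nat.cast_le (α := ℝ).2 hb) ε0.le
    linarith [y2 a, y2 b, hd.symm (y b) (p (t b))]
  · rw [mem (by positivity), mem (by positivity), not_lt]
    have := up (i + 1) i
    have := lo (i + 1) i
    constructor <;> linarith [(h2 i hi).2]
  · have a := tri (y s) (p (t s)) 0
    have b : sn (y s) 0 < R := by linarith [y3 s, h3 s hs]
    exact (mem (dist_nonneg.trans_lt b)).2 b
  · rw [mem r0]
    linarith [up s' s, h4 s' hs' s hs]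

/-- greedy covering of an arc -/
theorem greedy {a b ρ B : ℝ} (hab : a ≤ b) (ρ0 : 0 ≤ ρ) (hp : ContinuousOn p (Set.Icc a b))
    (hB : ∀ (T : ℕ) (t : ℕ → ℝ), (∀ i ≤ T, t i ∈ Set.Icc a b) →
      (∀ i < T, t i ≤ t (i + 1) ∧ sn (p (t (i + 1))) (p (t i)) = ρ) → (T : ℝ) ≤ B) :
    ∃ F : Finset R2, (F.card : ℝ) ≤ B + 1 ∧ ∀ s ∈ Set.Icc a b, ∃ c ∈ F, sn (p s) c ≤ ρ := by
  classical
  obtain ⟨T, h1, h2⟩ := Nat.exists_not_and_succ_of_not_zero_of_exists
    (p := fun T => ¬ ∃ t : ℕ → ℝ, (∀ i ≤ T, t i ∈ Set.Icc a b) ∧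
      (∀ i < T, t i ≤ t (i + 1) ∧ sn (p (t (i + 1))) (p (t i)) = ρ) ∧
      ∀ s ∈ Set.Icc a (t T), ∃ i ≤ T, sn (p s) (p (t i)) ≤ ρ)
    (not_not.2 ⟨fun _ => a, fun _ _ => ⟨le_rfl, hab⟩, fun _ h => absurd h (Nat.not_lt_zero _),
      fun s hs => ⟨0, le_rfl, by rw [le_antisymm hs.2 hs.1, sn, dist_self]; exact ρ0⟩⟩)
    ⟨⌈B⌉₊ + 1, fun ⟨t, a1, a2, _⟩ => by
      have := hB _ t a1 a2
      push_cast at this
      linarith [Nat.le_ceil B]⟩
  obtain ⟨t, a1, a2, a3⟩ := not_not.1 h1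
  refine ⟨(range (T + 1)).image fun i => p (t i), ?_, fun s hs => ?_⟩
  · refine (Nat.cast_le.2 card_image_le).trans ?_
    rw [card_range]
    push_cast
    linarith [hB T t a1 a2]
  have m (i : ℕ) (hi : i ≤ T) : p (t i) ∈ (range (T + 1)).image fun i => p (t i) :=
    mem_image_of_mem _ (mem_range.2 (Nat.lt_succ_of_le hi))
  rcases le_total s (t T) with e | e
  · obtain ⟨i, b1, b2⟩ := a3 s ⟨hs.1, e⟩
    exact ⟨_, m i b1, b2⟩
  refine ⟨_, m T le_rfl, le_of_not_ge fun c => h2 ?_⟩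
  have hc : ContinuousOn (fun r => sn (p r) (p (t T))) (Set.Icc (t T) s) :=
    (((PiLp.continuous_ofLp 2 _).dist continuous_const).comp_continuousOn hp).mono
      (Set.Icc_subset_Icc (a1 T le_rfl).1 hs.2)
  obtain ⟨u, u1, u2, u3⟩ := (G8a.hit e hc (by rw [sn, dist_self]; exact ρ0) c).1
  obtain ⟨v, v1, v2⟩ : ∃ v : ℕ → ℝ, (∀ i ≤ T, v i = t i) ∧ v (T + 1) = u :=
    ⟨fun i => if i ≤ T then t i else u, fun i hi => if_pos hi, if_neg (Nat.not_succ_le_self T)⟩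
  refine ⟨v, fun i hi => ?_, fun i hi => ?_, fun r hr => ?_⟩
  · rcases hi.eq_or_lt with rfl | k
    · exact v2 ▸ ⟨(a1 T le_rfl).1.trans u1.1, u1.2.trans hs.2⟩
    · exact v1 i (Nat.le_of_lt_succ k) ▸ a1 i (Nat.le_of_lt_succ k)
  · rw [v1 i (Nat.le_of_lt_succ hi)]
    rcases (Nat.le_of_lt_succ hi).eq_or_lt with rfl | k
    · exact v2 ▸ ⟨u1.1, u2⟩
    · exact v1 (i + 1) k ▸ a2 i k
  · rw [v2] at hr
    rcases le_total r (t T) with f | f
    · obtain ⟨i, b1, b2⟩ := a3 r ⟨hr.1, f⟩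
      exact ⟨i, b1.trans T.le_succ, by rwa [v1 i b1]⟩
    · exact ⟨T, T.le_succ, by rw [v1 T le_rfl]; exact u3 r ⟨f, hr.2⟩⟩

end DimL

open DimL in
theorem dim : sDim := by
  intro S β d p l hd hS hβ hE hq
  have hc := mg1.cont hd hq.1
  obtain ⟨M, hM⟩ := isCompact_Icc.exists_bound_of_continuousOn hc
  obtain ⟨j, hj⟩ := hE (⌈M⌉₊ + 1)
  obtain ⟨δ, δ0, hδ⟩ := gap hd hq.1 (show (0 : ℝ) < 1 / 2 ^ j / 2 by positivity)
  refine isCompact_Icc.induction_on (p := fun S => dimH (p '' S) ≤ ENNReal.ofReal β) (by simp)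
    (fun S T h a => (dimH_mono (Set.image_mono h)).trans a)
    (fun S T a b => by rw [Set.image_union, dimH_union]; exact max_le a b) fun t0 ht0 => ?_
  have a0 : max 0 (t0 - δ / 3) ≤ t0 := max_le ht0.1 (by linarith)
  have a1 := le_max_left 0 (t0 - δ / 3)
  have a2 := le_max_right 0 (t0 - δ / 3)
  have b0 : t0 ≤ min l (t0 + δ / 3) := le_min ht0.2 (by linarith)
  have b1 := min_le_left l (t0 + δ / 3)
  have b2 := min_le_right l (t0 + δ / 3)
  have hn : Set.Icc (max 0 (t0 - δ / 3)) (min l (t0 + δ / 3)) ∈ 𝓝[Set.Icc 0 l] t0 := by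
    rw [← Set.Icc_inter_Icc]
    exact inter_mem_nhdsWithin _ (Icc_mem_nhds (by linarith) (by linarith))
  generalize max 0 (t0 - δ / 3) = a at a0 a1 a2 hn
  generalize min l (t0 + δ / 3) = b at b0 b1 b2 hn
  have sub : Set.Icc a b ⊆ Set.Icc 0 l := Set.Icc_subset_Icc a1 b1
  refine ⟨_, hn, GDim.cover (C := 2) (r := 2 ^ 21) hβ (by norm_num) (hj.mono fun n h => ?_)⟩
  have h0 : (0 : ℝ) < 1 / 2 ^ n := by positivity
  obtain ⟨F, f1, f2⟩ := greedy (ρ := 21 * 2 ^ 15 * (1 / 2 ^ n)) (B := 2 ^ (β * n)) (a0.trans b0)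
    (by positivity) (hc.mono sub) fun T t k1 k2 =>
      short hd hS hq h0 (by positivity) h (fun i hi => sub (k1 i hi)) k2 (fun i hi => by
        have := le_dist (p (t i)) 0
        rw [dist_zero_right] at this
        push_cast
        linarith [hM _ (sub (k1 i hi)), Nat.le_ceil M])
        fun i hi i' hi' => hδ _ (sub (k1 i hi)) _ (sub (k1 i' hi')) (by
          rw [abs_lt]
          constructor <;> linarith [(k1 i hi).1, (k1 i hi).2, (k1 i' hi').1, (k1 i' hi').2])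
  refine ⟨F, ?_, ?_⟩
  · rw [rpow_def_of_pos two_pos, show log 2 * (β * n) = β * (n * log 2) by ring] at f1
    linarith [one_le_exp (mul_nonneg hβ (mul_nonneg n.cast_nonneg (log_nonneg one_le_two)))]
  · rintro _ ⟨s, hs, rfl⟩
    obtain ⟨c, c1, c2⟩ := f2 s hs
    refine ⟨c, c1, ?_⟩
    rw [div_eq_mul_one_div]
    linarith [dist_le (p s) c]

end Pool.Agent.GC
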