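import Pool.Agent.Lib.MP_438f30_pr.C.St2
import Pool.Agent.Lib.MP_438f30_pr.U.Cnt

/-! Few scales have bad sites; oscillation inside the unit cells. -/

namespace Pool.Agent.GC

open MeasureTheory Real Finset Filter Topology Pool.Agent.Lib.MP_a0a493_pr Pool.Agent.GL
open Pool.Agent.GU (Z2 FK pmono prob_fin cnt)
open scoped InnerProductSpace

namespace EnL

/-- the region that determines the event of scale `c` -/
def Un (z : Z2) (c k : ℕ) : Set R2 := Bx (pt z) (5 * 2 ^ (c + k)) \ Bx (pt z) (2 ^ (c + 16))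

theorem sub_Un (z : Z2) (c k : ℕ) (hk : 16 ≤ k) :
    ∀ y ∈ Anc z c k, Bx y (2 ^ (16 + 4 * 0) * 2 ^ (c : ℤ)) ⊆ Un z c k := by
  intro y hy x hx
  have e : (2 : ℝ) ^ (16 + 4 * 0) * 2 ^ (c : ℤ) = 2 ^ (c + 16) := by
    rw [zpow_natCast, ← pow_add, add_comm]
  rw [e] at hx
  have a : (2 : ℝ) ^ (c + 16) ≤ 2 ^ (c + k) := pow_le_pow_right₀ (by norm_num) (by omega)
  refine ⟨fun i => ?_, fun t => hy.2 fun i => ?_⟩
  · have := abs_sub_le (x i) (y i) (pt z i)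
    linarith [hx i, hy.1 i]
  · have := abs_sub_le (y i) (x i) (pt z i)
    rw [abs_sub_comm (y i) (x i)] at this
    rw [pow_succ _ (c + 16)]
    linarith [hx i, t i]

theorem far_Un (z : Z2) (C0 c c' k : ℕ) (h : c + k + (C0 + 4) ≤ c') :
    ∀ x ∈ Un z c k, ∀ y ∈ Un z c' k, (C0 : ℝ) * 2 ^ (c : ℤ) ≤ dist x y := by
  intro x hx y hy
  obtain ⟨i, hi⟩ := not_forall.1 hy.2
  refine le_trans ?_ (le_dist x y i)
  rw [zpow_natCast]
  have a1 : (2 : ℝ) ^ (c + k + (C0 + 4)) ≤ 2 ^ (c' + 16) :=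
    pow_le_pow_right₀ (by norm_num) (by omega)
  have a2 : (2 : ℝ) ^ c ≤ 2 ^ (c + k) := pow_le_pow_right₀ (by norm_num) (by omega)
  have a3 : (C0 : ℝ) < 2 ^ C0 := by exact_mod_cast Nat.lt_two_pow_self (n := C0)
  have a4 : (0 : ℝ) < 2 ^ (c + k) := by positivity
  have a5 : (0 : ℝ) ≤ C0 := Nat.cast_nonneg _
  have a6 : (1 : ℝ) ≤ 2 ^ C0 := one_le_pow₀ (by norm_num)
  have a7 := abs_sub_le (y i) (x i) (pt z i)
  rw [abs_sub_comm (y i) (x i)] at a7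
  rw [pow_add _ (c + k), pow_add _ C0] at a1
  nlinarith [mul_le_mul_of_nonneg_left a2 a5, mul_le_mul_of_nonneg_left a3.le a4.le,
    mul_le_mul_of_nonneg_left a6 a4.le, hx.1 i, not_lt.1 hi]

theorem tail {η : ℝ} {κ : ℕ} (m : ℕ) (η0 : 100 ≤ η) (hη : 3 * ((κ : ℝ) + 25) ≤ η) :
    60 * 4 ^ (κ + 22) * exp (-η - (η - 2) * m) ≤ exp (-(η / 2 * (m + 1))) := by
  have a1 : (4 : ℝ) ≤ exp (3 / 2) := by
    rw [show (3 / 2 : ℝ) = 1 + 1 / 2 by norm_num, exp_add]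
    nlinarith [exp_one_gt_d9, add_one_le_exp (1 / 2 : ℝ)]
  have a2 : (4 : ℝ) ^ (κ + 25) ≤ exp (η / 2) := by
    refine (pow_le_pow_left₀ (by norm_num) a1 _).trans ?_
    rw [← exp_nat_mul]
    refine exp_le_exp.2 ?_
    push_cast
    linarith
  have a3 : (60 : ℝ) * 4 ^ (κ + 22) ≤ exp (η / 2) := by
    rw [show κ + 25 = κ + 22 + 3 by omega, pow_add _ _ 3] at a2
    have : (0 : ℝ) < 4 ^ (κ + 22) := by positivity
    linarith
  refine (mul_le_mul_of_nonneg_right a3 (exp_pos _).le).trans ?_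
  rw [← exp_add]
  refine exp_le_exp.2 ?_
  nlinarith [mul_nonneg (show 0 ≤ η / 2 - 2 by linarith) (Nat.cast_nonneg (α := ℝ) m)]

end EnL

open EnL

theorem en : sEN := by
  intro Ω H _ _ _ P _ M η h m κ J x z hN hκ hη hx
  have η0 := h.eta
  have v := fun j i : ℕ => h.lc.ver (j * κ : ℕ) (Un z (j * κ) (κ + 20)) _
    (h.la.ni 0 i (mu M m) (j * κ : ℕ) (Anc z (j * κ) (κ + 20)) _ (sub_Un z _ _ (by omega)))
  choose G hG e using v
  have e' : ∀ᵐ ω ∂P, ∀ j i : ℕ, (NIc 0 (M.d (j * κ : ℕ) ω) (mu M m) (j * κ : ℕ) i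
      (Anc z (j * κ) (κ + 20)) ↔ ω ∈ G j i) :=
    ae_all_iff.2 fun j => ae_all_iff.2 fun i => eventuallyEq_set.1 (e j i)
  refine le_of_eq_of_le (measureReal_congr (eventuallyEq_set.2 ?_)) (cnt Ω P H M.W h.iso
    (fun j => M.K (j * κ : ℕ) (Un z (j * κ) (κ + 20)))
    (fun j => ⋃ i ≤ j, M.K (i * κ : ℕ) (Un z (i * κ) (κ + 20)))
    G (η / 2) x J (by linarith) hx ?_ ?_ ?_ hG ?_)
  · filter_upwards [e'] with ω k
    simp only [Set.mem_ofPred_eq, ENc, k]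
  · intro j v hv
    exact Set.mem_biUnion (le_refl j) hv
  · intro j j' hj v hv
    obtain ⟨i, hi, k⟩ := Set.mem_iUnion₂.1 hv
    exact Set.mem_iUnion₂.2 ⟨i, hi.trans hj, k⟩
  · intro j j' hj v hv v' hv'
    obtain ⟨i, hi, k⟩ := Set.mem_iUnion₂.1 hv'
    have a := Nat.mul_le_mul_right κ (show i + 2 ≤ j by omega)
    rw [add_mul] at a
    rw [real_inner_comm]
    exact h.o2 _ _ _ _ (by exact_mod_cast (show i * κ ≤ j * κ by omega))
      (far_Un z _ _ _ _ (by omega)) _ k _ hv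
  · intro j _ i
    refine le_of_eq_of_le (measureReal_congr (e j i).compl.symm) ((h.pa.ni P (M.d (j * κ : ℕ)) 0 i
      (κ + 22) (mu M m) (j * κ : ℕ) η (pt z) (Anc z (j * κ) (κ + 20)) (by linarith) (hN _)
      fun y hy l => (hy.1 l).trans_eq ?_).trans (tail i η0 hη))
    rw [zpow_natCast]
    ring

theorem sub (ho : sOscC) : sSub := by
  intro Ω H _ _ _ P _ M η h N e s hs
  have x0 := h.xi
  have g0 : ∀ q, gp 0 q = pt q := fun q => by simp [gp]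
  have a : ∀ c ∈ range (N + 1), P.real {ω | ∃ q, gp 0 q ∈ Bx 0 (2 ^ (e + 1) * 2 ^ (0 : ℤ)) ∧
      ∃ y ∈ Bx (pt q) 1, 40 * (M.ξ * M.C0 / 2 ^ (c : ℤ) * 1) * (1 + s) <
        |M.Y N ω y - M.Y (c : ℕ) ω y - (M.Y N ω (pt q) - M.Y (c : ℕ) ω (pt q))|} ≤
      25 * 4 ^ (e + 1) * exp (-s ^ 2) := fun c hc =>
    h.pa.grid P 0 (e + 1) 0 _ fun q => ho Ω P H M.W h.iso (bs M c (N - c))
      (fun ω y => M.Y N ω y - M.Y (c : ℕ) ω y) _ 1 s (pt q) (by positivity) one_pos hs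
      (h.ba.lip c (N - c)) (fun ω => (h.cont _ ω).sub (h.cont _ ω)) fun x => by
        have := h.ba.sum c (N - c) x
        rwa [show (c : ℤ) + ((N - c : ℕ) : ℤ) = N by have := mem_range.1 hc; omega] at this
  refine (pmono fun ω hω => ?_).trans ((prob_fin P _ _ a).trans (le_of_eq ?_))
  · by_contra k
    refine hω ⟨fun c => 40 * (M.ξ * M.C0 / 2 ^ (c : ℤ) * 1) * (1 + s), fun c => by positivity, ?_,
      fun c hc v hv => not_lt.1 fun k' => k ⟨c, mem_range.2 (by omega), fz 0 v, fun i => ?_, v,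
        ?_, k'⟩⟩
    · have b : ∀ c : ℕ, 40 * (M.ξ * M.C0 / 2 ^ (c : ℤ) * 1) * (1 + s) =
          40 * M.ξ * M.C0 * (1 + s) * (1 / 2) ^ c := fun c => by
        rw [zpow_natCast, one_div_pow]
        ring
      simp only [b, ← mul_sum]
      have := mul_le_mul_of_nonneg_left (sum_geometric_two_le (N + 1))
        (show 0 ≤ 40 * M.ξ * M.C0 * (1 + s) by positivity)
      linarith
    · have a1 := (h.ma.cell 0 v).1 i
      have a2 := abs_sub_le (gp 0 (fz 0 v) i) (v i) ((0 : R2) i)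
      have a3 : (1 : ℝ) ≤ 2 ^ e := one_le_pow₀ (by norm_num)
      rw [zpow_zero] at a1 ⊢
      rw [pow_succ]
      linarith [hv i]
    · have a1 := (h.ma.cell 0 v).2
      rwa [g0, zpow_zero] at a1
  · rw [card_range]
    push_cast
    ring

end Pool.Agent.GC
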