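import Pool.Agent.Lib.MP_438f30_pr.C.St
import Pool.Agent.Lib.MP_438f30_pr.GRed

/-! The events about chains: measurability and change of the metric. -/

namespace Pool.Agent.GC

open MeasureTheory Real Finset Filter Topology Pool.Agent.Lib.MP_a0a493_pr Pool.Agent.GL

namespace EvL

/-- extension of a finite chain by its last point -/
def ext {S : Set R2} {T : ℕ} (z : Fin (T + 1) → S) (s : ℕ) : R2 :=
  z ⟨min s T, Nat.lt_succ_of_le (min_le_right s T)⟩

theorem ev_iff (S : Set R2) (d : Mt) (K h R r b : ℝ) :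
    Ev' S d K h R r b ↔ ∀ (T : ℕ) (z : Fin (T + 1) → S), QC d K T (ext z) → Stp h T (ext z) →
      (∀ s ≤ T, ext z s ∈ Bx 0 R) → (∀ s ≤ T, ∀ s' ≤ T, ext z s' ∈ Bx (ext z s) r) →
      (T : ℝ) ≤ b := by
  refine ⟨fun H T z => H T (ext z) fun s _ => (z _).2, fun H T y hS h1 h2 h3 h4 => ?_⟩
  have e : ∀ s ≤ T, ext (fun i : Fin (T + 1) => (⟨y i, hS i (Nat.le_of_lt_succ i.2)⟩ : S)) s
      = y s := fun s hs => by simp [ext, min_eq_left hs]
  refine H T (fun i : Fin (T + 1) => (⟨y i, hS i (Nat.le_of_lt_succ i.2)⟩ : S)) ?_ ?_ ?_ ?_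
  · intro a c hac hc
    rw [e a (hac.trans hc), e c hc]
    refine le_trans (le_of_eq (sum_congr rfl fun i hi => ?_)) (h1 a c hac hc)
    have := (mem_Ico.1 hi).2
    rw [e i (by omega), e (i + 1) (by omega)]
  · intro i hi
    rw [e i hi.le, e (i + 1) hi]
    exact h2 i hi
  · intro s hs
    rw [e s hs]
    exact h3 s hs
  · intro s hs s' hs'
    rw [e s hs, e s' hs']
    exact h4 s hs s' hs'

theorem m_ev (u v : R2) : Measurable fun d : Mt => d u v :=
  (measurable_pi_apply v).comp (measurable_pi_apply u)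

theorem m_qc (K : ℝ) (T : ℕ) (y : ℕ → R2) : Measurable fun d : Mt => QC d K T y :=
  Measurable.forall fun _ => Measurable.forall fun _ => measurable_const.imp
    (measurable_const.imp (Measurable.le' (Finset.measurable_sum _ fun _ _ => m_ev _ _)
      ((m_ev _ _).const_mul K)))

theorem m_Ev {S : Set R2} (hS : S.Countable) (K h R r b : ℝ) :
    Measurable fun d : Mt => Ev' S d K h R r b := by
  have := hS.to_subtype
  simp only [ev_iff]
  exact Measurable.forall fun T => Measurable.forall fun z => (m_qc K T _).imp measurable_const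

theorem bx_mono {v : R2} {r r' : ℝ} (h : r ≤ r') : Bx v r ⊆ Bx v r' :=
  fun _ hx i => (hx i).trans_le h

theorem bx_dist {v x : R2} {r : ℝ} (h : x ∈ Bx v r) : dist x v < 2 * r := by
  have h0 := h 0
  have h1 := h 1
  have r0 : 0 < r := (abs_nonneg _).trans_lt h0
  rw [EuclideanSpace.dist_eq, Real.sqrt_lt' (by positivity), Fin.sum_univ_two, Real.dist_eq,
    Real.dist_eq]
  have a := abs_nonneg (x 0 - v 0)
  have b := abs_nonneg (x 1 - v 1)
  nlinarith

theorem loc {d d' : Mt} {g : R2 → ℝ} (hd : IsMet d) (hd' : IsMet d') (hg : Continuous g)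
    (hw : ∀ u v, ENNReal.ofReal (d' u v) = wey d (fun x => exp (g x)) Set.univ u v) (z : R2) :
    ∃ r > (0 : ℝ), ∃ m > (0 : ℝ), ∀ u ∈ Metric.ball z r, ∀ v ∈ Metric.ball z r,
      m * d u v ≤ d' u v ∧ d' u v ≤ 2 * m * d u v := by
  obtain ⟨m, m0, -, -, r, r0, -, k⟩ := GRed.lc (g := fun x => exp (g x)) hd isOpen_univ
    (continuous_exp.comp hg).continuousOn (Set.mem_univ z) (exp_pos _)
  refine ⟨r, r0, m, m0, fun u hu v hv => ?_⟩
  obtain ⟨a, b⟩ := k u hu v hv
  have n0 := mg1.nonneg hd u v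
  rw [← hw] at a b
  rw [ENNReal.ofReal_le_ofReal_iff (mg1.nonneg hd' _ _)] at a
  rw [ENNReal.ofReal_le_ofReal_iff (by positivity)] at b
  exact ⟨a, b⟩

end EvL

open EvL

theorem evm : sEvM := by
  intro S hS
  refine ⟨fun K h R r b => measurableSet_setOfPred.2 (m_Ev hS K h R r b), fun K β => ?_⟩
  refine measurableSet_setOfPred.2 ?_
  unfold EvA
  simp only [eventually_atTop]
  exact Measurable.forall fun L => Measurable.exists fun j => Measurable.exists fun N =>
    Measurable.forall fun n => measurable_const.imp (m_Ev hS _ _ _ _ _)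

theorem evw : sEvW := by
  intro S β d d' g hd hd' hg hw H L
  choose r r0 m m0 k using loc hd hd' hg hw
  obtain ⟨δ, δ0, hδ⟩ := lebesgue_number_lemma_of_metric (c := fun z => Metric.ball z (r z))
    (isCompact_closedBall (0 : R2) (2 * L)) (fun _ => Metric.isOpen_ball)
    (fun z _ => Set.mem_iUnion.2 ⟨z, Metric.mem_ball_self (r0 z)⟩)
  obtain ⟨j, hj⟩ := H L
  obtain ⟨i, hi⟩ := exists_pow_lt_of_lt_one (show 0 < δ / 2 by positivity)
    (show (1 / 2 : ℝ) < 1 by norm_num)
  have p1 : (1 : ℝ) / 2 ^ (i + j) ≤ 1 / 2 ^ j :=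
    one_div_le_one_div_of_le (by positivity) (pow_le_pow_right₀ one_le_two (by omega))
  have p2 : (1 : ℝ) / 2 ^ (i + j) ≤ 1 / 2 ^ i :=
    one_div_le_one_div_of_le (by positivity) (pow_le_pow_right₀ one_le_two (by omega))
  rw [one_div_pow] at hi
  refine ⟨i + j, hj.mono fun n hn T y hS h1 h2 h3 h4 => ?_⟩
  refine hn T y hS ?_ h2 h3 fun s hs s' hs' => bx_mono p1 (h4 s hs s' hs')
  obtain ⟨z, hz⟩ := hδ (y 0) (Metric.mem_closedBall.2 (bx_dist (h3 0 T.zero_le)).le)
  have hy : ∀ s ≤ T, y s ∈ Metric.ball z (r z) := fun s hs => hz (Metric.mem_ball.2 (by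
    have := bx_dist (h4 0 T.zero_le s hs)
    linarith))
  intro a b hab hb
  have e1 := h1 a b hab hb
  have e2 := (k z _ (hy a (hab.trans hb)) _ (hy b hb)).2
  have e3 : m z * ∑ i ∈ Ico a b, d (y i) (y (i + 1)) ≤ ∑ i ∈ Ico a b, d' (y i) (y (i + 1)) := by
    rw [mul_sum]
    refine sum_le_sum fun i hi => ?_
    have := (mem_Ico.1 hi).2
    exact (k z _ (hy i (by omega)) _ (hy (i + 1) (by omega))).1
  refine le_of_mul_le_mul_left ?_ (m0 z)
  linarith

end Pool.Agent.GC
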