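import Pool.Agent.Lib.MP_438f30_pr.C.St2
import Pool.Agent.Lib.MP_438f30_pr.C.Bl
import Pool.Agent.Lib.MP_438f30_pr.U.Ca
import Pool.Agent.Lib.MP_438f30_pr.U.Gb

/-! The number of pieces of a chain in a block. -/

namespace Pool.Agent.GC

open Real Finset Pool.Agent.Lib.MP_a0a493_pr Pool.Agent.GL
open Pool.Agent.GU (Z2 Cv Cp up cn near_mono near_tri near_up near_big near_big' up_near p2 p2_le)

namespace GbL

theorem gp0 (c : ℕ) (q : Z2) : gp ((c : ℤ) - (0 : ℕ)) q = pt (up c q) := by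
  ext i
  simp [gp, pt_apply, GU.up_apply]

theorem fz0 (c : ℕ) (z : Z2) : fz ((c : ℤ) - (0 : ℕ)) (pt z) = cn c z := by
  funext i
  have := Int.floor_div_natCast (z i : ℝ) (2 ^ c)
  simpa [fz, cn, pt_apply] using this

theorem fz_pt (w : Z2) : fz 0 (pt w) = w := by
  funext i
  simp [fz, pt_apply]

theorem fz_bx {w : Z2} {v : R2} {r : ℝ} {a : ℤ} (h : v ∈ Bx (pt w) r) (hr : r ≤ a) :
    Near a w (fz 0 v) := by
  have := BlL.fz_near (j := 0) (a := a) h (by simpa using hr)
  rwa [fz_pt] at this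

theorem big {c k : ℕ} (hk : 20 ≤ k) {u v w : R2} (h : v ∈ Bx u (4 * 2 ^ (c + k)))
    (h' : w ∈ Bx v (2 ^ (c + 18))) : w ∈ Bx u (8 * 2 ^ (c + k)) :=
  BlL.btri h h' (by
    have : (2 : ℝ) ^ (c + 18) ≤ 2 ^ (c + k) := pow_le_pow_right₀ one_le_two (by omega)
    have : (0 : ℝ) < 2 ^ (c + k) := by positivity
    linarith)

end GbL

open GbL

theorem gb (h1 : sBL) : sGB := by
  intro Cg hC
  obtain ⟨C', c1, h2⟩ := GU.ca Cg hC
  refine ⟨C', c1, fun d d' G f F μ c k T a b y z hd hd' hc hc' hQ hS hb hk hG hN hB he hf ho hx =>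
    ?_⟩
  obtain ⟨m, p, hv, hp⟩ := h1 d d' G μ c 0 k T a b y z 7 hd hd' hc hc' hQ hS hb hk hG hN hx
    fun q v hq hv => by
      rw [gp0] at hq hv ⊢
      have a0 := abs_le.1 (ho v (big hk hq hv))
      have q1 : Near (4 * 2 ^ (c + k)) z (up c q) := by
        have := fz_bx (a := 4 * 2 ^ (c + k)) hq (by push_cast; exact le_rfl)
        rwa [fz_pt] at this
      have v1 : Near (2 ^ (c + 18)) (up c q) (fz 0 v) := fz_bx hv (by push_cast; exact le_rfl)
      have a1 := abs_le.1 (hf _ (near_big' hk q1 v1))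
      have a2 := abs_le.1 (hf _ (near_big q1))
      have a3 := abs_le.1 (hB.osc 0 (Nat.zero_le _) q _ q1 (near_mono v1 (p2_le (by omega))))
      rw [Nat.add_zero] at a3
      rw [he] at a0
      rw [he, abs_le]
      constructor <;> linarith [a0.1, a0.2, a1.1, a1.2, a2.1, a2.2, a3.1, a3.2]
  simp only [gp0, he] at hp
  rw [fz0, Nat.zero_add, show (2 : ℝ) * 7 = 14 by norm_num] at hp
  have hm := h2 _ _ _ k m p (fun h q q' hq hq' hn => ?_) hB.lo hB.hi hp
  · refine hv.mono ?_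
    have : (1 : ℝ) ≤ 2 ^ k := one_le_pow₀ one_le_two
    nlinarith
  · have n1 : Near (2 ^ (min k h + 23)) q q' := by
      rcases le_total k h with e | e
      · rw [min_eq_left e]
        refine near_tri hq.symm hq' ?_
        have := p2 k
        rw [pow_add]
        omega
      · rwa [min_eq_right e]
    have a1 := abs_le.1 (hf _ (near_big (near_up hq)))
    have a2 := abs_le.1 (hf _ (near_big (near_up hq')))
    have a3 := abs_le.1 (hB.osc _ (min_le_left k h) q (up c q') (near_up hq) (by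
      rw [add_assoc, pow_add]
      exact up_near n1))
    rw [abs_le]
    constructor <;> linarith [a1.1, a1.2, a2.1, a2.2, a3.1, a3.2]

theorem bm (h1 : sBL) : sBM := by
  intro d d' G μ c k m T a b y z o hd hd' hc hc' hQ hS hb hk o0 hG hN hf hx
  have e1 : 1 ≤ exp (6 * o) := one_le_exp (by positivity)
  have c0 : (0 : ℝ) < 2 ^ (c + k) := by positivity
  obtain ⟨M, p, hv, hp, -, hq⟩ := h1 d d' G μ c m k T a b y z (2 * o) hd hd' hc hc' hQ hS hb hk hG
    hN hx fun q v hq hv => by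
      have a1 := abs_le.1 (hf v (big hk hq hv))
      have a2 := abs_le.1 (hf _ (BlL.bmono hq (by linarith)))
      rw [abs_le]
      constructor <;> linarith [a1.1, a1.2, a2.1, a2.2]
  refine hv.mono ?_
  have og : ∀ q, Near (3 * 2 ^ (m + k)) (fz (c - m) (pt z)) q →
      |G (gp (c - m) q) - G (pt z)| ≤ o := fun q hq => by
    obtain ⟨b0, -, b1, b2, b3⟩ := BlL.pw c m k hk
    refine hf _ (BlL.near_fz (j := c - m) (a := 3 * 2 ^ (m + k)) (by rwa [BlL.fz_gp]) ?_)
    push_cast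
    linarith [b2 k]
  have t1 : (1 : ℤ) < 2 ^ (m + k) := one_lt_pow₀ one_lt_two (by omega)
  have t2 := p2_le (show m + 20 ≤ m + k by omega)
  have t3 : (1 : ℝ) ≤ 2 ^ (m + k) := one_le_pow₀ one_le_two
  have t4 : (2 : ℝ) ^ (m + k) ≤ 4 ^ (k + m) := by
    rw [add_comm]
    exact pow_le_pow_left₀ zero_le_two (by norm_num) _
  have t5 : 1 ≤ exp (6 * o) * 2 ^ (m + k) := one_le_mul_of_one_le_of_one_le e1 t3
  have key : (M : ℝ) - 2 ≤ 4 * 10 ^ 6 * (exp (6 * o) * 2 ^ (m + k)) := by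
    rcases lt_or_ge M 2 with k2 | k2
    · have : (M : ℝ) ≤ 2 := by exact_mod_cast k2.le
      linarith
    obtain ⟨n, rfl⟩ : ∃ n, M = n + 2 := ⟨M - 2, by omega⟩
    have s1 := hq 0 (n + 1) (by omega) (by omega) (2 * (2 ^ (m + k) + 1))
      (4 * 2 ^ (m + k) * exp (G (pt z) + o))
      (near_tri (hp 0 (by omega)).symm (hp (n + 1) (by omega)) (by omega)) fun q e r hr hs => by
        have r1 : (r : ℝ) ≤ 4 * 2 ^ (m + k) := by
          have : (r : ℤ) ≤ 4 * 2 ^ (m + k) := by omega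
          exact_mod_cast this
        refine (sum_le_card_nsmul _ _ (exp (G (pt z) + o)) fun s hs' => exp_le_exp.2 ?_).trans ?_
        · linarith [(abs_le.1 (og _ (hs s (mem_range.1 hs')).1)).2]
        · rw [card_range, nsmul_eq_mul]
          exact mul_le_mul_of_nonneg_right r1 (exp_pos _).le
    have s2 := card_nsmul_le_sum (Ioo 0 (n + 1)) (fun l => exp (G (gp (c - m) (p l))))
      (exp (G (pt z) - o)) fun l hl => exp_le_exp.2 (by
        have := (mem_Ioo.1 hl).2
        linarith [(abs_le.1 (og _ (near_mono (hp l (by omega)) (by omega)))).1])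
    rw [Nat.card_Ioo, nsmul_eq_mul] at s2
    have e2 : exp (2 * (2 * o)) * exp (G (pt z) + o) = exp (6 * o) * exp (G (pt z) - o) := by
      rw [← exp_add, ← exp_add]
      congr 1
      ring
    refine le_of_mul_le_mul_right ?_ (exp_pos (G (pt z) - o))
    simp only [Nat.sub_zero, Nat.add_sub_cancel] at s2
    push_cast
    calc _ = (n : ℝ) * exp (G (pt z) - o) := by ring
      _ ≤ _ := s2.trans s1
      _ = 4 * 10 ^ 6 * 2 ^ (m + k) * (exp (2 * (2 * o)) * exp (G (pt z) + o)) := by ring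
      _ = _ := by rw [e2]; ring
  nlinarith [mul_le_mul_of_nonneg_left t4 (exp_pos (6 * o)).le]

end Pool.Agent.GC
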