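import Pool.Agent.Lib.MP_438f30_pr.C.St

/-! The weights of an almost cheapest chain are spread out. -/

namespace Pool.Agent.GC

open MeasureTheory Real Finset Filter Topology Pool.Agent.Lib.MP_a0a493_pr Pool.Agent.GL
open scoped InnerProductSpace

namespace GiL

theorem btri {x y z : R2} {r s t : ℝ} (h : y ∈ Bx x r) (h' : z ∈ Bx y s) (k : r + s ≤ t) :
    z ∈ Bx x t := fun i => by
  have a := h i
  have b := h' i
  have c := abs_sub_le (z i) (y i) (x i)
  linarith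

theorem bsymm {x y : R2} {r : ℝ} (h : y ∈ Bx x r) : x ∈ Bx y r := fun i => by
  rw [abs_sub_comm]; exact h i

variable {H : Type} [NormedAddCommGroup H] [InnerProductSpace ℝ H] {a : ℤ → R2 → H} {C0 : ℕ}

open Classical in
theorem band (bz : BZ a C0) (b : ℤ) {m : ℕ} {u : ℕ → R2} {q : ℕ → ℝ} (q0 : ∀ l < m, 0 ≤ q l)
    (q1 : ∑ l ∈ range m, q l = 1) {β : ℝ}
    (h : ∀ l < m, ∑ l' ∈ (range m).filter (fun l' => u l' ∈ Bx (u l) (C0 * 2 ^ b)), q l' ≤ β) :
    ‖∑ l ∈ range m, q l • a b (u l)‖ ^ 2 ≤ C0 ^ 2 * β := by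
  rw [← real_inner_self_eq_norm_sq, sum_inner, ← one_mul (_ * β), ← q1, sum_mul]
  refine sum_le_sum fun v hv => ?_
  have hv' := mem_range.1 hv
  rw [real_inner_smul_left, inner_sum]
  refine mul_le_mul_of_nonneg_left (le_trans ?_
    (mul_le_mul_of_nonneg_left (h v hv') (by positivity))) (q0 v hv')
  rw [mul_sum, ← sum_subset (filter_subset (fun l' => u l' ∈ Bx (u v) (C0 * 2 ^ b)) (range m))
    fun w hw hw' => ?_]
  · refine sum_le_sum fun w hw => ?_
    rw [real_inner_smul_right, mul_comm]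
    refine mul_le_mul_of_nonneg_right ((real_inner_le_norm _ _).trans ?_)
      (q0 w (mem_range.1 (mem_filter.1 hw).1))
    rw [sq]
    exact mul_le_mul (bz.nrm ..) (bz.nrm ..) (norm_nonneg _) (by positivity)
  · obtain ⟨i, hi⟩ := not_forall.1 fun k => hw' (mem_filter.2 ⟨hw, k⟩)
    rw [real_inner_smul_right, bz.far b _ _ (le_trans ?_ (abs_le_norm2 _ i)), mul_zero]
    rw [PiLp.sub_apply, abs_sub_comm]
    exact not_lt.1 hi

theorem chain {d : Mt} (hd : IsMet d) {m : ℕ} {u : ℕ → R2} {c : ℕ → ℝ} {κ : ℝ}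
    (hc : ∀ l < m, 0 ≤ c l ∧ d (u l) (u (l + 1)) ≤ κ * c l) {s t : ℕ} (hs : s ≤ t) (ht : t ≤ m) :
    d (u s) (u t) ≤ κ * ∑ l ∈ Ico s t, c l := by
  induction t, hs using Nat.le_induction with
  | base => simp [hd.self]
  | succ t hs ih =>
    rw [sum_Ico_succ_top hs, mul_add]
    have := hd.tri (u s) (u t) (u (t + 1))
    linarith [ih (by omega), (hc t (by omega)).2]

open Classical in
/-- the mass of a set of indices -/
theorem mass {d : Mt} (hd : IsMet d) {m : ℕ} {u : ℕ → R2} {c : ℕ → ℝ} {κ X : ℝ} (k1 : 1 ≤ κ)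
    (hc : ∀ l < m, 0 ≤ c l ∧ d (u l) (u (l + 1)) ≤ κ * c l)
    (hC : ∑ l ∈ range m, c l ≤ κ * d (u 0) (u m)) (X0 : 0 ≤ X) {F : Finset ℕ} (hF : F ⊆ range m)
    (hX : ∀ s ∈ F, ∀ t ∈ F, d (u s) (u (t + 1)) ≤ X) :
    ∑ l ∈ F, c l ≤ (κ ^ 2 - 1) * ∑ l ∈ range m, c l + X := by
  have C0 : 0 ≤ ∑ l ∈ range m, c l := sum_nonneg fun l hl => (hc l (mem_range.1 hl)).1
  have k2 : 0 ≤ κ ^ 2 - 1 := by nlinarith
  rcases F.eq_empty_or_nonempty with rfl | ne
  · rw [sum_empty]; positivity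
  have m0 := F.min'_mem ne
  have m1 := F.max'_mem ne
  have le := F.min'_le _ m1
  have lt := mem_range.1 (hF m1)
  have s1 : ∑ l ∈ F, c l ≤ ∑ l ∈ Ico (F.min' ne) (F.max' ne + 1), c l :=
    sum_le_sum_of_subset_of_nonneg
      (fun l hl => mem_Ico.2 ⟨F.min'_le _ hl, Nat.lt_succ_of_le (F.le_max' _ hl)⟩)
      fun l hl _ => (hc l (by have := (mem_Ico.1 hl).2; omega)).1
  have F0 : 0 ≤ ∑ l ∈ F, c l := sum_nonneg fun l hl => (hc l (mem_range.1 (hF hl))).1
  have t1 := chain hd hc (Nat.zero_le (F.min' ne)) (by omega)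
  have t2 := chain hd hc (show F.max' ne + 1 ≤ m by omega) le_rfl
  have t3 := hX _ m0 _ m1
  have t4 := hd.tri (u 0) (u (F.min' ne)) (u m)
  have t5 := hd.tri (u (F.min' ne)) (u (F.max' ne + 1)) (u m)
  have e1 := sum_Ico_consecutive c (Nat.zero_le (F.min' ne))
    (show F.min' ne ≤ F.max' ne + 1 by omega)
  have e2 := sum_Ico_consecutive c (Nat.zero_le (F.max' ne + 1)) (show F.max' ne + 1 ≤ m by omega)
  rw [← range_eq_Ico m] at e2
  generalize ∑ l ∈ Ico (F.min' ne) (F.max' ne + 1), c l = I at *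
  generalize ∑ l ∈ range m, c l = C at *
  generalize ∑ l ∈ F, c l = J at *
  have t6 : d (u 0) (u m) ≤ κ * (C - J) + X := by
    have : κ * (∑ l ∈ Ico 0 (F.min' ne), c l + ∑ l ∈ Ico (F.max' ne + 1) m, c l) ≤ κ * (C - J) :=
      mul_le_mul_of_nonneg_left (by linarith) (by linarith)
    linarith
  have t7 : C ≤ κ * (κ * (C - J) + X) := hC.trans (mul_le_mul_of_nonneg_left t6 (by linarith))
  have k3 : 0 < κ ^ 2 := by positivity
  refine le_of_mul_le_mul_left ?_ k3
  have a1 : κ * X ≤ κ ^ 2 * X := mul_le_mul_of_nonneg_right (by nlinarith) X0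
  have a2 : (κ ^ 2 - 1) * C ≤ κ ^ 2 * ((κ ^ 2 - 1) * C) :=
    le_mul_of_one_le_left (mul_nonneg k2 C0) (by linarith)
  nlinarith

theorem e4 (lm : ℕ) : exp (2 * lm) * exp (2 * lm) * (50 / 81 : ℝ) ^ (9 * lm) ≤ 1 := by
  have h : exp (2 * lm) * exp (2 * lm) = (exp 1 ^ 4) ^ lm := by
    rw [← exp_add, ← pow_mul, ← exp_nat_mul]; congr 1; push_cast; ring
  rw [h, pow_mul, ← mul_pow]
  refine pow_le_one₀ (by positivity) ?_
  have := pow_le_pow_left₀ (exp_pos 1).le exp_one_lt_d9.le 4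
  refine (mul_le_mul_of_nonneg_right this (by positivity)).trans (by norm_num)

end GiL

open GiL in
theorem gi (ma : MA) (cx : CX) : sGI := by
  classical
  intro H _ _ a C0 bz d μ lm i e N m v w ρ R κ ξ u c hd hG hN h0 h1 h2 h3 hu hw hR hs k1 k2 hc hmin
  have C1 : (1 : ℝ) ≤ C0 := Nat.one_le_cast.2 bz.one
  have cn : 0 ≤ ∑ l ∈ range m, c l := sum_nonneg fun l hl => (hc l (mem_range.1 hl)).1
  rcases cn.eq_or_lt with c0 | c0
  · rw [← c0]
    simp only [div_zero, zero_smul, sum_const_zero, norm_zero]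
    rw [zero_pow two_ne_zero]
    positivity
  have hC : ∑ l ∈ range m, c l ≤ κ * d (u 0) (u m) := by
    rw [← div_le_iff₀' (by linarith)]
    refine le_of_forall_gt_imp_ge_of_dense fun y hy => ?_
    rw [div_le_iff₀' (by linarith)]
    exact hmin y ⟨_, _, hu, hw, hy⟩
  have hD : d (u 0) (u m) ≤ κ * ∑ l ∈ range m, c l := by
    rw [range_eq_Ico]; exact chain hd hc (Nat.zero_le m) le_rfl
  have q1 : ∑ l ∈ range m, c l / ∑ l ∈ range m, c l = 1 := by rw [← sum_div]; exact div_self c0.ne'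
  have tv : u m ∉ Bx (u 0) 1 := fun k' => by
    have k3 : u m ∈ Bx v (ρ + 1) := hu.elim
      (fun e' j => by have := k' j; rw [e'] at this; linarith) fun e' => btri e' k' le_rfl
    rcases hw with e' | ⟨j, hj⟩
    · exact h3 (e' ▸ k3)
    · linarith [k3 j]
  have e1 : (1 : ℝ) ≤ 2 ^ e := one_le_pow₀ one_le_two
  have sub : ∀ l r, r ≤ 1 → Bx (u l) r ⊆ Bx v (4 * 2 ^ e) := fun l r hr y hy =>
    btri (hR l) hy (by linarith)
  have k0 : 0 ≤ κ ^ 2 - 1 := by nlinarith
  have ee : ∑ l ∈ range m, (c l / ∑ l ∈ range m, c l) • ξ • ∑ n ∈ range N, a (-(n : ℕ)) (u l) =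
      ξ • ∑ n ∈ range N, ∑ l ∈ range m, (c l / ∑ l ∈ range m, c l) • a (-(n : ℕ)) (u l) := by
    rw [sum_comm, smul_sum]
    exact sum_congr rfl fun y _ => by rw [smul_comm, smul_sum]
  rw [ee, norm_smul, mul_pow, Real.norm_eq_abs, sq_abs, orth_sum _ fun b b' hb => by
    simp only [sum_inner, inner_sum, real_inner_smul_left, real_inner_smul_right,
      bz.orth (-(b : ℕ)) (-(b' : ℕ)) (by omega), mul_zero, sum_const_zero], mul_assoc, mul_assoc]
  refine mul_le_mul_of_nonneg_left ?_ (sq_nonneg _)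
  refine (sum_le_sum (g := fun n => (C0 : ℝ) ^ 2 * ((if n < i + C0 + 4 + 9 * lm then 1 else 0) +
    (κ ^ 2 - 1) + 22300000 * C0 * if ¬ n < i + C0 + 4 + 9 * lm then (50 / 81) ^ (n - 9 * lm) else 0))
    fun n hn => band bz _ (fun l hl => div_nonneg (hc l hl).1 cn) q1 fun l hl => ?_).trans ?_
  · rw [← sum_div, div_le_iff₀ c0]
    by_cases hb : n < i + C0 + 4 + 9 * lm
    · rw [if_pos hb, if_neg (not_not.2 hb)]
      have : ∑ l' ∈ (range m).filter (fun l' => u l' ∈ Bx (u l) (C0 * 2 ^ (-(n : ℕ) : ℤ))), c l' ≤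
          ∑ l ∈ range m, c l := sum_le_sum_of_subset_of_nonneg (filter_subset _ _)
            fun l hl _ => (hc l (mem_range.1 hl)).1
      nlinarith [mul_nonneg k0 cn]
    rw [if_neg hb, if_pos hb]
    have hn' := mem_range.1 hn
    have n1 : 2 * C0 + 5 ≤ 2 ^ n := by
      have a1 := Nat.lt_two_pow_self (n := C0)
      have a2 := Nat.pow_le_pow_right two_pos (show C0 + 3 ≤ n by omega)
      rw [pow_add] at a2
      omega
    have n2 : 2 * (C0 : ℝ) + 5 ≤ 2 ^ n := by exact_mod_cast n1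
    have p0 : (0 : ℝ) < 2 ^ n := by positivity
    have z1 : (2 : ℝ) ^ (-(n : ℕ) : ℤ) = (2 ^ n)⁻¹ := by rw [zpow_neg, zpow_natCast]
    have z2 : (2 : ℝ) ^ ((0 : ℤ) - (n : ℕ)) = (2 ^ n)⁻¹ := by rw [zero_sub, z1]
    have z3 : (1 : ℝ) / 2 ^ N ≤ (2 ^ n)⁻¹ := by
      rw [one_div]
      exact inv_anti₀ p0 (pow_le_pow_right₀ one_le_two hn'.le)
    have nc : NIc lm d μ 0 n (Bx v (4 * 2 ^ e)) := fun n' h' => hN n' (by omega)
    have μ0 := (hG (0 - (n : ℕ)) 0).1
    have N1 : (1 : ℝ) ≤ N := Nat.one_le_cast.2 (by omega)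
    have k3 : κ ≤ 3 / 2 := by nlinarith
    have s1 := cx.cross (u := u 0) (u' := u m) (l := 2 ^ n) hd nc μ0 (by linarith)
      (by rwa [z2, inv_mul_cancel₀ p0.ne']) (sub _ _ (by rw [z2, inv_mul_cancel₀ p0.ne']))
    have s2 := mass hd k1 hc hC (X := 100 * (900 * exp (2 * lm) * μ (0 - (n : ℕ)) * (10 / 9) ^ n) *
      ((2 * C0 + 1 : ℕ) + 2)) (by positivity)
      (filter_subset (fun l' => u l' ∈ Bx (u l) (C0 * 2 ^ (-(n : ℕ) : ℤ))) (range m))
      fun s hs' t ht => cx.conn0 hd nc hG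
        (btri (btri (bsymm (mem_filter.1 hs').2) (mem_filter.1 ht).2 le_rfl)
          (hs t (mem_range.1 (mem_filter.1 ht).1)) (by rw [z1, z2]; push_cast; linarith))
        (sub _ _ (by rw [z2, inv_mul_le_iff₀ p0]; push_cast; linarith))
    refine s2.trans ?_
    obtain ⟨n', rfl⟩ : ∃ n', n = 9 * lm + n' := ⟨n - 9 * lm, by omega⟩
    rw [Nat.add_sub_cancel_left]
    have e2 : (10 / 9 : ℝ) ^ (9 * lm + n') * (10 / 9) ^ (9 * lm + n') =
        2 ^ (9 * lm + n') * ((50 / 81) ^ (9 * lm) * (50 / 81) ^ n') := by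
      rw [← pow_add (50 / 81 : ℝ), ← mul_pow, ← mul_pow]; norm_num
    have e3 := e4 lm
    have x0 := exp_pos (2 * lm)
    have t0 : (0 : ℝ) < (10 / 9) ^ (9 * lm + n') := by positivity
    have r0 : (0 : ℝ) < (50 / 81) ^ n' := by positivity
    have s3 := s1.trans (hD.trans (mul_le_mul_of_nonneg_right k3 cn))
    rw [div_le_iff₀ (by positivity)] at s3
    generalize μ (0 - ((9 * lm + n' : ℕ) : ℤ)) = M at *
    generalize (10 / 9 : ℝ) ^ (9 * lm + n') = t at *
    generalize (2 : ℝ) ^ (9 * lm + n') = p at *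
    generalize exp (2 * lm) = x at *
    generalize (50 / 81 : ℝ) ^ n' = r at *
    generalize (50 / 81 : ℝ) ^ (9 * lm) = r' at *
    generalize ∑ l ∈ range m, c l = C at *
    have s4 : x * M * t ≤ 49.5 * (r * C) := by
      refine le_of_mul_le_mul_left ?_ p0
      have b1 := mul_le_mul_of_nonneg_right s3 (mul_pos x0 t0).le
      have b2 : 3 / 2 * C * (33 * x * t) * (x * t) = 49.5 * (p * (r * C)) * (x * x * r') := by
        calc _ = 49.5 * C * (x * x) * (t * t) := by ring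
          _ = _ := by rw [e2]; ring
      have b3 := mul_le_mul_of_nonneg_left e3 (show 0 ≤ 49.5 * (p * (r * C)) by positivity)
      nlinarith
    have s5 : 0 ≤ x * M * t := by positivity
    have s6 := mul_le_mul_of_nonneg_left s4 (show (0 : ℝ) ≤ C0 by positivity)
    have s7 := mul_le_mul_of_nonneg_right C1 s5
    have s8 : 0 ≤ C0 * (r * C) := by positivity
    push_cast
    nlinarith
  · rw [← mul_sum, sum_add_distrib, sum_add_distrib, ← mul_sum, sum_boole, ← sum_filter, sum_const,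
      card_range, nsmul_eq_mul]
    have a1 : (((range N).filter fun n => n < i + C0 + 4 + 9 * lm).card : ℝ) ≤
        i + C0 + 4 + 9 * lm := by
      have : ((range N).filter fun n => n < i + C0 + 4 + 9 * lm) ⊆ range (i + C0 + 4 + 9 * lm) :=
        fun b hb => mem_range.2 (mem_filter.1 hb).2
      have := card_le_card this
      rw [card_range] at this
      exact_mod_cast this
    have a2 := GLA.geo_le (r := 50 / 81) (by norm_num) (by norm_num)
      ((range N).filter fun n => ¬ n < i + C0 + 4 + 9 * lm)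
      (g := fun j => j - 9 * lm) fun x hx y hy e => by
        have := (mem_filter.1 hx).2
        have := (mem_filter.1 hy).2
        simp only at e
        omega
    have i0 : (0 : ℝ) ≤ i := Nat.cast_nonneg i
    have l0 : (0 : ℝ) ≤ lm := Nat.cast_nonneg lm
    rw [pow_succ (C0 : ℝ) 2, mul_assoc ((C0 : ℝ) ^ 2)]
    refine mul_le_mul_of_nonneg_left ?_ (sq_nonneg (C0 : ℝ))
    have a3 := mul_le_mul_of_nonneg_left a2 (show (0 : ℝ) ≤ 22300000 * C0 by positivity)
    have a4 := mul_le_mul_of_nonneg_right C1 (add_nonneg i0 l0)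
    have a5 : (1 - 50 / 81 : ℝ)⁻¹ = 81 / 31 := by norm_num
    rw [a5] at a3
    nlinarith

end Pool.Agent.GC
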