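import Pool.Agent.Lib.MP_438f30_pr.C.St

/-! A chain of circles along a segment. -/

namespace Pool.Agent.GC

open Finset Pool.Agent.GL

namespace GlL

theorem dist_ax {e : R2} (he : ‖e‖ = 1) (a b : ℝ) : dist (a • e) (b • e) = |a - b| := by
  rw [dist_eq_norm, ← sub_smul, norm_smul, he, mul_one, Real.norm_eq_abs]

theorem meet {e : R2} (he : ‖e‖ = 1) {a r b s : ℝ} (hr : 0 < r) (h1 : a - r < b - s)
    (h2 : |a + r - b| < s) : ∃ p : R2, dist p (a • e) = r ∧ dist p (b • e) = s := by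
  have hs : 0 < s := lt_of_le_of_lt (abs_nonneg _) h2
  have hk : 1 < Module.rank ℝ R2 := by
    rw [← Module.finrank_eq_rank, finrank_euclideanSpace_fin]
    norm_num
  have hc := isPreconnected_sphere hk (a • e) r
  have m1 : (a + r) • e ∈ Metric.sphere (a • e) r := by
    rw [Metric.mem_sphere, dist_ax he, add_sub_cancel_left, abs_of_pos hr]
  have m2 : (a - r) • e ∈ Metric.sphere (a • e) r := by
    rw [Metric.mem_sphere, dist_ax he, sub_sub_cancel_left, abs_neg, abs_of_pos hr]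
  have hf : ContinuousOn (fun p : R2 => dist p (b • e)) (Metric.sphere (a • e) r) :=
    (continuous_id.dist continuous_const).continuousOn
  have := hc.intermediate_value m1 m2 hf (a := (a + r) • e) (b := (a - r) • e)
  obtain ⟨p, hp, hp'⟩ := this (show s ∈ Set.Icc _ _ from
    ⟨by rw [dist_ax he]; exact h2.le, by rw [dist_ax he, abs_of_neg (by linarith)]; linarith⟩)
  exact ⟨p, hp, hp'⟩

theorem aux (ma : MA) {d : Mt} {U : Set R2} {e : R2} (c : ℝ × ℝ → ℝ) (β : ℝ) (hd : IsMet d)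
    (he : ‖e‖ = 1) (F : Finset (ℝ × ℝ)) : ∀ α : ℝ, α ≤ β →
    (∀ I ∈ F, 0 < I.2 ∧ ∀ u u', dist u (I.1 • e) = I.2 → dist u' (I.1 • e) = I.2 →
      Tc d U u u' (c I)) → (∀ x ∈ Set.Icc α β, ∃ I ∈ F, |x - I.1| < I.2) →
    ∀ I ∈ F, |α - I.1| < I.2 → (∀ J ∈ F, |α - J.1| < J.2 → J.1 + J.2 ≤ I.1 + I.2) →
    ∀ u, dist u (I.1 • e) = I.2 → ∃ I' ∈ F, |β - I'.1| ≤ I'.2 ∧ ∃ u', dist u' (I'.1 • e) = I'.2 ∧
      Tc d U u u' (∑ J ∈ F, c J) := by
  induction F using Finset.strongInduction with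
  | H F ih =>
  intro α hαβ hF hcov I hI hα hmax u hu
  have hpos : ∀ J ∈ F, 0 ≤ c J := fun J hJ => by
    have m : dist ((J.1 + J.2) • e) (J.1 • e) = J.2 := by
      rw [dist_ax he, add_sub_cancel_left, abs_of_pos (hF J hJ).1]
    exact (ma.mem ((hF J hJ).2 _ _ m m)).2.2.le
  obtain ⟨hα1, hα2⟩ := abs_lt.1 hα
  by_cases hβ : β ≤ I.1 + I.2
  · refine ⟨I, hI, abs_le.2 ⟨by linarith, by linarith⟩, u, hu, ?_⟩
    exact ma.mono ((hF I hI).2 u u hu hu) subset_rfl (single_le_sum hpos hI)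
  push Not at hβ
  have hcov' : ∀ x ∈ Set.Icc (I.1 + I.2) β, ∃ J ∈ F.erase I, |x - J.1| < J.2 := fun x hx => by
    obtain ⟨J, hJ, hxJ⟩ := hcov x ⟨by linarith [hx.1], hx.2⟩
    refine ⟨J, mem_erase.2 ⟨fun h => ?_, hJ⟩, hxJ⟩
    subst h
    linarith [(abs_lt.1 hxJ).2, hx.1]
  obtain ⟨J0, hJ0, hJ0'⟩ := hcov' (I.1 + I.2) ⟨le_rfl, hβ.le⟩
  obtain ⟨I1, hI1, hmax1⟩ := exists_max_image ((F.erase I).filter fun J => |I.1 + I.2 - J.1| < J.2)
    (fun J => J.1 + J.2) ⟨J0, mem_filter.2 ⟨hJ0, hJ0'⟩⟩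
  obtain ⟨hI1, hr⟩ := mem_filter.1 hI1
  obtain ⟨hr1, hr2⟩ := abs_lt.1 hr
  have hl : α ≤ I1.1 - I1.2 := by
    by_contra hc
    push Not at hc
    have := hmax I1 (mem_of_mem_erase hI1) (abs_lt.2 ⟨by linarith, by linarith⟩)
    linarith
  obtain ⟨p, hp, hp'⟩ := meet he (hF I hI).1 (show I.1 - I.2 < I1.1 - I1.2 by linarith) hr
  obtain ⟨I', hI', hb, u', hu', ht⟩ := ih (F.erase I) (erase_ssubset hI) (I.1 + I.2) hβ.le
    (fun J hJ => hF J (mem_of_mem_erase hJ)) hcov' I1 hI1 hr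
    (fun J hJ hJ' => hmax1 J (mem_filter.2 ⟨hJ, hJ'⟩)) p hp'
  refine ⟨I', mem_of_mem_erase hI', hb, u', hu', ?_⟩
  rw [← add_sum_erase F c hI]
  exact ma.trans hd ((hF I hI).2 u p hu hp) ht

end GlL

theorem gl (ma : MA) : sGL := by
  intro d U e F c α β hd he hαβ hF hcov
  obtain ⟨J0, hJ0, hJ0'⟩ := hcov α ⟨le_rfl, hαβ⟩
  obtain ⟨I, hI, hmax⟩ := exists_max_image (F.filter fun J => |α - J.1| < J.2)
    (fun J => J.1 + J.2) ⟨J0, mem_filter.2 ⟨hJ0, hJ0'⟩⟩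
  obtain ⟨hI, hr⟩ := mem_filter.1 hI
  have m : dist ((I.1 + I.2) • e) (I.1 • e) = I.2 := by
    rw [GlL.dist_ax he, add_sub_cancel_left, abs_of_pos (hF I hI).1]
  obtain ⟨I', hI', hb, u', hu', ht⟩ := GlL.aux ma c β hd he F α hαβ hF hcov I hI hr
    (fun J hJ hJ' => hmax J (mem_filter.2 ⟨hJ, hJ'⟩)) _ m
  exact ⟨I, hI, I', hI', hr, hb, _, u', m, hu', ht⟩

end Pool.Agent.GC
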