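import Pool.Agent.Lib.MP_438f30_pr.C.St2
import Pool.Agent.Lib.MP_438f30_pr.NScl

/-! Invariance in law of the crossing events under scaling, translation and rotation. -/

namespace Pool.Agent.GC

open MeasureTheory Real Pool.Agent.Lib.MP_a0a493_pr Pool.Agent.GL

namespace IvL

section
variable {d d' : Mt} {r k : ℝ} {z : R2}

theorem sur (hr : 0 < r) (z : R2) : Function.Surjective fun x : R2 => r • x + z := fun x =>
  ⟨r⁻¹ • (x - z), by simp [hr.ne']⟩

theorem co (hr : 0 < r) (x : R2) (i : Fin 2) : |(r • x + z) i - z i| = |x i - (0 : R2) i| * r := by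
  simp [abs_mul, abs_of_pos hr, mul_comm]

theorem bx (hr : 0 < r) (R : ℝ) (x : R2) : r • x + z ∈ Bx z (R * r) ↔ x ∈ Bx 0 R := by
  simp only [Bx, Set.mem_ofPred_eq, co hr, mul_lt_mul_iff_left₀ hr]

theorem ot (hr : 0 < r) (R : ℝ) (x : R2) : r • x + z ∈ Ot z (R * r) ↔ x ∈ Ot 0 R := by
  simp only [Ot, Set.mem_ofPred_eq, co hr, mul_lt_mul_iff_left₀ hr]

theorem ds (hr : 0 < r) (x : R2) : dist (r • x + z) z = dist x 0 * r := by
  have := NScl.dist_eq (z := z) hr x 0
  rwa [smul_zero, zero_add, mul_comm] at this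

theorem an (hr : 0 < r) (a b R : ℝ) (x : R2) :
    r • x + z ∈ An z (a * (R * r)) (b * (R * r)) ↔ x ∈ An 0 (a * R) (b * R) := by
  simp only [An, Set.mem_ofPred_eq, ds hr, ← mul_assoc, mul_lt_mul_iff_left₀ hr]

theorem tc (hr : 0 < r) (hk : 0 < k) (h : ∀ u v, d (r • u + z) (r • v + z) = k * d' u v)
    {U U' : Set R2} (hU : ∀ x, r • x + z ∈ U ↔ x ∈ U') (u v : R2) (x : ℝ) :
    Tc d U (r • u + z) (r • v + z) (k * x) ↔ Tc d' U' u v x := by
  rw [Tc, Tc, NScl.eq hr hk h hU, ENNReal.ofReal_mul hk.le,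
    ENNReal.mul_lt_mul_iff_right (ENNReal.ofReal_pos.2 hk).ne' ENNReal.ofReal_ne_top]

theorem gd (hr : 0 < r) (hk : 0 < k) (h : ∀ u v, d (r • u + z) (r • v + z) = k * d' u v)
    (R s S : ℝ) : Gd d z (R * r) (k * s) (k * S) ↔ Gd d' 0 R s S := by
  refine and_congr ((sur hr z).forall₂.trans ?_) ((sur hr z).forall.trans
    (forall_congr' fun u => imp_congr (an hr _ _ _ _) ((sur hr z).forall.trans ?_)))
  · simp only [tc hr hk h (an hr 20 36 R)]
    simp only [ds hr, ← mul_assoc, mul_lt_mul_iff_left₀ hr]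
  · simp only [an hr, NScl.eq hr hk h (an hr 20 36 R), ENNReal.ofReal_mul hk.le,
      ENNReal.mul_le_mul_iff_right (ENNReal.ofReal_pos.2 hk).ne' ENNReal.ofReal_ne_top]

theorem ll {j : ℤ} (hk : 0 < k)
    (h : ∀ u v, d ((2 : ℝ) ^ j • u + z) ((2 : ℝ) ^ j • v + z) = k * d' u v) (x : ℝ) :
    LLc d j z (k * x) ↔ LLc d' 0 0 x := by
  have hr : (0 : ℝ) < 2 ^ j := by positivity
  have b := bx (z := z) hr 1
  rw [one_mul] at b
  refine (sur hr z).exists.trans (exists_congr fun u => and_congr ?_ ((sur hr z).exists.trans ?_))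
  · rw [b, zpow_zero]
  · simp only [ot hr, h, mul_lt_mul_iff_right₀ hk, zpow_zero, mul_one]

end

theorem nax (e : Fin 2) : ‖ax e‖ = 1 := by
  rw [EuclideanSpace.norm_eq]
  fin_cases e <;> simp [ax, pt_apply]

variable {Ω H : Type} [MeasurableSpace Ω] [NormedAddCommGroup H] [InnerProductSpace ℝ H]
  {P : Measure Ω} {M : Dat Ω H} {η : ℝ}

theorem key (h : Sc P M η) (k : ℤ) (z : R2) {p p' : Mt → Prop} (hp : LB Set.univ p)
    (e : ∀ d d' : Mt, (∀ u v, d ((2 : ℝ) ^ k • u + z) ((2 : ℝ) ^ k • v + z) =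
      exp (M.q * k) * d' u v) → (p' d ↔ p d')) :
    P.real {ω | p' (M.d k ω)} = P.real {ω | p (M.d 0 ω)} := by
  obtain ⟨B, hB, b⟩ := h.la.bor p hp
  refine congrArg ENNReal.toReal ((measure_congr ?_).trans ((h.inv k z B hB).trans
    (measure_congr ?_)))
  · filter_upwards [h.met k] with ω m
    have a : ∀ u v, M.d k ω ((2 : ℝ) ^ k • u + z) ((2 : ℝ) ^ k • v + z) = exp (M.q * k) *
        (exp (-(M.q * k)) * M.d k ω ((2 : ℝ) ^ k • u + z) ((2 : ℝ) ^ k • v + z)) := fun u v => by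
      rw [← mul_assoc, ← exp_add, add_neg_cancel, exp_zero, one_mul]
    exact propext ((e _ _ a).trans (b _ (scl.met (by positivity) (exp_pos _) a m)))
  · filter_upwards [h.met 0] with ω m
    exact propext (b _ m).symm

theorem sh (h : Sc P M η) (c w : R2) (x : ℝ) :
    P.real {ω | M.d 0 ω c (c + w) < x} = P.real {ω | M.d 0 ω 0 w < x} :=
  key h 0 c (p' := fun d => d c (c + w) < x) (h.la.dist 0 w x) fun d d' a => by
    have := a 0 w
    simp only [zpow_zero, one_smul, zero_add, Int.cast_zero, mul_zero, exp_zero, one_mul] at this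
    rw [add_comm, this]

theorem ro (h : Sc P M η) {w w' : R2} (e : ‖w‖ = ‖w'‖) (x : ℝ) :
    P.real {ω | M.d 0 ω 0 w' < x} = P.real {ω | M.d 0 ω 0 w < x} := by
  have : Fact (Module.finrank ℝ R2 = 2) := ⟨by simp⟩
  let o : Orientation ℝ R2 (Fin 2) := (EuclideanSpace.basisFun (Fin 2) ℝ).toBasis.orientation
  have := h.rot (o.rotation (o.oangle w w')) (o.det_rotation _) {d | d 0 w < x}
    (measurableSet_lt ((measurable_pi_apply w).comp (measurable_pi_apply 0)) measurable_const)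
  simp only [Set.mem_ofPred_eq, map_zero, (o.rotation_oangle_eq_iff_norm_eq w w').2 e] at this
  exact congrArg ENNReal.toReal this

end IvL

open IvL in
theorem iv : sIV := fun _ _ _ _ _ _ _ M _ h =>
  { ll := fun j v x => key h j v (p' := fun d => LLc d j v (exp (M.q * j) * x))
      ((h.la.ll 0 0 x).mono (Set.subset_univ _)) fun _ _ a => IvL.ll (exp_pos _) a x
    tc := fun j v e r x => key h j v (p' := fun d => ¬ Tc d (Bx v (r * 2 ^ j)) v
        (v + (2 : ℝ) ^ j • ax e) (exp (M.q * j) * x))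
      (LB.tc (h.ma.opn 0 r).1 (Set.subset_univ _) 0 (ax e) x).not fun _ _ a => by
        have := IvL.tc (by positivity) (exp_pos _) a (bx (by positivity) r) 0 (ax e) x
        rw [smul_zero, zero_add, add_comm] at this
        exact not_congr this
    top := fun j e x => key h j 0 (p' := fun d => d 0 ((2 : ℝ) ^ j • ax e) < exp (M.q * j) * x)
      (h.la.dist 0 (ax e) x) fun _ _ a => by
        have := a 0 (ax e)
        rw [smul_zero, add_zero, add_zero] at this
        rw [this, mul_lt_mul_iff_right₀ (exp_pos _)]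
    gd := fun j z r s S => key h j z
      (p' := fun d => ¬ Gd d z (r * 2 ^ j) (exp (M.q * j) * s) (exp (M.q * j) * S))
      ((h.la.gd 0 r s S).mono (Set.subset_univ _)).not fun _ _ a =>
        not_congr (IvL.gd (by positivity) (exp_pos _) a r s S)
    pt := fun c c' v e x => by
      rw [sh h v, ro h (w := c' - c) (by rw [norm_smul, norm_norm, nax, mul_one]), ← sh h c,
        add_sub_cancel] }

end Pool.Agent.GC
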