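import Pool.Agent.Lib.MP_438f30_pr.C.St
import Pool.Agent.Lib.MP_438f30_pr.NLnkM
import Pool.Agent.Lib.MP_438f30_pr.GBdd

/-! The events used for the continuum upper bound are local. -/

namespace Pool.Agent.GC

open MeasureTheory Real Finset Filter Topology Pool.Agent.Lib.MP_a0a493_pr Pool.Agent.GL

namespace LaL

variable {d : Mt} {S U A B : Set R2} {u t : R2} {x : ℝ}

theorem const (U : Set R2) (p : Prop) : LB U fun _ => p := MeasurableSet.const (m := ML U) p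

theorem imp {p : Prop} {q : Mt → Prop} (h : p → LB U q) : LB U fun d => p → q d := by
  by_cases hp : p
  · exact (h hp).congr fun d _ => by simp [hp]
  · exact (const U True).congr fun d _ => by simp [hp]

theorem gap (h : Tc d U u t x) : ∃ y < x, Tc d U u t y := by
  obtain ⟨y, h0, h1, h2⟩ := ENNReal.lt_iff_exists_real_btwn.1 h
  exact ⟨y, (ENNReal.ofReal_lt_ofReal_iff_of_nonneg h0).1 h2, h1⟩

theorem nearS (ma : MA) (hd : IsMet d) (hS : Dense S) (hU : IsOpen U) (hA : IsOpen A) (hu : u ∈ U)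
    (ha : u ∈ A) (hx : 0 < x) : ∃ b ∈ S, b ∈ A ∧ Tc d U u b x := by
  obtain ⟨b, h1, h2⟩ := hS.inter_nhds_nonempty ((show ∀ᶠ b in 𝓝 u, b ∈ A from hA.mem_nhds ha).and
    (ma.near hd hU hu hx))
  exact ⟨b, h1, h2⟩

theorem right (ma : MA) (hd : IsMet d) (hS : Dense S) (hU : IsOpen U) (hB : IsOpen B) (ht : t ∈ B)
    (h : Tc d U u t x) : ∃ b ∈ S, b ∈ B ∧ Tc d U u b x := by
  obtain ⟨y, h1, h2⟩ := gap h
  obtain ⟨b, h3, h4, h5⟩ := nearS ma hd hS hU hB (ma.mem h).2.1 ht (sub_pos.2 h1)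
  exact ⟨b, h3, h4, ma.mono (ma.trans hd h2 h5) subset_rfl (by linarith)⟩

theorem both (ma : MA) (hd : IsMet d) (hS : Dense S) (hU : IsOpen U) (hA : IsOpen A)
    (hB : IsOpen B) (hu : u ∈ A) (ht : t ∈ B) (h : Tc d U u t x) :
    ∃ a ∈ S, ∃ b ∈ S, a ∈ A ∧ b ∈ B ∧ Tc d U a b x := by
  obtain ⟨b, h1, h2, h3⟩ := right ma hd hS hU hB ht h
  obtain ⟨a, h4, h5, h6⟩ := right ma hd hS hU hA hu (ma.symm h3)
  exact ⟨a, h4, b, h1, h5, h2, ma.symm h6⟩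

theorem bx {v : R2} {r r' : ℝ} (h : r ≤ r') : Bx v r ⊆ Bx v r' := fun _ hy i => (hy i).trans_le h

theorem dist' (ma : MA) (u v : R2) (x : ℝ) : LB Set.univ fun d => d u v < x :=
  (LB.tc isOpen_univ subset_rfl u v x).congr fun _ hd => ⟨ma.le hd, ma.univ hd⟩

theorem ll (ma : MA) (j : ℤ) (v : R2) (x : ℝ) : LB (Bx v (5 * 2 ^ j)) fun d => LLc d j v x := by
  obtain ⟨S, hS, hS'⟩ := TopologicalSpace.exists_countable_dense R2
  have := hS.to_subtype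
  have h0 : (0 : ℝ) < 2 ^ j := by positivity
  refine (LB.ex fun a : S => LB.ex fun b : S => (const _ (a.1 ∈ Bx v (2 ^ j))).and
    ((const _ (b.1 ∈ Ot v (4 * 2 ^ j))).and
      (LB.tc (ma.opn v (5 * 2 ^ j)).1 subset_rfl a.1 b.1 x))).congr fun d hd => ⟨?_, ?_⟩
  · rintro ⟨a, b, h1, h2, h3⟩
    exact ⟨a, h1, b, h2, ma.le hd h3⟩
  · rintro ⟨u, h1, u', h2, h3⟩
    obtain ⟨t, h4, h5⟩ : ∃ t ∈ Ot v (4 * 2 ^ j), Tc d (Bx v (5 * 2 ^ j)) u t x :=
      (ma.trunc (R := 4 * 2 ^ j) hd h3 (bx (by linarith) h1) (by linarith)).elim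
        (fun h => ⟨u', h2, h⟩) id
    obtain ⟨a, h6, b, h7, h8⟩ := both ma hd hS' (ma.opn v _).1 (ma.opn v _).1 (ma.opn v _).2 h1 h4 h5
    exact ⟨⟨a, h6⟩, ⟨b, h7⟩, h8⟩

theorem lc (ma : MA) (v w : R2) (ρ R x : ℝ) : LB Set.univ fun d => Lc d v ρ R w x := by
  obtain ⟨S0, hS0, hS0'⟩ := TopologicalSpace.exists_countable_dense R2
  obtain ⟨S, hS, hS', hv, hw⟩ : ∃ S : Set R2, S.Countable ∧ Dense S ∧ v ∈ S ∧ w ∈ S :=
    ⟨insert v (insert w S0), (hS0.insert w).insert v,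
      hS0'.mono ((Set.subset_insert _ _).trans (Set.subset_insert _ _)), Set.mem_insert _ _,
      Set.mem_insert_of_mem _ (Set.mem_insert _ _)⟩
  have := hS.to_subtype
  refine (LB.ex fun a : S => LB.ex fun b : S => (const _ (a.1 = v ∨ a.1 ∈ Bx v ρ)).and
    ((const _ (b.1 = w ∨ b.1 ∈ Ot v R)).and (dist' ma a.1 b.1 x))).congr fun d hd => ⟨?_, ?_⟩
  · rintro ⟨a, b, h⟩
    exact ⟨a, b, h⟩
  · rintro ⟨u, u', h1, h2, h3⟩
    have h4 := ma.univ hd h3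
    obtain ⟨b, h5, h6, h7⟩ : ∃ b ∈ S, (b = w ∨ b ∈ Ot v R) ∧ Tc d Set.univ u b x := by
      rcases h2 with rfl | h2
      · exact ⟨_, hw, Or.inl rfl, h4⟩
      · obtain ⟨b, h5, h6, h7⟩ := right ma hd hS' isOpen_univ (ma.opn v R).2 h2 h4
        exact ⟨b, h5, Or.inr h6, h7⟩
    obtain ⟨a, h8, h9, h10⟩ : ∃ a ∈ S, (a = v ∨ a ∈ Bx v ρ) ∧ Tc d Set.univ a b x := by
      rcases h1 with rfl | h1
      · exact ⟨_, hv, Or.inl rfl, h7⟩
      · obtain ⟨a, h8, h9, h10⟩ := right ma hd hS' isOpen_univ (ma.opn v ρ).1 h1 (ma.symm h7)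
        exact ⟨a, h8, Or.inr h9, ma.symm h10⟩
    exact ⟨⟨a, h8⟩, ⟨b, h5⟩, h9, h6, ma.le hd h10⟩

theorem ni (ma : MA) (lm i : ℕ) (μ : ℤ → ℝ) (k : ℤ) (D U : Set R2)
    (h : ∀ y ∈ D, Bx y (2 ^ (16 + 4 * lm) * 2 ^ k) ⊆ U) : LB U fun d => NIc lm d μ k i D := by
  refine LB.all fun n => imp fun _ => LB.all fun q => imp fun hq => ?_
  have e : (2 : ℝ) ^ k = 2 ^ n * 2 ^ (k - n) := by
    rw [zpow_sub₀ two_ne_zero, zpow_natCast]
    field_simp
  have h0 : (0 : ℝ) < 2 ^ (k - n) := by positivity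
  have h1 : (2 : ℝ) ^ (16 + 4 * lm + n / 2) * 2 ^ (k - n) ≤ 2 ^ (16 + 4 * lm) * 2 ^ k := by
    rw [e, ← mul_assoc, ← pow_add]
    exact mul_le_mul_of_nonneg_right (pow_le_pow_right₀ one_le_two (by omega)) h0.le
  have h2 : (5 : ℝ) * 2 ^ (k - n) ≤ 2 ^ (16 + 4 * lm + n / 2) * 2 ^ (k - n) :=
    mul_le_mul_of_nonneg_right ((show (5 : ℝ) ≤ 2 ^ 3 by norm_num).trans
      (pow_le_pow_right₀ one_le_two (by omega))) h0.le
  exact ((ll ma _ _ _).mono ((bx (h2.trans h1)).trans (h _ hq))).not.and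
    (LB.all fun e => LB.tc (ma.opn _ _).1 ((bx h1).trans (h _ hq)) _ _ _)

theorem gd (ma : MA) (z : R2) (r s T : ℝ) :
    LB (An z (20 * r) (36 * r)) fun d => Gd d z r s T := by
  obtain ⟨S, hS, hS'⟩ := TopologicalSpace.exists_countable_dense R2
  have := hS.to_subtype
  have hU := GBdd.opn z (20 * r) (36 * r)
  have hA := GBdd.opn z (24 * r) (32 * r)
  have sub : An z (24 * r) (32 * r) ⊆ An z (20 * r) (36 * r) := fun y hy =>
    ⟨by linarith [hy.1, hy.2], by linarith [hy.1, hy.2]⟩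
  refine ((LB.all fun a : S => LB.all fun b : S => imp (p := dist a.1 z < 22 * r) fun _ =>
    imp (p := 34 * r < dist b.1 z) fun _ => (LB.tc hU subset_rfl a.1 b.1 s).not).and
    (LB.all fun a : S => LB.all fun b : S => imp (p := a.1 ∈ An z (24 * r) (32 * r)) fun _ =>
      imp (p := b.1 ∈ An z (24 * r) (32 * r)) fun _ => LB.wey hU subset_rfl a.1 b.1
        (measurableSet_Iic (a := ENNReal.ofReal T)))).congr fun d hd => ⟨?_, ?_⟩
  · rintro ⟨h1, h2⟩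
    refine ⟨fun u u' h3 h4 h5 => ?_, fun u h3 u' h4 => le_of_not_gt fun h5 => ?_⟩
    · obtain ⟨a, h6, b, h7, h8, h9, h10⟩ := both ma hd hS' hU
        (isOpen_lt (continuous_id.dist continuous_const) continuous_const)
        (isOpen_lt continuous_const (continuous_id.dist continuous_const)) h3 h4 h5
      exact h1 ⟨a, h6⟩ ⟨b, h7⟩ h8 h9 h10
    · obtain ⟨y, -, h6, h7⟩ := ENNReal.lt_iff_exists_real_btwn.1 h5
      obtain ⟨y', h8, h9, h10⟩ := ENNReal.lt_iff_exists_real_btwn.1 h6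
      have h11 : 0 < (y - y') / 2 :=
        half_pos (sub_pos.2 ((ENNReal.ofReal_lt_ofReal_iff_of_nonneg h8).1 h10))
      obtain ⟨a, a1, a2, a3⟩ := nearS ma hd hS' hU hA (sub h3) h3 h11
      obtain ⟨b, b1, b2, b3⟩ := nearS ma hd hS' hU hA (sub h4) h4 h11
      have h12 : Tc d (An z (20 * r) (36 * r)) a b y' :=
        lt_of_le_of_lt (h2 ⟨a, a1⟩ ⟨b, b1⟩ a2 b2) h9
      exact h7.not_gt (ma.mono (ma.trans hd (ma.trans hd a3 h12) (ma.symm b3)) subset_rfl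
        (by linarith))
  · rintro ⟨h1, h2⟩
    exact ⟨fun a b => h1 a b, fun a b h3 h4 => h2 a h3 b h4⟩

theorem meas {V : Set R2} (hV : IsOpen V) (u v : R2) :
    Measurable fun d : {d : Mt // IsMet d} => wey d.1 (fun _ => 1) V u v := by
  obtain ⟨S, hS, hS'⟩ := TopologicalSpace.exists_countable_dense R2
  obtain ⟨C, hC1, hC2, hC3⟩ :=
    (TopologicalSpace.IsSeparable.of_separableSpace Vᶜ).exists_countable_dense_subset
  refine measurable_of_Iio fun x => ?_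
  have e : (fun d : {d : Mt // IsMet d} => wey d.1 (fun _ => 1) V u v) ⁻¹' Set.Iio x =
      Subtype.val ⁻¹' ⋃ q : ℚ, ⋃ _ : ENNReal.ofReal q < x, ⋃ n,
        NLnkM.Ch V (insert v S) C v n u q := by
    ext d
    simp only [Set.mem_preimage, Set.mem_Iio, Set.mem_iUnion]
    refine ⟨fun h => ?_, fun ⟨q, h1, n, h2⟩ => (NLnkM.of_ch d.2 hC3 n u q h2).trans h1⟩
    obtain ⟨q, -, h1, h2⟩ := ENNReal.lt_iff_exists_rat_btwn.1 h
    exact ⟨q, h2, NLnkM.to_ch d.2 hV hC1 (hS'.mono (Set.subset_insert _ _))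
      (Set.mem_insert _ _) h1⟩
  rw [e]
  exact measurable_subtype_coe (MeasurableSet.iUnion fun q => MeasurableSet.iUnion fun _ =>
    MeasurableSet.iUnion fun n => NLnkM.meas (hS.insert v) hC2 n u q)

theorem bor (p : Mt → Prop) (h : LB Set.univ p) :
    ∃ B : Set Mt, MeasurableSet B ∧ ∀ d, IsMet d → (p d ↔ d ∈ B) := by
  have h1 : ML Set.univ ≤ (inferInstance : MeasurableSpace {d : Mt // IsMet d}) :=
    iSup₂_le fun V hV => iSup₂_le fun u v => (meas hV.1 u v).comap_le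
  obtain ⟨B, hB, e⟩ := h1 _ h
  exact ⟨B, hB, fun d hd => (Set.ext_iff.1 e ⟨d, hd⟩).symm⟩

end LaL

theorem la (ma : MA) : LA :=
  ⟨LaL.dist' ma, LaL.ll ma, LaL.lc ma, LaL.ni ma, LaL.gd ma, LaL.bor⟩

end Pool.Agent.GC
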