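import Pool.Agent.Lib.MP_438f30_pr.C.St2
import Pool.Agent.Lib.MP_438f30_pr.GVer

/-! Local events of the metrics have local versions. -/

namespace Pool.Agent.GC

open MeasureTheory Real Finset Filter Topology Pool.Agent.Lib.MP_a0a493_pr Pool.Agent.GL
open Pool.Agent.GU (FK)

namespace LcL

variable {Ω H : Type} [MeasurableSpace Ω] [NormedAddCommGroup H] [InnerProductSpace ℝ H]
  {P : Measure Ω} {M : Dat Ω H}

theorem ver [IsProbabilityMeasure P] (h : Mo P M) (k : ℤ) (U : Set R2) (p : Mt → Prop)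
    (hp : LB U p) :
    ∃ A : Set Ω, MeasurableSet[FK M.W (M.K k U)] A ∧ {ω | p (M.d k ω)} =ᵐ[P] A := by
  classical
  obtain ⟨ω₀, h₀⟩ := (h.met k).exists
  let f : Ω → {d : Mt // IsMet d} := fun ω =>
    if hω : IsMet (M.d k ω) then ⟨M.d k ω, hω⟩ else ⟨M.d k ω₀, h₀⟩
  have hf : ∀ᵐ ω ∂P, (f ω).1 = M.d k ω := by
    filter_upwards [h.met k] with ω hω
    simp only [f, dif_pos hω]
  have key : ML U ≤ GVer.good (FK M.W (M.K k U)) P f := by
    refine iSup_le fun V => iSup_le fun hV => iSup_le fun u => iSup_le fun v => ?_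
    rintro _ ⟨S, hS, rfl⟩
    obtain ⟨G, hG, e⟩ := h.loc k V hV.1 u v
    have hle : FK M.W (M.K k V) ≤ FK M.W (M.K k U) :=
      (@measurable_pi_lambda Ω (M.K k V) (fun _ => ℝ) (FK M.W (M.K k U)) _ _
        fun x : M.K k V => GU.meas_FK M.W (h.mono k V U hV.2 x.2)).comap_le
    refine ⟨G ⁻¹' S, hle _ (hG hS), ?_⟩
    filter_upwards [e, hf] with ω h1 h2
    change (wey (f ω).1 (fun _ => 1) V u v ∈ S) = (G ω ∈ S)
    rw [h2, h1]
  obtain ⟨A, hA, e⟩ := key _ hp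
  refine ⟨A, hA, EventuallyEq.trans ?_ e⟩
  filter_upwards [hf] with ω h2
  change p (M.d k ω) = p (f ω).1
  rw [h2]

theorem nm [IsProbabilityMeasure P] (h : Mo P M) (k : ℤ) (U : Set R2) (p : Mt → Prop)
    (hp : LB U p) : NullMeasurableSet {ω | p (M.d k ω)} P := by
  obtain ⟨A, hA, e⟩ := ver h k U p hp
  exact (GU.FK_le h.iso _ _ hA).nullMeasurableSet.congr e.symm

end LcL

theorem lc : sLC := by
  intro Ω H _ _ _ P _ M η hs
  have h := hs.toMo
  exact ⟨LcL.ver h, LcL.nm h, fun k U p hp => probReal_compl_eq_one_sub₀ (LcL.nm h k U p hp)⟩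

end Pool.Agent.GC
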