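import Pool.Agent.Lib.MP_438f30_pr.C.Ma1

/-! Length metrics: crossings, confinement, and the structure `MA`. -/

namespace Pool.Agent.GC

open MeasureTheory Real Finset Filter Topology Pool.Agent.Lib.MP_a0a493_pr Pool.Agent.GL

namespace MaL

theorem sub {d : Mt} {U : Set R2} {p : ℝ → R2} {l s t x : ℝ} (hp : Lip d p l) (h0 : 0 ≤ s)
    (h1 : s ≤ t) (h2 : t ≤ l) (hU : ∀ r ∈ Set.Icc s t, p r ∈ U) (hx : t - s < x) :
    Tc d U (p s) (p t) x :=
  (mg1.up (M := 1) hp s t h0 h1 h2 fun r hr => ⟨le_rfl, hU r hr⟩).trans_lt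
    ((ENNReal.ofReal_lt_ofReal_iff (by linarith)).2 (by linarith))

theorem cell (j : ℤ) (u : R2) (i : Fin 2) : |u i - gp j (fz j u) i| < 2 ^ j := by
  have h : (0 : ℝ) < 2 ^ j := by positivity
  have e : gp j (fz j u) i = 2 ^ j * (⌊u i / 2 ^ j⌋ : ℝ) := by simp [gp, fz, pt]
  have a := Int.floor_le (u i / 2 ^ j)
  have b := Int.lt_floor_add_one (u i / 2 ^ j)
  rw [le_div_iff₀ h] at a
  rw [div_lt_iff₀ h] at b
  rw [e, abs_lt]
  constructor <;> nlinarith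

theorem cr {d : Mt} {u u' : R2} {j : ℤ} {l m : ℝ} (hd : IsMet d) (hm : 0 ≤ m)
    (hl : 5 * 2 ^ j ≤ l) (hu : u' ∉ Bx u l)
    (hq : ∀ q, gp j q ∈ Bx u l → ¬ LLc d j (gp j q) m) : l / (11 * 2 ^ j) * m ≤ d u u' := by
  have h0 : (0 : ℝ) < 2 ^ j := by positivity
  refine le_of_forall_gt fun y hy => ?_
  obtain ⟨p, L, hp, p0, p1, hL⟩ := HMG3.ex_path mg1 hd hy
  have pc := mg1.cont hd hp
  set f : ℝ → ℝ := fun t => max |p t 0 - u 0| |p t 1 - u 1| with hf
  have fc : ContinuousOn f (Set.Icc 0 L) := by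
    have c : ∀ i : Fin 2, ContinuousOn (fun t => |p t i - u i|) (Set.Icc 0 L) := fun i =>
      ((((EuclideanSpace.proj i : R2 →L[ℝ] ℝ).continuous).comp_continuousOn pc).sub
        continuousOn_const).abs
    exact (c 0).sup (c 1)
  have fi : ∀ t (i : Fin 2), |p t i - u i| ≤ f t := fun t i => by
    fin_cases i
    · exact le_max_left _ _
    · exact le_max_right _ _
  have fe : ∀ t, ∃ i : Fin 2, f t = |p t i - u i| := fun t => by
    rcases max_choice |p t 0 - u 0| |p t 1 - u 1| with h | h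
    · exact ⟨0, h⟩
    · exact ⟨1, h⟩
  have fL : l ≤ f L := by
    by_contra h
    exact hu fun i => p1 ▸ (fi L i).trans_lt (not_le.1 h)
  have key : ∀ n : ℕ, 5 * 2 ^ j * n ≤ l → ∃ t ∈ Set.Icc 0 L, f t = 5 * 2 ^ j * n ∧ n * m ≤ t := by
    intro n
    induction n with
    | zero => exact fun _ => ⟨0, ⟨le_rfl, hp.1⟩, by simp [hf, p0], by simp⟩
    | succ n ih =>
      intro hn
      push_cast at hn ⊢
      obtain ⟨t, ht, ft, nt⟩ := ih (by nlinarith)
      obtain ⟨t', ht', ft'⟩ := intermediate_value_Icc ht.2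
        (fc.mono (Set.Icc_subset_Icc_left ht.1)) (show 5 * 2 ^ j * ((n : ℝ) + 1) ∈ Set.Icc (f t) (f L)
          from ⟨by rw [ft]; nlinarith, hn.trans fL⟩)
      have m1 : t' ∈ Set.Icc 0 L := ⟨ht.1.trans ht'.1, ht'.2⟩
      refine ⟨t', m1, ft', ?_⟩
      have g1 : gp j (fz j (p t)) ∈ Bx u l := fun i => by
        have a := cell j (p t) i
        have b := fi t i
        rw [abs_lt] at a ⊢
        rw [abs_le] at b
        constructor <;> nlinarith [a.1, a.2, b.1, b.2]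
      have g2 : p t' ∈ Ot (gp j (fz j (p t))) (4 * 2 ^ j) := by
        obtain ⟨i, hi⟩ := fe t'
        refine ⟨i, ?_⟩
        have a := cell j (p t) i
        have b := fi t i
        have c := abs_sub_le (p t' i) (gp j (fz j (p t)) i) (u i)
        have e := abs_sub_le (gp j (fz j (p t)) i) (p t i) (u i)
        rw [abs_sub_comm (gp j (fz j (p t)) i) (p t i)] at e
        nlinarith
      have g3 : m ≤ d (p t) (p t') :=
        not_lt.1 fun h => hq _ g1 ⟨p t, fun i => cell j (p t) i, p t', g2, h⟩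
      have g4 := hp.2 t ht t' m1
      rw [abs_of_nonpos (by linarith [ht'.1])] at g4
      linarith
  have h5 : (0 : ℝ) < 5 * 2 ^ j := by positivity
  have l0 : 0 ≤ l / (5 * 2 ^ j) := div_nonneg (by linarith) h5.le
  have a := Nat.floor_le l0
  have b := Nat.lt_floor_add_one (l / (5 * 2 ^ j))
  have c : (1 : ℝ) ≤ ⌊l / (5 * 2 ^ j)⌋₊ := by
    exact_mod_cast Nat.one_le_iff_ne_zero.2 (Nat.pos_iff_ne_zero.1
      (Nat.floor_pos.2 ((one_le_div h5).2 hl)))
  rw [le_div_iff₀ h5] at a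
  rw [div_lt_iff₀ h5] at b
  obtain ⟨t, ht, -, nt⟩ := key ⌊l / (5 * 2 ^ j)⌋₊ (by linarith)
  have e : l / (11 * 2 ^ j) ≤ ⌊l / (5 * 2 ^ j)⌋₊ := by
    rw [div_le_iff₀ (by positivity)]
    nlinarith
  have := mul_le_mul_of_nonneg_right e hm
  linarith [ht.2]

theorem conf {d : Mt} {u u' : R2} {j : ℤ} {l m y : ℝ} (hd : IsMet d) (hm : 0 ≤ m)
    (hl : 5 * 2 ^ j ≤ l) (hq : ∀ q, gp j q ∈ Bx u l → ¬ LLc d j (gp j q) m) (hy : d u u' < y)
    (hy' : y ≤ l / (11 * 2 ^ j) * m) : Tc d (Bx u (2 * l)) u u' y := by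
  have h0 : (0 : ℝ) < 2 ^ j := by positivity
  obtain ⟨p, L, hp, p0, p1, hL⟩ := HMG3.ex_path mg1 hd hy
  have := sub (U := Bx u (2 * l)) (x := y) hp le_rfl hp.1 le_rfl (fun t ht => by
    by_contra h
    have a := cr (u := u) (u' := p t) hd hm hl
      (fun hh => h fun i => (hh i).trans_le (by linarith)) hq
    have b := hp.2 0 ⟨le_rfl, hp.1⟩ t ht
    rw [p0, abs_of_nonpos (by linarith [ht.1])] at b
    linarith [ht.2]) (by linarith)
  rwa [p0, p1] at this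

theorem gd {d d' : Mt} {g : R2 → ℝ} {z u u' : R2} {r s S c : ℝ} (hd : IsMet d) (hc : Cmp d d' g)
    (hr : 0 < r) (hg : ∀ y ∈ An z (20 * r) (36 * r), g y ≤ c) (hG : Gd d' z r s S)
    (hu : dist u z ≤ 20 * r) (hu' : 36 * r ≤ dist u' z) : exp (-c) * s ≤ d u u' := by
  refine not_lt.1 fun hy => ?_
  obtain ⟨p, L, hp, p0, p1, hL⟩ := HMG3.ex_path mg1 hd hy
  have fc : ContinuousOn (fun t => dist (p t) z) (Set.Icc 0 L) :=
    (continuous_id.dist continuous_const).comp_continuousOn (mg1.cont hd hp)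
  obtain ⟨t, ht, e1, e2⟩ := (G8a.hit (ρ := 21 * r) hp.1 fc (by rw [p0]; linarith)
    (by rw [p1]; linarith)).2
  obtain ⟨t', ht', e3, e4⟩ := (G8a.hit (ρ := 35 * r) ht.2 (fc.mono (Set.Icc_subset_Icc_left ht.1))
    (by rw [e1]; linarith) (by rw [p1]; linarith)).1
  have a := sub (U := An z (20 * r) (36 * r)) (x := exp (-c) * s) hp ht.1 ht'.1 ht'.2
    (fun y hy => ⟨by linarith [e2 y ⟨hy.1, hy.2.trans ht'.2⟩], by linarith [e4 y hy]⟩)
    (by linarith [ht.1, ht'.2])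
  have b := hc _ _ _ _ c hg a
  rw [← mul_assoc, ← exp_add, add_neg_cancel, exp_zero, one_mul] at b
  exact hG.1 _ _ (by linarith) (by linarith) b

theorem llc
    (le : ∀ {d : Mt} {U : Set R2} {u v : R2} {x : ℝ}, IsMet d → Tc d U u v x → d u v < x)
    (trunc : ∀ {d : Mt} {u u' v : R2} {x R R' : ℝ}, IsMet d → d u u' < x → u ∈ Bx v R' → R < R' →
      Tc d (Bx v R') u u' x ∨ ∃ t ∈ Ot v R, Tc d (Bx v R') u t x)
    {d d' : Mt} {g : R2 → ℝ} {j : ℤ} {v : R2} {x c : ℝ} (hd : IsMet d) (hd' : IsMet d')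
    (hc : Cmp d d' g) (hg : ∀ y ∈ Bx v (5 * 2 ^ j), g y ≤ c) (h : LLc d j v x) :
    LLc d' j v (exp c * x) := by
  have h0 : (0 : ℝ) < 2 ^ j := by positivity
  obtain ⟨u, hu, u', hu', h⟩ := h
  rcases trunc (v := v) (R := 4 * 2 ^ j) (R' := 5 * 2 ^ j) hd h
    (fun i => (hu i).trans_le (by linarith)) (by linarith) with a | ⟨t, ht, a⟩
  · exact ⟨u, hu, u', hu', le hd' (hc _ _ _ _ c hg a)⟩
  · exact ⟨u, hu, t, ht, le hd' (hc _ _ _ _ c hg a)⟩

end MaL

theorem ma : MA where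
  le := MA1L.le
  univ := MA1L.univ
  mono := MA1L.mono
  symm := MA1L.symm
  trans := MA1L.trans
  mem := MA1L.mem
  near := MA1L.near
  cmp := MA1L.cmp
  opn := MA1L.opn
  cell := MA1L.cell
  trunc := MA1L.trunc
  cr := MaL.cr
  conf := MaL.conf
  llc := MaL.llc MA1L.le MA1L.trunc
  gd := MaL.gd

end Pool.Agent.GC
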