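import Pool.Agent.Lib.MP_438f30_pr.C.St2
import Pool.Agent.Lib.MP_438f30_pr.U.Mod

/-! The bound at one scale. -/

namespace Pool.Agent.GC

open MeasureTheory Real Finset Filter Topology Pool.Agent.Lib.MP_a0a493_pr Pool.Agent.GL
open Pool.Agent.GU (Z2 X EH EM EB bx pmono prob_or prob_all tail_le fin_le par p2 p2_le)

namespace ModL

theorem card_le (n L I : ℕ) :
    ((bx 0 ((L + 1) * 2 ^ n)).card : ℝ) * (4 * 8 ^ n * exp (-7) ^ n + (4 * 8 ^ n * exp (-7) ^ n +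
      ((range (I + 1)).card * (4 * 8 ^ n * exp (-7) ^ n) +
        (Icc 1 I).card * (4 * 8 ^ n * exp (-7) ^ n)))) ≤
      36 * (L + 1) ^ 2 * (2 * I + 3) * (1 / 2) ^ n := by
  have a1 : ((bx 0 ((L + 1) * 2 ^ n)).card : ℝ) ≤ 9 * (L + 1) ^ 2 * 4 ^ n := by
    have b2 := one_le_pow₀ (n := n) (one_le_two (α := ℝ))
    have b3 : (4 : ℝ) ^ n = 2 ^ n * 2 ^ n := by rw [← mul_pow]; norm_num
    have b4 : (1 : ℝ) ≤ (L + 1) * 2 ^ n := by nlinarith [Nat.cast_nonneg (α := ℝ) L]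
    rw [GU.card_bx, b3]
    push_cast
    nlinarith
  have r1 : 4 * (8 * exp (-7)) ≤ 1 / 2 := by
    have : (2 : ℝ) ^ 7 ≤ exp 1 ^ 7 := pow_le_pow_left₀ two_pos.le (by linarith [exp_one_gt_d9]) 7
    rw [← exp_nat_mul] at this
    rw [exp_neg, ← div_eq_mul_inv, ← mul_div_assoc, div_le_iff₀ (exp_pos _)]
    norm_num at this
    linarith
  have r2 := pow_le_pow_left₀ (by positivity) r1 n
  refine (mul_le_mul_of_nonneg_right a1 (by positivity)).trans (le_trans (le_of_eq ?_)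
    (mul_le_mul_of_nonneg_left r2 (by positivity)))
  rw [card_range, Nat.card_Icc, Nat.add_sub_cancel, mul_pow, mul_pow]
  push_cast
  ring

theorem sub_le (n L : ℕ) : ((n : ℝ) + 1) * (100 * 4 ^ (n + (L + 9)) * exp (-√(4 * n) ^ 2)) ≤
    100 * 4 ^ (L + 9) * (1 / 2) ^ n := by
  have r1 : 2 * (4 * exp (-4)) ≤ 1 / 2 := by
    have : (2 : ℝ) ^ 4 ≤ exp 1 ^ 4 := pow_le_pow_left₀ two_pos.le (by linarith [exp_one_gt_d9]) 4
    rw [← exp_nat_mul] at this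
    rw [exp_neg, ← div_eq_mul_inv, ← mul_div_assoc, div_le_iff₀ (exp_pos _)]
    norm_num at this
    linarith
  have r2 := pow_le_pow_left₀ (by positivity) r1 n
  have r3 : (n : ℝ) + 1 ≤ 2 ^ n := by exact_mod_cast Nat.lt_two_pow_self (n := n)
  rw [sq_sqrt (by positivity), show -(4 * (n : ℝ)) = n * -4 by ring, exp_nat_mul]
  refine (mul_le_mul_of_nonneg_right r3 (by positivity)).trans (le_trans (le_of_eq ?_)
    (mul_le_mul_of_nonneg_left r2 (by positivity)))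
  rw [mul_pow, mul_pow, pow_add]
  ring

theorem fl (u : R2) (i : Fin 2) : ((fz 0 u i : ℤ) : ℝ) ≤ u i ∧ u i < fz 0 u i + 1 := by
  simp only [fz, zpow_zero, div_one]
  exact ⟨Int.floor_le _, Int.lt_floor_add_one _⟩

theorem near {u v : R2} {r : ℝ} {a : ℤ} (h : v ∈ Bx u r) (ha : r + 1 ≤ a) :
    Near a (fz 0 u) (fz 0 v) := fun i => by
  have a1 := fl u i
  have a2 := fl v i
  have a3 := abs_lt.1 (h i)
  have : |((fz 0 u i : ℤ) : ℝ) - fz 0 v i| ≤ a := abs_le.2 ⟨by linarith, by linarith⟩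
  exact_mod_cast this

end ModL

theorem mod (sd : sSd) (boot : sBoot) (gb : sGB) (det : sDet) (en : sEN) (sub : sSub)
    (eh : GU.sEH) (em : GU.sEM) (eb : GU.sEB) : sMod := by
  intro C0
  obtain ⟨Cg, g1, eb⟩ := eb C0
  obtain ⟨C', c1, gb⟩ := gb Cg g1
  obtain ⟨c, c0, eb⟩ := eb C' c1
  obtain ⟨κ, hκ⟩ : ∃ κ, κ = C0 + 24 := ⟨_, rfl⟩
  obtain ⟨L, hL⟩ : ∃ L : ℝ, L = 11 * C' * 2 ^ 20 + κ + 70 := ⟨_, rfl⟩
  obtain ⟨c₁, hc₁⟩ : ∃ c₁ : ℝ, c₁ = 1 / (10 ^ 20 * (C0 + 1) ^ 3 * 4 ^ κ) := ⟨_, rfl⟩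
  obtain ⟨δ, hδ⟩ : ∃ δ : ℝ, δ = min 1 (c / 2) := ⟨_, rfl⟩
  have κ0 : (24 : ℝ) ≤ κ := by exact_mod_cast (show 24 ≤ κ by omega)
  have L0 : 0 < L := by rw [hL]; positivity
  have p1 : 0 < c₁ := by rw [hc₁]; positivity
  have d0 : 0 < δ := by rw [hδ]; positivity
  have d1 : δ ≤ 1 := hδ ▸ min_le_left _ _
  have d2 : δ ≤ c / 2 := hδ ▸ min_le_right _ _
  obtain ⟨K₁, hK₁⟩ : ∃ K₁, K₁ = 784 / c₁ + L * (224 / c + 448 / c₁) := ⟨_, rfl⟩
  have K0 : 0 < K₁ := by rw [hK₁]; positivity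
  have m0 : 0 < min (min 1 (c₁ / 100)) (min (c / 4) (δ ^ 2 / (2 * κ))) := by positivity
  refine ⟨2 * (2 + 12 * L / δ ^ 2 + 2 * K₁), _ ^ 3, by positivity, pow_pos m0 3, ?_⟩
  intro Ω H _ _ _ P _ M hM hC hξ0
  have hξ := hM.xi
  obtain ⟨x, x0, ex⟩ : ∃ x : ℝ, 0 < x ∧ M.ξ = x ^ 3 :=
    ⟨M.ξ ^ ((3 : ℕ)⁻¹ : ℝ), by positivity, (rpow_inv_natCast_pow hξ.le three_ne_zero).symm⟩
  have hx := le_of_pow_le_pow_left₀ three_ne_zero m0.le (ex ▸ hξ0)
  simp only [le_min_iff] at hx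
  obtain ⟨⟨x1, x2⟩, x3, x4⟩ := hx
  have e4 : M.ξ ^ (4 / 3 : ℝ) = x ^ 4 := by
    rw [ex, ← rpow_natCast, ← rpow_mul x0.le, ← rpow_natCast]
    norm_num
  have y2 := pow_le_of_le_one x0.le x1 (show 2 ≠ 0 by norm_num)
  have y4 := pow_le_of_le_one x0.le x1 (show 4 ≠ 0 by norm_num)
  have y6 := pow_le_of_le_one x0.le x1 (show 6 ≠ 0 by norm_num)
  have C1' : 1 ≤ C0 := hC ▸ hM.bz.one
  have C1 : (1 : ℝ) ≤ C0 := Nat.one_le_cast.2 C1'
  obtain ⟨η, hη⟩ : ∃ η, η = c₁ / x ^ 6 := ⟨_, rfl⟩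
  have η0 : 100 ≤ η := by rw [hη, le_div_iff₀ (by positivity)]; linarith
  have sm : (x ^ 3) ^ 2 * C0 ^ 3 * 4 ^ κ * η ≤ 1 / 10 ^ 20 := by
    have : (C0 : ℝ) ^ 3 ≤ (C0 + 1) ^ 3 := by gcongr; linarith
    rw [hη, hc₁]
    field_simp
    exact this
  have h : Sd P M η := sd Ω H P M η hM η0 (by
    have := mul_le_mul_of_nonneg_left (one_le_pow₀ (n := κ) (show (1 : ℝ) ≤ 4 by norm_num))
      (show 0 ≤ (x ^ 3) ^ 2 * C0 ^ 3 * η by positivity)
    rw [ex, hC]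
    norm_num at sm ⊢
    linarith)
  obtain ⟨hq, m, gr, np⟩ := boot Ω H P M η h
  have su := h.ba.su 0 0
  refine ⟨hq, ?_⟩
  obtain ⟨I, i1, i2⟩ := exists_nat_pow_near (x := δ ^ 2 / x ^ 4 / (2 * κ)) (y := 2) (by
    rw [div_right_comm, le_div_iff₀ (by positivity)]; linarith) one_lt_two
  rw [le_div_iff₀' (by positivity)] at i1
  rw [div_lt_iff₀' (by positivity), pow_succ (2 : ℝ) I, div_lt_iff₀ (by positivity)] at i2
  obtain ⟨pa, pb⟩ : (∀ i ≤ I, _) ∧ ∀ n : ℕ, _ :=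
    ⟨(par (n := 0) c0 p1 L0.le (show 20 ≤ κ by omega) d1 x0 x1 x2 x3 d0 i1).1,
      fun n => (par (n := n) c0 p1 L0.le (show 20 ≤ κ by omega) d1 x0 x1 x2 x3 d0 i1).2⟩
  rw [← hη, ← hK₁] at pb
  obtain ⟨K, hK⟩ : ∃ K, K = 2 ^ I * κ := ⟨_, rfl⟩
  have K1 : 0 < K := by rw [hK]; exact Nat.mul_pos (by positivity) (by omega)
  have K2 : (K : ℝ) = 2 ^ I * κ := by rw [hK]; push_cast; rfl
  refine ⟨K + 1, fun L' => ⟨100 * 4 ^ (L' + 9) + 36 * (L' + 1) ^ 2 * (2 * I + 3), ?_⟩⟩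
  obtain ⟨w, hw⟩ : ∃ w, w = 80 * M.ξ * M.C0 * (η / 2 - 1) := ⟨_, rfl⟩
  have ev1 : ∀ᶠ n : ℕ in atTop, w ^ 2 ≤ n := tendsto_natCast_atTop_atTop.eventually_ge_atTop _
  have ev2 : ∀ᶠ n : ℕ in atTop, 62 + K + L ≤ x ^ 4 * n :=
    (tendsto_natCast_atTop_atTop.const_mul_atTop (pow_pos x0 4)).eventually_ge_atTop _
  rw [e4]
  filter_upwards [ev1, ev2, eventually_ge_atTop (K + 21)] with n v1 v2 v3
  have n0 : (1 : ℝ) ≤ n := Nat.one_le_cast.2 (by omega)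
  have Kp : (0 : ℝ) < K := Nat.cast_pos.2 K1
  obtain ⟨J, hJ⟩ : ∃ J, J = (n - 20) / K := ⟨_, rfl⟩
  have J1 : n - 20 < J * K + K := hJ ▸ Nat.lt_div_mul_add K1
  have J2 : J * K ≤ n - 20 := hJ ▸ Nat.div_mul_le_self _ _
  have J3 : J * 2 ^ I * κ = J * K := by rw [hK, mul_assoc]
  have J4 : ∀ i, J * 2 ^ (I - i) ≤ 3 * n + 1 := fun i => by
    have a1 : 2 ^ (I - i) ≤ K := hK ▸ (Nat.pow_le_pow_right two_pos (by omega)).trans
      (Nat.le_mul_of_pos_right _ (by omega))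
    have := Nat.mul_le_mul_left J a1
    omega
  obtain ⟨u, hu⟩ : ∃ u, u = 7 * n / (η / 2 - 1) := ⟨_, rfl⟩
  have u0 : 0 ≤ u := by rw [hu]; exact div_nonneg (by positivity) (by linarith)
  have u1 : 80 * M.ξ * M.C0 * (1 + √(4 * n)) ≤ 2 * u := by
    have a1 : √(4 * n) = 2 * √n := by
      rw [sqrt_mul (by norm_num), show (4 : ℝ) = 2 ^ 2 by norm_num, sqrt_sq two_pos.le]
    have a2 := one_le_sqrt.2 n0
    have a3 := le_sqrt_of_sq_le v1
    have a4 := mul_self_sqrt (show (0 : ℝ) ≤ n by positivity)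
    rw [hu, ← mul_div_assoc, le_div_iff₀ (by linarith), mul_right_comm, ← hw, a1]
    nlinarith
  obtain ⟨B, hB⟩ : ∃ B : ℕ → ℝ, B = fun i => c / (2 * x ^ 6 * √((2 ^ i * κ : ℕ) + 20)) := ⟨_, rfl⟩
  have B1 : ∀ i ≤ I, 2 ≤ B i := fun i hi => by rw [hB]; exact (pa i hi).2
  have tl : ∀ j ≤ 3 * n + 1, 2 * 2 ^ j * exp (-((η - 1) * u)) ≤ 4 * 8 ^ n * exp (-7) ^ n :=
    fun j hj => le_trans (mul_le_mul_of_nonneg_left (exp_le_exp.2 (by rw [← hu]; nlinarith))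
      (by positivity)) (tail_le (M := η / 2) (by linarith) hj)
  have q2 := (sub Ω H P M η h n (n + (L' + 9)) _ (sqrt_nonneg (4 * n))).trans (ModL.sub_le n L')
  have q3 := (prob_all P (bx 0 ((L' + 1) * 2 ^ n)) fun z _ => prob_or P
    ((eh Ω H P M.W _ _ _ η su n (J * K + 20) u z (by omega) u0).trans (tl _ (by omega)))
    (prob_or P ((em Ω H P M.W _ _ _ η su κ (J * 2 ^ I) u z (by omega) (by
      have := mul_le_mul_of_nonneg_left C1 (show 0 ≤ (x ^ 3) ^ 2 * C0 ^ 2 * 4 ^ κ * η by positivity)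
      rw [ex, hC]
      linarith) u0).trans (tl _ (J4 0)))
    (prob_or P (prob_all P (range (I + 1)) fun i hi =>
      (en Ω H P M η h m (2 ^ i * κ) (J * 2 ^ (I - i)) u z np
        (by rw [hC, ← hκ]; exact Nat.le_mul_of_pos_left _ (by positivity)) (by
          have a1 := pow_le_pow_right₀ (one_le_two (α := ℝ)) (Nat.lt_succ_iff.1 (mem_range.1 hi))
          have a2 := one_le_pow₀ (n := I) (one_le_two (α := ℝ))
          have a3 : δ ^ 2 / x ^ 4 * 3 ≤ η := by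
            rw [hη, div_mul_eq_mul_div, div_le_div_iff₀ (by positivity) (by positivity)]
            have := mul_le_mul_of_nonneg_right (show δ ^ 2 * 3 * x ^ 2 ≤ c₁ by
              nlinarith [pow_le_one₀ d0.le d1 (n := 2), sq_nonneg x]) (pow_pos x0 4).le
            linarith
          have a4 : (25 : ℝ) ≤ κ := by exact_mod_cast (show 25 ≤ κ by omega)
          push_cast
          nlinarith) u0).trans (hu ▸ tail_le (M := η / 2) (by linarith) (J4 i)))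
      (prob_all P (Icc 1 I) fun i hi => by
        obtain ⟨b1, -⟩ := pa i (mem_Icc.1 hi).2
        have b2 := B1 i (mem_Icc.1 hi).2
        refine (eb Ω H P M.W _ _ _ η su hC (2 ^ i * κ) (J * 2 ^ (I - i)) (B i)
          (7 * n / (B i - 1)) z ((show 20 ≤ κ by omega).trans
            (Nat.le_mul_of_pos_left _ (by positivity))) (by linarith)
          (div_nonneg (by positivity) (by linarith)) ?_).trans (tail_le (by linarith) (J4 i))
        rw [hB, ex]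
        obtain ⟨s, hs⟩ : ∃ s, s = √(((2 ^ i * κ : ℕ) : ℝ) + 20) := ⟨_, rfl⟩
        have s0 : 0 < s := by rw [hs]; positivity
        have s2 : ((2 ^ i * κ : ℕ) : ℝ) + 20 = s ^ 2 := by rw [hs, sq_sqrt (by positivity)]
        simp only [← hs] at b1 ⊢
        rw [s2, show (x ^ 3) ^ 2 * s * (s ^ 2 + c / (2 * x ^ 6 * s)) = (s * x ^ 2) ^ 3 + c / 2 by
          field_simp]
        have := pow_le_pow_left₀ (by positivity) ((le_div_iff₀ (by positivity)).1 b1) 3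
        linarith [pow_le_of_le_one d0.le d1 (show 3 ≠ 0 by norm_num)])))).trans
    (ModL.card_le n L' I)
  refine le_trans (ENNReal.toReal_mono (measure_ne_top _ _) (measure_mono_ae ?_))
    ((prob_or P q2 q3).trans_eq (add_mul ..).symm)
  filter_upwards [h.ba.all, h.ba.lat 0 0] with ω k1 k2 hω ⟨⟨θ, t1, t2, t3⟩, r4⟩
  refine hω fun T y _ hq hs hb hd => ?_
  simp only [zero_add, zpow_zero, one_smul, add_zero] at k2
  have N0 : (1 : ℝ) ≤ 2 ^ n := one_le_pow₀ one_le_two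
  have L1 : (0 : ℝ) ≤ L' := Nat.cast_nonneg _
  have key := det (fun k => M.d k ω) (fun k => M.Y k ω) (fun k => X M.W (sa M 0 0) M.ξ k ω) (mu M m)
    (fun i => 2 * (7 * n / (B i - 1))) Cg C' L (2 * u) κ I J n T y (Bx 0 (2 ^ (n + (L' + 9)))) gb
    (by omega) (by linarith [add_one_le_exp L]) (by rw [hL]; linarith) c1 gr k1.1 k1.2 k2
    (by omega) hq hs
    (fun s hs s' hs' => ModL.near (hd s (Nat.lt_succ_iff.1 (mem_Ico.1 hs).2) s'
      (Nat.lt_succ_iff.1 (mem_Ico.1 hs').2)) (by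
        have a1 : (2 : ℝ) ^ n ≤ 2 ^ (J * K + 16 + 2 + (K + 1)) :=
          pow_le_pow_right₀ one_le_two (by omega)
        have a2 := one_le_pow₀ (n := J * K + 16) (one_le_two (α := ℝ))
        rw [pow_add _ _ (K + 1), ← div_le_iff₀ (by positivity), pow_add _ _ 2] at a1
        rw [J3]
        push_cast
        linarith))
    ⟨θ, t1, t2.trans u1, t3⟩
    (fun s hs v hv i => by
      have a1 := abs_lt.1 (hb s hs i)
      have a2 := abs_lt.1 (hv i)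
      have a3 := ModL.fl (y s) i
      have a4 : (L' : ℝ) + 9 ≤ 2 ^ (L' + 9) := by
        exact_mod_cast (Nat.lt_two_pow_self (n := L' + 9)).le
      have a5 := mul_le_mul_of_nonneg_left a4 (zero_le_one.trans N0)
      simp only [pt_apply, PiLp.zero_apply, sub_zero] at a1 a2 ⊢
      rw [pow_add, abs_lt]
      constructor <;> linarith)
    fun s hs => by
      obtain ⟨b1, b2, b3, b4⟩ := r4 (fz 0 (y s)) (GU.mem_bx.2 fun i => by
        have a1 := abs_lt.1 (hb s hs i)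
        have a3 := ModL.fl (y s) i
        simp only [PiLp.zero_apply, sub_zero] at a1
        have : |((0 : ℤ) : ℝ) - fz 0 (y s) i| ≤ (L' + 1) * 2 ^ n := by
          rw [Int.cast_zero, abs_le]
          constructor <;> linarith
        exact_mod_cast this)
      exact ⟨J3 ▸ b1, b2, fun i hi => b3 i (mem_range.2 (by omega)), b4⟩
  have a1 := pb n
  simp only [← hu] at a1
  have a2 : 0 ≤ ∑ i ∈ Icc 1 I, 2 * (7 * n / (B i - 1)) := sum_nonneg fun i hi => by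
    have := B1 i (mem_Icc.1 hi).2
    exact mul_nonneg two_pos.le (div_nonneg (by positivity) (by linarith))
  rw [show (J : ℝ) * (κ * log 2 * 2 ^ I + L) = J * K * log 2 + J * L by rw [K2]; ring] at key
  refine fin_le (m := 0) (key.trans (le_mul_of_one_le_left (exp_pos _).le (by norm_num))) ?_
    (by exact_mod_cast (show J * K ≤ n + 0 + 1 + K by omega)) (by positivity) (by positivity) n0 v2
    Kp L0 (by positivity) d0 x0 le_rfl (by rw [K2]; linarith)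
  rw [hB] at a2 ⊢
  have a3 := mul_nonneg L0.le a2
  have a4 : 0 ≤ L * (I * u) := by positivity
  linarith

end Pool.Agent.GC
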