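import Pool.Agent.Lib.MP_438f30_pr.C.St
import Pool.Agent.Lib.MP_438f30_pr.U.Cnt

/-! Concentration of the least weighted cost with independent random weights. -/

namespace Pool.Agent.GC

open MeasureTheory ProbabilityTheory Real Finset Pool.Agent.Lib.MP_a0a493_pr Pool.Agent.GL
open Pool.Agent.GU (FK FK_le FK_indep)
open scoped InnerProductSpace ENNReal

namespace MpfL

theorem freeze {Ω α β : Type} [MeasurableSpace Ω] [MeasurableSpace α] [MeasurableSpace β]
    {P : Measure Ω} [IsProbabilityMeasure P] {X : Ω → α} {Y : Ω → β} (hX : Measurable X)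
    (hY : Measurable Y) (hi : IndepFun X Y P) {S : Set (α × β)} (hS : MeasurableSet S) :
    (Measurable fun ω₀ => P {ω | (X ω₀, Y ω) ∈ S}) ∧
      ∫⁻ ω₀, P {ω | (X ω₀, Y ω) ∈ S} ∂P = P {ω | (X ω, Y ω) ∈ S} := by
  have : IsProbabilityMeasure (P.map Y) := Measure.isProbabilityMeasure_map hY.aemeasurable
  have e : ∀ a, P {ω | (a, Y ω) ∈ S} = P.map Y (Prod.mk a ⁻¹' S) := fun a => by
    rw [Measure.map_apply hY (measurable_prodMk_left hS)]
    rfl
  have m := measurable_measure_prodMk_left (ν := P.map Y) hS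
  simp only [e]
  refine ⟨m.comp hX, ?_⟩
  rw [← lintegral_map m hX, ← Measure.prod_apply hS,
    ← (indepFun_iff_map_prod_eq_prod_map_map hX.aemeasurable hY.aemeasurable).1 hi,
    Measure.map_apply (hX.prodMk hY) hS]
  rfl

theorem geo {B : ℝ} (hB : 0 ≤ B) :
    ∑' i : ℕ, ENNReal.ofReal (B * exp (-(i : ℝ))) ≤ ENNReal.ofReal (2 * B) := by
  have h2 : ∀ i : ℕ, ENNReal.ofReal (B * exp (-(i : ℝ))) ≤ ENNReal.ofReal (B * (1 / 2) ^ i) :=
    fun i => by
    have e1 : exp (-1) ≤ 1 / 2 := by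
      rw [exp_neg, one_div]
      exact inv_anti₀ two_pos (by linarith [add_one_le_exp 1])
    have e2 := pow_le_pow_left₀ (exp_pos _).le e1 i
    rw [← exp_nat_mul, mul_neg, mul_one] at e2
    exact ENNReal.ofReal_le_ofReal (mul_le_mul_of_nonneg_left e2 hB)
  refine (ENNReal.tsum_le_tsum h2).trans ?_
  rw [← ENNReal.ofReal_tsum_of_nonneg (fun i => by positivity)
    (summable_geometric_two.mul_left _), tsum_mul_left, tsum_geometric_two, mul_comm]

theorem split {Ω : Type} [MeasurableSpace Ω] (P : Measure Ω) [IsProbabilityMeasure P]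
    (A C U V U' V' : Set Ω) (hU : ∀ ω, ω ∉ U → ω ∈ U') (hV : ∀ ω, ω ∉ V → ω ∈ V') :
    P C * P A ≤ P U * P V + P (C ∩ U') + P (A ∩ V') := by
  have k : ∀ (C U U' : Set Ω), (∀ ω, ω ∉ U → ω ∈ U') → P C ≤ P U + P (C ∩ U') :=
    fun C U U' h => (measure_mono fun ω hω => by
      by_cases a : ω ∈ U
      · exact Or.inl a
      · exact Or.inr ⟨hω, h ω a⟩).trans (measure_union_le U (C ∩ U'))
  calc P C * P A ≤ (P U + P (C ∩ U')) * P A := mul_le_mul_left (k C U U' hU) _
    _ = P U * P A + P (C ∩ U') * P A := add_mul _ _ _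
    _ ≤ P U * (P V + P (A ∩ V')) + P (C ∩ U') * 1 :=
      add_le_add (mul_le_mul_right (k A V V' hV) _) (mul_le_mul_right prob_le_one _)
    _ = P U * P V + P (C ∩ U') + P U * P (A ∩ V') := by ring
    _ ≤ P U * P V + P (C ∩ U') + 1 * P (A ∩ V') :=
      add_le_add_right (mul_le_mul_left prob_le_one _) _
    _ = _ := by rw [one_mul]

end MpfL

open MpfL in
theorem mpf (h : sMPw) : sMPF := by
  intro Ω _ P _ H _ _ W hW K K' Γ m g w A C σ B η M x t ho hg hw hA hC hpos hσ hB hM hx hη hE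
  obtain ⟨A₀, hA₀, rfl⟩ := hA
  obtain ⟨C₀, hC₀, rfl⟩ := hC
  set Y : Ω → K' → ℝ := fun ω (h : K') => W h ω with hYd
  have hY : Measurable Y := measurable_pi_lambda _ fun h => hW.meas _
  have hw' : Measurable[FK W K] w :=
    @measurable_pi_lambda _ _ _ (FK W K) _ _ fun γ => @measurable_pi_lambda _ _ _ (FK W K) _ _ (hw γ)
  have hX : Measurable w := hw'.mono (FK_le hW K) le_rfl
  have hi : IndepFun w Y P := (IndepFun_iff_Indep _ _ _).2
    (indep_of_indep_of_le_left (FK_indep hW ho) hw'.comap_le)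
  let c : ℕ → (ℕ → ℕ → ℝ) × (K' → ℝ) → ℝ := fun γ q =>
    cw (m γ) (q.1 γ) fun l => q.2 ⟨g γ l, hg γ l⟩
  have mc : ∀ γ, Measurable (c γ) := fun γ => by
    simp only [c, cw]
    fun_prop
  let E : ℕ → Set ((ℕ → ℕ → ℝ) × (K' → ℝ)) := fun i => {q | ∃ γ ∈ Γ, (∀ γ' ∈ Γ, c γ q ≤ c γ' q) ∧
    σ * (i + 1) < ‖∑ l ∈ range (m γ), (q.1 γ l * exp (q.2 ⟨g γ l, hg γ l⟩) / c γ q) • g γ l‖ ^ 2}
  have mE : ∀ i, MeasurableSet (E i) := fun i => by
    refine measurableSet_setOfPred.2 (Measurable.exists fun γ => measurable_const.and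
      ((Measurable.forall fun γ' => measurable_const.imp
        (measurableSet_setOfPred.1 (measurableSet_le (mc γ) (mc γ')))).and
        (measurableSet_setOfPred.1 (measurableSet_lt measurable_const ?_))))
    have a : Continuous fun u : ℕ → ℝ => ‖∑ l ∈ range (m γ), u l • g γ l‖ ^ 2 := by fun_prop
    have := mc γ
    exact a.measurable.comp (f := fun (q : (ℕ → ℕ → ℝ) × (K' → ℝ)) l =>
      q.1 γ l * exp (q.2 ⟨g γ l, hg γ l⟩) / c γ q) (by fun_prop)
  let S₁ : Set ((ℕ → ℕ → ℝ) × (K' → ℝ)) := {q | q.2 ∈ C₀ ∧ ∃ γ ∈ Γ, c γ q ≤ x * exp t}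
  let S₂ : Set ((ℕ → ℕ → ℝ) × (K' → ℝ)) := {q | q.2 ∈ A₀ ∧ ∀ γ ∈ Γ, x < c γ q}
  have m₁ : MeasurableSet S₁ := (measurable_snd hC₀).inter
    (measurableSet_setOfPred.2 (Measurable.exists fun γ => measurable_const.and
      (measurableSet_setOfPred.1 (measurableSet_le (mc γ) measurable_const))))
  have m₂ : MeasurableSet S₂ := (measurable_snd hA₀).inter
    (measurableSet_setOfPred.2 (Measurable.forall fun γ => measurable_const.imp
      (measurableSet_setOfPred.1 (measurableSet_lt measurable_const (mc γ)))))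
  obtain ⟨f₁, i₁⟩ := freeze hX hY hi m₁
  obtain ⟨f₂, i₂⟩ := freeze hX hY hi m₂
  have fE := fun i => freeze hX hY hi (mE i)
  let b : Ω → ℝ≥0∞ := fun ω₀ =>
    ∑' i : ℕ, P {ω | (w ω₀, Y ω) ∈ E i} * ENNReal.ofReal (exp (η * i))
  have mb : Measurable b := Measurable.ennreal_tsum fun i => (fE i).1.mul_const _
  have ib : ∫⁻ ω₀, b ω₀ ∂P ≤ ENNReal.ofReal (2 * B) := by
    rw [lintegral_tsum fun i => ((fE i).1.mul_const _).aemeasurable]
    refine (ENNReal.tsum_le_tsum fun i => ?_).trans (geo hB)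
    rw [lintegral_mul_const _ (fE i).1, (fE i).2, ← ofReal_measureReal,
      ← ENNReal.ofReal_mul measureReal_nonneg]
    refine ENNReal.ofReal_le_ofReal ((mul_le_mul_of_nonneg_right (hE i) (exp_pos _).le).trans ?_)
    rw [mul_assoc, ← exp_add]
    exact le_of_eq (by ring_nf)
  set R : ℝ := exp (4 * M ^ 2 * σ - M * t) with hR
  have hR0 : 0 < R := exp_pos _
  have key : ∀ᵐ ω₀ ∂P, P (Y ⁻¹' C₀) * P (Y ⁻¹' A₀) ≤
      ENNReal.ofReal R + ENNReal.ofReal (2 * R) * b ω₀ + P {ω | (w ω₀, Y ω) ∈ S₁} +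
        P {ω | (w ω₀, Y ω) ∈ S₂} := by
    filter_upwards [hpos] with ω₀ h₀
    refine (split P _ _ {ω | ∀ γ ∈ Γ, x * exp t < c γ (w ω₀, Y ω)}
      {ω | ∃ γ ∈ Γ, c γ (w ω₀, Y ω) ≤ x} {ω | ∃ γ ∈ Γ, c γ (w ω₀, Y ω) ≤ x * exp t}
      {ω | ∀ γ ∈ Γ, x < c γ (w ω₀, Y ω)} (fun ω a => ?_) fun ω a => ?_).trans
      (add_le_add_left (add_le_add_left ?_ _) _)
    · simpa only [Set.mem_ofPred_eq, not_forall, not_lt, exists_prop] using a
    · simpa only [Set.mem_ofPred_eq, not_exists, not_and, not_le] using a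
    by_cases hb : b ω₀ = ⊤
    · rw [hb, ENNReal.mul_top (by simpa using hR0)]
      exact le_add_left le_top
    have := h Ω P H W hW Γ m g (w ω₀) σ (b ω₀).toReal η M x t h₀ hσ ENNReal.toReal_nonneg hM hx hη
      fun i => by
        have a : P {ω | (w ω₀, Y ω) ∈ E i} * ENNReal.ofReal (exp (η * i)) ≤ b ω₀ :=
          ENNReal.le_tsum i
        have a' := ENNReal.toReal_mono hb a
        rw [ENNReal.toReal_mul, ENNReal.toReal_ofReal (exp_pos _).le] at a'
        rw [exp_neg, ← div_eq_mul_inv, le_div_iff₀ (exp_pos _)]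
        exact a'
    rw [← ofReal_measureReal, ← ofReal_measureReal, ← ENNReal.ofReal_mul measureReal_nonneg,
      ← ENNReal.ofReal_toReal hb, ← ENNReal.ofReal_mul (by positivity),
      ← ENNReal.ofReal_add hR0.le (by positivity)]
    refine ENNReal.ofReal_le_ofReal (this.trans (le_of_eq ?_))
    ring
  have fin := lintegral_mono_ae key
  rw [lintegral_const, measure_univ, mul_one, lintegral_add_right _ f₂, lintegral_add_right _ f₁,
    lintegral_add_left measurable_const, lintegral_const, measure_univ, mul_one,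
    lintegral_const_mul _ mb, i₁, i₂] at fin
  have fin' := fin.trans (add_le_add_left (add_le_add_left (add_le_add_right
    (mul_le_mul_right ib _) _) _) _)
  rw [← ofReal_measureReal, ← ofReal_measureReal (s := Y ⁻¹' A₀),
    ← ofReal_measureReal (s := {ω | (w ω, Y ω) ∈ S₁}),
    ← ofReal_measureReal (s := {ω | (w ω, Y ω) ∈ S₂}), ← ENNReal.ofReal_mul measureReal_nonneg,
    ← ENNReal.ofReal_mul (by positivity), ← ENNReal.ofReal_add hR0.le (by positivity),
    ← ENNReal.ofReal_add (by positivity) measureReal_nonneg,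
    ← ENNReal.ofReal_add (by positivity) measureReal_nonneg,
    ENNReal.ofReal_le_ofReal_iff (by positivity)] at fin'
  refine fin'.trans (le_of_eq ?_)
  congr 2
  ring

end Pool.Agent.GC
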