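import Pool.Agent.Lib.MP_438f30_pr.C.St
import Pool.Agent.Lib.MP_438f30_pr.U.Mp

/-! Concentration of the least weighted cost by the rotation argument. -/

namespace Pool.Agent.GC

open MeasureTheory ProbabilityTheory Real Finset Pool.Agent.Lib.MP_a0a493_pr Pool.Agent.GL Filter
open Pool.Agent.GU
open scoped InnerProductSpace ENNReal Topology

namespace MpwL

variable {Ω : Type} [MeasurableSpace Ω] {P : Measure Ω} [IsProbabilityMeasure P] {H : Type}
  [NormedAddCommGroup H] [InnerProductSpace ℝ H] {W : H →ₗ[ℝ] (Ω → ℝ)}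

theorem rot (hW : Iso P W) {T : Type} [Countable T] (g : T → H)
    {Ψ : (T → ℝ) × (T → ℝ) → ℝ≥0∞} (hΨ : Measurable Ψ)
    (θ : ℝ) : ∫⁻ p : Ω × Ω, Ψ (fun v => cos θ * W (g v) p.1 + sin θ * W (g v) p.2,
      fun v => -sin θ * W (g v) p.1 + cos θ * W (g v) p.2) ∂P.prod P =
      ∫⁻ p : Ω × Ω, Ψ (fun v => W (g v) p.1, fun v => W (g v) p.2) ∂P.prod P := by
  let v : ℝ → T ⊕ T → WithLp 2 (H × H) := fun θ => Sum.elim
    (fun a => WithLp.toLp 2 (cos θ • g a, sin θ • g a))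
    fun a => WithLp.toLp 2 (-sin θ • g a, cos θ • g a)
  have hΨ' : Measurable fun y : T ⊕ T → ℝ => Ψ (fun a => y (.inl a), fun a => y (.inr a)) :=
    hΨ.comp (by fun_prop)
  have m : ∀ θ, Measurable fun p t => W2 W (v θ t) p := fun θ =>
    measurable_pi_lambda _ fun t => (iso_W2 hW).meas _
  have e := congrArg (fun μ => ∫⁻ y, Ψ (fun a => y (.inl a), fun a => y (.inr a)) ∂μ)
    (mp_law (iso_W2 hW) (v θ) (v 0) fun i j => by
      have := sin_sq_add_cos_sq θ
      rcases i with a | a <;> rcases j with b | b <;>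
        simp only [v, Sum.elim_inl, Sum.elim_inr, WithLp.prod_inner_apply, real_inner_smul_left,
          real_inner_smul_right, sin_zero, cos_zero]
      · linear_combination ⟪g a, g b⟫_ℝ * this
      · ring
      · ring
      · linear_combination ⟪g a, g b⟫_ℝ * this)
  simp only [lintegral_map hΨ' (m _)] at e
  simpa [v, W2] using e

theorem cw_pos {m : ℕ} {w : ℕ → ℝ} (h : ∀ l < m, 0 ≤ w l) (h' : 0 < ∑ l ∈ range m, w l)
    (y : ℕ → ℝ) : 0 < cw m w y := by
  obtain ⟨l, hl, hp⟩ : ∃ l ∈ range m, 0 < w l := by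
    by_contra hn
    push Not at hn
    exact absurd (sum_nonpos hn) (not_le.2 h')
  exact sum_pos' (fun i hi => mul_nonneg (h i (mem_range.1 hi)) (exp_pos _).le)
    ⟨l, hl, mul_pos hp (exp_pos _)⟩

end MpwL

theorem mpw : sMPw := by
  intro Ω _ P _ H _ _ W hW Γ m g w σ B η M x t hne hσ hB hM hx hη hE
  classical
  rcases Γ.eq_empty_or_nonempty with rfl | hΓ
  · simp only [notMem_empty, false_and, exists_false, Set.ofPred_false, measureReal_empty, mul_zero]
    positivity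
  let c : (ℕ × ℕ → ℝ) → ℕ → ℝ := fun y S => cw (m S) (w S) fun l => y (S, l)
  have cp : ∀ y, ∀ S ∈ Γ, 0 < c y S := fun y S hS => MpwL.cw_pos (hne S hS).1 (hne S hS).2 _
  let G : ℕ × ℕ → H := fun v => g v.1 v.2
  let D : ℕ → (ℕ × ℕ → ℝ) × (ℕ × ℕ → ℝ) → ℝ := fun S q =>
    ∑ l ∈ range (m S), w S l * exp (q.1 (S, l)) / c q.1 S * q.2 (S, l)
  let Φ : Γ → (ℕ × ℕ → ℝ) × (ℕ × ℕ → ℝ) → ℝ≥0∞ := fun S q => if ∀ S' ∈ Γ, c q.1 S ≤ c q.1 S' then
    ENNReal.ofReal (exp (π / 2 * M * D S q - M * t)) else ⊤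
  let Ψ : (ℕ × ℕ → ℝ) × (ℕ × ℕ → ℝ) → ℝ≥0∞ := fun q => ⨅ S, Φ S q
  have mc : ∀ S, Measurable fun q : (ℕ × ℕ → ℝ) × (ℕ × ℕ → ℝ) => c q.1 S := fun S => by
    simp only [c, cw]
    fun_prop
  have mΨ : Measurable Ψ := by
    refine Measurable.iInf fun S => Measurable.ite ?_ ?_ measurable_const
    · simp only [Set.ofPred_forall]
      exact MeasurableSet.iInter fun S' => MeasurableSet.iInter fun _ =>
        measurableSet_le (mc _) (mc _)
    · simp only [D, c, cw]
      fun_prop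
  have hΦ : ∀ q S (hS : S ∈ Γ), (∀ S' ∈ Γ, c q.1 S ≤ c q.1 S') →
      Ψ q ≤ ENNReal.ofReal (exp (π / 2 * M * D S q - M * t)) := fun q S hS h =>
    (iInf_le _ ⟨S, hS⟩).trans (if_pos h).le
  have hΨ : ∀ q, ∃ S ∈ Γ, (∀ S' ∈ Γ, c q.1 S ≤ c q.1 S') ∧
      Ψ q = ENNReal.ofReal (exp (π / 2 * M * D S q - M * t)) := fun q => by
    have : Nonempty Γ := hΓ.to_subtype
    obtain ⟨S, hS⟩ := exists_eq_ciInf_of_finite (f := fun S => Φ S q)
    obtain ⟨S₀, h₀, hm⟩ := Γ.exists_min_image (c q.1) hΓ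
    by_cases h : ∀ S' ∈ Γ, c q.1 S ≤ c q.1 S'
    · exact ⟨S, S.2, h, hS.symm.trans (if_pos h)⟩
    · have := hΦ q S₀ h₀ hm
      rw [show Ψ q = ⊤ from hS.symm.trans (if_neg h)] at this
      exact absurd this (by simp)
  let R : Ω × Ω → ℝ → (ℕ × ℕ → ℝ) × (ℕ × ℕ → ℝ) := fun p θ =>
    (fun v => cos θ * W (G v) p.1 + sin θ * W (G v) p.2,
      fun v => -sin θ * W (G v) p.1 + cos θ * W (G v) p.2)
  have mR : Measurable (Function.uncurry fun p θ => Ψ (R p θ)) := by
    have := fun v => hW.meas (G v)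
    refine mΨ.comp ?_
    simp only [R]
    fun_prop
  have hπ : 0 < π / 2 := by positivity
  have h1 : ∀ p : Ω × Ω, p ∈ {ω | ∃ S ∈ Γ, c (fun v => W (G v) ω) S ≤ x} ×ˢ
      {ω | ∀ S ∈ Γ, x * exp t < c (fun v => W (G v) ω) S} →
      ENNReal.ofReal (π / 2) ≤ ∫⁻ θ in Set.Ioc 0 (π / 2), Ψ (R p θ) := by
    rintro p ⟨⟨S, hS, h⟩, h'⟩
    refine mp_ftc (fun S θ => log (c (R p θ).1 S)) (fun S θ => D S (R p θ)) hΓ
      (fun S hS θ => ?_) hπ.le hM (t := t) mR.of_uncurry_left (fun θ => ?_)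
      ⟨S, hS, fun S' hS' => ?_⟩
    · refine ((HasDerivAt.fun_sum fun l _ => ((((hasDerivAt_cos θ).mul_const
        (W (G (S, l)) p.1)).add ((hasDerivAt_sin θ).mul_const (W (G (S, l)) p.2))).exp).const_mul
        (w S l)).log (cp (R p θ).1 S hS).ne').congr_deriv ?_
      simp only [D, sum_div]
      exact sum_congr rfl fun v _ => by
        rw [div_mul_eq_mul_div, mul_assoc]
        rfl
    · obtain ⟨S, hS, h, e⟩ := hΨ (R p θ)
      exact ⟨S, hS, fun S' hS' => log_le_log (cp _ S hS) (h S' hS'), e⟩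
    · have a := log_le_log (cp (fun v => W (G v) p.1) S hS) h
      have b := log_le_log (by positivity) (h' S' hS').le
      rw [log_mul hx.ne' (exp_pos _).ne', log_exp] at b
      simp only [R, cos_zero, sin_zero, cos_pi_div_two, sin_pi_div_two, one_mul, zero_mul,
        add_zero, zero_add]
      linarith
  have h2 := (mul_le_mul_right (measure_mono h1) _).trans
    (mul_meas_ge_le_lintegral₀ (μ := P.prod P) mR.lintegral_prod_right.aemeasurable _)
  rw [lintegral_lintegral_swap mR.aemeasurable, Measure.prod_prod] at h2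
  simp only [R, MpwL.rot hW G mΨ, lintegral_const, Measure.restrict_apply_univ, Real.volume_Ioc,
    sub_zero] at h2
  rw [mul_comm _ (ENNReal.ofReal _), ENNReal.mul_le_mul_iff_right (by simpa using pi_pos)
    ENNReal.ofReal_ne_top] at h2
  have h3 := mp_layer (P := P) _ (a := 2 * M ^ 2 * σ) (by positivity) hB hη hE
    (f := fun ω => ENNReal.ofReal (exp (M * t)) *
      ∫⁻ ω', Ψ (fun v => W (G v) ω, fun v => W (G v) ω') ∂P) fun ω i hi => by
    obtain ⟨S, hS, hm⟩ := Γ.exists_min_image (c fun v => W (G v) ω) hΓ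
    have hZ := not_lt.1 fun h => hi ⟨S, hS, hm, h⟩
    have a := mp_mgf hW (∑ l ∈ range (m S), (w S l * exp (W (g S l) ω) /
      cw (m S) (w S) fun l => W (g S l) ω) • g S l) (π / 2 * M) (M * t)
    have b := lintegral_mono (μ := P) fun ω' =>
      hΦ (fun v => W (G v) ω, fun v => W (G v) ω') S hS hm
    simp only [map_sum, map_smul, Finset.sum_apply, Pi.smul_apply, smul_eq_mul] at a
    refine (mul_le_mul_right (b.trans a.le) _).trans ?_
    rw [← ENNReal.ofReal_mul (exp_pos _).le, ← exp_add]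
    refine ENNReal.ofReal_le_ofReal (exp_le_exp.2 ?_)
    have c' : (π / 2 * M) ^ 2 ≤ (2 * M) ^ 2 := pow_le_pow_left₀ (by positivity)
      (mul_le_mul_of_nonneg_right (by linarith [pi_le_four]) hM) 2
    have := mul_le_mul hZ c' (sq_nonneg _) (by positivity)
    nlinarith
  rw [lintegral_const_mul' _ _ ENNReal.ofReal_ne_top] at h3
  have h4 := (mul_le_mul_right (h2.trans (lintegral_prod_le _)) _).trans h3
  rw [← ofReal_measureReal, ← ofReal_measureReal, ← ENNReal.ofReal_mul measureReal_nonneg,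
    ← ENNReal.ofReal_mul (exp_pos _).le, ENNReal.ofReal_le_ofReal_iff (by positivity)] at h4
  rw [exp_sub, ← mul_div_assoc, le_div_iff₀ (exp_pos _), show 4 * M ^ 2 * σ = 2 * (2 * M ^ 2 * σ) by
    ring]
  simp only [c, G] at h4
  linarith

end Pool.Agent.GC
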