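import Pool.Agent.Lib.MP_438f30_pr.C.St2
import Pool.Agent.Lib.MP_438f30_pr.GBdd

/-! One of many concentric annuli is good. -/

namespace Pool.Agent.GC

open MeasureTheory ProbabilityTheory Real Finset Filter Topology Pool.Agent.Lib.MP_a0a493_pr
  Pool.Agent.GL
open Pool.Agent.GU (FK FK_mono FK_indep)

namespace MsL

theorem gd_mono (ma : MA) {d : Mt} {z : R2} {r s S s' S' : ℝ} (h : Gd d z r s S) (hs : s' ≤ s)
    (hS : S ≤ S') : Gd d z r s' S' :=
  ⟨fun u u' a b c => h.1 u u' a b (ma.mono c subset_rfl hs),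
    fun u hu u' hu' => (h.2 u hu u' hu').trans (ENNReal.ofReal_le_ofReal hS)⟩

theorem ex (ma : MA) {d : Mt} (hd : IsMet d) {r : ℝ} (hr : 0 < r) :
    ∃ n : ℕ, Gd d 0 r (1 / (n + 1)) (n + 1) := by
  obtain ⟨s, s0, hs⟩ := ((isCompact_closedBall (0 : R2) (22 * r)).prod
    ((isCompact_closedBall (0 : R2) (36 * r)).diff
      (Metric.isOpen_ball (x := 0) (ε := 34 * r)))).exists_forall_le' (a := 0)
    hd.cont.continuousOn fun b hb => by
      obtain ⟨t, t0, ht⟩ := hd.top b.1 r hr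
      refine t0.trans_le (not_lt.1 fun c => ?_)
      have a1 := Metric.mem_closedBall.1 hb.1
      have a2 := not_lt.1 (mt Metric.mem_ball.2 hb.2.2)
      have a3 := dist_triangle_left b.2 0 b.1
      linarith [ht _ c]
  obtain ⟨S, hS⟩ := GBdd.bd hd (GBdd.opn 0 (20 * r) (36 * r)) (GBdd.con (by positivity))
    ((isCompact_closedBall (0 : R2) (32 * r)).diff (Metric.isOpen_ball (x := 0) (ε := 24 * r)))
    fun x hx => by
      have a := Metric.mem_closedBall.1 hx.1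
      have b := not_lt.1 (mt Metric.mem_ball.2 hx.2)
      exact ⟨by linarith, by linarith⟩
  obtain ⟨n, hn⟩ := exists_nat_ge (max S (1 / s))
  have h : Gd d 0 r s S := by
    refine ⟨fun u u' a b c => ?_, fun u hu v hv => hS u ⟨hu.2.le, fun h => hu.1.not_gt h⟩ v
      ⟨hv.2.le, fun h => hv.1.not_gt h⟩⟩
    exact (ma.le hd c).not_ge (hs (u, u') ⟨a.le, (ma.mem c).2.1.2.le, fun h => b.not_gt h⟩)
  refine ⟨n, gd_mono ma h ?_ (by linarith [le_max_left S (1 / s)])⟩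
  rw [one_div_le (by positivity) s0]
  linarith [le_max_right S (1 / s)]

variable {Ω H : Type} [MeasurableSpace Ω] [NormedAddCommGroup H] [InnerProductSpace ℝ H]
  {P : Measure Ω} [IsProbabilityMeasure P] {M : Dat Ω H} {η : ℝ}

theorem tight (h : Sd P M η) {ε : ℝ} (hε : 0 < ε) :
    ∃ n : ℕ, P.real {ω | ¬ Gd (M.d 0 ω) 0 M.C0 (1 / (n + 1)) (n + 1)} ≤ ε := by
  have hr : (0 : ℝ) < M.C0 := by exact_mod_cast h.bz.one
  have t := tendsto_measure_iInter_atTop (μ := P)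
    (s := fun n : ℕ => {ω | ¬ Gd (M.d 0 ω) 0 M.C0 (1 / (n + 1)) (n + 1)})
    (fun n => h.lc.nm 0 _ _ (h.la.gd 0 M.C0 (1 / (n + 1)) (n + 1)).not)
    (fun a b hab ω hb ha => by
      have : (a : ℝ) ≤ b := by exact_mod_cast hab
      exact hb (gd_mono h.ma ha (one_div_le_one_div_of_le (by positivity) (by linarith))
        (by linarith)))
    ⟨0, measure_ne_top _ _⟩
  have z : P (⋂ n : ℕ, {ω | ¬ Gd (M.d 0 ω) 0 M.C0 (1 / (n + 1)) (n + 1)}) = 0 := by
    refine measure_mono_null ?_ (ae_iff.1 (h.met 0))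
    intro ω hω hm
    obtain ⟨n, hn⟩ := ex h.ma hm hr
    exact Set.mem_iInter.1 hω n hn
  rw [z] at t
  obtain ⟨n, hn⟩ := (t.eventually (gt_mem_nhds (ENNReal.ofReal_pos.2 hε))).exists
  exact ⟨n, ENNReal.toReal_le_of_le_ofReal hε.le hn.le⟩

theorem prod (hW : Iso P M.W) (K : ℕ → Set H) (A : ℕ → Set Ω) {ε : ℝ} (hε : 0 ≤ ε)
    (hA : ∀ i, MeasurableSet[FK M.W (K i)] (A i)) (hP : ∀ i, P.real (A i) ≤ ε)
    (ho : ∀ n i, i < n → ∀ v ∈ K n, ∀ v' ∈ K i, inner ℝ v v' = 0) (N : ℕ) :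
    P.real {ω | ∀ i < N, ω ∈ A i} ≤ ε ^ N := by
  induction N with
  | zero => simp
  | succ n ih =>
    have e : {ω | ∀ i < n + 1, ω ∈ A i} = A n ∩ {ω | ∀ i < n, ω ∈ A i} := by
      ext ω
      simp only [Set.mem_ofPred_eq, Set.mem_inter_iff, Nat.forall_lt_succ_right, and_comm]
    have m : MeasurableSet[FK M.W {v | ∃ i < n, v ∈ K i}] {ω | ∀ i < n, ω ∈ A i} := by
      have := MeasurableSet.iInter (m := FK M.W {v | ∃ i < n, v ∈ K i}) fun i =>
        MeasurableSet.iInter (m := FK M.W {v | ∃ i < n, v ∈ K i}) fun hi : i < n =>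
          FK_mono M.W (K := K i) (K' := {v | ∃ i < n, v ∈ K i})
            (fun v hv => ⟨i, hi, hv⟩) _ (hA i)
      convert this using 1
      ext ω
      simp
    have i1 := (Indep_iff _ _ _).1 (FK_indep (K := K n) (K' := {v | ∃ i < n, v ∈ K i}) hW
      fun v hv v' ⟨i, h1, h2⟩ => ho n i h1 v hv v' h2) _ _ (hA n) m
    rw [e, measureReal_def, i1, ENNReal.toReal_mul, pow_succ']
    exact mul_le_mul (hP n) ih measureReal_nonneg hε

end MsL

open MsL in
theorem ms : sMS := by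
  intro Ω H _ _ _ P _ M η h ε hε
  obtain ⟨n, hn⟩ := tight h hε
  have hr : (0 : ℝ) < M.C0 := by exact_mod_cast h.bz.one
  refine ⟨n + 1, by simp, fun j z N => ?_⟩
  choose A hA hA' using fun i : ℕ => h.lc.ver (j - 2 * (i : ℕ)) _ _
    (h.la.gd z (M.C0 * 2 ^ (j - 2 * (i : ℕ))) (exp (M.q * (j - 2 * (i : ℕ) : ℤ)) / (n + 1))
      ((n + 1) * exp (M.q * (j - 2 * (i : ℕ) : ℤ)))).not
  refine le_of_eq_of_le (measureReal_congr ?_) (prod h.iso _ A hε.le hA (fun i => ?_) ?_ N)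
  · filter_upwards [ae_all_iff.2 hA'] with ω hω
    exact propext (forall₂_congr fun i _ => (hω i).to_iff)
  · rw [← measureReal_congr (hA' i), div_eq_mul_one_div, mul_comm ((n : ℝ) + 1), h.iv.gd]
    exact hn
  · intro a b hab
    refine h.o2 _ _ _ _ (by omega) fun x hx y hy => ?_
    have e : (2 : ℝ) ^ (j - 2 * (a : ℕ) + 2) ≤ 2 ^ (j - 2 * (b : ℕ)) :=
      zpow_le_zpow_right₀ one_le_two (by omega)
    rw [zpow_add₀ two_ne_zero] at e
    have e2 := mul_le_mul_of_nonneg_left e hr.le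
    have e3 : (0 : ℝ) < M.C0 * 2 ^ (j - 2 * (a : ℕ)) := by positivity
    have a3 := dist_triangle_left y z x
    have a1 := hx.2
    have a2 := hy.1
    norm_num at e2
    linarith

end Pool.Agent.GC
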