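import Pool.Agent.Lib.MP_438f30_pr.C.St2
import Pool.Agent.Lib.MP_438f30_pr.U.Np

/-! The probability of a bad site in the continuum. -/

namespace Pool.Agent.GC

open MeasureTheory Real Finset Pool.Agent.Lib.MP_a0a493_pr Pool.Agent.GL

namespace NpL

theorem bx {v : R2} {r r' : ℝ} (h : r ≤ r') : Bx v r ⊆ Bx v r' :=
  fun _ hy i => (hy i).trans_le h

theorem llm {d : Mt} {j : ℤ} {v : R2} {x y : ℝ} (h : LLc d j v x) (hxy : x ≤ y) :
    LLc d j v y := by
  obtain ⟨u, hu, u', hu', e⟩ := h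
  exact ⟨u, hu, u', hu', e.trans_le hxy⟩

theorem det (ma : MA) {d d' : Mt} {f g : R2 → ℝ} {μ : ℤ → ℝ} {k : ℤ} {lm n : ℕ} {v : R2}
    (m1 : IsMet d) (m2 : IsMet d') (c1 : Cmp d d' fun x => g x - f x)
    (c2 : Cmp d' d fun x => f x - g x) (μ0 : 0 < μ (k - n))
    (h1 : ¬ LLc d' (k - n) v (μ (k - n) * exp (-1 - lm - n / 20)))
    (h2 : ∀ e : Fin 2, Tc d' (Bx v (2 ^ (16 + 4 * lm + n / 2) * 2 ^ (k - n))) v
      (v + (2 : ℝ) ^ (k - n) • ax e) (μ (k - n) * (900 * exp (lm + n / 20))))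
    (h3 : ∀ y ∈ Bx v (2 ^ (16 + 4 * lm + n / 2) * 2 ^ (k - n)), |f y - g y| ≤ n / 20 + lm) :
    Nc lm d μ k n v := by
  have a := GU.Np.e10 n
  have z : (0 : ℝ) < 2 ^ (k - n) := zpow_pos (by norm_num) _
  have s : Bx v (5 * 2 ^ (k - n)) ⊆ Bx v (2 ^ (16 + 4 * lm + n / 2) * 2 ^ (k - n)) := by
    refine bx (mul_le_mul_of_nonneg_right ?_ z.le)
    calc (5 : ℝ) ≤ 2 ^ 3 := by norm_num
      _ ≤ _ := pow_le_pow_right₀ (by norm_num) (by omega)
  have b : exp ((n : ℝ) / 20 + lm) * exp (lm + n / 20) = exp (2 * lm) * exp (n / 10) := by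
    rw [← exp_add, ← exp_add]
    congr 1
    ring
  refine ⟨fun h => h1 (llm (ma.llc (c := n / 20 + lm) m1 m2 c1 (fun y hy => ?_) h) ?_), fun e =>
    ma.mono (c2 _ _ _ _ (n / 20 + lm) (fun y hy => ?_) (h2 e)) subset_rfl ?_⟩
  · have := abs_le.1 (h3 y (s hy))
    linarith
  · have p : (0 : ℝ) < (10 / 9) ^ n := by positivity
    have q : exp ((n : ℝ) / 20 + lm) =
        exp (-1 - lm - (n : ℝ) / 20) * (exp (2 * lm) * (exp 1 * exp (n / 10))) := by
      rw [← exp_add, ← exp_add, ← exp_add]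
      congr 1
      ring
    have r : exp 1 * exp ((n : ℝ) / 10) ≤ 3 * (10 / 9) ^ n :=
      mul_le_mul (exp_one_lt_d9.le.trans (by norm_num)) a (exp_pos _).le (by norm_num)
    rw [← mul_div_assoc, div_le_iff₀ (by positivity), mul_comm, mul_assoc]
    refine mul_le_mul_of_nonneg_left ?_ μ0.le
    rw [q]
    refine mul_le_mul_of_nonneg_left ?_ (exp_pos _).le
    calc exp (2 * (lm : ℝ)) * (exp 1 * exp (n / 10)) ≤ exp (2 * lm) * (3 * (10 / 9) ^ n) :=
          mul_le_mul_of_nonneg_left r (exp_pos _).le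
      _ = _ := by ring
  · exact (abs_le.1 (h3 y hy)).2
  · calc exp ((n : ℝ) / 20 + lm) * (μ (k - n) * (900 * exp (lm + n / 20))) =
          900 * μ (k - n) * (exp ((n : ℝ) / 20 + lm) * exp (lm + n / 20)) := by ring
      _ = 900 * exp (2 * lm) * μ (k - n) * exp (n / 10) := by rw [b]; ring
      _ ≤ _ := mul_le_mul_of_nonneg_left a (by positivity)

theorem num {η : ℝ} (hη : 100 ≤ η) (lm : ℕ) {i : ℕ} (hi : 1 ≤ i) :
    300 * 4 ^ (16 + 4 * lm + i / 2) * exp (-(10 ^ 5 * η * (i / 20 + lm))) ≤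
      exp (-(η * (1 + i))) / 4 := by
  have i1 : (1 : ℝ) ≤ i := Nat.one_le_cast.2 hi
  have l0 : (0 : ℝ) ≤ lm := Nat.cast_nonneg lm
  have a : (4 : ℝ) ≤ exp 2 := by
    have := add_one_le_exp (1 : ℝ)
    rw [show (2 : ℝ) = 1 + 1 by norm_num, exp_add]
    nlinarith
  have b : (4 : ℝ) ^ (6 + (16 + 4 * lm + i / 2)) ≤ exp (2 * (24 * i + 4 * lm)) :=
    calc (4 : ℝ) ^ (6 + (16 + 4 * lm + i / 2)) ≤ 4 ^ (24 * i + 4 * lm) :=
          pow_le_pow_right₀ (by norm_num) (by omega)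
      _ ≤ exp 2 ^ (24 * i + 4 * lm) := pow_le_pow_left₀ (by norm_num) a _
      _ = _ := by rw [← exp_nat_mul]; congr 1; push_cast; ring
  have c : exp (2 * (24 * (i : ℝ) + 4 * lm)) * exp (-(10 ^ 5 * η * (i / 20 + lm))) ≤
      exp (-(η * (1 + i))) := by
    rw [← exp_add]
    have u1 := mul_le_mul_of_nonneg_right hη l0
    have u2 := mul_le_mul_of_nonneg_right hη (zero_le_one.trans i1)
    have u3 := mul_le_mul_of_nonneg_left i1 (show 0 ≤ η by linarith)
    exact exp_le_exp.2 (by nlinarith)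
  have d : (0 : ℝ) < 4 ^ (16 + 4 * lm + i / 2) := by positivity
  have e := exp_pos (-(10 ^ 5 * η * ((i : ℝ) / 20 + lm)))
  rw [pow_add] at b
  generalize (4 : ℝ) ^ (16 + 4 * lm + i / 2) = x at *
  have := mul_le_mul_of_nonneg_right b e.le
  have := mul_pos d e
  nlinarith

end NpL

open NpL in
theorem np : sNP := by
  intro Ω H _ _ _ P _ M η h m lm m0 hL hU k i v
  have hη := h.eta
  have i0 : (0 : ℝ) ≤ i := Nat.cast_nonneg i
  have l0 : (0 : ℝ) ≤ lm := Nat.cast_nonneg lm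
  have hC : P.real {ω | ∃ y ∈ Bx v (2 ^ (16 + 4 * lm + i / 2) * 2 ^ (k - i)),
      (i : ℝ) / 20 + lm < |M.Y k ω y - M.Y (k - i) ω y|} ≤ exp (-(η * (1 + i))) / 4 := by
    rcases Nat.eq_zero_or_pos i with rfl | hi
    · simp only [Nat.cast_zero, zero_div, sub_zero, sub_self, abs_zero, zero_add, l0.not_gt,
        and_false, exists_false, Set.ofPred_false, measureReal_empty]
      positivity
    · have i1 : (1 : ℝ) ≤ i := Nat.one_le_cast.2 hi
      have := h.sp (k - i) i (16 + 4 * lm + i / 2) v (i / 20 + lm) (by linarith) (by linarith)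
      rw [sub_add_cancel] at this
      exact this.trans (num hη lm hi)
  have hE : exp (-(η * (1 + i))) ≤ 1 / 4 := by
    have := add_one_le_exp (η * (1 + i))
    rw [exp_neg, ← one_div, div_le_div_iff₀ (exp_pos _) (by norm_num)]
    nlinarith
  have h2 : exp (-(2 * η * (1 + i))) ≤ exp (-(η * (1 + i))) / 4 := by
    rw [show -(2 * η * (1 + i)) = -(η * (1 + i)) + -(η * (1 + i)) by ring, exp_add]
    nlinarith [exp_pos (-(η * (1 + (i : ℝ))))]
  have h3 : exp (-(3 * η * (1 + i))) ≤ exp (-(2 * η * (1 + i))) := exp_le_exp.2 (by nlinarith)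
  have a0 : P.real {ω | ¬ ((∀ k, IsMet (M.d k ω)) ∧
      ∀ j k, Cmp (M.d j ω) (M.d k ω) fun x => M.Y k ω x - M.Y j ω x)} = 0 := by
    rw [measureReal_def, ae_iff.1 h.ba.all, ENNReal.toReal_zero]
  have a1 := (h.iv.ll (k - i) v _).trans_le (hL i)
  have a2 := (h.iv.tc (k - i) v 0 _ _).trans_le (hU 0 i)
  have a3 := (h.iv.tc (k - i) v 1 _ _).trans_le (hU 1 i)
  have e1 : ∀ x, exp (M.q * ((k - i : ℤ) : ℝ)) * (m * x) = mu M m (k - i) * x := fun x => by
    rw [mu]; ring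
  have e2 : ∀ x, exp (M.q * ((k - i : ℤ) : ℝ)) * (900 * m * x) = mu M m (k - i) * (900 * x) :=
    fun x => by rw [mu]; ring
  rw [e1] at a1
  rw [e2] at a2 a3
  refine (measureReal_mono (fun ω hω => ?_) (measure_ne_top _ _)).trans
    ((measureReal_union_le _ _).trans ((add_le_add ((measureReal_union_le _ _).trans
      (add_le_add ((measureReal_union_le _ _).trans (add_le_add
        ((measureReal_union_le _ _).trans (add_le_add a0.le a1)) a2)) a3)) hC).trans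
          (by linarith)))
  by_contra hn
  simp only [Set.mem_union, Set.mem_ofPred_eq, not_or, not_not] at hn
  obtain ⟨⟨⟨⟨⟨n0, n1⟩, n2⟩, n3⟩, n4⟩, n5⟩ := hn
  exact hω (det h.ma (n0 k) (n0 (k - i)) (n1 k (k - i)) (n1 (k - i) k)
    (mul_pos m0 (exp_pos _)) n2 (Fin.forall_fin_two.2 ⟨n3, n4⟩)
    fun y hy => not_lt.1 fun c => n5 ⟨y, hy, c⟩)

end Pool.Agent.GC
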