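import Pool.Agent.Lib.MP_438f30_pr.C.St
import Pool.Agent.Lib.MP_438f30_pr.U.Osc

/-! Chaining for a continuous version. -/

namespace Pool.Agent.GC

open MeasureTheory Real Finset Filter Topology Pool.Agent.Lib.MP_a0a493_pr Pool.Agent.GL
open Pool.Agent.GU (Z2)

namespace OscCL

theorem approx {z y : R2} {r : ℝ} (hr : 0 < r) (hy : y ∈ Bx z r) :
    ∃ v : ℕ → Z2, (∀ t, Near (2 ^ t) 0 (v t)) ∧
      Tendsto (fun t : ℕ => z + (r / 2 ^ t) • pt (v t)) atTop (𝓝 y) := by
  refine ⟨fun t i => ⌊(y i - z i) / (r / 2 ^ t)⌋, fun t i => ?_, ?_⟩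
  · have p : 0 < r / 2 ^ t := by positivity
    have e : (2 : ℝ) ^ t * (r / 2 ^ t) = r := by field_simp
    have h := abs_lt.1 (hy i)
    rw [Pi.zero_apply, zero_sub, abs_neg, abs_le]
    refine ⟨Int.le_floor.2 ?_, (Int.floor_lt.2 ?_).le⟩ <;> push_cast
    · rw [le_div_iff₀ p]
      linarith [h.1]
    · rw [div_lt_iff₀ p]
      linarith [h.2]
  · have t0 : Tendsto (fun n : ℕ => 2 * r * (1 / 2 : ℝ) ^ n) atTop (𝓝 (2 * r * 0)) :=
      (tendsto_pow_atTop_nhds_zero_of_lt_one (by norm_num) (by norm_num)).const_mul _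
    rw [mul_zero] at t0
    rw [tendsto_iff_dist_tendsto_zero]
    refine squeeze_zero (fun _ => dist_nonneg) (fun t => ?_) t0
    have p : 0 < r / 2 ^ t := by positivity
    refine (dist_le_of p.le fun i => ?_).trans_eq (by
      rw [one_div, inv_pow]
      push_cast
      ring)
    have h1 := (le_div_iff₀ p).1 (Int.floor_le ((y i - z i) / (r / 2 ^ t)))
    have h2 := (div_lt_iff₀ p).1 (Int.lt_floor_add_one ((y i - z i) / (r / 2 ^ t)))
    simp only [PiLp.add_apply, PiLp.smul_apply, pt_apply, smul_eq_mul]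
    rw [abs_le]
    constructor <;> linarith

end OscCL

theorem oscC : sOscC := by
  intro Ω _ P _ H _ _ W hW g F L r s z hL hr hs hg hF hae
  let E : ℕ → Set Ω := fun t => {ω | ∃ v : Z2, Near (2 ^ t) 0 v ∧
    40 * (L * r) * (1 + s) < |W (g (z + (r / 2 ^ t) • pt v)) ω - W (g z) ω|}
  have hE : ∀ t, P.real (E t) ≤ exp (-s ^ 2) := fun t => by
    have p : 0 < r / 2 ^ t := by positivity
    have := GU.osc Ω P H W hW (fun v => g (z + (r / 2 ^ t) • pt v)) (L * (r / 2 ^ t)) s t 0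
      (by positivity) hs fun v w => (hg _ _).trans_eq (by
        rw [add_sub_add_left_eq_sub, ← smul_sub, norm_smul, Real.norm_of_nonneg p.le, mul_assoc])
    rwa [pt_zero, smul_zero, add_zero,
      show L * (r / 2 ^ t) * 2 ^ t = L * r by field_simp] at this
  have hm : Monotone E := monotone_nat_of_le_succ fun t ω ⟨v, hv, h⟩ => by
    refine ⟨(2 : ℤ) • v, fun i => ?_, ?_⟩
    · have := hv i
      rw [Pi.zero_apply, zero_sub, abs_neg] at this ⊢
      rw [Pi.smul_apply, smul_eq_mul, abs_mul, pow_succ]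
      norm_num
      linarith
    · rwa [pt_zsmul, smul_smul, show r / 2 ^ (t + 1) * ((2 : ℤ) : ℝ) = r / 2 ^ t by
        push_cast
        field_simp
        ring]
  have hU : P (⋃ t, E t) ≤ ENNReal.ofReal (exp (-s ^ 2)) := by
    rw [hm.measure_iUnion]
    exact iSup_le fun t => (ENNReal.le_ofReal_iff_toReal_le (measure_ne_top _ _)
      (exp_pos _).le).2 (hE t)
  refine ENNReal.toReal_le_of_le_ofReal (exp_pos _).le ((measure_mono_ae ?_).trans hU)
  filter_upwards [hae z, ae_all_iff.2 fun t : ℕ => ae_all_iff.2 fun v : Z2 =>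
    hae (z + (r / 2 ^ t) • pt v)] with ω h0 h1
  rintro ⟨y, hy, h⟩
  obtain ⟨v, hv, ht⟩ := OscCL.approx hr hy
  obtain ⟨t, k⟩ := (((((hF ω).tendsto y).comp ht).sub_const (F ω z)).abs.eventually
    (lt_mem_nhds h)).exists
  exact Set.mem_iUnion.2 ⟨t, v t, hv t, by rwa [← h0, ← h1]⟩

end Pool.Agent.GC
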