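import Pool.Agent.Lib.MP_438f30_pr.C.St2

/-! Crossings have a positive cost. -/

namespace Pool.Agent.GC

open Filter Topology Metric Pool.Agent.Lib.MP_a0a493_pr Pool.Agent.GL

namespace MdL

theorem unif {d : Mt} (hd : IsMet d) {K : Set R2} (hK : IsCompact K) {r : ℝ} (hr : 0 < r) :
    ∃ s > (0 : ℝ), ∀ u ∈ K, ∀ y, d u y < s → dist u y < r := by
  have := hK.eventually_forall_of_forall_eventually (x₀ := (0 : ℝ))
    (P := fun s u => ∀ y, d u y < s → dist u y < r) fun u _ => by
      obtain ⟨s, s0, hs⟩ := hd.top u (r / 2) (half_pos hr)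
      have a : ∀ᶠ z : ℝ × R2 in 𝓝 (0, u), z.1 < s / 2 :=
        continuous_fst.continuousAt.eventually_lt continuousAt_const (half_pos s0)
      have b : ∀ᶠ z : ℝ × R2 in 𝓝 (0, u), d u z.2 < s / 2 :=
        (hd.cont.comp (f := fun z : ℝ × R2 => (u, z.2)) (by fun_prop)).continuousAt.eventually_lt
          continuousAt_const (by simpa [hd.self] using s0)
      have c : ∀ᶠ z : ℝ × R2 in 𝓝 (0, u), dist u z.2 < r / 2 :=
        (continuous_const.dist continuous_snd).continuousAt.eventually_lt continuousAt_const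
          (by simpa using hr)
      filter_upwards [a, b, c] with z a b c y hy
      have := hs y (by linarith [hd.tri u z.2 y])
      linarith [dist_triangle_left z.2 y u]
  exact (eventually_mem_nhdsWithin.and (nhdsWithin_le_nhds (s := Set.Ioi 0) this)).exists

end MdL

theorem pos (_ma : MA) : sPos := by
  intro d v w ρ R hd h0 hR hw
  obtain ⟨s, s0, hs⟩ := MdL.unif hd (isCompact_closedBall v (2 * ρ)) one_pos
  refine ⟨s, s0, fun ⟨u, y, hu, hy, h⟩ => ?_⟩
  have a : ∀ i, |u i - v i| ≤ ρ := fun i => by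
    rcases hu with rfl | hu
    · simpa using h0
    · exact (hu i).le
  obtain ⟨i, b⟩ : ∃ i, ρ + 1 ≤ |y i - v i| := by
    rcases hy with rfl | ⟨i, hi⟩
    · exact (not_forall.1 hw).imp fun i => not_lt.1
    · exact ⟨i, hR.trans hi.le⟩
  have c := hs u (mem_closedBall_iff_norm.2 (norm_le_two h0 a)) y h
  have e := abs_le_norm2 (y - u) i
  rw [dist_comm, dist_eq_norm] at c
  have f := abs_sub_le (y i) (u i) (v i)
  rw [PiLp.sub_apply] at e
  linarith [a i]

end Pool.Agent.GC
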