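import Pool.Agent.Lib.MP_438f30_pr.C.St2

/-! The continuum upper bound: a first lower bound for the scaling exponent. -/

namespace Pool.Agent.GC

open MeasureTheory Real Filter Topology Pool.Agent.Lib.MP_a0a493_pr Pool.Agent.GL

namespace Q0L

theorem half {s : ℝ} (hs : 7 ≤ s) (n : ℕ) : (4 : ℝ) ^ n * exp (-(s * n)) ≤ (1 / 2) ^ n := by
  rw [show -(s * n) = n * (-s) by ring, exp_nat_mul, ← mul_pow]
  refine pow_le_pow_left₀ (by positivity) ?_ n
  have h : (8 : ℝ) ≤ exp s := by linarith [add_one_le_exp s]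
  rw [exp_neg, ← div_eq_mul_inv, div_le_iff₀ (exp_pos s)]
  linarith

theorem big {Ω : Type} [MeasurableSpace Ω] (P : Measure Ω) [IsProbabilityMeasure P]
    (d : Ω → Mt) : ∃ x : ℝ, 3 / 4 < P.real {ω | LLc (d ω) 0 0 x} := by
  have hm : Monotone fun n : ℕ => {ω | LLc (d ω) 0 0 n} := by
    rintro a b hab ω ⟨u, hu, u', hu', h⟩
    exact ⟨u, hu, u', hu', h.trans_le (by exact_mod_cast hab)⟩
  have hu : (⋃ n : ℕ, {ω | LLc (d ω) 0 0 n}) = Set.univ := by
    refine Set.eq_univ_of_forall fun ω => ?_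
    obtain ⟨n, hn⟩ := exists_nat_gt (d ω 0 (pt fun _ => 5))
    refine Set.mem_iUnion.2 ⟨n, 0, fun i => by simp, _, ⟨0, ?_⟩, hn⟩
    simp [pt_apply]
    norm_num
  have ht := tendsto_measure_iUnion_atTop (μ := P) hm
  rw [hu, measure_univ] at ht
  have h2 := (ENNReal.tendsto_toReal ENNReal.one_ne_top).comp ht
  obtain ⟨n, hn⟩ := (h2.eventually (lt_mem_nhds (show (3 / 4 : ℝ) < (1 : ENNReal).toReal by
    norm_num))).exists
  exact ⟨n, hn⟩

theorem det (ma : MA) {d d' : Mt} {g : R2 → ℝ} {q x : ℝ} {n : ℕ} (hn : 1 ≤ n) (h : IsMet d)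
    (h' : IsMet d') (hc : Cmp d d' g) (hg : ∀ y ∈ Bx 0 8, g y ≤ n / 20)
    (hl : ∀ z, gp (-n) z ∈ Bx 0 4 →
      ¬ LLc d' (-n) (gp (-n) z) (exp (q * (-(n : ℤ) : ℤ)) * exp (-(n / 20))))
    (hx : LLc d 0 0 x) : 3 / 11 * (2 * exp (-q) * exp (-(1 / 10))) ^ n < x := by
  obtain ⟨u, hu, u', ⟨i, hu'⟩, hx⟩ := hx
  have h2 : (2 : ℝ) ^ (-(n : ℤ)) ≤ 1 / 2 := by
    rw [zpow_neg, zpow_natCast, ← one_div]
    exact one_div_le_one_div_of_le (by norm_num) (by
      simpa using pow_le_pow_right₀ (show (1 : ℝ) ≤ 2 by norm_num) hn)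
  have hu1 : ∀ k, |u k| < 1 := fun k => by simpa using hu k
  have hu4 : 4 < |u' i| := by simpa using hu'
  have key := ma.cr (d := d) (u := u) (u' := u') (j := -n) (l := 3)
    (m := exp (-(q * n) - n / 10)) h (exp_pos _).le (by linarith) (fun k => by
      have a := k i
      have b := abs_sub_abs_le_abs_sub (u' i) (u i)
      linarith [hu1 i]) (fun z hz hb => by
      have h4 : ∀ k, |gp (-n) z k| < 4 := fun k => by
        have a := hz k
        have b := abs_sub_abs_le_abs_sub (gp (-n) z k) (u k)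
        linarith [hu1 k]
      refine hl z (fun k => by simpa using h4 k) ?_
      have := ma.llc (c := n / 20) h h' hc (fun y hy => hg y fun k => by
        have a := hy k
        have b := abs_sub_abs_le_abs_sub (y k) (gp (-n) z k)
        simp only [PiLp.zero_apply, sub_zero]
        linarith [h4 k]) hb
      rw [← exp_add] at this ⊢
      convert this using 2
      push_cast
      ring)
  refine lt_of_le_of_lt (le_of_eq ?_) (key.trans_lt hx)
  rw [mul_assoc 2, ← exp_add, mul_pow, ← exp_nat_mul, zpow_neg, zpow_natCast,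
    show (n : ℝ) * (-q + -(1 / 10)) = -(q * n) - n / 10 by ring]
  field_simp

end Q0L

open Q0L in
theorem q0 : sQ0 := by
  intro Ω H _ _ _ P _ M η h ⟨C, hC⟩
  by_contra hq
  have hb : 1 < 2 * exp (-M.q) * exp (-(1 / 10)) := by
    have a : 5 / 9 < exp (-M.q) := by
      have := exp_lt_exp.2 (neg_lt_neg (not_le.1 hq))
      rw [exp_neg, exp_log (by norm_num)] at this
      linarith [show ((9 : ℝ) / 5)⁻¹ = 5 / 9 by norm_num]
    have b : 9 / 10 ≤ exp (-(1 / 10) : ℝ) := by linarith [add_one_le_exp (-(1 / 10) : ℝ)]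
    nlinarith
  obtain ⟨x, hx⟩ := big P (M.d 0)
  have hC0 : 0 ≤ C := by
    have := measureReal_nonneg.trans (hC 0)
    simpa using this
  have t1 : Tendsto (fun n : ℕ => (400 * C + 19200) * (1 / 2 : ℝ) ^ n) atTop (𝓝 0) := by
    simpa using (tendsto_pow_atTop_nhds_zero_of_lt_one (show (0 : ℝ) ≤ 1 / 2 by norm_num)
      (by norm_num)).const_mul (400 * C + 19200)
  have t2 := (tendsto_pow_atTop_atTop_of_one_lt hb).const_mul_atTop
    (show (0 : ℝ) < 3 / 11 by norm_num)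
  obtain ⟨n, ⟨h1, h2⟩, hn⟩ := (((t1.eventually (gt_mem_nhds (show (0 : ℝ) < 3 / 4 by
    norm_num))).and (t2.eventually_ge_atTop x)).and (eventually_ge_atTop 1)).exists
  have hn' : (1 : ℝ) ≤ n := by exact_mod_cast hn
  have hη := h.eta
  have p1 := h.pa.grid P (-n) (n + 2) 0 (fun z ω => LLc (M.d (-n) ω) (-n) (gp (-n) z)
    (exp (M.q * (-(n : ℤ) : ℤ)) * exp (-(n / 20)))) fun z => (h.iv.ll _ _ _).trans_le (hC _)
  have p2 := h.sp (-n) n (n + 3) 0 (n / 20) (by linarith) (by linarith)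
  have e1 : (2 : ℝ) ^ (n + 2) * 2 ^ (-(n : ℤ)) = 4 := by
    rw [zpow_neg, zpow_natCast]; field_simp; ring
  have e2 : (2 : ℝ) ^ (n + 3) * 2 ^ (-(n : ℤ)) = 8 := by
    rw [zpow_neg, zpow_natCast]; field_simp; ring
  rw [e1] at p1
  rw [e2, neg_add_cancel] at p2
  have q1 := half (s := 3 * η) (by linarith) n
  have q2 := half (s := 5000 * η) (by linarith) n
  rw [show 60 * η * (n / 20) = 3 * η * n by ring] at p1
  rw [show 10 ^ 5 * η * (n / 20) = 5000 * η * n by ring] at p2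
  have p3 := (measureReal_union_le _ _).trans (add_le_add p1 p2)
  refine absurd (hx.trans_le ((ENNReal.toReal_mono (measure_ne_top _ _)
    (measure_mono_ae ?_)).trans p3)) (not_lt.2 ?_)
  · filter_upwards [h.ba.all] with ω ⟨hm, hc⟩ hω
    by_contra k
    obtain ⟨k1, k2⟩ := not_or.1 k
    refine absurd (det h.ma hn (hm 0) (hm (-n)) (hc 0 (-n)) (fun y hy => ?_)
      (fun z hz hl => k1 ⟨z, hz, hl⟩) hω) (not_lt.2 h2)
    have := not_lt.1 fun a => k2 ⟨y, hy, a⟩
    linarith [neg_abs_le (M.Y 0 ω y - M.Y (-n) ω y)]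
  · have := mul_le_mul_of_nonneg_left q1 hC0
    rw [pow_add, pow_add]
    nlinarith

end Pool.Agent.GC
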