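import Pool.Agent.Lib.MP_438f30_pr.C.St2
import Pool.Agent.Lib.MP_438f30_pr.U.Rs

/-! Some displacement is cheap with probability not too small. -/

namespace Pool.Agent.GC

open MeasureTheory Real Finset Pool.Agent.Lib.MP_a0a493_pr Pool.Agent.GL
open Pool.Agent.GU (Z2 pmono)
open Pool.Agent.GU.Rs (sm sm')

namespace R1L

theorem cost {μ : ℤ → ℝ} (g : GRc μ) (lm : ℕ) :
    44 * (900 * exp (2 * lm) * μ (0 - (30 + 5 * lm : ℕ)) * (10 / 9) ^ (30 + 5 * lm)) ≤ μ 0 / 2 := by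
  obtain ⟨m0, a⟩ := g 0 (30 + 5 * lm)
  have e : exp 2 ≤ 9 := by
    rw [show (2 : ℝ) = 1 + 1 by norm_num, exp_add]
    nlinarith [exp_one_lt_d9, exp_pos 1]
  have b : (exp 2 * (50 / 81) ^ 5) ^ lm ≤ (1 : ℝ) :=
    pow_le_one₀ (by positivity) (by norm_num; linarith)
  have c : exp (2 * lm) * ((5 / 9) ^ (30 + 5 * lm) * (10 / 9) ^ (30 + 5 * lm)) =
      (50 / 81) ^ 30 * (exp 2 * (50 / 81) ^ 5) ^ lm := by
    rw [← mul_pow, mul_pow (exp 2), ← exp_nat_mul, ← pow_mul, pow_add, mul_comm (lm : ℝ)]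
    norm_num
    ring
  have k := mul_le_mul_of_nonneg_left a
    (show 0 ≤ exp (2 * lm) * (10 / 9) ^ (30 + 5 * lm) by positivity)
  have l := mul_le_mul_of_nonneg_left b m0.le
  have c' := congrArg (· * μ 0) c
  norm_num at c' k l ⊢
  nlinarith

theorem d1 (ma : MA) (cx : CX) {d : Mt} {μ : ℤ → ℝ} {lm s : ℕ} (hd : IsMet d) (g : GRc μ)
    (hs : 3 ≤ s) (hc : 44 * (900 * exp (2 * lm) * μ (0 - s) * (10 / 9) ^ s) ≤ μ 0 / 2)
    (h : LLc d 0 0 (μ 0)) (hN : NIc lm d μ 0 s (Bx 0 8)) :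
    ∃ c, gp (0 - s) c ∈ Bx 0 8 ∧ ∃ c', gp (0 - s) c' ∈ Bx 0 8 ∧
      2 ≤ ‖gp (0 - s) c' - gp (0 - s) c‖ ∧ ‖gp (0 - s) c' - gp (0 - s) c‖ ≤ 9 ∧
      d (gp (0 - s) c) (gp (0 - s) c') < 2 * μ 0 := by
  obtain ⟨u, hu, u', hu', h⟩ := h
  rw [zpow_zero] at hu hu'
  rw [mul_one] at hu'
  have hh : (2 : ℝ) ^ (0 - s : ℤ) ≤ 1 / 8 :=
    (zpow_le_zpow_right₀ one_le_two (show (0 - s : ℤ) ≤ -3 by omega)).trans (by norm_num)
  obtain ⟨t, ⟨i, hi⟩, ht⟩ : ∃ t ∈ Ot 0 4, Tc d (Bx 0 5) u t (μ 0) :=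
    (ma.trunc hd h (R := 4) (fun i => (hu i).trans (by norm_num)) (by norm_num)).elim
      (fun k => ⟨u', hu', k⟩) id
  have t5 := (ma.mem ht).2.1
  have a := (ma.cell (0 - s) u).1
  have b := (ma.cell (0 - s) t).1
  have sub : ∀ y ∈ Bx 0 5, Bx y (2 ^ (0 - s : ℤ)) ⊆ Bx 0 8 := fun y hy z hz j => by
    linarith [hy j, hz j, abs_sub_le (z j) (y j) ((0 : R2) j)]
  have u5 := (ma.mem ht).1
  have un := fun {U x y r} (k : Tc d U x y r) => ma.mono k (Set.subset_univ U) le_rfl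
  have k := ma.le hd (ma.trans hd (ma.trans hd (ma.symm (un (cx.dm hd hN g (sub u u5)))) (un ht))
    (un (cx.dm hd hN g (sub t t5))))
  refine ⟨_, sub u u5 a, _, sub t t5 b, ?_, ?_, by linarith⟩
  all_goals generalize gp (0 - s) (fz (0 - s) u) = c, gp (0 - s) (fz (0 - s) t) = c' at a b ⊢
  · refine le_trans ?_ (PiLp.norm_apply_le (c' - c) i)
    have a1 := abs_lt.1 (a i)
    have b1 := abs_lt.1 (b i)
    have u1 := abs_lt.1 (hu i)
    rw [Real.norm_eq_abs, PiLp.sub_apply, le_abs]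
    rcases lt_abs.1 hi with k | k
    · left; linarith
    · right; linarith
  · have q : ∀ j, (c' j - c j) ^ 2 ≤ (25 / 4) ^ 2 := fun j => by
      have a1 := abs_lt.1 (a j)
      have b1 := abs_lt.1 (b j)
      have u1 := abs_lt.1 (hu j)
      have t1 := abs_lt.1 (t5 j)
      exact sq_le_sq' (by linarith) (by linarith)
    refine (pow_le_pow_iff_left₀ (norm_nonneg _) (by norm_num) two_ne_zero).1 ?_
    rw [EuclideanSpace.real_norm_sq_eq, Fin.sum_univ_two, PiLp.sub_apply, PiLp.sub_apply]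
    linarith [q 0, q 1]

end R1L

open R1L in
theorem r1 : sR1 := by
  intro Ω H _ _ _ P _ M η h m lm hM g hN
  have hη := h.eta
  have l0 : (0 : ℝ) ≤ lm := lm.cast_nonneg
  have m0 : mu M m 0 = m := by simp [mu]
  generalize hs : 30 + 5 * lm = s
  have hc := cost g lm
  rw [hs] at hc
  obtain ⟨c, c', ex⟩ : ∃ c c', exp (-((10 + lm) * η)) < P.real
      {ω | 2 ≤ ‖gp (0 - s) c' - gp (0 - s) c‖ ∧ ‖gp (0 - s) c' - gp (0 - s) c‖ ≤ 9 ∧
        M.d 0 ω (gp (0 - s) c) (gp (0 - s) c') < 2 * m} := by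
    by_contra! n
    have g1 := h.pa.grid P (0 - s) (s + 3) 0 _ fun c =>
      h.pa.grid P (0 - s) (s + 3) 0 _ fun c' => n c c'
    have g2 := h.pa.ni P (M.d 0) lm s 3 (mu M m) 0 η 0 (Bx 0 8) (by linarith) (hN 0)
      (by norm_num)
    have e8 : (2 : ℝ) ^ (s + 3) * 2 ^ (0 - s : ℤ) = 8 := by
      rw [zero_sub, zpow_neg, zpow_natCast, pow_add]
      field_simp
      norm_num
    rw [e8] at g1
    have g0 : P.real {ω | ¬ IsMet (M.d 0 ω)} = 0 := by
      rw [measureReal_def, ae_iff.1 (h.met 0), ENNReal.toReal_zero]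
    have g3 := hM.2.1.trans ((pmono fun ω hω => ?_).trans ((measureReal_union_le _ _).trans
      (add_le_add g0.le ((measureReal_union_le _ _).trans (add_le_add g1 g2)))))
    · have s0 : (s : ℝ) = 30 + 5 * lm := by rw [← hs]; push_cast; rfl
      have e1 := sm (C := 25 * 4 ^ (s + 3) * (25 * 4 ^ (s + 3))) (s := -((10 + lm) * η)) (t := -η)
        (4 * s + 22) (by
          rw [show (4 : ℝ) = 2 ^ 2 by norm_num, ← pow_mul, show 4 * s + 22 =
            2 * (s + 3) + 2 * (s + 3) + 10 by ring, pow_add, pow_add]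
          nlinarith [mul_self_nonneg ((2 : ℝ) ^ (2 * (s + 3)))])
        (by push_cast; nlinarith)
      have e2 := sm (C := 60 * 4 ^ 3) (s := -η - (η - 2) * s) (t := -η) 12 (by norm_num)
        (by push_cast; nlinarith)
      linarith [sm' hη, (mul_assoc ..).ge.trans e1]
    · refine (em _).symm.imp id fun hd => (em _).imp (fun k => ?_) id
      rw [← m0] at hω
      have := d1 h.ma h.cx hd g (by omega) hc hω k
      rwa [m0] at this
  obtain ⟨-, h1, h2, -⟩ := nonempty_of_measureReal_ne_zero ((exp_pos _).trans ex).ne'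
  exact ⟨_, h1, h2, fun v e => (ex.le.trans (pmono fun ω hω => hω.2.2)).trans_eq
    (h.iv.pt _ _ v e _)⟩

end Pool.Agent.GC
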