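import Pool.Agent.Lib.MP_438f30_pr.C.St2

/-! A grid edge is cheap with probability one half. -/

namespace Pool.Agent.GC

open MeasureTheory Real Filter Topology Pool.Agent.Lib.MP_a0a493_pr Pool.Agent.GL

namespace R3b

theorem sm {C t : ℝ} {n : ℕ} (hC : C ≤ 2 ^ 9) (ht : 2 * n + 12 ≤ t) :
    C * 4 ^ n * exp (-t) ≤ 1 / 8 := by
  have a : (2 : ℝ) ≤ exp 1 := by linarith [add_one_le_exp (1 : ℝ)]
  have b := pow_le_pow_left₀ two_pos.le a (2 * n + 12)
  rw [← exp_nat_mul, mul_one, pow_add, pow_mul] at b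
  have c : exp ((2 * n + 12 : ℕ) : ℝ) ≤ exp t := exp_le_exp.2 (by push_cast; linarith)
  have d : (0 : ℝ) < 4 ^ n := by positivity
  rw [exp_neg, ← div_eq_mul_inv, div_le_iff₀ (exp_pos _)]
  norm_num at b hC
  push_cast at c
  nlinarith

theorem det (ma : MA) {d d' : Mt} {g : R2 → ℝ} {m x r : ℝ} {s : ℕ} (hs : 1 ≤ s) (h : IsMet d)
    (h' : IsMet d') (hc : Cmp d' d g) (hg : ∀ y ∈ Bx 0 (2 ^ (s + 3)), g y ≤ r) (hm : 0 ≤ m)
    (hl : ∀ z, gp 0 z ∈ Bx 0 (2 ^ (s + 2)) → ¬ LLc d 0 (gp 0 z) m) (hx : LLc d' s 0 x) :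
    3 * 2 ^ s / 11 * m ≤ exp r * x := by
  have p : (2 : ℝ) ^ 1 ≤ 2 ^ s := pow_le_pow_right₀ one_le_two hs
  obtain ⟨u, hu, u', ⟨i, hu'⟩, hx⟩ := ma.llc (c := r) h' h hc (fun y hy => hg y fun k => by
    have := hy k
    rw [zpow_natCast] at this
    rw [pow_add]
    linarith) hx
  simp only [Bx, Set.mem_ofPred_eq, PiLp.zero_apply, sub_zero, zpow_natCast] at hu hu'
  have key := ma.cr (j := 0) (u := u) (u' := u') (l := 3 * 2 ^ s) h hm (by rw [zpow_zero]; linarith)
    (fun k => by linarith [k i, abs_sub_abs_le_abs_sub (u' i) (u i), hu i])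
    fun z hz => hl z fun k => by
      rw [PiLp.zero_apply, sub_zero, pow_add]
      linarith [hz k, abs_sub_abs_le_abs_sub (gp 0 z k) (u k), hu k]
  rw [zpow_zero, mul_one] at key
  exact key.trans hx.le

end R3b

theorem r3b : sR3 := by
  intro Ω H _ _ _ P _ M η h m c s hM hs hL hR e
  have hη := h.eta
  have m0 := hM.1
  have c0 : (0 : ℝ) ≤ c := c.cast_nonneg
  have s1 : (s : ℝ) ≤ 100 + 100 * c := by exact_mod_cast hs
  have ηc := mul_le_mul_of_nonneg_right hη c0
  have sp : ∀ k : ℕ, k ≤ 9 + 3 * c → P.real {ω | ∃ y ∈ Bx 0 (2 ^ (s + k)),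
      1 + c < |M.Y s ω y - M.Y 0 ω y|} ≤ 1 / 8 := fun k hk => by
    have := h.sp 0 s (s + k) 0 (1 + c) (by linarith) (by linarith)
    rw [zpow_zero, mul_one, zero_add] at this
    have k1 : (k : ℝ) ≤ 9 + 3 * c := by exact_mod_cast hk
    exact this.trans (R3b.sm (by norm_num) (by push_cast; nlinarith))
  have gr : 5 / 4 * 2 ^ s * m * exp (1 + c) * exp (1 + c) ≤
      exp (M.q * (s : ℤ)) * (300 * m * exp (5 * c)) := by
    have e4 : exp 4 ≤ 55 := by
      have := pow_le_pow_left₀ (exp_pos 1).le exp_one_lt_d9.le 4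
      rw [← exp_nat_mul] at this
      norm_num at this ⊢
      linarith
    rcases Nat.eq_zero_or_pos s with rfl | s0
    · have a : exp (1 + c) * exp (1 + c) ≤ exp 4 * exp (5 * c) := by
        rw [← exp_add, ← exp_add]
        exact exp_le_exp.2 (by linarith)
      have b := mul_le_mul_of_nonneg_right e4 (exp_pos (5 * (c : ℝ))).le
      have d := mul_le_mul_of_nonneg_left (a.trans b) m0.le
      have : 0 < m * exp (5 * c) := by positivity
      simp only [pow_zero, Nat.cast_zero, Int.cast_zero, mul_zero, exp_zero]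
      linarith
    have g := (h.pa.grid P 0 (s + 2) 0
      (fun q ω => LLc (M.d 0 ω) 0 (gp 0 q) (m * exp (-1 - c - (c : ℝ) / 20))) fun q => by
        have := h.iv.ll 0 (gp 0 q) (m * exp (-1 - c - (c : ℝ) / 20))
        rw [Int.cast_zero, mul_zero, exp_zero, one_mul] at this
        exact this.le.trans (hL c))
    rw [zpow_zero, mul_one] at g
    have g' : (25 : ℝ) * 4 ^ (s + 2) * exp (-(3 * η * (1 + c))) ≤ 1 / 8 :=
      R3b.sm (by norm_num) (by push_cast; nlinarith)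
    by_contra n
    refine absurd ((hM.2.1.trans (h.iv.ll s 0 m).ge).trans ((ENNReal.toReal_mono
      (measure_ne_top _ _) (measure_mono_ae ?_)).trans ((measureReal_union_le _ _).trans
        (add_le_add (g.trans g') (sp 3 (by omega)))))) (by norm_num)
    filter_upwards [h.ba.all] with ω ⟨k1, k2⟩ hω
    by_contra k
    obtain ⟨k3, k4⟩ := not_or.1 k
    have key := R3b.det h.ma (r := 1 + c) s0 (k1 0) (k1 s) (k2 s 0) (fun y hy => by
      linarith [not_lt.1 fun a => k4 ⟨y, hy, a⟩, neg_abs_le (M.Y s ω y - M.Y 0 ω y)])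
      (by positivity) (fun z hz hl => k3 ⟨z, hz, hl⟩) hω
    refine n ?_
    have a : exp (1 + c) * exp (1 + c) * exp (1 + c) ≤
        exp (-1 - c - (c : ℝ) / 20)⁻¹⁻¹ * (exp 4 * exp (5 * c)) := by
      rw [inv_inv, ← exp_add, ← exp_add, ← exp_add, ← exp_add]
      exact exp_le_exp.2 (by linarith)
    rw [inv_inv] at a
    have p := exp_pos (-1 - c - (c : ℝ) / 20)
    have b := mul_le_mul_of_nonneg_right key (mul_pos (exp_pos (1 + c)) (exp_pos (1 + c))).le
    have b2 := mul_le_mul_of_nonneg_left (a.trans (mul_le_mul_of_nonneg_left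
      (mul_le_mul_of_nonneg_right e4 (exp_pos (5 * (c : ℝ))).le) p.le))
      (mul_pos (exp_pos (M.q * (s : ℤ))) m0).le
    have q : 0 < exp (-1 - c - (c : ℝ) / 20) * (exp (M.q * (s : ℤ)) * m * exp (5 * c)) := by
      positivity
    refine le_of_mul_le_mul_left ?_ p
    linarith
  rw [← h.iv.top s e]
  have g := (ENNReal.toReal_mono (measure_ne_top _ _) (measure_mono_ae (s := Set.univ) ?_)).trans
    ((measureReal_union_le {ω | M.d s ω 0 ((2 : ℝ) ^ (s : ℤ) • ax e) <
      exp (M.q * (s : ℤ)) * (300 * m * exp (5 * c))} _).trans (add_le_add le_rfl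
        ((measureReal_union_le _ _).trans (add_le_add (hR e) (sp (9 + 3 * c) le_rfl)))))
  · rw [measure_univ, ENNReal.toReal_one] at g
    linarith
  filter_upwards [h.ba.all] with ω ⟨k1, k2⟩ _
  by_contra k
  obtain ⟨k3, k4⟩ := not_or.1 k
  obtain ⟨k4, k5⟩ := not_or.1 k4
  rw [← add_assoc] at k5
  have := h.ma.le (k1 s) (k2 0 s _ _ _ _ (1 + c) (fun y hy => by
    linarith [not_lt.1 fun a => k5 ⟨y, hy, a⟩, le_abs_self (M.Y s ω y - M.Y 0 ω y)]) (not_not.1 k4))
  refine k3 ?_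
  rw [Set.mem_ofPred_eq, zpow_natCast]
  linarith

end Pool.Agent.GC
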