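import Pool.Agent.Lib.MP_438f30_pr.C.St2
import Pool.Agent.Lib.MP_438f30_pr.C.OscC
import Pool.Agent.Lib.MP_438f30_pr.U.Sp

/-! Oscillation of a few bands in the continuum. -/

namespace Pool.Agent.GC

open MeasureTheory Real Finset Filter Topology Pool.Agent.Lib.MP_a0a493_pr Pool.Agent.GL
open Pool.Agent.GU (Z2)

theorem sp : sSP := by
  intro Ω H _ _ _ P _ M η h ba j n e v r hr hn
  obtain ⟨R, hR⟩ : ∃ R : ℝ, R = 2 ^ e * 2 ^ j := ⟨_, rfl⟩
  have R0 : 0 < R := by rw [hR]; positivity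
  rw [← hR]
  obtain ⟨F, hF⟩ : ∃ F : Ω → R2 → ℝ, ∀ ω y, F ω y = M.Y (j + n) ω y - M.Y j ω y := ⟨_, fun _ _ => rfl⟩
  have cF : ∀ ω, Continuous (F ω) := fun ω => by
    rw [funext (hF ω)]
    exact (h.cont _ ω).sub (h.cont _ ω)
  simp only [← hF]
  obtain ⟨b, hb⟩ : ∃ b : ℝ, b = 300 * 4 ^ e * exp (-(10 ^ 5 * η * r)) := ⟨_, rfl⟩
  have b0 : 0 ≤ b := by rw [hb]; positivity
  rw [← hb]
  let E : ℕ → Set Ω := fun t => {ω | ∃ y : Z2, Near (2 ^ (t + e)) 0 y ∧
    r < |F ω (v + (R / 2 ^ (t + e)) • pt y)|}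
  have hE : ∀ t, P.real (E t) ≤ b := fun t => by
    have k := GU.sp Ω H P M.W _ M.C0 M.ξ η (ba.su (j - t) v) t n e 0 r hr hn
    rw [← hb] at k
    refine (measureReal_congr ?_).trans_le k
    filter_upwards [ba.lat (j - t) v] with ω hω
    have e1 : R / 2 ^ (t + e) = 2 ^ (j - t) := by
      rw [hR, zpow_sub₀ two_ne_zero, zpow_natCast, pow_add]
      field_simp
    refine propext (exists_congr fun y => and_congr_right fun _ => ?_)
    rw [← hω, hF, e1, add_comm v, show j - t + (t + n : ℕ) = j + n by push_cast; ring,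
      sub_add_cancel]
  have hm : Monotone E := monotone_nat_of_le_succ fun t ω ⟨y, hy, k⟩ => by
    refine ⟨(2 : ℤ) • y, fun i => ?_, ?_⟩
    · have := hy i
      rw [Pi.zero_apply, zero_sub, abs_neg] at this ⊢
      rw [Pi.smul_apply, smul_eq_mul, abs_mul, add_right_comm, pow_succ]
      norm_num
      linarith
    · rwa [pt_zsmul, smul_smul, show R / 2 ^ (t + 1 + e) * ((2 : ℤ) : ℝ) = R / 2 ^ (t + e) by
        push_cast
        field_simp
        ring]
  have hU : P (⋃ t, E t) ≤ ENNReal.ofReal b := by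
    rw [hm.measure_iUnion]
    exact iSup_le fun t => (ENNReal.le_ofReal_iff_toReal_le (measure_ne_top _ _) b0).2 (hE t)
  refine ENNReal.toReal_le_of_le_ofReal b0 ((measure_mono ?_).trans hU)
  rintro ω ⟨y, hy, k⟩
  obtain ⟨w, hw, ht⟩ := OscCL.approx R0 hy
  obtain ⟨t, k'⟩ := (((((cF ω).tendsto y).comp ht).comp (tendsto_add_atTop_nat e)).abs.eventually
    (lt_mem_nhds k)).exists
  exact Set.mem_iUnion.2 ⟨t, w (t + e), hw _, k'⟩

end Pool.Agent.GC
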