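import Pool.Agent.Lib.MP_438f30_pr.C.St
import Pool.Agent.Lib.MP_438f30_pr.U.Osc
import Pool.Agent.Lib.MP_438f30_pr.U.Cnt

/-! Approximation by events that depend on finitely many bands. -/

namespace Pool.Agent.GC

open MeasureTheory Real Filter Topology Pool.Agent.Lib.MP_a0a493_pr Pool.Agent.GL
open Pool.Agent.GU (FK)
open scoped symmDiff

namespace TailL

theorem dense {Ω : Type} [mΩ : MeasurableSpace Ω] (P : Measure Ω) [IsProbabilityMeasure P]
    (m : ℕ → MeasurableSpace Ω) (hm : Monotone m) (hle : ∀ N, m N ≤ mΩ) {B : Set Ω}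
    (hB : MeasurableSet[⨆ N, m N] B) {ε : ℝ} (hε : 0 < ε) :
    ∃ N, ∃ A, MeasurableSet[m N] A ∧ P.real (B ∆ A) ≤ ε := by
  have hM : (⨆ N, m N) ≤ mΩ := iSup_le hle
  have alg : IsSetAlgebra {s : Set Ω | ∃ n, MeasurableSet[m n] s} :=
    ⟨⟨0, @MeasurableSet.empty _ (m 0)⟩, fun s ⟨n, h⟩ => ⟨n, h.compl⟩, fun s t ⟨n, h⟩ ⟨k, h'⟩ =>
      ⟨max n k, (hm (le_max_left n k) _ h).union (hm (le_max_right n k) _ h')⟩⟩
  obtain ⟨A, ⟨N, hA⟩, h⟩ := @Measure.MeasureDense.approx Ω (⨆ N, m N) _ _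
    (@Measure.MeasureDense.of_generateFrom_isSetAlgebra_finite Ω (⨆ N, m N)
      (P.trim hM) _ _ alg (MeasurableSpace.measurableSpace_iSup_eq m)) B hB
    (measure_ne_top _ _) ε hε
  refine ⟨N, A, hA, ?_⟩
  exact ENNReal.toReal_le_of_le_ofReal hε.le ((le_trim hM).trans h.le)

theorem conv {Ω : Type} [MeasurableSpace Ω] {P : Measure Ω} [IsProbabilityMeasure P] {H : Type}
    [NormedAddCommGroup H] [InnerProductSpace ℝ H] {W : H →ₗ[ℝ] (Ω → ℝ)} (hW : Iso P W)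
    {h : H} {u : ℕ → H} (hu : ∀ n : ℕ, ‖u n - h‖ ≤ 1 / (2 * ((n : ℝ) + 1) ^ 2)) :
    ∀ᵐ ω ∂P, Tendsto (fun n => W (u n) ω) atTop (𝓝 (W h ω)) := by
  have k : ∀ n : ℕ, P {ω | 1 / ((n : ℝ) + 1) < |W (u n - h) ω|} ≤
      ENNReal.ofReal (2 * exp (-(n : ℝ))) := fun n => by
    have a := GU.Osc.tail hW (hu n) (y := (n : ℝ) + 1) (by positivity)
    rw [show 2 * (1 / (2 * ((n : ℝ) + 1) ^ 2)) * ((n : ℝ) + 1) = 1 / ((n : ℝ) + 1) by
      field_simp] at a
    rw [← ofReal_measureReal]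
    refine ENNReal.ofReal_le_ofReal (a.trans ?_)
    have : (0 : ℝ) ≤ n := n.cast_nonneg
    gcongr
    nlinarith
  have s := ae_eventually_notMem (μ := P) (ne_top_of_le_ne_top
    (summable_exp_neg_nat.mul_left 2).tsum_ofReal_ne_top (ENNReal.tsum_le_tsum k))
  filter_upwards [s] with ω hω
  rw [tendsto_iff_dist_tendsto_zero]
  refine squeeze_zero' (Eventually.of_forall fun _ => dist_nonneg) ?_
    tendsto_one_div_add_atTop_nhds_zero_nat
  filter_upwards [hω] with n hn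
  simpa [Real.dist_eq] using hn

end TailL

theorem tail : sTail := by
  intro Ω mΩ P _ H _ _ W hW K K' hK hc B hB ε hε
  have hm : Monotone fun N => FK W (K' N) := fun a b h => GU.FK_mono W (hK h)
  have le : FK W K ≤ eventuallyMeasurableSpace (⨆ N, FK W (K' N)) (ae P) := by
    refine Measurable.comap_le (@measurable_pi_lambda Ω K (fun _ => ℝ)
      (eventuallyMeasurableSpace (⨆ N, FK W (K' N)) (ae P)) _ _ fun v => ?_)
    have : ∀ n : ℕ, ∃ u ∈ ⋃ N, K' N, ‖u - v.1‖ ≤ 1 / (2 * ((n : ℝ) + 1) ^ 2) := fun n => by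
      obtain ⟨u, a, b⟩ := Metric.mem_closure_iff.1 (hc v.2) (1 / (2 * ((n : ℝ) + 1) ^ 2))
        (by positivity)
      exact ⟨u, a, by rw [← dist_eq_norm, dist_comm]; exact b.le⟩
    choose u h1 h2 using this
    have g : Measurable[⨆ N, FK W (K' N)] fun ω => limsup (fun n => W (u n) ω) atTop := by
      refine Measurable.limsup (mδ := ⨆ N, FK W (K' N)) fun n => ?_
      obtain ⟨N, hN⟩ := Set.mem_iUnion.1 (h1 n)
      exact (GU.meas_FK W hN).mono (le_iSup (fun N => FK W (K' N)) N) le_rfl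
    refine g.eventuallyMeasurable_of_eventuallyEq ?_
    filter_upwards [TailL.conv hW h2] with ω hω using hω.limsup_eq.symm
  obtain ⟨B', h1, h2⟩ := le _ hB
  obtain ⟨N, A, h3, h4⟩ := TailL.dense P _ hm (fun N => GU.FK_le hW _) h1 hε
  filter_upwards [eventually_ge_atTop N] with n hn
  refine ⟨A, hm hn _ h3, le_of_eq_of_le ?_ h4⟩
  exact measureReal_congr (h2.symmDiff EventuallyEq.rfl)

end Pool.Agent.GC
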