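import Pool.Agent.Lib.MP_438f30_pr.C.St2

/-! The lower tail of the crossing cost, and a first value of the tail parameter. -/

namespace Pool.Agent.GC

open MeasureTheory Real Finset Filter Topology Pool.Agent.Lib.MP_a0a493_pr Pool.Agent.GL

namespace TlL

theorem w0 : ((5 : ℝ) • ax 0 : R2) 0 = 5 := by simp [ax, pt]

theorem lc_iff (d : Mt) (y : ℝ) : Lc d 0 1 4 ((5 : ℝ) • ax 0) y ↔ LLc d 0 0 y := by
  simp only [LLc, zpow_zero, mul_one]
  constructor
  · rintro ⟨u, u', hu, hu', hd⟩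
    refine ⟨u, ?_, u', ?_, hd⟩
    · rcases hu with rfl | hu
      · intro i
        simp
      · exact hu
    · rcases hu' with rfl | hu'
      · refine ⟨0, ?_⟩
        rw [w0]
        norm_num
      · exact hu'
  · rintro ⟨u, hu, u', hu', hd⟩
    exact ⟨u, u', Or.inr hu, Or.inr hu', hd⟩

theorem big (C a : ℝ) : ∃ n : ℕ, ∀ x : ℝ, (n : ℝ) ≤ x → C * exp (a - x) ≤ 1 := by
  obtain ⟨n, hn⟩ := exists_nat_ge (C * exp a)
  refine ⟨n, fun x hx => ?_⟩
  rw [exp_sub, ← mul_div_assoc, div_le_one (exp_pos x)]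
  linarith [add_one_le_exp x]

theorem fin {C a x y z : ℝ} (h : C * exp (a - x) ≤ 1) (e : y = a - x + z) :
    C * exp y ≤ exp z := by
  rw [e, exp_add, ← mul_assoc]
  exact mul_le_of_le_one_left (exp_pos z).le h

end TlL

theorem tl : sTL := by
  intro Ω H _ _ _ P _ M η h m lm hM hC i
  have hη := h.eta
  have hi : (0 : ℝ) ≤ i := i.cast_nonneg
  obtain ⟨c, hc⟩ : ∃ c, c = lm / 14 := ⟨_, rfl⟩
  rw [← hc]
  have hl : (lm : ℝ) ≤ 14 * c + 13 := by
    have : lm ≤ 14 * c + 13 := by omega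
    exact_mod_cast this
  have hc0 : (0 : ℝ) ≤ c := c.cast_nonneg
  have key := hC 0 ((5 : ℝ) • ax 0) 1 4 (m * exp (-1 - c - i / 20)) (1 + c + i / 20 - log 2) 2
    zero_le_one (by norm_num) (by norm_num)
    (fun c => by
      have := c 0
      rw [TlL.w0] at this
      norm_num at this)
    (mul_pos hM.1 (exp_pos _))
  have e : m * exp (-1 - c - i / 20) * exp (1 + c + i / 20 - log 2) = m / 2 := by
    rw [mul_assoc, ← exp_add,
      show -1 - (c : ℝ) - (i : ℝ) / 20 + (1 + c + i / 20 - log 2) = -log 2 by ring,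
      exp_neg, exp_log two_pos, div_eq_mul_inv]
  rw [e] at key
  simp only [TlL.lc_iff] at key
  have h2 := mul_le_mul_of_nonneg_right hM.2.2
    (measureReal_nonneg (μ := P) (s := {ω | LLc (M.d 0 ω) 0 0 (m * exp (-1 - c - i / 20))}))
  have h3 := h2.trans key
  have h4 : (320000 : ℝ) ≤ exp (η + η + η) := by
    have b : (101 : ℝ) ≤ exp η := by linarith [add_one_le_exp η]
    rw [exp_add, exp_add]
    have : (101 : ℝ) * 101 ≤ exp η * exp η := mul_le_mul b b (by norm_num) (exp_pos _).le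
    have := mul_le_mul this b (by norm_num) (by positivity)
    linarith
  have h5 := mul_le_mul_of_nonneg_right h4
    (exp_pos (η * lm + 1.6 * η - 80 * η * (1 + c + i / 20 - log 2))).le
  rw [← exp_add] at h5
  have h6 : exp (η + η + η + (η * lm + 1.6 * η - 80 * η * (1 + c + i / 20 - log 2))) ≤
      exp (-(3 * η * (1 + i))) := by
    refine exp_le_exp.2 ?_
    have h0 : 0 ≤ η := by linarith
    have := mul_le_mul_of_nonneg_left log_two_lt_d9.le h0
    have := mul_nonneg h0 hi
    have := mul_nonneg h0 hc0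
    have := mul_le_mul_of_nonneg_left hl h0
    nlinarith
  have h7 := h5.trans h6
  linarith

theorem ap : sAP := by
  intro Ω H _ _ _ P _ M η h m hm ⟨C, hC⟩ ⟨C', hC'⟩
  have hη := h.eta
  obtain ⟨n, hn⟩ := TlL.big C (60 * η * log m - 57 * η)
  obtain ⟨n', hn'⟩ := TlL.big C' (2 * η - 40 * η * log (900 * m))
  have a : (n : ℝ) ≤ (n + n' : ℕ) := by exact_mod_cast Nat.le_add_right n n'
  have a' : (n' : ℝ) ≤ (n + n' : ℕ) := by exact_mod_cast Nat.le_add_left n' n
  refine ⟨n + n', ?_⟩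
  generalize n + n' = lm at a a'
  have l0 : (0 : ℝ) ≤ lm := lm.cast_nonneg
  have l1 : (lm : ℝ) ≤ η * lm := le_mul_of_one_le_left l0 (by linarith)
  refine ⟨fun i => ?_, fun e i => ?_⟩
  · have k := hC (1 + lm + i / 20 - log m)
    rw [show -(1 + (lm : ℝ) + (i : ℝ) / 20 - log m) = log m + (-1 - lm - i / 20) by ring, exp_add,
      exp_log hm] at k
    exact k.trans (TlL.fin (hn (60 * (η * lm)) (by linarith)) (by ring))
  · have k := hC' e (log (900 * m) + (lm + i / 20))
    rw [exp_add, exp_log (by positivity)] at k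
    refine le_trans (measureReal_mono (fun ω hω hT => hω (h.ma.mono hT ?_ le_rfl))
      (measure_ne_top _ _)) (k.trans (TlL.fin (hn' (40 * (η * lm)) (by linarith)) (by ring)))
    intro x hx j
    refine (hx j).trans_le ?_
    calc (8 : ℝ) = 2 ^ 3 := by norm_num
      _ ≤ _ := pow_le_pow_right₀ one_le_two (by omega)

end Pool.Agent.GC
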