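import Pool.Agent.Lib.MP_438f30_pr.C.St2

/-! The upper tail of the cost of a grid edge in the continuum. -/

namespace Pool.Agent.GC

open MeasureTheory Real Finset Pool.Agent.Lib.MP_a0a493_pr Pool.Agent.GL

namespace TuL

theorem two_pow_le (n : ℕ) : (2 : ℝ) ^ n ≤ exp n := by
  have h : (2 : ℝ) ≤ exp 1 := by linarith [add_one_le_exp (1 : ℝ)]
  calc (2 : ℝ) ^ n ≤ exp 1 ^ n := pow_le_pow_left₀ (by norm_num) h n
    _ = exp n := by rw [← exp_nat_mul, mul_one]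

theorem four_pow (c i : ℕ) : (4 : ℝ) ^ (15 + 24 * c + i / 2) ≤ exp (30 + 48 * c + i) := by
  have a : (4 : ℝ) ^ (15 + 24 * c + i / 2) = 2 ^ (2 * (15 + 24 * c + i / 2)) := by
    rw [pow_mul]; norm_num
  have b : (2 : ℝ) ^ (2 * (15 + 24 * c + i / 2)) ≤ 2 ^ (30 + 48 * c + i) :=
    pow_le_pow_right₀ one_le_two (by omega)
  have c := two_pow_le (30 + 48 * c + i)
  push_cast at c
  linarith

/-- the exit is too expensive -/
theorem exit (c i : ℕ) :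
    3300 * exp (2 + 141 / 20 * (c : ℝ) + (i : ℝ) / 10) ≤ 2 ^ (15 + 24 * c + i / 2) := by
  obtain ⟨q, hq⟩ : ∃ q, q = i / 2 := ⟨_, rfl⟩
  rw [← hq]
  have h1 : (i : ℝ) ≤ 2 * q + 1 := by
    have : i ≤ 2 * q + 1 := by omega
    exact_mod_cast this
  have e1 := exp_one_lt_d9
  have h2 : exp (1 / 2 : ℝ) ≤ 2 := by
    have a : exp (1 / 2 : ℝ) * exp (1 / 2 : ℝ) = exp 1 := by rw [← exp_add]; norm_num
    nlinarith [exp_pos (1 / 2 : ℝ)]
  have h3 : exp (((24 * c + q : ℕ) : ℝ) * (1 / 2)) ≤ 2 ^ (24 * c + q) := by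
    rw [exp_nat_mul]
    exact pow_le_pow_left₀ (exp_pos _).le h2 _
  have h0 : exp (1 / 10 : ℝ) ≤ 10 / 9 := by
    have a := add_one_le_exp (-(1 / 10) : ℝ)
    have b : exp (1 / 10 : ℝ) * exp (-(1 / 10) : ℝ) = 1 := by rw [← exp_add]; norm_num
    nlinarith [exp_pos (1 / 10 : ℝ)]
  have h4 : exp (2 + 141 / 20 * (c : ℝ) + (i : ℝ) / 10) ≤
      exp 1 * exp 1 * exp (1 / 10) * exp (((24 * c + q : ℕ) : ℝ) * (1 / 2)) := by
    rw [← exp_add, ← exp_add, ← exp_add]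
    have : (0 : ℝ) ≤ q := Nat.cast_nonneg q
    have : (0 : ℝ) ≤ c := Nat.cast_nonneg c
    push_cast
    exact exp_le_exp.2 (by linarith)
  have h5 : exp 1 * exp 1 * exp (1 / 10 : ℝ) ≤ 11 / 4 * (11 / 4) * (10 / 9) :=
    mul_le_mul (mul_le_mul (by linarith) (by linarith) (exp_pos _).le (by norm_num)) h0
      (exp_pos _).le (by norm_num)
  have h6 := mul_le_mul h5 h3 (exp_pos _).le (by norm_num)
  have h7 : (0 : ℝ) < 2 ^ (24 * c + q) := by positivity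
  rw [add_assoc 15, pow_add]
  linarith

theorem sum_le {η : ℝ} (hη : 100 ≤ η) {lm c : ℕ} (hc : lm ≤ 14 * c + 13) (i : ℕ) :
    2 * (10 ^ 4 * 4 ^ (15 + 24 * c + i / 2) *
        exp (η * lm + 1.6 * η - 80 * η * (1 + c + (i : ℝ) / 20))) +
      25 * 4 ^ (15 + 24 * c + i / 2) * exp (-(3 * η * (1 + ((i + c : ℕ) : ℝ)))) ≤
      exp (-(2 * η * (1 + (i : ℝ)))) := by
  have a := four_pow c i
  have i0 : (0 : ℝ) ≤ i := Nat.cast_nonneg i
  have c0 : (0 : ℝ) ≤ c := Nat.cast_nonneg c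
  have b : (40000 : ℝ) ≤ exp 16 := by
    have := two_pow_le 16
    norm_num at this
    linarith
  have m1 : 100 * (i : ℝ) ≤ η * i := mul_le_mul_of_nonneg_right hη i0
  have m2 : 100 * (c : ℝ) ≤ η * c := mul_le_mul_of_nonneg_right hη c0
  have m3 : η * lm ≤ η * (14 * c + 13) :=
    mul_le_mul_of_nonneg_left (by exact_mod_cast hc) (by linarith)
  have k : ∀ s : ℝ, 16 + (30 + 48 * c + i) + s ≤ -(2 * η * (1 + (i : ℝ))) →
      40000 * 4 ^ (15 + 24 * c + i / 2) * exp s ≤ exp (-(2 * η * (1 + (i : ℝ)))) := fun s hs => by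
    refine le_trans ?_ (exp_le_exp.2 hs)
    rw [exp_add _ s, exp_add 16]
    exact mul_le_mul_of_nonneg_right (mul_le_mul b a (by positivity) (exp_pos _).le) (exp_pos _).le
  have c1 := k (η * lm + 1.6 * η - 80 * η * (1 + c + (i : ℝ) / 20)) (by nlinarith)
  have c2 := k (-(3 * η * (1 + ((i + c : ℕ) : ℝ)))) (by push_cast; nlinarith)
  have p : 0 ≤ (4 : ℝ) ^ (15 + 24 * c + i / 2) * exp (-(3 * η * (1 + ((i + c : ℕ) : ℝ)))) := by
    positivity
  nlinarith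

/-- the deterministic step -/
theorem det (ma : MA) {d : Mt} (hd : IsMet d) {m : ℝ} (hm : 0 < m) {c i : ℕ} {w : R2}
    (h : Lc d 0 0 (2 ^ (15 + 24 * c + i / 2)) w
      (300 * m * exp (5 * c) * exp (1 + c + (i : ℝ) / 20)))
    (hL : ∀ q, gp 0 q ∈ Bx 0 (2 ^ (15 + 24 * c + i / 2)) →
      ¬ LLc d 0 (gp 0 q) (m * exp (-1 - c - ((i + c : ℕ) : ℝ) / 20))) :
    Tc d (Bx 0 (2 ^ (16 + 4 * (6 * c) + i / 2))) 0 w
      (900 * m * exp ((6 * c : ℕ) + (i : ℝ) / 20)) := by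
  obtain ⟨u, u', h0, h1, h2⟩ := h
  obtain rfl : u = 0 := h0.resolve_right fun n => (abs_nonneg _).not_gt (n 0)
  have ex := exit c i
  have e0 : (2 : ℝ) ^ (16 + 4 * (6 * c) + i / 2) = 2 * 2 ^ (15 + 24 * c + i / 2) := by
    rw [← pow_succ']
    congr 1
    omega
  have d5 : (5 : ℝ) * 2 ^ (0 : ℤ) ≤ 2 ^ (15 + 24 * c + i / 2) := by
    have : (2 : ℝ) ^ 3 ≤ 2 ^ (15 + 24 * c + i / 2) := pow_le_pow_right₀ one_le_two (by omega)
    rw [zpow_zero]
    linarith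
  rw [e0]
  generalize (2 : ℝ) ^ (15 + 24 * c + i / 2) = R at *
  have p : 0 < m * exp (-1 - c - ((i + c : ℕ) : ℝ) / 20) := by positivity
  have e2 : exp (5 * c) * exp (1 + c + (i : ℝ) / 20) =
      exp (2 + 141 / 20 * (c : ℝ) + (i : ℝ) / 10) * exp (-1 - c - ((i + c : ℕ) : ℝ) / 20) := by
    rw [← exp_add, ← exp_add]
    congr 1
    push_cast
    ring
  have key : 300 * m * exp (5 * c) * exp (1 + c + (i : ℝ) / 20) ≤
      R / (11 * 2 ^ (0 : ℤ)) * (m * exp (-1 - c - ((i + c : ℕ) : ℝ) / 20)) := by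
    have := mul_le_mul_of_nonneg_right ex p.le
    rw [zpow_zero, mul_assoc (300 * m), e2]
    linarith
  rcases h1 with rfl | h1
  · refine ma.mono (ma.conf hd p.le d5 hL h2 key) subset_rfl ?_
    have e3 : exp (5 * c) * exp (1 + c + (i : ℝ) / 20) =
        exp 1 * exp ((6 * c : ℕ) + (i : ℝ) / 20) := by
      rw [← exp_add, ← exp_add]
      congr 1
      push_cast
      ring
    have := mul_le_mul_of_nonneg_right (show exp 1 ≤ (3 : ℝ) by linarith [exp_one_lt_d9])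
      (mul_pos hm (exp_pos ((6 * c : ℕ) + (i : ℝ) / 20))).le
    rw [mul_assoc (300 * m), e3]
    linarith
  · obtain ⟨j, hj⟩ := h1
    have := ma.cr hd p.le d5 (fun n => (n j).not_gt hj) hL
    linarith

end TuL

theorem tu : sTU := by
  intro Ω H _ _ _ P _ M η h m lm hm hC hL hR e i
  obtain ⟨c, hc⟩ : ∃ c, c = lm / 14 := ⟨_, rfl⟩
  rw [← hc] at hL hR ⊢
  have d1 : (1 : ℝ) ≤ 2 ^ (15 + 24 * c + i / 2) := one_le_pow₀ one_le_two
  have hw : ax e ∉ Bx 0 (0 + 1) := fun n => by simpa [ax, pt] using n e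
  have k := hC 0 (ax e) 0 (2 ^ (15 + 24 * c + i / 2)) (300 * m * exp (5 * c))
    (1 + c + (i : ℝ) / 20) (15 + 24 * c + i / 2) le_rfl (by linarith) le_rfl hw (by positivity)
  have r : 1 / 2 ≤ P.real {ω | Lc (M.d 0 ω) 0 0 (2 ^ (15 + 24 * c + i / 2)) (ax e)
      (300 * m * exp (5 * c))} :=
    (hR e).trans (measureReal_mono (fun ω hω => ⟨0, ax e, .inl rfl, .inl rfl, hω⟩)
      (measure_ne_top _ _))
  have g := h.pa.grid P 0 (15 + 24 * c + i / 2) 0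
    (fun q ω => LLc (M.d 0 ω) 0 (gp 0 q) (m * exp (-1 - c - ((i + c : ℕ) : ℝ) / 20))) fun q => by
      have := h.iv.ll 0 (gp 0 q) (m * exp (-1 - c - ((i + c : ℕ) : ℝ) / 20))
      rw [Int.cast_zero, mul_zero, exp_zero, one_mul] at this
      exact this.le.trans (hL (i + c))
  rw [zpow_zero, mul_one] at g
  refine le_trans ?_ (TuL.sum_le h.eta (show lm ≤ 14 * c + 13 by omega) i)
  refine le_trans (ENNReal.toReal_mono (measure_ne_top _ _) (measure_mono_ae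
    (t := {ω | ¬ Lc (M.d 0 ω) 0 0 (2 ^ (15 + 24 * c + i / 2)) (ax e)
        (300 * m * exp (5 * c) * exp (1 + c + (i : ℝ) / 20))} ∪
      {ω | ∃ q, gp 0 q ∈ Bx 0 (2 ^ (15 + 24 * c + i / 2)) ∧
        LLc (M.d 0 ω) 0 (gp 0 q) (m * exp (-1 - c - ((i + c : ℕ) : ℝ) / 20))}) ?_))
    ((measureReal_union_le _ _).trans (add_le_add ?_ g))
  · filter_upwards [h.ba.all] with ω hω n
    by_contra n'
    have n2 : ¬ (_ ∨ _) := n'
    rw [not_or] at n2
    exact n (TuL.det h.ma (hω.1 0) hm (not_not.1 n2.1) fun q hq l => n2.2 ⟨q, hq, l⟩)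
  · have := mul_le_mul_of_nonneg_left r (measureReal_nonneg (μ := P)
      (s := {ω | ¬ Lc (M.d 0 ω) 0 0 (2 ^ (15 + 24 * c + i / 2)) (ax e)
        (300 * m * exp (5 * c) * exp (1 + c + (i : ℝ) / 20))}))
    linarith

end Pool.Agent.GC
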