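import Pool.Agent.Lib.MP_438f30_pr.C.St2
import Pool.Agent.Lib.MP_438f30_pr.G4
import Pool.Agent.Lib.MP_438f30_pr.GRed
import Pool.Agent.Lib.MP_438f30_pr.HNorm

/-! The continuum upper bound: the assembly. -/

namespace Pool.Agent.GC

open MeasureTheory Real Filter Pool.Agent.Lib.MP_a0a493_pr Pool.Agent.GL

theorem up (h1 : sMod) (h2 : sBC) (h3 : sInst) (h4 : sEvM) (h5 : sEvW) (h6 : GC.sDim) : sUp := by
  obtain ⟨C0, h3⟩ := h3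
  obtain ⟨C, ξ₀, hC, h0, h1⟩ := h1 C0
  refine ⟨C, ξ₀, hC, h0, fun ξ Q D hξ hx hD hR => ?_⟩
  obtain ⟨Ω', _, P', _, M, hM, e1, e2, e3, ρ, Φ', g', hρ, hi, f1, f2, gc', hw⟩ :=
    h3 ξ Q D hξ hD hR
  obtain ⟨q1, q2⟩ := h1 Ω' _ P' M hM e1 (e2 ▸ hx)
  rw [e2] at q2
  refine ⟨?_, fun Ω _ P _ Φ hΦ => ?_⟩
  · have a : 0 < ξ * Q * log 2 := e3 ▸ (log_pos (by norm_num)).trans_le q1
    exact ((mul_pos_iff_of_pos_left hξ).1 ((mul_pos_iff_of_pos_right (log_pos one_lt_two)).1 a)).le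
  obtain ⟨S, hc, hS⟩ := TopologicalSpace.exists_countable_dense R2
  have a : ∀ᵐ ω ∂P', EvA S 5 (1 + C * ξ ^ (4 / 3 : ℝ)) (D fun φ => Φ' φ ω) := by
    filter_upwards [h2 Ω' _ P' M _ S hM hc q2, hM.met 0, hD.met Ω' P' _ f1, hw] with ω b1 b2 b3 b4
    exact h5 S _ _ _ (g' ω) b2 b3 (gc' ω) b4 b1
  obtain ⟨g, gc, gF, -, gG, -⟩ := nrm Ω P Φ ρ hρ hi hΦ
  have b : ∀ᵐ ω ∂P, EvA S 5 (1 + C * ξ ^ (4 / 3 : ℝ)) (D fun φ => Φ φ ω + ∫ x, φ x * g ω x) :=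
    (leq Ω Ω' _ _ P P' _ _ _ _ gG f2 (fun _ _ _ _ => rfl) _
      (G4.meas_D hD.meas ((h4 S hc).2 5 (1 + C * ξ ^ (4 / 3 : ℝ)))).compl).trans a
  filter_upwards [b, hD.met Ω P Φ hΦ, hD.met Ω P _ gF, hD.weyl Ω P Φ hΦ] with
    ω b1 b3 b4 b5 U f hU hf p l hl hp
  exact red _ _ (fun x => exp (ξ * g ω x)) _ b3 b4
    (continuous_exp.comp (continuous_const.mul (gc ω))) (fun _ => exp_pos _) (b5 (g ω) (gc ω))
    (fun q l' hq => h6 S _ _ q l' b4 hS (by positivity) b1 hq) U _ hU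
    (continuous_exp.comp_continuousOn (continuousOn_const.mul hf))
    (fun _ _ => exp_pos _) p l hl hp

end Pool.Agent.GC
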