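import Pool.Agent.Lib.MP_438f30_pr.C.Ad
import Pool.Agent.Lib.MP_438f30_pr.C.Al
import Pool.Agent.Lib.MP_438f30_pr.C.Apx
import Pool.Agent.Lib.MP_438f30_pr.C.Au
import Pool.Agent.Lib.MP_438f30_pr.C.Ba
import Pool.Agent.Lib.MP_438f30_pr.C.Bc
import Pool.Agent.Lib.MP_438f30_pr.C.Bl
import Pool.Agent.Lib.MP_438f30_pr.C.Boot
import Pool.Agent.Lib.MP_438f30_pr.C.Conc
import Pool.Agent.Lib.MP_438f30_pr.C.Cx
import Pool.Agent.Lib.MP_438f30_pr.C.Det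
import Pool.Agent.Lib.MP_438f30_pr.C.Dim
import Pool.Agent.Lib.MP_438f30_pr.C.En
import Pool.Agent.Lib.MP_438f30_pr.C.Ev
import Pool.Agent.Lib.MP_438f30_pr.C.Gb
import Pool.Agent.Lib.MP_438f30_pr.C.Gi
import Pool.Agent.Lib.MP_438f30_pr.C.Gl
import Pool.Agent.Lib.MP_438f30_pr.C.Iv
import Pool.Agent.Lib.MP_438f30_pr.C.La
import Pool.Agent.Lib.MP_438f30_pr.C.Lc
import Pool.Agent.Lib.MP_438f30_pr.C.Ma
import Pool.Agent.Lib.MP_438f30_pr.C.Md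
import Pool.Agent.Lib.MP_438f30_pr.C.Mod
import Pool.Agent.Lib.MP_438f30_pr.C.Mpf
import Pool.Agent.Lib.MP_438f30_pr.C.Mpw
import Pool.Agent.Lib.MP_438f30_pr.C.Ms
import Pool.Agent.Lib.MP_438f30_pr.C.Np
import Pool.Agent.Lib.MP_438f30_pr.C.OscC
import Pool.Agent.Lib.MP_438f30_pr.C.Pa
import Pool.Agent.Lib.MP_438f30_pr.C.Pos
import Pool.Agent.Lib.MP_438f30_pr.C.Q0
import Pool.Agent.Lib.MP_438f30_pr.C.R1
import Pool.Agent.Lib.MP_438f30_pr.C.R2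
import Pool.Agent.Lib.MP_438f30_pr.C.R3b
import Pool.Agent.Lib.MP_438f30_pr.C.Sp
import Pool.Agent.Lib.MP_438f30_pr.C.Tail
import Pool.Agent.Lib.MP_438f30_pr.C.Tl
import Pool.Agent.Lib.MP_438f30_pr.C.Tu
import Pool.Agent.Lib.MP_438f30_pr.C.Up
import Pool.Agent.Lib.MP_438f30_pr.U.Eb
import Pool.Agent.Lib.MP_438f30_pr.U.Eh
import Pool.Agent.Lib.MP_438f30_pr.U.Em
import Pool.Agent.Lib.MP_438f30_pr.U.Low
import Pool.Agent.Lib.MP_438f30_pr.U.Up2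

/-! The continuum upper bound, assembled. -/

namespace Pool.Agent.GC

theorem allSd : sSd := sd ma (la ma) (cx ma) (pa ma) ba lc iv sp

theorem allBoot : sBoot :=
  boot md np (apx (pos ma)) (con (mpf mpw) tail (gi ma (cx ma))) tl r1 r2 r3b tu ms al q0
    (au (ad ma (gl ma))) ap

theorem allMod : sMod :=
  mod allSd allBoot (gb (bl ma (cx ma))) (det (bm (bl ma (cx ma)))) en (sub oscC) GU.eh GU.em
    (GU.eb GU.low GU.upT)

theorem allUp (h : sInst) : sUp := up allMod (bc evm) h evm evw dim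

end Pool.Agent.GC
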