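import Pool.Agent.Lib.MP_438f30_pr.HDefs

/-! Rotation invariance of the metric. -/

namespace Pool.Agent.GL

open MeasureTheory

/-- `D_h (L u, L v) = D_(h ∘ L) (u, v)` for every rotation `L`. -/
def IsRot (D : ((R2 → ℝ) → ℝ) → R2 → R2 → ℝ) : Prop :=
  ∀ (Ω : Type) [MeasurableSpace Ω] (P : Measure Ω) [IsProbabilityMeasure P]
    (Φ : (R2 → ℝ) → Ω → ℝ), IsFld P Φ → ∀ L : R2 ≃ₗᵢ[ℝ] R2,
      LinearMap.det (L.toLinearEquiv : R2 →ₗ[ℝ] R2) = 1 → ∀ᵐ ω ∂P, ∀ u v,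
        D (fun φ => Φ φ ω) (L u) (L v) = D (fun φ => Φ (fun x => φ (L.symm x)) ω) u v

end Pool.Agent.GL
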