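import Pool.Agent.Lib.MP_438f30_pr.HDefs

/-! Covariance of the metric under rotations. -/

namespace Pool.Agent.GL

open MeasureTheory

/-- the rotation of the plane by the angle `θ` -/
noncomputable def turn (θ : ℝ) (x : R2) : R2 :=
  WithLp.toLp 2 ![Real.cos θ * x 0 - Real.sin θ * x 1, Real.sin θ * x 0 + Real.cos θ * x 1]

/-- `D_h (L u, L v) = D_(h ∘ L) (u, v)` for every rotation `L`. -/
def RotCov (D : ((R2 → ℝ) → ℝ) → R2 → R2 → ℝ) : Prop :=
  ∀ (Ω : Type) [MeasurableSpace Ω] (P : Measure Ω) [IsProbabilityMeasure P]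
    (Φ : (R2 → ℝ) → Ω → ℝ), IsFld P Φ → ∀ θ : ℝ, ∀ᵐ ω ∂P, ∀ u v,
      D (fun φ => Φ φ ω) (turn θ u) (turn θ v) =
        D (fun φ => Φ (fun x => φ (turn (-θ) x)) ω) u v

end Pool.Agent.GL
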