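import Pool.Agent.Lib.MP_438f30_pr.C.St2
import Pool.Agent.Lib.MP_438f30_pr.U.Det
import Pool.Agent.Lib.MP_438f30_pr.U.Lad

/-! The length of a chain in a good environment. -/

namespace Pool.Agent.GC

open Real Finset Pool.Agent.Lib.MP_a0a493_pr Pool.Agent.GL
open Pool.Agent.GU (Z2 Cv Dm BG EH EM EB)

namespace DetL

theorem fz0 (u : R2) (i : Fin 2) : fz 0 u i = ⌊u i⌋ := by simp [fz]

theorem near {z : Z2} {v : R2} {r : ℤ} (h : v ∈ Bx (pt z) r) : Near r z (fz 0 v) := fun i => by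
  have k := abs_lt.1 (h i)
  rw [pt_apply] at k
  rw [fz0, abs_le]
  have a : z i - r ≤ ⌊v i⌋ := Int.le_floor.2 (by push_cast; linarith [k.1])
  have b : ⌊v i⌋ < z i + r := Int.floor_lt.2 (by push_cast; linarith [k.2])
  constructor <;> omega

theorem bx {z : Z2} {v : R2} {r : ℤ} {R : ℝ} (h : Near r z (fz 0 v)) (hR : (r : ℝ) + 1 ≤ R) :
    v ∈ Bx (pt z) R := fun i => by
  have k := h i
  rw [fz0] at k
  have k' : |(z i : ℝ) - ⌊v i⌋| ≤ r := by exact_mod_cast k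
  have k2 := abs_le.1 k'
  have a := Int.floor_le (v i)
  have b := Int.lt_floor_add_one (v i)
  rw [pt_apply, abs_lt]
  constructor <;> linarith [k2.1, k2.2]

theorem base {T a b : ℕ} {y : ℕ → R2} (h : Stp 1 T y) (hb : b ≤ T + 1)
    (hD : Dm (fun s => fz 0 (y s)) a b (10 * 2 ^ 16)) : ((b - a : ℕ) : ℝ) ≤ 1 := by
  have : b - a ≤ 1 := by
    by_contra hc
    refine (h a (by omega)).1 fun i => ?_
    have k := hD a (mem_Ico.2 (by omega)) (a + 1) (mem_Ico.2 (by omega)) i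
    simp only [fz0] at k
    have k' : |((⌊y a i⌋ : ℤ) : ℝ) - ⌊y (a + 1) i⌋| ≤ 10 * 2 ^ 16 := by exact_mod_cast k
    have k2 := abs_le.1 k'
    have a1 := Int.floor_le (y a i)
    have a2 := Int.lt_floor_add_one (y a i)
    have a3 := Int.floor_le (y (a + 1) i)
    have a4 := Int.lt_floor_add_one (y (a + 1) i)
    rw [abs_lt]
    constructor <;> linarith [k2.1, k2.2]
  exact_mod_cast this

theorem bots {τ : ℕ → ℝ} (h0 : ∀ t, 0 ≤ τ t) {κ n N : ℕ} (hκ : 1 ≤ κ) (hn : n * κ ≤ N) :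
    ∑ j ∈ range n, τ (j * κ) ≤ ∑ t ∈ range (N + 1), τ t := by
  rw [← sum_image (g := fun j => j * κ) (f := τ) (s := range n) fun j _ j' _ e =>
    Nat.eq_of_mul_eq_mul_right hκ e]
  refine sum_le_sum_of_subset_of_nonneg (fun t ht => ?_) fun _ _ _ => h0 _
  obtain ⟨j, hj, rfl⟩ := mem_image.1 ht
  have := Nat.mul_le_mul_right κ (mem_range.1 hj).le
  rw [mem_range]
  omega

theorem box {z : Z2} {v : R2} {t : ℕ} (h : Near (10 * 2 ^ (t + 16)) z (fz 0 v)) :
    v ∈ Bx (pt z) (2 ^ (t + 20)) := by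
  refine bx h ?_
  have : (1 : ℝ) ≤ 2 ^ (t + 16) := one_le_pow₀ one_le_two
  push_cast
  rw [show t + 20 = t + 16 + 4 by ring, pow_add (2 : ℝ) (t + 16) 4]
  linarith

theorem near8 {z : Z2} {v : R2} {t : ℕ} (h : v ∈ Bx (pt z) (8 * 2 ^ t)) :
    Near (2 ^ (t + 3)) z (fz 0 v) := by
  refine near ?_
  push_cast
  rwa [pow_add, mul_comm, show (2 : ℝ) ^ 3 = 8 by norm_num]

theorem sub {z : R2} {t N : ℕ} (h : t ≤ N) : Bx z (8 * 2 ^ t) ⊆ Bx z (8 * 2 ^ N) := fun _ hv i =>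
  (hv i).trans_le (by gcongr; exact one_le_two)

end DetL

open DetL in
theorem det (h1 : sBM) : sDet := by
  intro d Y F μ xb Cg C' L x₀ κ I J N T y D hGB hκ hL1 hL2 hC hG hd hc hF hN0 hQ hS hD hl hDD hE
  obtain ⟨θ, θ0, θ1, θ2⟩ := hl
  have L0 : 0 ≤ L := by linarith [Nat.cast_nonneg (α := ℝ) κ]
  have hc' : ∀ c : ℕ, Cmp (d N) (d c) fun x => -(Y N x - Y c x) := fun c => by
    simpa only [neg_sub] using hc N c
  have hH : ∀ s, ∃ τ : ℕ → ℝ, (∀ t, 0 ≤ τ t) ∧ (s ≤ T →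
      ∑ t ∈ range (J * 2 ^ I * κ + 20 + 1), τ t ≤ x₀ ∧ ∀ t ≤ J * 2 ^ I * κ + 20, ∀ v,
        Near (2 ^ (t + 3)) (fz 0 (y s)) v →
          |F N v - F t v - (F N (fz 0 (y s)) - F t (fz 0 (y s)))| ≤ 1 + τ t) := fun s => by
    by_cases hs : s ≤ T
    · obtain ⟨τ, a, b⟩ := (hE s hs).1
      exact ⟨τ, a, fun _ => b⟩
    · exact ⟨0, fun _ => le_rfl, fun h => absurd h hs⟩
  choose τH H0 hH using hH
  have hM := fun s hs => (hE s hs).2.1
  have hN := fun s hs => (hE s hs).2.2.1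
  have hB := fun s hs => (hE s hs).2.2.2
  unfold EM at hM
  unfold ENc at hN
  unfold EB at hB
  choose! τM hM hM' using hM
  choose! τN hN hN' using hN
  choose! τB hB hB' using hB
  have top : ∀ i ≤ I, J * 2 ^ (I - i) * (2 ^ i * κ) = J * 2 ^ I * κ := fun i hi => by
    rw [show 2 ^ I = 2 ^ (I - i) * 2 ^ i by rw [← pow_add, Nat.sub_add_cancel hi]]
    ring
  have pos : ∀ i, 1 ≤ 2 ^ i * κ := fun i => Nat.mul_pos (by positivity) hκ
  have lt : ∀ {j n k : ℕ}, j < n → j * k + (k + 20) ≤ n * k + 20 := fun {j n k} hj => by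
    have := Nat.mul_le_mul_right k (Nat.succ_le_of_lt hj)
    rw [Nat.succ_mul] at this
    omega
  have key := GU.lad (fun s => fz 0 (y s)) (fun j => 10 * 2 ^ (j * κ + 16)) T I J 1 (κ * log 2) L
    (20 * x₀ + L * (∑ i ∈ Icc 1 I, xb i + 3 * I * x₀))
    (fun j s => 6 * τM s j + 6 * (τH s (j * κ + (κ + 20)) + θ (j * κ)) + 2 * τN s 0 j)
    (fun i j s => τB s i j + τN s i j + τH s (j * (2 ^ i * κ) + (2 ^ i * κ + 20)) +
      θ (j * (2 ^ i * κ)))
    one_pos (mul_nonneg (Nat.cast_nonneg _) (log_nonneg one_le_two)) L0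
    (fun j s => by
      have := H0 s (j * κ + (κ + 20))
      have := θ0 (j * κ)
      positivity)
    (fun i j s => by
      have := H0 s (j * (2 ^ i * κ) + (2 ^ i * κ + 20))
      have := θ0 (j * (2 ^ i * κ))
      positivity)
    (fun a b hb h => base hS hb (by simpa using h)) ?_ ?_ hD ?_
  · rwa [one_mul] at key
  · intro j hj a b hb hm s hs
    have hT : s ≤ T := by have := (mem_Ico.1 hs).2; omega
    have k := hN s hT 0 (Nat.zero_le _) j (by simpa using hj)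
    simp only [pow_zero, one_mul] at k
    have l1 := lt (k := κ) hj
    refine GU.Det.cv (h1 (d N) (d (j * κ : ℕ)) (fun x => Y N x - Y (j * κ : ℕ) x) μ (j * κ) (κ + 20)
      (τN s 0 j) T a b y (fz 0 (y s))
      ((2 + (τH s (j * κ + (κ + 20)) + θ (j * κ))) + (1 + τM s j)) (hd _) (hd _) (hc _ _) (hc' _)
      hQ hS hb (by omega)
      (by
        have := H0 s (j * κ + (κ + 20))
        have := θ0 (j * κ)
        positivity) hG k (fun v hv => ?_) fun s' hs' => ?_) (GU.Det.num hL2)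
    · have a0 := abs_le.1 (θ2 (j * κ) (by omega) v (hDD s hT (sub (by omega) hv)))
      have a1 := abs_le.1 ((hH s hT).2 _ l1 _ (near8 hv))
      have a2 := abs_le.1 (hM s hT j hj _ (near8 hv))
      have a3 := hF N (j * κ) (fz 0 v)
      have a4 := hF N (j * κ) (fz 0 (y s))
      rw [abs_le]
      constructor <;> linarith [a0.1, a0.2, a1.1, a1.2, a2.1, a2.2]
    · have := box (hm s hs s' hs')
      rwa [show (j + 1) * κ + 20 = j * κ + (κ + 20) by ring] at this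
  · intro i hi j hj a b hb hm s hs hbd
    have hT : s ≤ T := by have := (mem_Ico.1 hs).2; omega
    have hI := (mem_Icc.1 hi).2
    have t0 := H0 s (j * (2 ^ i * κ) + (2 ^ i * κ + 20))
    have t1 : (0 : ℝ) ≤ τB s i j := Nat.cast_nonneg _
    have t2 : (0 : ℝ) ≤ τN s i j := Nat.cast_nonneg _
    have t3 := θ0 (j * (2 ^ i * κ))
    have z1 : τB s i j = 0 := Nat.lt_one_iff.1 (by exact_mod_cast (by linarith : (τB s i j : ℝ) < 1))
    have z2 : τN s i j = 0 := Nat.lt_one_iff.1 (by exact_mod_cast (by linarith : (τN s i j : ℝ) < 1))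
    have k := hN s hT i hI j hj
    rw [z2] at k
    have l1 : j * (2 ^ i * κ) + (2 ^ i * κ + 20) ≤ J * 2 ^ I * κ + 20 :=
      (lt hj).trans (by rw [top i hI])
    have k2 := hGB (d N) (d (j * (2 ^ i * κ) : ℕ)) (fun x => Y N x - Y (j * (2 ^ i * κ) : ℕ) x)
      (F N) F μ (j * (2 ^ i * κ)) (2 ^ i * κ + 20) T a b y (fz 0 (y s)) (hd _) (hd _) (hc _ _)
      (hc' _) hQ hS hb (by omega) hG k (hB s hT i hi j hj z1) (fun v => hF _ _ v)
      (fun v hv => ((hH s hT).2 _ l1 v hv).trans (by linarith))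
      (fun v hv => (θ2 _ (by omega) v (hDD s hT (sub (by omega) hv))).trans (by linarith))
      fun s' hs' => by
        have := box (hm s hs s' hs')
        rwa [show (j + 1) * 2 ^ i * κ + 20 = j * (2 ^ i * κ) + (2 ^ i * κ + 20) by ring] at this
    rw [← mul_assoc] at k2
    refine GU.Det.cv k2 ?_
    have e3 : (2 : ℝ) ^ (2 ^ i * κ) = exp (κ * log 2 * 2 ^ i) := by
      rw [show (κ : ℝ) * log 2 * 2 ^ i = (2 ^ i * κ : ℕ) * log 2 by push_cast; ring, exp_nat_mul,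
        exp_log two_pos]
    rw [pow_add, exp_add, ← e3, show 11 * C' * ((2 : ℝ) ^ (2 ^ i * κ) * 2 ^ 20) =
      2 ^ (2 ^ i * κ) * (11 * C' * 2 ^ 20) by ring]
    exact mul_le_mul_of_nonneg_left hL1 (by positivity)
  · intro s hT
    have a1 := hM' s hT
    have a2 := (GU.Det.tops (H0 s) hκ (le_refl (J * 2 ^ I * κ + 20))).trans (hH s hT).1
    have a3 := hN' s hT 0 (Nat.zero_le _)
    rw [Nat.sub_zero] at a3
    have a6 := (bots θ0 hκ (show J * 2 ^ I * κ ≤ N by omega)).trans θ1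
    have a4 : ∑ i ∈ Icc 1 I, ∑ j ∈ range (J * 2 ^ (I - i)),
        ((τB s i j : ℝ) + τN s i j + τH s (j * (2 ^ i * κ) + (2 ^ i * κ + 20)) +
          θ (j * (2 ^ i * κ))) ≤ ∑ i ∈ Icc 1 I, (xb i + 3 * x₀) := sum_le_sum fun i hi => by
      have hI := (mem_Icc.1 hi).2
      have b1 := (GU.Det.tops (H0 s) (pos i) (show J * 2 ^ (I - i) * (2 ^ i * κ) + 20 ≤
        J * 2 ^ I * κ + 20 by rw [top i hI])).trans (hH s hT).1
      have b2 := (bots θ0 (pos i) (show J * 2 ^ (I - i) * (2 ^ i * κ) ≤ N by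
        rw [top i hI]; omega)).trans θ1
      rw [sum_add_distrib, sum_add_distrib, sum_add_distrib]
      linarith [hB' s hT i hi, hN' s hT i hI]
    rw [sum_add_distrib (s := Icc 1 I) (f := xb), sum_const, Nat.card_Icc, Nat.add_sub_cancel,
      nsmul_eq_mul] at a4
    have a5 := mul_le_mul_of_nonneg_left a4 L0
    rw [sum_add_distrib, sum_add_distrib, ← mul_sum, ← mul_sum, ← mul_sum, sum_add_distrib]
    rw [show 3 * (I : ℝ) * x₀ = I * (3 * x₀) by ring]
    linarith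

end Pool.Agent.GC
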