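import Pool.Agent.Lib.MP_438f30_pr.C.InstW
import Pool.Agent.Lib.MP_438f30_pr.G4
import Pool.Agent.Lib.MP_438f30_pr.HMod
import Pool.Agent.Lib.MP_438f30_pr.HCM
import Pool.Agent.Lib.MP_438f30_pr.HCel
import Pool.Agent.Lib.MP_438f30_pr.HFub
import Pool.Agent.Lib.MP_438f30_pr.HNorm
import Pool.Agent.Lib.MP_438f30_pr.HFin

/-! The model exists. -/

namespace Pool.Agent.GL.Ins

open MeasureTheory ProbabilityTheory Real Filter Pool.Agent.Lib.MP_a0a493_pr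
open scoped InnerProductSpace

theorem sig_ae {Ω X : Type} [MeasurableSpace X] [MeasurableSpace.CountablySeparated X]
    {l : Filter Ω} [CountableInterFilter l] {F F' : Ω → (E 2 → ℝ) → ℝ} {U : Set (E 2)}
    (h : ∀ φ, Test φ → tsupport φ ⊆ U → ∀ᶠ ω in l, F ω φ = F' ω φ)
    {G : ((E 2 → ℝ) → ℝ) → X} (hG : @Measurable _ _ (sig U) _ G) :
    ∀ᶠ ω in l, G (F ω) = G (F' ω) := by
  let m : MeasurableSpace ((E 2 → ℝ) → ℝ) :=
    { MeasurableSet' := fun A => F ⁻¹' A =ᶠ[l] F' ⁻¹' A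
      measurableSet_empty := EventuallyEq.rfl
      measurableSet_compl := fun A hA => hA.compl
      measurableSet_iUnion := fun A hA => by
        rw [Set.preimage_iUnion, Set.preimage_iUnion]
        exact Filter.EventuallyEq.countable_iUnion hA }
  have key : sig U ≤ m := iSup_le fun φ => iSup_le fun hφ => by
    rintro _ ⟨S, -, rfl⟩
    filter_upwards [h φ hφ.1 hφ.2] with ω hω
    change (F ω φ ∈ S) = (F' ω φ ∈ S)
    rw [hω]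
  exact EventuallyEq.of_forall_separating_preimage (f := G ∘ F) (g := G ∘ F') MeasurableSet
    fun S hS => key _ (hG hS)

theorem D_congr {D : ((R2 → ℝ) → ℝ) → R2 → R2 → ℝ}
    (hD : ∀ u v, @Measurable _ _ (sig Set.univ) _ fun h => D h u v) {h h' : (R2 → ℝ) → ℝ}
    (e : ∀ φ, Test φ → h φ = h' φ) : D h = D h' :=
  funext₂ fun u v => eventually_top.1 (sig_ae (l := ⊤) (F := fun _ : Unit => h)
    (F' := fun _ => h') (fun φ a _ => Eventually.of_forall fun _ => e φ a) (hD u v)) ()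

variable {Ω : Type} [MeasurableSpace Ω] {P : Measure Ω} [IsProbabilityMeasure P]
  {W : HH 2 →ₗ[ℝ] (Ω → ℝ)} {ρ : E 2 → ℝ} {ξ Q : ℝ} {D : ((R2 → ℝ) → ℝ) → R2 → R2 → ℝ}

theorem lgf (hW : Iso P W) (hρ : Test ρ) (h1 : ∫ x, ρ x = 1) : IsLGF P fun φ => W (gT ρ φ) := by
  refine ⟨fun f g hf hg a b => Eventually.of_forall fun ω => ?_, fun f hf h0 =>
    ⟨(hW.meas _).aemeasurable, ?_⟩⟩
  · rw [comb hρ h1 hf hg]
    simp
  · obtain ⟨B, R, hn⟩ := hf.nice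
    rw [hW.map_eq, ← energy le_rfl hn h0, ← HV1.zero (ρ := ρ) h0, ← real_inner_self_eq_norm_sq,
      ← gram hρ h1 hf hf, real_inner_self_eq_norm_sq]
    congr 1
    ext
    simp

/-- a version of the field of the small scales -/
def FineT (P : Measure Ω) (W : HH 2 →ₗ[ℝ] (Ω → ℝ)) (α : ℝ) (Ψ : (E 2 → ℝ) → Ω → ℝ) : Prop :=
  IsFld P Ψ ∧ ∀ φ, Test φ → Ψ φ =ᵐ[P] W (fT α φ)

theorem mdT (hW : Iso P W) (hρ : Test ρ) (h1 : ∫ x, ρ x = 1) (α : ℝ) :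
    ∃ F, Ver P W (cr ρ α) F ∧ FineT P W α fun φ ω => W (gT ρ φ) ω - ∫ x, φ x * F ω x := by
  obtain ⟨F, hF⟩ := cm cel Ω P (HH 2) W hW (cr ρ α) _ (inc hρ h1 α)
  refine ⟨F, hF, ⟨fun φ hφ => (hW.meas _).sub (HMod.meas_int hF.1 hF.2.1 hφ.1.continuous),
    fun ω x => -F ω x, fun ω => (hF.1 ω).neg, fun x => (hF.2.1 x).neg, ?_⟩, fun φ hφ => ?_⟩
  · simpa only [mul_neg, integral_neg, sub_neg_eq_add, sub_add_cancel] using lgf hW hρ h1
  · filter_upwards [fub Ω P (HH 2) W hW (cr ρ α) F φ (gT ρ φ - fT α φ)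
      (HMod.cont_of (inc hρ h1 α)) hF hφ fun g => weak hρ h1 hφ α g] with ω h
    rw [map_sub, Pi.sub_apply] at h
    linarith

theorem loc (hD : IsLQG ξ Q D) {α : ℝ} {Ψ : (E 2 → ℝ) → Ω → ℝ} (h : FineT P W α Ψ) {V : Set R2}
    (hV : IsOpen V) (u v : R2) : ∃ G : Ω → ENNReal,
      Measurable[GU.FK W {h | ∃ φ, Test φ ∧ tsupport φ ⊆ V ∧ h = fT α φ}] G ∧
      ∀ᵐ ω ∂P, wey (D fun φ => Ψ φ ω) (fun _ => 1) V u v = G ω := by
  classical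
  obtain ⟨G, hG, e⟩ := hD.loc Ω P Ψ h.1 V hV u v
  refine ⟨fun ω => G fun φ => W (fT α φ) ω, hG.comp (f := fun ω φ => W (fT α φ) ω) ?_, ?_⟩
  · refine Measurable.of_le_map (iSup_le fun φ => iSup_le fun hφ => ?_)
    rintro _ ⟨S, hS, rfl⟩
    refine GU.meas_FK W (K := {h | ∃ φ, Test φ ∧ tsupport φ ⊆ V ∧ h = fT α φ}) (h := fT α φ)
      ⟨φ, hφ.1, hφ.2, rfl⟩ (t := S) ?_
    rw [BorelSpace.measurable_eq (α := ℝ)]
    exact hS
  · filter_upwards [e, sig_ae (l := ae P) (F := fun ω φ => Ψ φ ω)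
      (F' := fun ω φ => W (fT α φ) ω) (fun φ a _ => h.2 φ a) hG] with ω a b using a.trans b

theorem inv (hD : IsLQG ξ Q D) (hW : Iso P W) {r : ℝ} (hr : 0 < r) {Ψ Ψ₁ : (E 2 → ℝ) → Ω → ℝ}
    (hΨ : FineT P W (log r) Ψ) (hΨ₁ : FineT P W 0 Ψ₁) (z : R2) {B : Set (R2 → R2 → ℝ)}
    (hB : MeasurableSet B) :
    P {ω | (fun u v => exp (-(ξ * Q * log r)) * D (fun φ => Ψ φ ω) (r • u + z) (r • v + z)) ∈ B} =
      P {ω | D (fun φ => Ψ₁ φ ω) ∈ B} := by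
  have f' := HInv.fld_const hΨ.1 (-(Q * log r))
  have g1 : GFa P (fun φ => Ψ fun x => r⁻¹ ^ 2 * φ (r⁻¹ • (x - z)))
      fun φ => fT (log r) fun x => r⁻¹ ^ 2 * φ (r⁻¹ • (x - z)) :=
    pl.gfa hW (fun φ hφ => hΨ.1.1 _ (vf3.test r z φ hr hφ))
      fun φ hφ => hΨ.2 _ (vf3.test r z φ hr hφ)
  refine Eq.trans (measure_congr (eventuallyEq_set.2 ?_)) (leq Ω Ω (HH 2) (HH 2) P P _ _ _ _ g1
    (pl.gfa hW hΨ₁.1.1 hΨ₁.2) (fun φ ψ hφ hψ => scale hr z hφ hψ) _ (G4.meas_D hD.meas hB))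
  filter_upwards [hD.met Ω P Ψ hΨ.1, hD.met Ω P _ f', hD.weyl Ω P Ψ hΨ.1,
    hD.aff Ω P _ f' r hr z] with ω m1 m2 hw ha
  have w1 : ∀ u v, D (fun φ => Ψ φ ω + ∫ x, φ x * -(Q * log r)) u v =
      exp (ξ * -(Q * log r)) * D (fun φ => Ψ φ ω) u v := fun u v => by
    have a := hw (fun _ => -(Q * log r)) continuous_const u v
    rw [mg1.const m1 (exp_pos _)] at a
    exact (ENNReal.ofReal_eq_ofReal_iff (mg1.nonneg m2 u v)
      (mul_nonneg (exp_pos _).le (mg1.nonneg m1 u v))).1 a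
  have fe : (fun φ : R2 → ℝ => (Ψ (fun x => r⁻¹ ^ 2 * φ (r⁻¹ • (x - z))) ω +
      ∫ x, r⁻¹ ^ 2 * φ (r⁻¹ • (x - z)) * -(Q * log r)) + ∫ x, φ x * (Q * log r)) =
      fun φ => Ψ (fun x => r⁻¹ ^ 2 * φ (r⁻¹ • (x - z))) ω := by
    funext φ
    rw [integral_mul_const, integral_mul_const, vf3.int r z φ hr]
    ring
  have e : (fun u v => exp (-(ξ * Q * log r)) * D (fun φ => Ψ φ ω) (r • u + z) (r • v + z)) =
      D fun φ => Ψ (fun x => r⁻¹ ^ 2 * φ (r⁻¹ • (x - z))) ω := funext₂ fun u v => by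
    have a := ha u v
    rw [fe, w1] at a
    rw [← a, mul_neg, mul_assoc ξ]
  exact Iff.of_eq (congrArg (· ∈ B) e)

theorem rotI (hD : IsLQG ξ Q D) (hR : IsRot D) (hW : Iso P W) {α : ℝ} {Ψ : (E 2 → ℝ) → Ω → ℝ}
    (hΨ : FineT P W α Ψ) (L : R2 ≃ₗᵢ[ℝ] R2)
    (hL : LinearMap.det (L.toLinearEquiv : R2 →ₗ[ℝ] R2) = 1) {B : Set (R2 → R2 → ℝ)}
    (hB : MeasurableSet B) :
    P {ω | (fun u v => D (fun φ => Ψ φ ω) (L u) (L v)) ∈ B} = P {ω | D (fun φ => Ψ φ ω) ∈ B} := by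
  have g1 : GFa P (fun φ => Ψ fun x => φ (L.symm x)) fun φ => fT α fun x => φ (L.symm x) :=
    pl.gfa hW (fun φ hφ => hΨ.1.1 _ (test_rot _ hφ)) fun φ hφ => hΨ.2 _ (test_rot _ hφ)
  refine Eq.trans (measure_congr (eventuallyEq_set.2 ?_)) (leq Ω Ω (HH 2) (HH 2) P P _ _ _ _ g1
    (pl.gfa hW hΨ.1.1 hΨ.2) (fun φ ψ hφ hψ => rot _ α hφ hψ) _ (G4.meas_D hD.meas hB))
  filter_upwards [hR Ω P Ψ hΨ.1 L hL] with ω e
  exact Iff.of_eq (congrArg (· ∈ B) (funext₂ e))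

end Pool.Agent.GL.Ins

namespace Pool.Agent.GC

open MeasureTheory Real Filter Pool.Agent.Lib.MP_a0a493_pr Pool.Agent.GL Pool.Agent.GL.Ins

theorem inst : sInst := by
  refine ⟨C0, fun ξ Q D hξ hD hR => ?_⟩
  obtain ⟨Ω, _, P, _, W, hW⟩ := exists_iso (HH 2)
  obtain ⟨ρ, hρ, h1⟩ := HFin.ex_rho
  choose F hF hΨ using fun k : ℤ => mdT hW hρ h1 (k * log 2)
  have h0 : FineT P W 0 fun φ ω => W (gT ρ φ) ω - ∫ x, φ x * F 0 ω x := by simpa using hΨ 0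
  refine ⟨Ω, _, P, ‹_›, ⟨W, aT, fun k U => {h | ∃ φ, Test φ ∧ tsupport φ ⊆ U ∧
    h = fT (k * log 2) φ}, C0, ξ, ξ * Q * log 2, fun k ω x => -(ξ * F k ω x),
    fun k ω => D fun φ => W (gT ρ φ) ω - ∫ x, φ x * F k ω x⟩,
    ⟨hW, bz, hξ, fun k x => ?_, fun k ω => (continuous_const.mul ((hF k).1 ω)).neg,
      fun k => hD.met Ω P _ (hΨ k).1, fun j k => ?_, fun k V hV u v => loc hD (hΨ k) hV u v,
      fun k U V h _ ⟨φ, a, b, c⟩ => ⟨φ, a, b.trans h, c⟩, ?_, ?_, ?_, fun k z B hB => ?_,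
      fun L hL B hB => rotI hD hR hW (hΨ 0) L hL hB⟩, rfl, rfl, rfl,
    ρ, fun φ => W (gT ρ φ), fun ω x => ξ * F 0 ω x, hρ, h1,
    ⟨fun _ _ => hW.meas _, fun _ _ => 0, fun _ => continuous_const, fun _ => measurable_const,
      by simpa using lgf hW hρ h1⟩,
    ⟨fun _ _ => hW.meas _, fun J _ f hf => BF.gf_congr (hW.gf fun j => gT ρ (f j))
      fun i j => gram hρ h1 (hf i) (hf j)⟩,
    fun ω => continuous_const.mul ((hF 0).1 ω), ?_⟩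
  · filter_upwards [(hF k).2.2 x, (hF (k + 1)).2.2 x] with ω a b
    change -(ξ * F (k + 1) ω x) - -(ξ * F k ω x) = W (ξ • aT (k + 1) x) ω
    rw [← cr_sub hρ h1, map_smul, map_sub, a, b]
    simp only [Pi.smul_apply, Pi.sub_apply, smul_eq_mul]
    ring
  · filter_upwards [hD.weyl Ω P _ (hΨ j).1] with ω hw u v
    have := hw (fun x => F j ω x - F k ω x) (((hF j).1 ω).sub ((hF k).1 ω)) u v
    rw [D_congr hD.meas (h' := fun φ => W (gT ρ φ) ω - ∫ x, φ x * F k ω x) fun φ hφ => by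
      simp only [mul_sub]
      rw [integral_sub (HNorm.int_mul hφ ((hF j).1 ω)) (HNorm.int_mul hφ ((hF k).1 ω))]
      ring] at this
    refine this.trans ?_
    congr 1
    funext x
    congr 1
    ring
  · rintro k b h _ ⟨φ, -, -, rfl⟩ x
    exact o1 h φ x
  · rintro j k U V - h _ ⟨φ, -, a, rfl⟩ _ ⟨ψ, -, b, rfl⟩
    exact o2 _ fun x hx y hy => h x (a hx) y (b hy)
  · rintro _ ⟨φ, a, -, rfl⟩
    exact den hρ h1 a
  · have := inv hD hW (r := 2 ^ k) (by positivity) (by rw [log_zpow]; exact hΨ k) h0 z hB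
    rw [log_zpow, mul_comm (k : ℝ), ← mul_assoc] at this
    exact this
  · filter_upwards [hD.weyl Ω P _ (hΨ 0).1] with ω hw u v
    have := hw (F 0 ω) ((hF 0).1 ω) u v
    simpa only [sub_add_cancel] using this

end Pool.Agent.GC
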