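import Pool.Agent.Lib.MP_438f30_pr.BF.Main
import Pool.Agent.Lib.MP_438f30_pr.HV1
import Pool.Agent.Lib.MP_438f30_pr.HV2
import Pool.Agent.Lib.MP_438f30_pr.HV3

/-! The vectors of the tent representation at all scales. -/

namespace Pool.Agent.GL.Ins

open MeasureTheory Real Set Filter Topology Pool.Agent.Lib.MP_a0a493_pr Pool.Agent.GL.BF
open scoped InnerProductSpace

variable {f φ ψ ρ m : E 2 → ℝ} {z : E 2} {B R α s : ℝ}

/-- the normalised tent -/
noncomputable def kt (x : E 2) (p : ℝ × E 2) : ℝ := cT 2 * tk p.1 x p.2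

/-- tent averages with the large scales compensated -/
noncomputable def DT (f : E 2 → ℝ) (z : E 2) (α : ℝ) (p : ℝ × E 2) : ℝ :=
  At f p - (∫ y, f y) * cut (Ioi α) (kt z) p

/-- the scales of a band -/
def Jb (b : ℤ) : Set ℝ := Ioc (((b - 1 : ℤ) : ℝ) * log 2) (b * log 2)

/-- the bands -/
noncomputable def aT (b : ℤ) (x : E 2) : HH 2 := vec (cut (Jb b) (kt x))

/-- the small scales -/
noncomputable def fT (α : ℝ) (φ : E 2 → ℝ) : HH 2 := vec (cut (Iic α) (At φ))

/-- all scales -/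
noncomputable def gT (ρ φ : E 2 → ℝ) : HH 2 :=
  vec (At ((1 : ℝ) • φ + (-∫ x, φ x) • mol ρ 0 0))

/-- the large scales -/
noncomputable def cr (ρ : E 2 → ℝ) (α : ℝ) (x : E 2) : HH 2 := -vec (DT (mol ρ 0 0) x α)

theorem meas_kt (x : E 2) : Measurable (kt x) := by unfold kt; fun_prop

theorem kt_sup {x u : E 2} (h : kt x (s, u) ≠ 0) : dist x u < exp s :=
  not_le.1 fun c => h (by rw [kt, tk_zero c, mul_zero])

theorem kt_bd (x u : E 2) (s : ℝ) : |kt x (s, u)| ≤ cT 2 := by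
  rw [kt, abs_mul, abs_of_pos (cT_pos 2)]
  exact mul_le_of_le_one_right (cT_pos 2).le (abs_tk _ _ _)

theorem tk_sub (s : ℝ) (x y u : E 2) : |tk s x u - tk s y u| ≤ exp (-s) * ‖x - y‖ := by
  refine (tk_lip _ _ _ _ _).trans_eq ?_
  rw [sub_sub_sub_cancel_left, norm_sub_rev]

theorem kt_lip (s : ℝ) (x y u : E 2) :
    |kt x (s, u) - kt y (s, u)| ≤ cT 2 * (exp (-s) * ‖x - y‖) := by
  rw [kt, kt, ← mul_sub, abs_mul, abs_of_pos (cT_pos 2)]
  exact mul_le_mul_of_nonneg_left (tk_sub _ _ _ _) (cT_pos 2).le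

theorem kt_sub_sup {x y u : E 2} (h : kt x (s, u) - kt y (s, u) ≠ 0) :
    dist x u < exp s ∨ dist y u < exp s := by
  by_cases h0 : kt x (s, u) = 0
  · exact Or.inr (kt_sup fun c => h (by rw [h0, c, sub_zero]))
  · exact Or.inl (kt_sup h0)

theorem sl_lo (h : Nice f z B R) (hs : s ≤ α) : Sl (fun u => At f (s, u))
    (vb 2 s * ((cT 2 * B * V1 2) ^ 2 * (2 * (R + exp α) ^ 2) * exp α ^ 2 * exp (s - α))) := by
  have hv := vb_pos 2 s
  have hV := V1_pos 2
  have hR := h.pos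
  refine (sl_two (x := z) (y := z) ((measurable_At h.meas).comp measurable_prodMk_left)
    (At_small h s) (r := R + exp α) (by positivity) fun u hu => Or.inl ((At_sup h hu).trans_le
      (by linarith [exp_le_exp.2 hs]))).mono ?_
  have a : vb 2 s ≤ V1 2 * (exp α ^ 2 * exp (s - α)) := by
    rw [vb]
    refine mul_le_mul_of_nonneg_left ?_ hV.le
    simp only [sq, ← exp_add]
    exact exp_le_exp.2 (by linarith)
  calc _ = vb 2 s * ((cT 2 * B) ^ 2 * (2 * (V1 2 * (R + exp α) ^ 2)) * vb 2 s) := by ring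
    _ ≤ vb 2 s * ((cT 2 * B) ^ 2 * (2 * (V1 2 * (R + exp α) ^ 2)) *
        (V1 2 * (exp α ^ 2 * exp (s - α)))) := by gcongr
    _ = _ := by ring

theorem sl_hi (h : Nice f z B R) (hs : α < s) :
    Sl (fun u => At f (s, u) - (∫ y, f y) * kt z (s, u))
      (vb 2 s * ((cT 2 * (B * (V1 2 * R ^ 2)) * R) ^ 2 * (2 * (R * exp (-α) + 1) ^ 2) *
        exp (-α) ^ 2 * exp (α - s))) := by
  have hv := vb_pos 2 s
  have hV := V1_pos 2
  have hR := h.pos
  have hB := h.nonneg
  have hc := cT_pos 2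
  refine (sl_two (x := z) (y := z) (M := cT 2 * (B * (V1 2 * R ^ 2)) * R * exp (-s))
    (g := fun u => At f (s, u) - (∫ y, f y) * kt z (s, u))
    (((measurable_At h.meas).sub ((meas_kt z).const_mul _)).comp measurable_prodMk_left)
    (fun u => ?_) (r := R + exp s) (by positivity) fun u hu => Or.inl ?_).mono ?_
  · have e : At f (s, u) - (∫ y, f y) * kt z (s, u) =
        cT 2 * ∫ y, f y * (tk s y u - tk s z u) := by
      simp only [At, kt, mul_sub]
      rw [integral_sub (int_mul_tk h.int _ _) (h.int.mul_const _), integral_mul_const]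
      ring
    rw [e, abs_mul, abs_of_pos hc, mul_assoc, mul_assoc]
    refine mul_le_mul_of_nonneg_left (le_trans ?_ (mul_le_mul_of_nonneg_right h.l1
      (by positivity))) hc.le
    rw [← integral_mul_const]
    refine norm_integral_le_of_norm_le (f := fun y => f y * (tk s y u - tk s z u))
      (h.int.abs.mul_const _) (Eventually.of_forall fun y => ?_)
    rw [Real.norm_eq_abs, abs_mul]
    by_cases h0 : f y = 0
    · simp [h0]
    · refine mul_le_mul_of_nonneg_left ((tk_sub _ _ _ _).trans ?_) (abs_nonneg _)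
      rw [mul_comm, ← dist_eq_norm, dist_comm]
      exact mul_le_mul_of_nonneg_right (h.sup y h0).le (exp_pos _).le
  · by_cases h0 : At f (s, u) = 0
    · refine (kt_sup fun c => hu ?_).trans (by linarith)
      rw [h0, c, mul_zero, sub_zero]
    · exact At_sup h h0
  · have a : R + exp s ≤ (R * exp (-α) + 1) * exp s := by
      rw [add_mul, mul_assoc, ← exp_add]
      nlinarith [one_le_exp (show 0 ≤ -α + s by linarith)]
    have b : exp (-s) ^ 2 ≤ exp (-α) ^ 2 * exp (α - s) := by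
      simp only [sq, ← exp_add]
      exact exp_le_exp.2 (by linarith)
    calc _ = (cT 2 * (B * (V1 2 * R ^ 2)) * R) ^ 2 * exp (-s) ^ 2 *
          (2 * (V1 2 * (R + exp s) ^ 2)) := by ring
      _ ≤ (cT 2 * (B * (V1 2 * R ^ 2)) * R) ^ 2 * (exp (-α) ^ 2 * exp (α - s)) *
          (2 * (V1 2 * ((R * exp (-α) + 1) * exp s) ^ 2)) := by gcongr
      _ = _ := by rw [vb]; ring

theorem ok_fT' (h : Nice f z B R) (α : ℝ) : Ok (cut (Iic α) (At f)) ∧
    ‖fT α f‖ ^ 2 ≤ (cT 2 * B * V1 2) ^ 2 * (2 * (R + exp α) ^ 2) * exp α ^ 2 := by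
  rw [← add_zero (_ * _)]
  refine ok_two (measurable_cut measurableSet_Iic (measurable_At h.meas)) (α := α)
    (fun s hs => ?_) fun s hs => ?_
  · simp only [cut_mem (mem_Iic.2 hs)]
    exact sl_lo h hs
  · simp only [cut_not (show s ∉ Iic α from not_le.2 hs)]
    exact sl_zero (by simp)

theorem ok_fT (h : Test φ) (α : ℝ) : Ok (cut (Iic α) (At φ)) :=
  (ok_fT' h.nice.choose_spec.choose_spec α).1

theorem ok_DT' (h : Nice f z B R) (α : ℝ) : Ok (DT f z α) ∧ ‖vec (DT f z α)‖ ^ 2 ≤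
    (cT 2 * B * V1 2) ^ 2 * (2 * (R + exp α) ^ 2) * exp α ^ 2 +
      (cT 2 * (B * (V1 2 * R ^ 2)) * R) ^ 2 * (2 * (R * exp (-α) + 1) ^ 2) * exp (-α) ^ 2 := by
  refine ok_two (g := DT f z α) ((measurable_At h.meas).sub
    ((measurable_cut measurableSet_Ioi (meas_kt z)).const_mul _)) (α := α)
    (fun s hs => ?_) fun s hs => ?_
  · simp only [DT, cut_not (show s ∉ Ioi α from not_lt.2 hs), mul_zero, sub_zero]
    exact sl_lo h hs
  · simp only [DT, cut_mem (mem_Ioi.2 hs)]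
    exact sl_hi h hs

theorem bd (h : Test m) (α S : ℝ) (hS : 0 < S) :
    ∃ C : ℝ, ∀ x : E 2, dist 0 x < S → Ok (DT m x α) ∧ ‖vec (DT m x α)‖ ^ 2 ≤ C := by
  obtain ⟨B, R, hn⟩ := h.nice
  refine ⟨_, fun x hx => ok_DT' (B := B) (R := R + S) ⟨hn.meas, hn.bd, fun y hy => ?_,
    by linarith [hn.pos]⟩ α⟩
  have a := hn.sup y hy
  have b := dist_triangle x 0 y
  rw [dist_comm x 0] at b
  linarith

theorem ok_DT (h : Test m) (x : E 2) (α : ℝ) : Ok (DT m x α) :=
  ((bd h α (dist 0 x + 1) (by positivity)).choose_spec x (lt_add_one _)).1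

theorem ok_At (h : Test φ) (h0 : ∫ x, φ x = 0) : Ok (At φ) := by
  have := ok_DT h 0 0
  rwa [show DT φ 0 0 = At φ from funext fun p => by rw [DT, h0, zero_mul, sub_zero]] at this

theorem inc (hρ : Test ρ) (h1 : ∫ x, ρ x = 1) (α : ℝ) (x y : E 2) :
    ‖cr ρ α x - cr ρ α y‖ ^ 2 ≤ 2 * cT 2 ^ 2 * exp (-α) * ‖x - y‖ := by
  have hm := test_mol hρ 0 0
  have hc := cT_pos 2
  have e : (fun p => DT (mol ρ 0 0) y α p - DT (mol ρ 0 0) x α p) =
      cut (Ioi α) fun p => kt x p - kt y p := by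
    funext p
    rw [DT, DT, int_mol, h1, cut_sub]
    ring
  rw [cr, cr, neg_sub_neg, ← vec_sub (ok_DT hm y α) (ok_DT hm x α), e,
    ← zero_add (2 * cT 2 ^ 2 * exp (-α) * ‖x - y‖)]
  refine (ok_two (measurable_cut measurableSet_Ioi ((meas_kt x).sub (meas_kt y))) (α := α)
    (fun s hs => ?_) fun s hs => ?_).2
  · simp only [cut_not (show s ∉ Ioi α from not_lt.2 hs)]
    exact sl_zero (by simp)
  · simp only [cut_mem (mem_Ioi.2 hs)]
    refine (sl_two (x := x) (y := y) (M := cT 2 * √(exp (-s) * ‖x - y‖))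
      (((meas_kt x).sub (meas_kt y)).comp measurable_prodMk_left) (fun u => ?_) (exp_pos s)
      fun u hu => kt_sub_sup hu).mono (le_of_eq ?_)
    · change |cT 2 * tk s x u - cT 2 * tk s y u| ≤ _
      rw [← mul_sub, abs_mul, abs_of_pos hc]
      refine mul_le_mul_of_nonneg_left (le_sqrt_of_sq_le ?_) hc.le
      have a := tk_sub s x y u
      have b : |tk s x u - tk s y u| ≤ 1 := by
        have := abs_le.1 (abs_tk s x u)
        have := abs_le.1 (abs_tk s y u)
        rw [abs_le]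
        constructor <;> linarith [tk_nonneg s x u, tk_nonneg s y u]
      nlinarith [abs_nonneg (tk s x u - tk s y u)]
    · have : exp (-s) = exp (-α) * exp (α - s) := by rw [← exp_add]; ring_nf
      rw [mul_pow, sq_sqrt (by positivity), this, vb]
      ring

theorem exp_int (b : ℤ) : exp (b * log 2) = 2 ^ b := by
  rw [← log_zpow, exp_log (by positivity)]

theorem ok_band {G : ℝ × E 2 → ℝ} (mG : Measurable G) (b : ℤ) {M : ℝ} {x y : E 2}
    (hM : ∀ s ∈ Jb b, ∀ u, |G (s, u)| ≤ M)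
    (hs : ∀ s u, G (s, u) ≠ 0 → dist x u < exp s ∨ dist y u < exp s) :
    Ok (cut (Jb b) G) ∧ ‖vec (cut (Jb b) G)‖ ^ 2 ≤ (2 * M) ^ 2 := by
  rw [← add_zero ((2 * M) ^ 2)]
  refine ok_two (g := cut (Jb b) G) (measurable_cut measurableSet_Ioc mG) (α := b * log 2)
    (fun s _ => ?_) fun s h => ?_
  · have hv := vb_pos 2 s
    by_cases h : s ∈ Jb b
    · simp only [cut_mem h]
      refine (sl_two (mG.comp measurable_prodMk_left) (hM s h) (exp_pos s) (hs s)).mono ?_
      have a : 1 ≤ 2 * exp (s - b * log 2) := by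
        rw [← exp_log two_pos, ← exp_add, exp_log two_pos]
        have := h.1
        push_cast at this
        exact one_le_exp (by linarith)
      calc _ = vb 2 s * (2 * M ^ 2 * 1) := by rw [vb]; ring
        _ ≤ vb 2 s * (2 * M ^ 2 * (2 * exp (s - b * log 2))) := by gcongr
        _ = _ := by ring
    · simp only [cut_not h]
      exact sl_zero (by positivity)
  · simp only [cut_not (show s ∉ Jb b from fun c => not_le.2 h c.2)]
    exact sl_zero (by simp)

theorem ok_aT (b : ℤ) (x : E 2) : Ok (cut (Jb b) (kt x)) ∧ ‖aT b x‖ ^ 2 ≤ (2 * cT 2) ^ 2 :=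
  ok_band (meas_kt x) b (x := x) (y := x) (fun s _ u => kt_bd x u s) fun _ _ h => Or.inl (kt_sup h)

theorem cr_sub (hρ : Test ρ) (h1 : ∫ x, ρ x = 1) (k : ℤ) (x : E 2) :
    cr ρ (k * log 2) x - cr ρ ((k + 1 : ℤ) * log 2) x = aT (k + 1) x := by
  have hm := test_mol hρ 0 0
  rw [cr, cr, neg_sub_neg, ← vec_sub (ok_DT hm x _) (ok_DT hm x _), aT]
  congr 1
  funext ⟨s, u⟩
  have := log_pos one_lt_two
  rw [DT, DT, int_mol, h1, Jb, add_sub_cancel_right]
  push_cast
  by_cases a : k * log 2 < s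
  · rw [cut_mem (mem_Ioi.2 a)]
    by_cases c : (k + 1) * log 2 < s
    · rw [cut_mem (mem_Ioi.2 c), cut_not fun h => not_le.2 c h.2]; ring
    · rw [cut_not (mt mem_Ioi.1 c), cut_mem (mem_Ioc.2 ⟨a, not_lt.1 c⟩)]; ring
  · rw [cut_not (mt mem_Ioi.1 a), cut_not (I := Ioi _) fun h => a (by linarith [mem_Ioi.1 h]),
      cut_not fun h => a h.1]
    ring

theorem fubT (hm : Test m) (hφ : Test φ) (α : ℝ) (g : HH 2) :
    Integrable (Function.uncurry fun (x : E 2) (p : ℝ × E 2) =>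
      φ x * (cs 2 p.1 * DT m x α p * g p)) (volume.prod (mu 2)) := by
  obtain ⟨B, S, hn⟩ := hφ.nice
  obtain ⟨C, hC⟩ := bd hm α S hn.pos
  have m1 := hn.meas
  have m2 := measurable_At hm.1.continuous.measurable
  have m3 : Measurable fun p => g p := (Lp.stronglyMeasurable g).measurable
  have m4 : Measurable fun q : E 2 × ℝ × E 2 => DT m q.1 α q.2 :=
    (m2.comp measurable_snd).sub (measurable_const.mul
      (((measurable_one.indicator measurableSet_Ioi).comp measurable_snd.fst).mul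
        (by unfold kt; fun_prop)))
  have ms : AEStronglyMeasurable (Function.uncurry fun (x : E 2) (p : ℝ × E 2) =>
      φ x * (cs 2 p.1 * DT m x α p * g p)) (volume.prod (mu 2)) :=
    ((m1.comp measurable_fst).mul (((measurable_cs.comp measurable_snd.fst).mul m4).mul
      (m3.comp measurable_snd))).aestronglyMeasurable
  refine (integrable_prod_iff ms).2 ⟨Eventually.of_forall fun x =>
    (HV2.int_g (ok_DT hm x α) g).const_mul (φ x), (hn.int.abs.mul_const (C + ‖g‖ ^ 2)).mono'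
    ms.norm.integral_prod_right' (Eventually.of_forall fun x => ?_)⟩
  rw [Real.norm_of_nonneg (integral_nonneg fun _ => norm_nonneg _)]
  simp only [Function.uncurry_apply_pair, norm_mul (φ x), integral_const_mul]
  by_cases h0 : φ x = 0
  · simp [h0]
  · exact mul_le_mul_of_nonneg_left ((HV2.abs_g (ok_DT hm x α) g).trans
      (by linarith [(hC x (hn.sup x h0)).2])) (abs_nonneg _)

theorem pt_eq (h1 : ∫ x, m x = 1) (hφ : Test φ) (α : ℝ) (p : ℝ × E 2) :
    ∫ x, φ x * DT m x α p =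
      -((1 * At φ p + (-∫ x, φ x) * At m p) - cut (Iic α) (At φ) p) := by
  obtain ⟨s, u⟩ := p
  by_cases hp : s ≤ α
  · simp only [DT, cut_not (show s ∉ Ioi α from not_lt.2 hp), cut_mem (mem_Iic.2 hp), mul_zero,
      sub_zero, integral_mul_const]
    ring
  · simp only [DT, cut_mem (mem_Ioi.2 (not_le.1 hp)), cut_not (mt mem_Iic.1 hp), h1, one_mul,
      mul_sub, kt, mul_left_comm (φ _) (cT 2)]
    rw [integral_sub (hφ.int.mul_const _) ((int_mul_tk hφ.int _ _).const_mul _),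
      integral_mul_const, integral_const_mul]
    simp only [At]
    ring

theorem weak (hρ : Test ρ) (h1 : ∫ x, ρ x = 1) (hφ : Test φ) (α : ℝ) (g : HH 2) :
    ⟪gT ρ φ - fT α φ, g⟫_ℝ = ∫ x, φ x * ⟪cr ρ α x, g⟫_ℝ := by
  have hm := test_mol hρ 0 0
  have i1 : ∫ x, mol ρ 0 0 x = 1 := (int_mol ρ 0 0).trans h1
  have o1 := ok_At (HV1.test0 hρ hφ) (HV1.int0 hρ h1 hφ)
  have o2 := ok_fT hφ α
  rw [gT, fT, ← vec_sub o1 o2, HV2.inner_g (o1.sub o2), At_comb hφ.int hm.int]
  simp only [cr, inner_neg_left, HV2.inner_g (ok_DT hm _ α), mul_neg, integral_neg,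
    ← integral_const_mul]
  have sw := integral_integral_swap (fubT hm hφ α g)
  rw [sw]
  refine Eq.trans (integral_congr_ae (Eventually.of_forall fun p => ?_)) (integral_neg _)
  have e : ∀ x, φ x * (cs 2 p.1 * DT (mol ρ 0 0) x α p * g p) =
      φ x * DT (mol ρ 0 0) x α p * (cs 2 p.1 * g p) := fun x => by ring
  simp only [e, integral_mul_const, pt_eq i1 hφ α p]
  ring

theorem gram (hρ : Test ρ) (h1 : ∫ x, ρ x = 1) (hφ : Test φ) (hψ : Test ψ) :
    ⟪gT ρ φ, gT ρ ψ⟫_ℝ = ⟪gv0 ρ φ, gv0 ρ ψ⟫_ℝ :=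
  innerT le_rfl (HV1.test0 hρ hφ) (HV1.test0 hρ hψ) (HV1.int0 hρ h1 hφ) (HV1.int0 hρ h1 hψ)
    (ok_At (HV1.test0 hρ hφ) (HV1.int0 hρ h1 hφ)) (ok_At (HV1.test0 hρ hψ) (HV1.int0 hρ h1 hψ))

theorem comb (hρ : Test ρ) (h1 : ∫ x, ρ x = 1) (hφ : Test φ) (hψ : Test ψ) (a b : ℝ) :
    gT ρ (a • φ + b • ψ) = a • gT ρ φ + b • gT ρ ψ := by
  have o1 := ok_At (HV1.test0 hρ hφ) (HV1.int0 hρ h1 hφ)
  have o2 := ok_At (HV1.test0 hρ hψ) (HV1.int0 hρ h1 hψ)
  rw [gT, gT, gT, ← vec_smul o1, ← vec_smul o2, ← vec_add (o1.smul a) (o2.smul b),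
    ← At_comb (HV1.test0 hρ hφ).int (HV1.test0 hρ hψ).int, int_comb hφ.int hψ.int]
  congr 2
  funext x
  simp only [Pi.add_apply, Pi.smul_apply, smul_eq_mul]
  ring

end Pool.Agent.GL.Ins
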