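import Pool.Agent.Lib.MP_438f30_pr.C.St2
import Pool.Agent.Lib.MP_438f30_pr.C.InstV

/-! Orthogonality, density and invariance of the vectors of the tent representation. -/

namespace Pool.Agent.GL.Ins

open MeasureTheory Real Set Filter Topology Pool.Agent.Lib.MP_a0a493_pr Pool.Agent.GL.BF
open scoped InnerProductSpace

variable {f φ ψ ρ m : E 2 → ℝ} {z : E 2} {B R α s : ℝ}

/-- the constant of the bands -/
noncomputable def C0 : ℕ := ⌈4 * cT 2⌉₊ + 2

theorem C0_ge : 4 * cT 2 + 2 ≤ C0 := by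
  rw [C0]
  push_cast
  linarith [Nat.le_ceil (4 * cT 2)]

theorem Jb_lt {b b' : ℤ} (h : b < b') (h1 : s ≤ b * log 2) : s ∉ Jb b' := fun h2 => by
  have a : (b : ℝ) ≤ ((b' - 1 : ℤ) : ℝ) := by exact_mod_cast Int.le_sub_one_of_lt h
  have := mul_le_mul_of_nonneg_right a (log_nonneg one_le_two)
  linarith [h2.1]

theorem exp_le {b : ℤ} (h : s ≤ b * log 2) : exp s ≤ 2 ^ b := exp_int b ▸ exp_le_exp.2 h

theorem inner_aT (b : ℤ) (x y : E 2) : ⟪aT b x, aT b y⟫_ℝ = ∫ s, (vb 2 s)⁻¹ *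
    ((Jb b).indicator 1 s * cT 2) ^ 2 * (exp s ^ 2 * (k0 2 * Kt (exp (-s) • (y - x)))) := by
  rw [aT, aT, inner_vec' (ok_aT b x).1 (ok_aT b y).1]
  congr 1
  funext s
  rw [mul_assoc, ← integral_tk_mul, ← integral_const_mul (_ ^ 2)]
  congr 2
  funext u
  simp only [cut, kt]
  ring

theorem bz : GC.BZ aT C0 := by
  have hc := cT_pos 2
  have hC := C0_ge
  refine ⟨by rw [C0]; omega, fun b b' h x y => inner_vec_zero fun ⟨s, u⟩ => ?_,
    fun b x y h => inner_vec_zero fun ⟨s, u⟩ => ?_, fun b x => ?_, fun b x y => ?_,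
    fun b x y x' y' h => ?_⟩
  · by_cases h1 : s ∈ Jb b
    · rcases lt_or_gt_of_ne h with a | a
      · rw [cut_not (Jb_lt a h1.2), mul_zero]
      · rw [cut_not (I := Jb b') fun h2 => Jb_lt a h2.2 h1, mul_zero]
    · rw [cut_not h1, zero_mul]
  · by_cases h1 : s ∈ Jb b
    · rw [cut_mem h1, cut_mem h1]
      by_contra c
      have a1 := kt_sup (left_ne_zero_of_mul c)
      have a2 := kt_sup (right_ne_zero_of_mul c)
      have a3 := exp_le h1.2
      have a4 : (0 : ℝ) < 2 ^ b := by positivity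
      rw [← dist_eq_norm] at h
      nlinarith [dist_triangle_right x y u]
    · rw [cut_not h1, zero_mul]
  · exact (pow_le_pow_left₀ (norm_nonneg _) (le_refl _) 2 |>.trans (ok_aT b x).2 |>
      abs_le_of_sq_le_sq' (hb := by positivity)).2.trans (by linarith)
  · rw [aT, aT, ← vec_sub (ok_aT b x).1 (ok_aT b y).1, ← cut_sub]
    have a4 : (0 : ℝ) < 2 ^ b := by positivity
    refine (abs_le_of_sq_le_sq' (ok_band ((meas_kt x).sub (meas_kt y)) b (x := x) (y := y)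
      (M := cT 2 * (2 / 2 ^ b * ‖x - y‖)) (fun s hs u => (kt_lip s x y u).trans ?_)
      fun _ _ h => kt_sub_sup h).2 (by positivity)).2.trans ?_
    · have a := exp_le_exp.2 (neg_le_neg hs.1.le)
      rw [exp_neg (_ * _), exp_int, zpow_sub_one₀ two_ne_zero, mul_inv, inv_inv, mul_comm,
        ← div_eq_mul_inv] at a
      gcongr
    · calc _ = 4 * cT 2 * ‖x - y‖ / 2 ^ b := by ring
        _ ≤ _ := by gcongr; linarith
  · rw [inner_aT, inner_aT]
    congr 1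
    funext s
    rw [Kt_radial (w' := exp (-s) • (y' - x'))]
    rw [norm_smul, norm_smul, norm_sub_rev, h, norm_sub_rev]

theorem o1 {k b : ℤ} (h : k < b) (φ : E 2 → ℝ) (x : E 2) : ⟪fT (k * log 2) φ, aT b x⟫_ℝ = 0 :=
  inner_vec_zero fun ⟨s, u⟩ => by
    by_cases h1 : s ≤ k * log 2
    · rw [cut_not (Jb_lt h h1), mul_zero]
    · rw [cut_not (mt mem_Iic.1 h1), zero_mul]

theorem At_ne {u : E 2} (h : At φ (s, u) ≠ 0) : ∃ y ∈ tsupport φ, dist y u < exp s := by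
  by_contra k
  refine h ?_
  rw [At, integral_eq_zero_of_ae (Eventually.of_forall fun y => ?_), mul_zero]
  by_cases a : φ y = 0
  · simp [a]
  · simp [tk_zero (not_lt.1 fun b => k ⟨y, subset_tsupport _ a, b⟩)]

theorem o2 {j : ℤ} (β : ℝ) (h : ∀ x ∈ tsupport φ, ∀ y ∈ tsupport ψ, C0 * 2 ^ j ≤ dist x y) :
    ⟪fT (j * log 2) φ, fT β ψ⟫_ℝ = 0 :=
  inner_vec_zero fun ⟨s, u⟩ => by
    by_cases h1 : s ≤ j * log 2
    · by_cases h2 : s ≤ β
      · rw [cut_mem (mem_Iic.2 h1), cut_mem (mem_Iic.2 h2)]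
        by_contra c
        obtain ⟨x, x1, x2⟩ := At_ne (left_ne_zero_of_mul c)
        obtain ⟨y, y1, y2⟩ := At_ne (right_ne_zero_of_mul c)
        have a3 := exp_le h1
        have a4 : (0 : ℝ) < 2 ^ j := by positivity
        nlinarith [dist_triangle_right x y u, h x x1 y y1, C0_ge, cT_pos 2]
      · rw [cut_not (I := Iic β) (mt mem_Iic.1 h2), mul_zero]
    · rw [cut_not (mt mem_Iic.1 h1), zero_mul]

theorem fT_lim (hφ : Test φ) :
    Tendsto (fun N : ℕ => fT ((-N : ℤ) * log 2) φ) atTop (𝓝 0) := by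
  obtain ⟨B, R, hn⟩ := hφ.nice
  have a : Tendsto (fun N : ℕ => exp ((-N : ℤ) * log 2)) atTop (𝓝 0) := by
    simp only [exp_int, zpow_neg, zpow_natCast]
    exact tendsto_inv_atTop_zero.comp (tendsto_pow_atTop_atTop_of_one_lt one_lt_two)
  have c : Continuous fun t : ℝ => √((cT 2 * B * V1 2) ^ 2 * (2 * (R + t) ^ 2) * t ^ 2) := by
    fun_prop
  have := (c.tendsto 0).comp a
  simp only [ne_eq, OfNat.ofNat_ne_zero, not_false_eq_true, zero_pow, mul_zero, sqrt_zero] at this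
  exact squeeze_zero_norm (fun N => le_sqrt_of_sq_le (ok_fT' hn _).2) this

theorem den (hρ : Test ρ) (h1 : ∫ x, ρ x = 1) (hφ : Test φ) :
    fT ((0 : ℤ) * log 2) φ ∈ closure (⋃ N, GC.Sb aT N) := by
  let S : ℕ → Submodule ℝ (HH 2) := fun N =>
    Submodule.span ℝ {h | ∃ n < N, ∃ x, h = aT (-(n : ℕ)) x}
  have hS : Monotone S := fun N N' h => Submodule.span_mono fun _ ⟨n, a, b⟩ => ⟨n, a.trans_le h, b⟩
  rw [show (⋃ N, GC.Sb aT N) = ↑(⨆ N, S N) from
    (Submodule.coe_iSup_of_directed S hS.directed_le).symm, ← Submodule.topologicalClosure_coe,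
    ← Submodule.orthogonal_orthogonal_eq_closure, SetLike.mem_coe, Submodule.mem_orthogonal]
  intro g hg
  have a : ∀ (n : ℕ) x, ⟪aT (-(n : ℕ)) x, g⟫_ℝ = 0 := fun n x =>
    (Submodule.mem_orthogonal _ _).1 hg _ (Submodule.mem_iSup_of_mem (n + 1)
      (Submodule.subset_span ⟨n, n.lt_succ_self, x, rfl⟩))
  have b : ∀ N : ℕ, ⟪fT ((-N : ℤ) * log 2) φ, g⟫_ℝ = ⟪fT ((0 : ℤ) * log 2) φ, g⟫_ℝ := fun N => by
    induction N with
    | zero => simp
    | succ N ih =>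
      have e1 := weak hρ h1 hφ ((-(N + 1 : ℕ) : ℤ) * log 2) g
      have e2 := weak hρ h1 hφ ((-N : ℤ) * log 2) g
      have e3 : ∀ x, ⟪cr ρ ((-(N + 1 : ℕ) : ℤ) * log 2) x, g⟫_ℝ =
          ⟪cr ρ ((-N : ℤ) * log 2) x, g⟫_ℝ := fun x => by
        have := cr_sub hρ h1 (-(N + 1 : ℕ)) x
        rw [show (-(N + 1 : ℕ) + 1 : ℤ) = -N by push_cast; ring] at this
        rw [← sub_eq_zero, ← inner_sub_left, this, a]
      simp only [e3] at e1
      rw [← e2, inner_sub_left, inner_sub_left] at e1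
      linarith
  have c := (fT_lim hφ).inner (𝕜 := ℝ) (tendsto_const_nhds (x := g))
  simp only [b, inner_zero_left] at c
  rw [real_inner_comm]
  exact tendsto_nhds_unique tendsto_const_nhds c

theorem At_sc {r : ℝ} (hr : 0 < r) (z u : E 2) (s : ℝ) (φ : E 2 → ℝ) :
    At (fun x => r⁻¹ ^ 2 * φ (r⁻¹ • (x - z))) (s, u) = At φ (s - log r, r⁻¹ • (u - z)) := by
  unfold At
  rw [← HV3.int_sc' hr z fun y => φ y * tk (s - log r) y (r⁻¹ • (u - z))]
  congr 2
  funext y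
  rw [mul_assoc, tk, tk, ← smul_sub, sub_sub_sub_cancel_right, smul_smul, neg_sub, exp_sub,
    exp_log hr, exp_neg]
  congr 4
  field_simp

theorem scale {r : ℝ} (hr : 0 < r) (z : E 2) (h : Test φ) (h' : Test ψ) :
    ⟪fT (log r) fun x => r⁻¹ ^ 2 * φ (r⁻¹ • (x - z)),
      fT (log r) fun x => r⁻¹ ^ 2 * ψ (r⁻¹ • (x - z))⟫_ℝ = ⟪fT 0 φ, fT 0 ψ⟫_ℝ := by
  unfold fT
  rw [inner_vec' (ok_fT (HV3.test_sc hr z h) _) (ok_fT (HV3.test_sc hr z h') _),
    inner_vec' (ok_fT h _) (ok_fT h' _)]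
  refine Eq.trans (integral_congr_ae (Eventually.of_forall fun s => ?_))
    (integral_sub_right_eq_self _ (log r))
  have e : (vb 2 s)⁻¹ * r ^ 2 = (vb 2 (s - log r))⁻¹ := by
    have := V1_pos 2
    unfold vb
    rw [exp_sub, exp_log hr]
    field_simp
  have e' : (Iic (log r)).indicator (1 : ℝ → ℝ) s = (Iic 0).indicator 1 (s - log r) := by
    simp only [indicator, mem_Iic, sub_nonpos, Pi.one_apply]
  simp only [cut, At_sc hr, e']
  rw [HV3.int_sc hr z fun u => (Iic 0).indicator (1 : ℝ → ℝ) (s - log r) * At φ (s - log r, u) *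
    ((Iic 0).indicator (1 : ℝ → ℝ) (s - log r) * At ψ (s - log r, u)), ← mul_assoc, e]

theorem test_rot (L : E 2 ≃ₗᵢ[ℝ] E 2) (h : Test φ) : Test fun x => φ (L x) := by
  simpa using h.iso L 0

theorem At_rot (L : E 2 ≃ₗᵢ[ℝ] E 2) (φ : E 2 → ℝ) (s : ℝ) (u : E 2) :
    At (fun x => φ (L x)) (s, u) = At φ (s, L u) := by
  unfold At
  rw [← int_iso L 0 fun y => φ y * tk s y (L u)]
  congr 2
  funext y
  rw [sub_zero, tk, tk, ← map_sub, ← map_smul, tent_radial (L.norm_map _)]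

theorem rot (L : E 2 ≃ₗᵢ[ℝ] E 2) (α : ℝ) (h : Test φ) (h' : Test ψ) :
    ⟪fT α fun x => φ (L x), fT α fun x => ψ (L x)⟫_ℝ = ⟪fT α φ, fT α ψ⟫_ℝ := by
  unfold fT
  rw [inner_vec' (ok_fT (test_rot L h) _) (ok_fT (test_rot L h') _),
    inner_vec' (ok_fT h _) (ok_fT h' _)]
  congr 1
  funext s
  congr 1
  rw [← int_iso L 0 fun u => cut (Iic α) (At φ) (s, u) * cut (Iic α) (At ψ) (s, u)]
  simp only [cut, At_rot, sub_zero]

end Pool.Agent.GL.Ins
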