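import Pool.Agent.Lib.MP_438f30_pr.C.St
import Pool.Agent.Lib.MP_438f30_pr.G8a

/-! Elementary facts on the internal metrics of length metrics. -/

namespace Pool.Agent.GC

open Real Filter Topology Metric Pool.Agent.Lib.MP_a0a493_pr Pool.Agent.GL

namespace MA1L

variable {d d' : Mt} {U U' : Set R2} {u v w : R2} {x y l : ℝ} {p : ℝ → R2}

/-- the reversed path -/
theorem rev (hp : Lip d p l) : Lip d (fun t => p (l - t)) l :=
  ⟨hp.1, fun s hs t ht => by
    have := hp.2 (l - s) ⟨by linarith [hs.2], by linarith [hs.1]⟩ (l - t)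
      ⟨by linarith [ht.2], by linarith [ht.1]⟩
    rwa [sub_sub_sub_cancel_left, abs_sub_comm] at this⟩

/-- a piece of a path -/
theorem sub (hp : Lip d p l) {s t : ℝ} (h0 : 0 ≤ s) (h1 : s ≤ t) (h2 : t ≤ l)
    (hU : ∀ r ∈ Set.Icc s t, p r ∈ U) (hx : t - s < x) : Tc d U (p s) (p t) x :=
  (mg1.up (M := 1) hp s t h0 h1 h2 fun r hr => ⟨le_rfl, hU r hr⟩).trans_lt
    ((ENNReal.ofReal_lt_ofReal_iff ((sub_nonneg.2 h1).trans_lt hx)).2 (by linarith))

theorem whole (hp : Lip d p l) (hU : ∀ r ∈ Set.Icc 0 l, p r ∈ U) (hx : l < x) :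
    Tc d U (p 0) (p l) x :=
  sub hp le_rfl hp.1 le_rfl hU (by rwa [sub_zero])

theorem le (_ : IsMet d) (h : Tc d U u v x) : d u v < x := by
  obtain ⟨p, l, hp, rfl, rfl, -, hl⟩ := mg1.path h
  have := hp.2 0 ⟨le_rfl, hp.1⟩ l ⟨hp.1, le_rfl⟩
  rw [abs_of_nonpos (by linarith [hp.1])] at this
  linarith

theorem univ (hd : IsMet d) (h : d u v < x) : Tc d Set.univ u v x := by
  rw [Tc, ← hd.len]
  exact (ENNReal.ofReal_lt_ofReal_iff ((mg1.nonneg hd u v).trans_lt h)).2 h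

theorem mono (h : Tc d U u v x) (hU : U ⊆ U') (hx : x ≤ y) : Tc d U' u v y := by
  obtain ⟨p, l, hp, rfl, rfl, a, hl⟩ := mg1.path h
  exact whole hp (fun r hr => hU (a r hr)) (hl.trans_le hx)

theorem symm (h : Tc d U u v x) : Tc d U v u x := by
  obtain ⟨p, l, hp, rfl, rfl, a, hl⟩ := mg1.path h
  have := whole (U := U) (rev hp)
    (fun r hr => a _ ⟨by linarith [hr.2], by linarith [hr.1]⟩) hl
  rwa [sub_zero, sub_self] at this

theorem trans (hd : IsMet d) (h : Tc d U u v x) (h' : Tc d U v w y) : Tc d U u w (x + y) :=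
  HMG3.tri mg1 hd h h'

theorem mem (h : Tc d U u v x) : u ∈ U ∧ v ∈ U ∧ 0 < x := by
  obtain ⟨p, l, hp, rfl, rfl, a, hl⟩ := mg1.path h
  exact ⟨a 0 ⟨le_rfl, hp.1⟩, a l ⟨hp.1, le_rfl⟩, hp.1.trans_lt hl⟩

theorem near (hd : IsMet d) (hU : IsOpen U) (hu : u ∈ U) (hx : 0 < x) :
    ∀ᶠ b in 𝓝 u, Tc d U u b x := by
  obtain ⟨r, r0, hr⟩ := Metric.isOpen_iff.1 hU u hu
  obtain ⟨s, s0, hs⟩ := hd.top u r r0
  have o : IsOpen {b | d u b < min x s} :=
    isOpen_lt (hd.cont.comp (continuous_const.prodMk continuous_id)) continuous_const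
  filter_upwards [o.mem_nhds (show d u u < min x s by simp [hd.self, s0, hx])] with b b1
  obtain ⟨p, l, hp, rfl, rfl, hl⟩ := HMG3.ex_path mg1 hd b1
  rw [lt_min_iff] at hl
  refine whole hp (fun t ht => hr ?_) hl.1
  have := hp.2 0 ⟨le_rfl, hp.1⟩ t ht
  rw [abs_of_nonpos (by linarith [ht.1])] at this
  rw [mem_ball, dist_comm]
  exact hs _ (by linarith [ht.2])

/-- the weighted cost between two times of a path, in either order -/
theorem up {g : R2 → ℝ} {M s t : ℝ} (hp : Lip d p l) (hg : ∀ r ∈ Set.Icc 0 l, g (p r) ≤ M)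
    (hs : s ∈ Set.Icc 0 l) (ht : t ∈ Set.Icc 0 l) :
    wey d g Set.univ (p s) (p t) ≤ ENNReal.ofReal (M * |s - t|) := by
  rcases le_total s t with h | h
  · rw [abs_sub_comm, abs_of_nonneg (sub_nonneg.2 h)]
    exact mg1.up hp s t hs.1 h ht.2 fun r hr =>
      ⟨hg r ⟨hs.1.trans hr.1, hr.2.trans ht.2⟩, trivial⟩
  · have := mg1.up (g := g) (M := M) (U := Set.univ) (rev hp) (l - s) (l - t)
      (by linarith [hs.2]) (by linarith) (by linarith [ht.1]) fun r hr =>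
        ⟨hg _ ⟨by linarith [hr.2, ht.1], by linarith [hr.1, hs.2]⟩, trivial⟩
    rwa [sub_sub_cancel, sub_sub_cancel, sub_sub_sub_cancel_left,
      ← abs_of_nonneg (sub_nonneg.2 h)] at this

theorem cmp {g : R2 → ℝ}
    (h : ∀ u v, ENNReal.ofReal (d' u v) = wey d (fun x => exp (g x)) Set.univ u v) :
    Cmp d d' g := by
  intro U u v x c hc hT
  obtain ⟨p, l, hp, rfl, rfl, a, hl⟩ := mg1.path hT
  have e := exp_pos c
  have k : ∀ t ∈ Set.Icc 0 (exp c * l), t / exp c ∈ Set.Icc 0 l := fun t ht =>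
    ⟨div_nonneg ht.1 e.le, (div_le_iff₀' e).2 ht.2⟩
  have hq : Lip d' (fun t => p (t / exp c)) (exp c * l) :=
    ⟨mul_nonneg e.le hp.1, fun s hs t ht => by
      have := up (g := fun x => exp (g x)) hp (fun r hr => exp_le_exp.2 (hc _ (a r hr)))
        (k s hs) (k t ht)
      rwa [← h, ← sub_div, abs_div, abs_of_pos e, mul_div_cancel₀ _ e.ne',
        ENNReal.ofReal_le_ofReal_iff (abs_nonneg _)] at this⟩
  have := whole (U := U) hq (fun r hr => a _ (k r hr)) (mul_lt_mul_of_pos_left hl e)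
  rwa [zero_div, mul_div_cancel_left₀ _ e.ne'] at this

theorem cont (v : R2) (i : Fin 2) : Continuous fun x : R2 => |x i - v i| := by fun_prop

theorem opn (v : R2) (r : ℝ) : IsOpen (Bx v r) ∧ IsOpen (Ot v r) := by
  constructor
  · rw [Bx, Set.ofPred_forall]
    exact isOpen_iInter_of_finite fun i => isOpen_lt (cont v i) continuous_const
  · rw [Ot, Set.ofPred_exists]
    exact isOpen_iUnion fun i => isOpen_lt continuous_const (cont v i)

theorem cell (j : ℤ) (u : R2) :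
    gp j (fz j u) ∈ Bx u (2 ^ j) ∧ u ∈ Bx (gp j (fz j u)) (2 ^ j) := by
  have k : ∀ i, |gp j (fz j u) i - u i| < 2 ^ j := fun i => by
    have e : (0 : ℝ) < 2 ^ j := by positivity
    have a := (le_div_iff₀ e).1 (Int.floor_le (u i / 2 ^ j))
    have b := (div_lt_iff₀ e).1 (Int.lt_floor_add_one (u i / 2 ^ j))
    have c : gp j (fz j u) i = 2 ^ j * (⌊u i / 2 ^ j⌋ : ℝ) := rfl
    rw [c, abs_lt]
    constructor <;> linarith
  exact ⟨k, fun i => (abs_sub_comm _ _).trans_lt (k i)⟩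

/-- the supremum distance -/
noncomputable def sd (v x : R2) : ℝ := max |x 0 - v 0| |x 1 - v 1|

theorem sd_cont (v : R2) : Continuous (sd v) := (cont v 0).max (cont v 1)

theorem mem_Bx {r : ℝ} : u ∈ Bx v r ↔ sd v u < r := Fin.forall_fin_two.trans max_lt_iff.symm

theorem mem_Ot {r : ℝ} : u ∈ Ot v r ↔ r < sd v u := Fin.exists_fin_two.trans lt_max_iff.symm

theorem trunc {u' : R2} {R R' : ℝ} (hd : IsMet d) (h : d u u' < x) (hu : u ∈ Bx v R')
    (hR : R < R') : Tc d (Bx v R') u u' x ∨ ∃ t ∈ Ot v R, Tc d (Bx v R') u t x := by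
  obtain ⟨p, l, hp, rfl, rfl, hl⟩ := HMG3.ex_path mg1 hd h
  by_cases a : ∀ r ∈ Set.Icc 0 l, p r ∈ Bx v R'
  · exact Or.inl (whole hp a hl)
  push Not at a
  obtain ⟨r, hr, a⟩ := a
  rw [mem_Bx] at a hu
  obtain ⟨ρ, r1, r2⟩ := exists_between (max_lt hR hu)
  rw [max_lt_iff] at r1
  obtain ⟨t, t1, t2, t3⟩ := (G8a.hit (f := fun t => sd v (p t)) hr.1 ((sd_cont v).comp_continuousOn
    ((mg1.cont hd hp).mono (Set.Icc_subset_Icc_right hr.2))) r1.2.le
      (r2.le.trans (not_lt.1 a))).1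
  exact Or.inr ⟨p t, mem_Ot.2 (r1.1.trans_eq t2.symm), sub hp le_rfl t1.1 (t1.2.trans hr.2)
    (fun s hs => mem_Bx.2 ((t3 s hs).trans_lt r2)) (by linarith [t1.2, hr.2])⟩

end MA1L

end Pool.Agent.GC
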