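import Pool.Agent.Lib.MP_438f30_pr.C.Pos

/-! Existence of a median. -/

namespace Pool.Agent.GC

open MeasureTheory Real Filter Topology Pool.Agent.Lib.MP_a0a493_pr Pool.Agent.GL

namespace MdL

variable {Ω : Type} [MeasurableSpace Ω] {P : Measure Ω} [IsProbabilityMeasure P]

theorem ex_half {V : ℕ → Set Ω} (hm : Monotone V) (hu : ∀ᵐ ω ∂P, ∃ p, ω ∈ V p) :
    ∃ p, 1 / 2 ≤ P.real (V p) := by
  have e : ⋃ p, V p =ᵐ[P] Set.univ := ae_eq_univ.2 (hu.mono fun ω => Set.mem_iUnion.2)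
  have t := tendsto_measure_iUnion_atTop (μ := P) hm
  rw [measure_congr e, measure_univ] at t
  have t2 := (ENNReal.tendsto_toReal ENNReal.one_ne_top).comp t
  rw [ENNReal.toReal_one] at t2
  exact (t2.eventually (eventually_ge_nhds (by norm_num : (1 / 2 : ℝ) < 1))).exists

theorem med {U : ℝ → Set Ω} (hm : Monotone U) (hU : ∀ x, P.real (U x)ᶜ = 1 - P.real (U x))
    (h0 : ∀ᵐ ω ∂P, ∃ x, 0 < x ∧ ω ∉ U x) (h1 : ∀ ω, ∃ x, ω ∈ U x) :
    ∃ m, 0 < m ∧ 1 / 2 ≤ P.real (U m) ∧ 1 / 2 ≤ P.real (U (m / 2))ᶜ := by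
  classical
  obtain ⟨p₀, hp⟩ := ex_half (P := P) (V := fun p => (U ((1 / 2) ^ p))ᶜ)
    (fun p q h => Set.compl_subset_compl.2 (hm (pow_le_pow_of_le_one (by norm_num) (by norm_num) h)))
    (h0.mono fun ω ⟨x, x0, hx⟩ => by
      obtain ⟨p, hp⟩ := exists_pow_lt_of_lt_one x0 (by norm_num : (1 / 2 : ℝ) < 1)
      exact ⟨p, fun k => hx (hm hp.le k)⟩)
  obtain ⟨ε, he⟩ : ∃ ε : ℝ, ε = (1 / 2) ^ p₀ := ⟨_, rfl⟩
  have e0 : 0 < ε := by rw [he]; positivity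
  rw [← he] at hp
  have ex := ex_half (P := P) (V := fun p => U (ε * 2 ^ (p + 1)))
    (fun p q h => hm (mul_le_mul_of_nonneg_left
      (pow_le_pow_right₀ one_le_two (Nat.succ_le_succ h)) e0.le))
    (Eventually.of_forall fun ω => by
      obtain ⟨x, hx⟩ := h1 ω
      obtain ⟨p, hp⟩ := pow_unbounded_of_one_lt (x / ε) (one_lt_two (α := ℝ))
      refine ⟨p, hm ?_ hx⟩
      rw [div_lt_iff₀ e0] at hp
      have : (0 : ℝ) < ε * 2 ^ p := by positivity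
      rw [pow_succ]
      linarith)
  refine ⟨ε * 2 ^ (Nat.find ex + 1), by positivity, Nat.find_spec ex, ?_⟩
  rw [pow_succ, ← mul_assoc, mul_div_cancel_right₀ _ two_ne_zero]
  rcases e : Nat.find ex with _ | q
  · rwa [pow_zero, mul_one]
  · have := not_le.1 (Nat.find_min ex (m := q) (by omega))
    rw [hU]
    linarith

end MdL

theorem md : sMd := by
  intro Ω H _ _ _ P _ M η h
  have o : (5 : ℝ) • ax 0 ∈ Ot 0 (4 * 2 ^ (0 : ℤ)) :=
    ⟨0, by norm_num [ax, pt_apply]⟩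
  refine MdL.med (U := fun x => {ω | LLc (M.d 0 ω) 0 0 x})
    (fun x y hxy ω ⟨u, a, u', b, c⟩ => ⟨u, a, u', b, c.trans_le hxy⟩)
    (fun x => h.lc.cpl 0 _ _ (h.la.ll 0 0 x)) ((h.met 0).mono fun ω hω => ?_) fun ω =>
      ⟨_, 0, fun i => by simp, _, o, lt_add_one _⟩
  obtain ⟨s, s0, hs⟩ := pos h.ma _ 0 ((5 : ℝ) • ax 0) 1 4 hω zero_le_one
    (by norm_num) fun k => by
      have := k 0
      norm_num [ax, pt_apply] at this
  exact ⟨s, s0, fun ⟨u, a, u', b, c⟩ => hs ⟨u, u', Or.inr (by simpa using a),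
    Or.inr (by simpa using b), c⟩⟩

end Pool.Agent.GC
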