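import Pool.Agent.Lib.MP_438f30_pr.C.St2

/-! A long segment is cheap. -/

namespace Pool.Agent.GC

open MeasureTheory Real Finset Filter Topology Pool.Agent.Lib.MP_a0a493_pr Pool.Agent.GL

namespace R2L

theorem sm {C s t : ℝ} (n : ℕ) (hC : C ≤ 2 ^ n) (h : n + s ≤ t) : C * exp s ≤ exp t := by
  have a : (2 : ℝ) ^ n ≤ exp 1 ^ n :=
    pow_le_pow_left₀ (by norm_num) (by linarith [add_one_le_exp (1 : ℝ)]) n
  rw [← exp_nat_mul, mul_one] at a
  refine le_trans ?_ (exp_le_exp.2 h)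
  rw [exp_add]
  exact mul_le_mul_of_nonneg_right (hC.trans a) (exp_pos _).le

theorem sm' : exp (-15 : ℝ) ≤ 1 / 16 := by
  rw [exp_neg, ← one_div]
  exact one_div_le_one_div_of_le (by norm_num) (by linarith [add_one_le_exp (15 : ℝ)])

theorem ax_le (x : ℝ) (e i : Fin 2) : |(x • ax e) i| ≤ |x| := by
  by_cases k : i = e <;> simp [ax, pt_apply, k]

theorem ax_self (x : ℝ) (e : Fin 2) : (x • ax e) e = x := by simp [ax, pt_apply]

theorem p4 (n : ℕ) : (4 : ℝ) ^ n = 2 ^ (2 * n) := by rw [pow_mul]; norm_num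

/-- the exit is expensive -/
theorem k1 (c : ℕ) {m : ℝ} (hm : 0 < m) : 2 * m * exp (1 + c) ≤
    2 ^ (8 + 3 * c) / (11 * 2 ^ (0 : ℤ)) * (m * exp (-1 - c - c / 20)) := by
  have e1 : exp 1 * exp 1 ≤ (7.4 : ℝ) := by nlinarith [exp_one_lt_d9, exp_pos (1 : ℝ)]
  have e2 : exp (1 / 20 : ℝ) ≤ 20 / 19 := by
    have := add_one_le_exp (-(1 / 20) : ℝ)
    rw [exp_neg, ← one_div (exp _), le_div_iff₀ (exp_pos _)] at this
    linarith
  have e3 : exp (41 / 20 : ℝ) ≤ 2 ^ 3 := by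
    rw [show (41 / 20 : ℝ) = 1 + 1 + 1 / 20 by norm_num, exp_add, exp_add]
    nlinarith [exp_pos (1 / 20 : ℝ)]
  have e4 := pow_le_pow_left₀ (exp_pos _).le e3 c
  rw [← exp_nat_mul, ← pow_mul] at e4
  have e5 : exp (1 + c : ℝ) = exp 1 * exp 1 * exp (c * (41 / 20)) * exp (-1 - c - c / 20) := by
    simp only [← exp_add]
    congr 1
    ring
  have e6 := mul_le_mul e1 e4 (exp_pos _).le (by norm_num)
  have e7 := mul_le_mul_of_nonneg_right e6 (mul_pos hm (exp_pos (-1 - c - c / 20 : ℝ))).le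
  have e8 := mul_pos (pow_pos (two_pos (α := ℝ)) (3 * c))
    (mul_pos hm (exp_pos (-1 - c - c / 20 : ℝ)))
  rw [e5, zpow_zero, pow_add]
  nlinarith

/-- the last piece is cheap -/
theorem k2 (lm : ℕ) {m y : ℝ} (hm : 0 < m) (hy : y ≤ (5 / 9) ^ (30 + 5 * lm) * m) :
    100 * (900 * exp (2 * lm) * y * (10 / 9) ^ (30 + 5 * lm)) *
      ((9 * 2 ^ (30 + 5 * lm) : ℕ) + 2) ≤ 0.6 * 2 ^ (30 + 5 * lm) * m := by
  have e1 : exp 2 * ((5 / 9) * (10 / 9)) ^ 5 ≤ (1 : ℝ) := by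
    rw [show (2 : ℝ) = 1 + 1 by norm_num, exp_add]
    nlinarith [exp_one_lt_d9, exp_pos (1 : ℝ)]
  have e2 := pow_le_one₀ (n := lm) (by positivity) e1
  rw [mul_pow, ← exp_nat_mul, ← pow_mul, mul_comm (lm : ℝ)] at e2
  have e3 : exp (2 * lm) * y * (10 / 9) ^ (30 + 5 * lm) ≤ 6 / 10 ^ 7 * m := by
    calc _ ≤ exp (2 * lm) * ((5 / 9) ^ (30 + 5 * lm) * m) * (10 / 9) ^ (30 + 5 * lm) := by gcongr
      _ = exp (2 * lm) * ((5 / 9) * (10 / 9)) ^ (5 * lm) * (((5 / 9) * (10 / 9)) ^ 30 * m) := by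
        simp only [mul_pow, pow_add]
        ring
      _ ≤ 1 * (6 / 10 ^ 7 * m) := by
        gcongr
        norm_num
      _ = _ := one_mul _
  have e4 : (1 : ℝ) ≤ 2 ^ (30 + 5 * lm) := one_le_pow₀ one_le_two
  push_cast
  generalize (2 : ℝ) ^ (30 + 5 * lm) = S at e4 ⊢
  have e5 := mul_le_mul e3 (show 9 * S + 2 ≤ 11 * S by linarith) (by linarith) (by positivity)
  nlinarith [mul_pos hm (show 0 < S by linarith)]

theorem line {d : Mt} (hd : IsMet d) (u : ℕ → R2) {x : ℝ} (n : ℕ)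
    (h : ∀ i < n, d (u i) (u (i + 1)) ≤ x) : d (u 0) (u n) ≤ n * x := by
  induction n with
  | zero => simp [hd.self]
  | succ n ih =>
    have := hd.tri (u 0) (u n) (u (n + 1))
    have := ih fun i hi => h i (by omega)
    have := h n (by omega)
    push_cast
    linarith

/-- the deterministic part -/
theorem det (ma : MA) (cx : CX) {d : Mt} (hd : IsMet d) {μ : ℤ → ℝ} (g : GRc μ) {m α : ℝ}
    (hm : μ 0 = m) (a2 : 2 ≤ α) (a9 : α ≤ 9) (lm c s n : ℕ) (hs : s = 30 + 5 * lm)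
    (hn : n = ⌊2 ^ s / α⌋₊) (e : Fin 2)
    (h1 : ∀ q, gp 0 q ∈ Bx 0 (2 ^ (s + 8 + 3 * c) * 2 ^ (0 : ℤ)) →
      ¬ LLc d 0 (gp 0 q) (m * exp (-1 - c - c / 20)))
    (h2 : ∀ i ∈ range n, Lc d ((i * α) • ax e) 0 (2 ^ (8 + 3 * c)) ((i * α) • ax e + α • ax e)
      (2 * m * exp (1 + c)))
    (h3 : NIc lm d μ 0 s (Bx ((n * α) • ax e) (2 ^ 4 * 2 ^ (0 : ℤ)))) :
    Tc d (Bx 0 (2 ^ (s + 9 + 3 * c))) 0 ((2 : ℝ) ^ s • ax e)
      (5 / 4 * 2 ^ s * m * exp (1 + c)) := by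
  have m0 : 0 < m := hm ▸ (g 0 0).1
  have a0 : 0 < α := by linarith
  have S2 : (2 : ℝ) ≤ 2 ^ s := le_self_pow₀ one_le_two (by omega)
  have R2' : (2 : ℝ) ^ 8 ≤ 2 ^ (8 + 3 * c) := pow_le_pow_right₀ one_le_two (by omega)
  have n1 : n * α ≤ 2 ^ s := (le_div_iff₀ a0).1 (hn ▸ Nat.floor_le (by positivity))
  have n2 : 2 ^ s < (n + 1) * α := (div_lt_iff₀ a0).1 (hn ▸ Nat.lt_floor_add_one _)
  have n0 : (0 : ℝ) ≤ n := n.cast_nonneg
  have el : (2 : ℝ) ^ (s + 8 + 3 * c) = 2 ^ s * 2 ^ (8 + 3 * c) := by rw [add_assoc, pow_add]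
  have kk := k1 c m0
  have m2 : 0 ≤ m * exp (-1 - c - c / 20) := by positivity
  rw [zpow_zero, mul_one] at h1
  have st : ∀ i < n, d ((i * α) • ax e) ((((i + 1 : ℕ) : ℝ) * α) • ax e) ≤
      2 * m * exp (1 + c) := fun i hi => by
    obtain ⟨u, u', b1, b2, b3⟩ := h2 i (mem_range.2 hi)
    obtain rfl := b1.resolve_right fun k => (abs_nonneg _).not_gt (k 0)
    rcases b2 with rfl | ⟨j, b2⟩
    · rw [Nat.cast_succ, add_mul, one_mul, add_smul]
      exact b3.le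
    refine absurd (kk.trans (ma.cr hd m2 (by rw [zpow_zero]; linarith)
      (fun k => (k j).not_gt b2) fun q hq => h1 q fun t => ?_)) b3.not_ge
    have c1 := ax_le (i * α) e t
    have c2 := hq t
    have c3 : (i : ℝ) * α ≤ n * α :=
      mul_le_mul_of_nonneg_right (Nat.cast_le.2 hi.le) a0.le
    have c4 := abs_add_le (gp 0 q t - ((i * α) • ax e) t) (((i * α) • ax e) t)
    rw [abs_of_nonneg (show (0 : ℝ) ≤ i * α by positivity)] at c1
    rw [sub_add_cancel] at c4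
    rw [el, PiLp.zero_apply, sub_zero]
    nlinarith
  have t1 := line hd (fun i => (i * α) • ax e) n st
  have e0 : (2 : ℝ) ^ ((0 : ℤ) - s) = 1 / 2 ^ s := by simp
  have t2 := cx.conn0 (a := 9 * 2 ^ s) (u := (n * α) • ax e) (u' := (2 : ℝ) ^ s • ax e) hd h3 g
    (fun t => by
      rw [← PiLp.sub_apply, ← sub_smul, e0]
      refine (ax_le _ e t).trans_lt ?_
      rw [abs_of_nonneg (by linarith)]
      push_cast
      field_simp
      linarith)
    fun y hy t => (hy t).trans_le (by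
      rw [e0, zpow_zero, one_div, inv_mul_le_iff₀ (by positivity)]
      push_cast
      linarith)
  have t3 := k2 lm m0 (hm ▸ (g 0 (30 + 5 * lm)).2)
  rw [← hs] at t3
  have t4 := hd.tri 0 ((n * α) • ax e) ((2 : ℝ) ^ s • ax e)
  simp only [Nat.cast_zero, zero_mul, zero_smul] at t1
  have x1 : 2.7 ≤ exp (1 + c : ℝ) :=
    le_trans (by linarith [exp_one_gt_d9]) (exp_le_exp.2 (le_add_of_nonneg_right c.cast_nonneg))
  have x2 : n * 2 ≤ (2 : ℝ) ^ s := (mul_le_mul_of_nonneg_left a2 n0).trans n1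
  have x3 := mul_le_mul_of_nonneg_right x2 (mul_pos m0 (exp_pos (1 + c : ℝ))).le
  have x4 := mul_pos (show (0 : ℝ) < 2 ^ s by positivity) m0
  have x5 := mul_le_mul_of_nonneg_left x1 x4.le
  have x6 := mul_le_mul_of_nonneg_left kk (show (0 : ℝ) ≤ 2 ^ s by positivity)
  have t := ma.conf (j := 0) (l := 2 ^ (s + 8 + 3 * c)) (u := 0) (u' := (2 : ℝ) ^ s • ax e)
    (y := 5 / 4 * 2 ^ s * m * exp (1 + c)) hd m2 (by rw [zpow_zero, el]; nlinarith) h1
    (by linarith) (by rw [el, mul_div_assoc, mul_assoc ((2 : ℝ) ^ s)]; nlinarith)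
  rwa [← pow_succ', show s + 8 + 3 * c + 1 = s + 9 + 3 * c by omega] at t

end R2L

open R2L in
theorem r2 : sR2 := by
  intro Ω H _ _ _ P _ M η h m lm g hN hC hL ⟨α, a2, a9, hR⟩ e
  have hη := h.eta
  have hm : mu M m 0 = m := by simp [mu]
  have m0 : 0 < m := hm ▸ (g 0 0).1
  obtain ⟨c, hc⟩ : ∃ c, c = lm / 14 := ⟨_, rfl⟩
  obtain ⟨s, hs⟩ : ∃ s, s = 30 + 5 * lm := ⟨_, rfl⟩
  obtain ⟨n, hn⟩ : ∃ n, n = ⌊2 ^ s / α⌋₊ := ⟨_, rfl⟩
  rw [← hc] at hL ⊢
  rw [← hs]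
  have c0 : (0 : ℝ) ≤ c := c.cast_nonneg
  have l1 : (lm : ℝ) ≤ 14 * c + 13 := by exact_mod_cast (by omega : lm ≤ 14 * c + 13)
  have s1 : (s : ℝ) = 30 + 5 * lm := by exact_mod_cast hs
  have ec := mul_le_mul_of_nonneg_right hη c0
  have el := mul_le_mul_of_nonneg_left l1 (show 0 ≤ η by linarith)
  have n1 : (n : ℝ) ≤ 2 ^ s :=
    (hn ▸ Nat.floor_le (by positivity)).trans (div_le_self (by positivity) (by linarith))
  have g1 := (h.pa.grid P 0 (s + 8 + 3 * c) 0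
    (fun q ω => LLc (M.d 0 ω) 0 (gp 0 q) (m * exp (-1 - c - c / 20))) fun q => by
      have := h.iv.ll 0 (gp 0 q) (m * exp (-1 - c - c / 20))
      rw [Int.cast_zero, mul_zero, exp_zero, one_mul] at this
      exact this.trans_le (hL c)).trans (sm (t := -15) (5 + 2 * (s + 8 + 3 * c))
    (by rw [p4, pow_add _ 5]; gcongr; norm_num) (by push_cast; nlinarith))
  have g2 := (GU.prob_fin P (range n) (fun i ω => ¬ Lc (M.d 0 ω) ((i * α) • ax e) 0
      (2 ^ (8 + 3 * c)) ((i * α) • ax e + α • ax e) (2 * m * exp (1 + c)))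
      (ε := 10 ^ 4 * 4 ^ (8 + 3 * c) *
        exp (η * lm + 1.6 * η - 80 * η * (1 + c) + (10 + lm) * η)) fun i _ => by
      have a := hC ((i * α) • ax e) ((i * α) • ax e + α • ax e) 0 (2 ^ (8 + 3 * c)) (2 * m) (1 + c)
        (8 + 3 * c) le_rfl (by rw [zero_add]; exact one_le_pow₀ one_le_two) le_rfl
        (fun k => by
          have := k e
          rw [PiLp.add_apply, add_sub_cancel_left, ax_self, abs_of_pos (by linarith)] at this
          linarith) (by linarith)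
      have b := (hR ((i * α) • ax e) e).trans (GU.pmono (t := {ω | Lc (M.d 0 ω) ((i * α) • ax e) 0
        (2 ^ (8 + 3 * c)) ((i * α) • ax e + α • ax e) (2 * m)})
        fun ω hω => ⟨_, _, Or.inl rfl, Or.inl rfl, hω⟩)
      have a' := (mul_le_mul_of_nonneg_left b measureReal_nonneg).trans a
      rwa [exp_neg, ← div_eq_mul_inv, div_le_iff₀ (exp_pos _), mul_assoc _ (exp _) (exp _),
        ← exp_add] at a').trans
    ((mul_assoc ..).ge.trans (sm (t := -15) (s + (14 + 2 * (8 + 3 * c)))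
      (by rw [card_range, p4, pow_add _ s, pow_add _ 14]; gcongr; norm_num)
      (by push_cast; nlinarith)))
  have g3 := (h.pa.ni P (M.d 0) lm s 4 (mu M m) 0 η ((n * α) • ax e) _ (by linarith) (hN 0)
    subset_rfl).trans (sm (t := -15) 14 (by norm_num) (by
      have := mul_nonneg (show 0 ≤ η - 2 by linarith) (s.cast_nonneg (α := ℝ))
      push_cast
      linarith))
  have g4 : P.real {ω | ¬ IsMet (M.d 0 ω)} = 0 := by
    rw [measureReal_def, ae_iff.1 (h.met 0), ENNReal.toReal_zero]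
  refine le_trans (GU.pmono fun ω hω => ?_) (((measureReal_union_le _ _).trans (add_le_add
    ((measureReal_union_le _ _).trans (add_le_add g1 g2))
    ((measureReal_union_le _ _).trans (add_le_add g3 g4.le)))).trans (by linarith [sm']))
  by_contra k
  simp only [Set.mem_union, Set.mem_ofPred_eq, not_or, not_not, not_exists, not_and] at k
  exact hω (det h.ma h.cx k.2.2 g hm a2 a9 lm c s n hs hn e k.1.1 k.1.2 k.2.1)

end Pool.Agent.GC
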