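import Pool.Agent.Lib.MP_438f30_pr.C.St2
import Pool.Agent.Lib.MP_438f30_pr.U.Rs

/-! A grid edge is cheap with probability one half. -/

namespace Pool.Agent.GC

open MeasureTheory Real Finset Filter Topology Pool.Agent.Lib.MP_a0a493_pr Pool.Agent.GL
open Pool.Agent.GU (pmono)
open Pool.Agent.GU.Rs (sm)

namespace R3L

variable {Ω H : Type} [MeasurableSpace Ω] [NormedAddCommGroup H] [InnerProductSpace ℝ H]
  {P : Measure Ω} [IsProbabilityMeasure P] {M : Dat Ω H} {η m : ℝ} {c s : ℕ}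

theorem e9 : exp (-9) ≤ (1 / 10 : ℝ) := by
  rw [exp_neg, ← one_div]
  exact one_div_le_one_div_of_le (by norm_num) (by linarith [add_one_le_exp (9 : ℝ)])

theorem p4 (a e : ℕ) {C : ℝ} (h : C ≤ 2 ^ a) : C * 4 ^ e ≤ 2 ^ (a + 2 * e) := by
  rw [pow_add, pow_mul]
  norm_num
  exact h

omit [IsProbabilityMeasure P] in
/-- the bands between the two scales are small -/
theorem osc (h : Sd P M η) (hs : s ≤ 100 + 100 * c) (e : ℕ) (he : e ≤ 200 + 200 * c) :
    P.real {ω | ∃ y ∈ Bx 0 (2 ^ e), (1 + c : ℝ) < |M.Y s ω y - M.Y 0 ω y|} ≤ 1 / 10 := by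
  have hη := h.eta
  have c0 : (0 : ℝ) ≤ c := c.cast_nonneg
  have s1 : (s : ℝ) ≤ 100 + 100 * c := by exact_mod_cast hs
  have e1 : (e : ℝ) ≤ 200 + 200 * c := by exact_mod_cast he
  have g := (h.sp 0 s e 0 (1 + c) (by linarith) (by linarith)).trans
    ((sm (t := -9) _ (p4 9 e (by norm_num)) (by
      push_cast
      nlinarith [mul_le_mul_of_nonneg_right hη c0])).trans e9)
  simpa only [zero_add, zpow_zero, mul_one] using g

theorem nul (h : Sd P M η) : P.real {ω | ¬ ((∀ k, IsMet (M.d k ω)) ∧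
    ∀ j k, Cmp (M.d j ω) (M.d k ω) fun x => M.Y k ω x - M.Y j ω x)} = 0 := by
  rw [measureReal_eq_zero_iff]
  exact ae_iff.1 h.ba.all

/-- growth of the typical cost -/
theorem gro (h : Sd P M η) (hM : Mdc P M m) (hs : s ≤ 100 + 100 * c) (hL : TLc P M η m c) :
    3 * 2 ^ s / 11 * (m * exp (-1 - c - c / 20)) ≤ exp (1 + c) * (exp (M.q * (s : ℤ)) * m) := by
  have hη := h.eta
  have c0 : (0 : ℝ) ≤ c := c.cast_nonneg
  have m0 := hM.1
  rcases s.eq_zero_or_pos with rfl | s0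
  · have a : exp (-1 - c - c / 20) ≤ exp (1 + (c : ℝ)) := exp_le_exp.2 (by linarith)
    have b := mul_le_mul_of_nonneg_left a m0.le
    have d := mul_pos m0 (exp_pos (-1 - c - c / 20))
    simp only [Nat.cast_zero, Int.cast_zero, mul_zero, exp_zero, pow_zero]
    linarith
  have s1 : (s : ℝ) ≤ 100 + 100 * c := by exact_mod_cast hs
  have N : (2 : ℝ) ≤ 2 ^ s := le_self_pow₀ (by norm_num) s0.ne'
  by_contra n
  have g1 := osc h hs (s + 3) (by omega)
  have g2 := (h.pa.grid P 0 (s + 2) 0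
    (fun q ω => LLc (M.d 0 ω) 0 (gp 0 q) (m * exp (-1 - c - c / 20))) fun q => by
      have := h.iv.ll 0 (gp 0 q) (m * exp (-1 - c - c / 20))
      rw [Int.cast_zero, mul_zero, exp_zero, one_mul] at this
      exact this.trans_le (hL c)).trans
    ((sm (t := -9) _ (p4 5 (s + 2) (by norm_num)) (by
      push_cast
      nlinarith [mul_le_mul_of_nonneg_right hη c0])).trans e9)
  refine absurd ((hM.2.1.trans_eq (h.iv.ll s 0 m).symm).trans ((pmono fun ω hω => ?_).trans
    ((measureReal_union_le _ _).trans (add_le_add ((measureReal_union_le _ _).trans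
      (add_le_add g1 g2)) (nul h).le)))) (by norm_num)
  by_contra n'
  rw [Set.mem_union, Set.mem_union, not_or, not_or] at n'
  obtain ⟨⟨n1, n2⟩, n3⟩ := n'
  have n4 := not_not.1 n3
  simp only [Set.mem_ofPred_eq, not_exists, not_and, not_lt, zpow_zero, mul_one] at n1 n2
  obtain ⟨u, a, u', ⟨i, b⟩, d⟩ := h.ma.llc (c := 1 + c) (n4.1 s) (n4.1 0) (n4.2 s 0)
    (fun y hy => by
      have := abs_le.1 (n1 y fun i => (hy i).trans_le (by
        rw [zpow_natCast, pow_add]
        linarith))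
      linarith [this.1]) hω
  rw [zpow_natCast] at a b
  have := h.ma.cr (j := 0) (l := 3 * 2 ^ s) (u := u) (u' := u') (m := m * exp (-1 - c - c / 20))
    (n4.1 0) (by positivity) (by rw [zpow_zero]; linarith)
    (fun z => by linarith [z i, a i, abs_sub_le (u' i) (u i) ((0 : R2) i)])
    fun q hq => n2 q fun i => by
      rw [pow_add]
      linarith [hq i, a i, abs_sub_le (gp 0 q i) (u i) ((0 : R2) i)]
  rw [zpow_zero, mul_one] at this
  exact n (this.trans d.le)

theorem num (m0 : 0 < m) {N μ : ℝ} (μ0 : 0 < μ)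
    (h : 3 * N / 11 * (m * exp (-1 - c - c / 20)) ≤ exp (1 + c) * (μ * m)) :
    exp (1 + c) * (5 / 4 * N * m * exp (1 + c)) ≤ μ * (300 * m * exp (5 * c)) := by
  have c0 : (0 : ℝ) ≤ c := c.cast_nonneg
  have a := mul_le_mul_of_nonneg_left h (exp_pos (3 + 3 * c + c / 20)).le
  have e1 : exp (3 + 3 * c + c / 20) * exp (-1 - c - c / 20) = exp (1 + (c : ℝ)) * exp (1 + c) := by
    rw [← exp_add, ← exp_add]
    congr 1
    ring
  have e2 : exp (3 + 3 * c + c / 20) * exp (1 + (c : ℝ)) ≤ exp 1 ^ 4 * exp (5 * c) := by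
    rw [← exp_nat_mul, ← exp_add, ← exp_add]
    exact exp_le_exp.2 (by push_cast; linarith)
  have e3 : exp 1 ^ 4 ≤ (2.72 : ℝ) ^ 4 :=
    pow_le_pow_left₀ (exp_pos _).le (by linarith [exp_one_lt_d9]) 4
  have e4 := e2.trans (mul_le_mul_of_nonneg_right e3 (exp_pos _).le)
  have e5 := mul_le_mul_of_nonneg_right e4 (mul_pos μ0 m0).le
  have e6 := mul_pos (exp_pos (5 * (c : ℝ))) (mul_pos μ0 m0)
  have e7 : exp (3 + 3 * c + c / 20) * (3 * N / 11 * (m * exp (-1 - c - c / 20))) =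
      3 * N / 11 * m * (exp (1 + (c : ℝ)) * exp (1 + c)) := by
    rw [← e1]
    ring
  rw [e7] at a
  nlinarith

end R3L

open R3L in
theorem r3 : sR3 := by
  intro Ω H _ _ _ P _ M η h m c s hM hs hL hR e
  have g1 := osc h hs (s + 9 + 3 * c) (by omega)
  have g2 := (measureReal_union_le _ _).trans (add_le_add ((measureReal_union_le _ _).trans
    (add_le_add g1 (hR e))) (nul h).le)
  have g5 := (pmono (s := Set.univ) fun ω _ => ?_).trans ((measureReal_union_le
    {ω | M.d s ω 0 ((2 : ℝ) ^ (s : ℤ) • ax e) < exp (M.q * (s : ℤ)) * (300 * m * exp (5 * c))}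
    _).trans (add_le_add (h.iv.top s e _).le g2))
  · rw [probReal_univ] at g5
    linarith
  refine or_iff_not_imp_right.2 fun n => ?_
  rw [Set.mem_union, Set.mem_union, not_or, not_or] at n
  obtain ⟨⟨n1, n2⟩, n3⟩ := n
  have n4 := not_not.1 n3
  simp only [Set.mem_ofPred_eq, not_exists, not_and, not_lt] at n1
  have t := h.ma.le (n4.1 s) (n4.2 0 s _ _ _ _ (1 + c)
    (fun y hy => (le_abs_self _).trans (n1 y hy)) (not_not.1 n2))
  rw [Set.mem_ofPred_eq, zpow_natCast]
  exact t.trans_le (num hM.1 (exp_pos _) (gro h hM hs hL))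

end Pool.Agent.GC
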