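import Pool.Agent.Lib.MP_438f30_pr.U.St2
import Pool.Agent.Lib.MP_438f30_pr.GSt
import Pool.Agent.Lib.MP_438f30_pr.C.DefsR

/-! The continuum upper bound: definitions and the statements of the tools. -/

namespace Pool.Agent.GC

open MeasureTheory Real Finset Filter Topology Pool.Agent.Lib.MP_a0a493_pr Pool.Agent.GL
open Pool.Agent.GU (Z2 FK Su Cv Cp)
open scoped InnerProductSpace symmDiff

abbrev Mt : Type := R2 → R2 → ℝ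

/-- the open square -/
def Bx (v : R2) (r : ℝ) : Set R2 := {x | ∀ i, |x i - v i| < r}

/-- the complement of the closed square -/
def Ot (v : R2) (r : ℝ) : Set R2 := {x | ∃ i, r < |x i - v i|}

/-- `u` and `v` are joined inside `U` at cost less than `x` -/
def Tc (d : Mt) (U : Set R2) (u v : R2) (x : ℝ) : Prop :=
  wey d (fun _ => 1) U u v < ENNReal.ofReal x

/-- the square of radius `ρ` is joined to `w` or to the outside of the square of radius `R` -/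
def Lc (d : Mt) (v : R2) (ρ R : ℝ) (w : R2) (x : ℝ) : Prop :=
  ∃ u u', (u = v ∨ u ∈ Bx v ρ) ∧ (u' = w ∨ u' ∈ Ot v R) ∧ d u u' < x

/-- the crossing of an annulus of scale `j` -/
def LLc (d : Mt) (j : ℤ) (v : R2) (x : ℝ) : Prop :=
  ∃ u ∈ Bx v (2 ^ j), ∃ u' ∈ Ot v (4 * 2 ^ j), d u u' < x

/-- `d'` is at most `exp g` times `d` -/
def Cmp (d d' : Mt) (g : R2 → ℝ) : Prop :=
  ∀ (U : Set R2) (u v : R2) (x c : ℝ), (∀ y ∈ U, g y ≤ c) → Tc d U u v x → Tc d' U u v (exp c * x)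

/-- the points of the grid of scale `j` -/
noncomputable def gp (j : ℤ) (q : Z2) : R2 := (2 : ℝ) ^ j • pt q

/-- the index of the cell -/
noncomputable def fz (j : ℤ) (u : R2) : Z2 := fun i => ⌊u i / 2 ^ j⌋

/-- the unit vectors -/
noncomputable def ax (e : Fin 2) : R2 := pt (Pi.single e 1)

/-- at `v`, the annulus of scale `k - n` is expensive and the grid edges are cheap -/
def Nc (lm : ℕ) (d : Mt) (μ : ℤ → ℝ) (k : ℤ) (n : ℕ) (v : R2) : Prop :=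
  ¬ LLc d (k - n) v (μ (k - n) / (3 * exp (2 * lm) * (10 / 9) ^ n)) ∧ ∀ e : Fin 2,
    Tc d (Bx v (2 ^ (16 + 4 * lm + n / 2) * 2 ^ (k - n))) v (v + (2 : ℝ) ^ (k - n) • ax e)
      (900 * exp (2 * lm) * μ (k - n) * (10 / 9) ^ n)

/-- the same at all grid points of `D` of all scales at least `i` below `k` -/
def NIc (lm : ℕ) (d : Mt) (μ : ℤ → ℝ) (k : ℤ) (i : ℕ) (D : Set R2) : Prop :=
  ∀ n : ℕ, i ≤ n → ∀ q, gp (k - n) q ∈ D → Nc lm d μ k n (gp (k - n) q)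

/-- growth of the typical costs -/
def GRc (μ : ℤ → ℝ) : Prop := ∀ (j : ℤ) (n : ℕ), 0 < μ j ∧ μ (j - n) ≤ (5 / 9) ^ n * μ j

/-- a good annulus: crossing it is expensive, going round it is cheap -/
def Gd (d : Mt) (z : R2) (r s S : ℝ) : Prop :=
  (∀ u u', dist u z < 22 * r → 34 * r < dist u' z → ¬ Tc d (An z (20 * r) (36 * r)) u u' s) ∧
    ∀ u ∈ An z (24 * r) (32 * r), ∀ u' ∈ An z (24 * r) (32 * r),
      wey d (fun _ => 1) (An z (20 * r) (36 * r)) u u' ≤ ENNReal.ofReal S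

/-- a chain that is a quasi-geodesic -/
def QC (d : Mt) (K : ℝ) (T : ℕ) (y : ℕ → R2) : Prop :=
  ∀ a b, a ≤ b → b ≤ T → ∑ i ∈ Ico a b, d (y i) (y (i + 1)) ≤ K * d (y a) (y b)

/-- the steps of the chain have size about `h` -/
def Stp (h : ℝ) (T : ℕ) (y : ℕ → R2) : Prop :=
  ∀ i < T, y (i + 1) ∉ Bx (y i) ((10 * 2 ^ 16 + 2) * h) ∧ y (i + 1) ∈ Bx (y i) ((11 * 2 ^ 16 - 2) * h)

/-- quasi-geodesic chains of points of `S` in the square of radius `R`, of diameter at most `r`,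
with steps of size `h`, have at most `b` steps -/
def Ev' (S : Set R2) (d : Mt) (K h R r b : ℝ) : Prop :=
  ∀ (T : ℕ) (y : ℕ → R2), (∀ s ≤ T, y s ∈ S) → QC d K T y → Stp h T y → (∀ s ≤ T, y s ∈ Bx 0 R) →
    (∀ s ≤ T, ∀ s' ≤ T, y s' ∈ Bx (y s) r) → (T : ℝ) ≤ b

/-- the same at all small scales -/
def EvA (S : Set R2) (K β : ℝ) (d : Mt) : Prop :=
  ∀ L : ℕ, ∃ j : ℕ, ∀ᶠ n : ℕ in atTop, Ev' S d K (1 / 2 ^ n) L (1 / 2 ^ j) (2 ^ (β * n))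

/-- length metrics -/
structure MA : Prop where
  le : ∀ {d : Mt} {U : Set R2} {u v : R2} {x : ℝ}, IsMet d → Tc d U u v x → d u v < x
  univ : ∀ {d : Mt} {u v : R2} {x : ℝ}, IsMet d → d u v < x → Tc d Set.univ u v x
  mono : ∀ {d : Mt} {U U' : Set R2} {u v : R2} {x y : ℝ}, Tc d U u v x → U ⊆ U' → x ≤ y →
    Tc d U' u v y
  symm : ∀ {d : Mt} {U : Set R2} {u v : R2} {x : ℝ}, Tc d U u v x → Tc d U v u x
  trans : ∀ {d : Mt} {U : Set R2} {u v w : R2} {x y : ℝ}, IsMet d → Tc d U u v x → Tc d U v w y →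
    Tc d U u w (x + y)
  mem : ∀ {d : Mt} {U : Set R2} {u v : R2} {x : ℝ}, Tc d U u v x → u ∈ U ∧ v ∈ U ∧ 0 < x
  near : ∀ {d : Mt} {U : Set R2} {u : R2} {x : ℝ}, IsMet d → IsOpen U → u ∈ U → 0 < x →
    ∀ᶠ b in 𝓝 u, Tc d U u b x
  cmp : ∀ {d d' : Mt} {g : R2 → ℝ},
    (∀ u v, ENNReal.ofReal (d' u v) = wey d (fun x => exp (g x)) Set.univ u v) → Cmp d d' g
  opn : ∀ (v : R2) (r : ℝ), IsOpen (Bx v r) ∧ IsOpen (Ot v r)
  cell : ∀ (j : ℤ) (u : R2), gp j (fz j u) ∈ Bx u (2 ^ j) ∧ u ∈ Bx (gp j (fz j u)) (2 ^ j)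
  trunc : ∀ {d : Mt} {u u' v : R2} {x R R' : ℝ}, IsMet d → d u u' < x → u ∈ Bx v R' → R < R' →
    Tc d (Bx v R') u u' x ∨ ∃ t ∈ Ot v R, Tc d (Bx v R') u t x
  cr : ∀ {d : Mt} {u u' : R2} {j : ℤ} {l m : ℝ}, IsMet d → 0 ≤ m → 5 * 2 ^ j ≤ l → u' ∉ Bx u l →
    (∀ q, gp j q ∈ Bx u l → ¬ LLc d j (gp j q) m) → l / (11 * 2 ^ j) * m ≤ d u u'
  conf : ∀ {d : Mt} {u u' : R2} {j : ℤ} {l m y : ℝ}, IsMet d → 0 ≤ m → 5 * 2 ^ j ≤ l →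
    (∀ q, gp j q ∈ Bx u l → ¬ LLc d j (gp j q) m) → d u u' < y → y ≤ l / (11 * 2 ^ j) * m →
    Tc d (Bx u (2 * l)) u u' y
  llc : ∀ {d d' : Mt} {g : R2 → ℝ} {j : ℤ} {v : R2} {x c : ℝ}, IsMet d → IsMet d' → Cmp d d' g →
    (∀ y ∈ Bx v (5 * 2 ^ j), g y ≤ c) → LLc d j v x → LLc d' j v (exp c * x)
  gd : ∀ {d d' : Mt} {g : R2 → ℝ} {z u u' : R2} {r s S c : ℝ}, IsMet d → Cmp d d' g → 0 < r →
    (∀ y ∈ An z (20 * r) (36 * r), g y ≤ c) → Gd d' z r s S → dist u z ≤ 20 * r →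
    36 * r ≤ dist u' z → exp (-c) * s ≤ d u u'

/-- cheap connections and expensive crossings -/
structure CX : Prop where
  cross : ∀ {lm n : ℕ} {d : Mt} {μ : ℤ → ℝ} {k : ℤ} {D : Set R2} {u u' : R2} {l : ℝ}, IsMet d →
    NIc lm d μ k n D → 0 < μ (k - n) → 5 ≤ l → u' ∉ Bx u (2 ^ (k - n) * l) →
    Bx u (2 ^ (k - n) * l) ⊆ D → l * μ (k - n) / (33 * exp (2 * lm) * (10 / 9) ^ n) ≤ d u u'
  dm : ∀ {lm n : ℕ} {d : Mt} {μ : ℤ → ℝ} {k : ℤ} {D : Set R2} {u : R2}, IsMet d →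
    NIc lm d μ k n D → GRc μ → Bx u (2 ^ (k - n)) ⊆ D →
    Tc d (Bx u (2 ^ (17 + 4 * lm) * 2 ^ k)) u (gp (k - n) (fz (k - n) u))
      (44 * (900 * exp (2 * lm) * μ (k - n) * (10 / 9) ^ n))
  conn : ∀ {lm n : ℕ} {d d' : Mt} {g : R2 → ℝ} {μ : ℤ → ℝ} {k : ℤ} {D : Set R2} {u u' : R2}
    {z : Z2} {ρ a R : ℤ} {G : Z2 → ℝ} {x : ℝ}, IsMet d → IsMet d' → Cmp d' d g →
    NIc lm d' μ k n D → GRc μ → Bx u (2 ^ (k - n)) ⊆ D → Bx u' (2 ^ (k - n)) ⊆ D → -1 ≤ ρ →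
    ρ + 1 ≤ R → Near a (fz (k - n) u) (fz (k - n) u') → ¬ Near ρ z (fz (k - n) u) →
    ¬ Near ρ z (fz (k - n) u') → Near R z (fz (k - n) u) → Near R z (fz (k - n) u') →
    (∀ q, ¬ Near ρ z q → Near R z q → gp (k - n) q ∈ D) →
    (∀ q y, Near R z q → y ∈ Bx (gp (k - n) q) (2 ^ (18 + 4 * lm) * 2 ^ k) → g y ≤ G q) →
    (∀ (q : Z2) (e : Fin 2) (m : ℕ), (m : ℤ) ≤ a + 2 * ρ + 3 →
      (∀ i < m, Near R z (q + Pi.single e (i : ℤ)) ∧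
        Near (a + 2 * ρ + 2) (fz (k - n) u) (q + Pi.single e (i : ℤ))) →
      ∑ i ∈ range m, exp (G (q + Pi.single e (i : ℤ))) ≤ x) →
    d u u' ≤ 100 * (900 * exp (2 * lm) * μ (k - n) * (10 / 9) ^ n) * x
  conn0 : ∀ {lm n a : ℕ} {d : Mt} {μ : ℤ → ℝ} {k : ℤ} {D : Set R2} {u u' : R2}, IsMet d →
    NIc lm d μ k n D → GRc μ → u' ∈ Bx u (2 ^ (k - n) * a) → Bx u (2 ^ (k - n) * (a + 2)) ⊆ D →
    d u u' ≤ 100 * (900 * exp (2 * lm) * μ (k - n) * (10 / 9) ^ n) * (a + 2)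

/-- the events that are determined by the internal metrics of open subsets of `U` -/
@[reducible] noncomputable def ML (U : Set R2) : MeasurableSpace {d : Mt // IsMet d} :=
  ⨆ (V : Set R2) (_ : IsOpen V ∧ V ⊆ U) (u : R2) (v : R2),
    MeasurableSpace.comap (fun d => wey d.1 (fun _ => 1) V u v) inferInstance

def LB (U : Set R2) (p : Mt → Prop) : Prop := MeasurableSet[ML U] {d | p d.1}

theorem LB.not {U : Set R2} {p : Mt → Prop} (h : LB U p) : LB U fun d => ¬ p d :=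
  MeasurableSet.compl h

theorem LB.and {U : Set R2} {p q : Mt → Prop} (h : LB U p) (h' : LB U q) :
    LB U fun d => p d ∧ q d := MeasurableSet.inter h h'

theorem LB.all {U : Set R2} {ι : Sort*} [Countable ι] {p : ι → Mt → Prop} (h : ∀ i, LB U (p i)) :
    LB U fun d => ∀ i, p i d := by
  have := MeasurableSet.iInter (m := ML U) h
  rwa [← Set.ofPred_forall] at this

theorem LB.ex {U : Set R2} {ι : Sort*} [Countable ι] {p : ι → Mt → Prop} (h : ∀ i, LB U (p i)) :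
    LB U fun d => ∃ i, p i d := by
  have := MeasurableSet.iUnion (m := ML U) h
  rwa [← Set.ofPred_exists] at this

theorem LB.congr {U : Set R2} {p q : Mt → Prop} (h : LB U p) (e : ∀ d, IsMet d → (p d ↔ q d)) :
    LB U q := by
  have : {d : {d : Mt // IsMet d} | q d.1} = {d | p d.1} := Set.ext fun d => (e d.1 d.2).symm
  rw [LB, this]
  exact h

theorem LB.mono {U U' : Set R2} {p : Mt → Prop} (h : LB U p) (hU : U ⊆ U') : LB U' p :=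
  (show ML U ≤ ML U' from iSup₂_le fun V hV =>
    le_iSup₂_of_le (f := fun (V : Set R2) (_ : IsOpen V ∧ V ⊆ U') => _) V
      ⟨hV.1, hV.2.trans hU⟩ le_rfl) _ h

theorem LB.wey {U V : Set R2} (hV : IsOpen V) (hU : V ⊆ U) (u v : R2) {B : Set ENNReal}
    (hB : MeasurableSet B) : LB U fun d => wey d (fun _ => 1) V u v ∈ B :=
  (show MeasurableSpace.comap (fun d : {d : Mt // IsMet d} => GL.wey d.1 (fun _ => 1) V u v)
      inferInstance ≤ ML U from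
    le_iSup₂_of_le (f := fun (V : Set R2) (_ : IsOpen V ∧ V ⊆ U) => _) V ⟨hV, hU⟩
      (le_iSup₂_of_le (f := fun (u : R2) (v : R2) => _) u v le_rfl)) _ ⟨B, hB, rfl⟩

theorem LB.tc {U V : Set R2} (hV : IsOpen V) (hU : V ⊆ U) (u v : R2) (x : ℝ) :
    LB U fun d => Tc d V u v x := LB.wey hV hU u v measurableSet_Iio

/-- local events -/
structure LA : Prop where
  dist : ∀ (u v : R2) (x : ℝ), LB Set.univ fun d => d u v < x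
  ll : ∀ (j : ℤ) (v : R2) (x : ℝ), LB (Bx v (5 * 2 ^ j)) fun d => LLc d j v x
  lc : ∀ (v w : R2) (ρ R x : ℝ), LB Set.univ fun d => Lc d v ρ R w x
  ni : ∀ (lm i : ℕ) (μ : ℤ → ℝ) (k : ℤ) (D U : Set R2),
    (∀ y ∈ D, Bx y (2 ^ (16 + 4 * lm) * 2 ^ k) ⊆ U) → LB U fun d => NIc lm d μ k i D
  gd : ∀ (z : R2) (r s S : ℝ), LB (An z (20 * r) (36 * r)) fun d => Gd d z r s S
  bor : ∀ (p : Mt → Prop), LB Set.univ p →
    ∃ B : Set Mt, MeasurableSet B ∧ ∀ d, IsMet d → (p d ↔ d ∈ B)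

/-- union bounds -/
structure PA : Prop where
  grid : ∀ {Ω : Type} [MeasurableSpace Ω] (P : Measure Ω) [IsProbabilityMeasure P] (j : ℤ) (e : ℕ)
    (v : R2) (E : Z2 → Ω → Prop) {ε : ℝ}, (∀ q, P.real {ω | E q ω} ≤ ε) →
    P.real {ω | ∃ q, gp j q ∈ Bx v (2 ^ e * 2 ^ j) ∧ E q ω} ≤ 25 * 4 ^ e * ε
  ni : ∀ {Ω : Type} [MeasurableSpace Ω] (P : Measure Ω) [IsProbabilityMeasure P] (d : Ω → Mt)
    (lm i e : ℕ) (μ : ℤ → ℝ) (k : ℤ) (η : ℝ) (v : R2) (D : Set R2), 2 ≤ η →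
    (∀ (n : ℕ) (v : R2), P.real {ω | ¬ Nc lm (d ω) μ k n v} ≤ exp (-(η * (1 + n)))) →
    D ⊆ Bx v (2 ^ e * 2 ^ k) →
    P.real {ω | ¬ NIc lm (d ω) μ k i D} ≤ 60 * 4 ^ e * exp (-η - (η - 2) * i)

section
variable {H : Type} [NormedAddCommGroup H] [InnerProductSpace ℝ H]

/-- bands of finite range at all scales -/
structure BZ (a : ℤ → R2 → H) (C0 : ℕ) : Prop where
  one : 1 ≤ C0
  orth : ∀ b b', b ≠ b' → ∀ x y, ⟪a b x, a b' y⟫_ℝ = 0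
  far : ∀ (b : ℤ) x y, C0 * 2 ^ b ≤ ‖x - y‖ → ⟪a b x, a b y⟫_ℝ = 0
  nrm : ∀ b x, ‖a b x‖ ≤ C0
  lip : ∀ (b : ℤ) x y, ‖a b x - a b y‖ ≤ C0 * ‖x - y‖ / 2 ^ b
  rot : ∀ b x y x' y', ‖x - y‖ = ‖x' - y'‖ → ⟪a b x, a b y⟫_ℝ = ⟪a b x', a b y'⟫_ℝ

/-- the span of the bands `0, -1, …, 1 - N` -/
def Sb (a : ℤ → R2 → H) (N : ℕ) : Set H :=
  ↑(Submodule.span ℝ {h | ∃ n < N, ∃ x, h = a (-(n : ℕ)) x})

end

/-- the weighted cost of a chain -/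
noncomputable def cw (m : ℕ) (w y : ℕ → ℝ) : ℝ := ∑ l ∈ range m, w l * exp (y l)

/-- concentration of the least weighted cost -/
def sMPw : Prop :=
  ∀ (Ω : Type) [MeasurableSpace Ω] (P : Measure Ω) [IsProbabilityMeasure P] (H : Type)
    [NormedAddCommGroup H] [InnerProductSpace ℝ H] (W : H →ₗ[ℝ] (Ω → ℝ)), Iso P W →
    ∀ (Γ : Finset ℕ) (m : ℕ → ℕ) (g : ℕ → ℕ → H) (w : ℕ → ℕ → ℝ) (σ B η M x t : ℝ),
      (∀ γ ∈ Γ, (∀ l < m γ, 0 ≤ w γ l) ∧ 0 < ∑ l ∈ range (m γ), w γ l) →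
      0 ≤ σ → 0 ≤ B → 0 ≤ M → 0 < x → 2 * M ^ 2 * σ + 1 ≤ η →
      (∀ i : ℕ, P.real {ω | ∃ γ ∈ Γ,
        (∀ γ' ∈ Γ, cw (m γ) (w γ) (fun l => W (g γ l) ω) ≤
          cw (m γ') (w γ') fun l => W (g γ' l) ω) ∧
        σ * (i + 1) < ‖∑ l ∈ range (m γ), (w γ l * exp (W (g γ l) ω) /
          cw (m γ) (w γ) fun l => W (g γ l) ω) • g γ l‖ ^ 2} ≤ B * exp (-(η * i))) →
      P.real {ω | ∀ γ ∈ Γ, x * exp t < cw (m γ) (w γ) fun l => W (g γ l) ω} *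
        P.real {ω | ∃ γ ∈ Γ, cw (m γ) (w γ) (fun l => W (g γ l) ω) ≤ x} ≤
          (1 + 2 * B) * exp (4 * M ^ 2 * σ - M * t)

/-- the same with random weights that are independent of the field -/
def sMPF : Prop :=
  ∀ (Ω : Type) [MeasurableSpace Ω] (P : Measure Ω) [IsProbabilityMeasure P] (H : Type)
    [NormedAddCommGroup H] [InnerProductSpace ℝ H] (W : H →ₗ[ℝ] (Ω → ℝ)), Iso P W →
    ∀ (K K' : Set H) (Γ : Finset ℕ) (m : ℕ → ℕ) (g : ℕ → ℕ → H) (w : Ω → ℕ → ℕ → ℝ) (A C : Set Ω)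
      (σ B η M x t : ℝ), (∀ h ∈ K, ∀ h' ∈ K', ⟪h, h'⟫_ℝ = 0) → (∀ γ l, g γ l ∈ K') →
      (∀ γ l, Measurable[FK W K] fun ω => w ω γ l) →
      MeasurableSet[FK W K'] A → MeasurableSet[FK W K'] C →
      (∀ᵐ ω ∂P, ∀ γ ∈ Γ, (∀ l < m γ, 0 ≤ w ω γ l) ∧ 0 < ∑ l ∈ range (m γ), w ω γ l) →
      0 ≤ σ → 0 ≤ B → 0 ≤ M → 0 < x → 2 * M ^ 2 * σ + 1 ≤ η →
      (∀ i : ℕ, P.real {ω | ∃ γ ∈ Γ,
        (∀ γ' ∈ Γ, cw (m γ) (w ω γ) (fun l => W (g γ l) ω) ≤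
          cw (m γ') (w ω γ') fun l => W (g γ' l) ω) ∧
        σ * (i + 1) < ‖∑ l ∈ range (m γ), (w ω γ l * exp (W (g γ l) ω) /
          cw (m γ) (w ω γ) fun l => W (g γ l) ω) • g γ l‖ ^ 2} ≤ B * exp (-((η + 1) * i))) →
      P.real C * P.real A ≤ (1 + 4 * B) * exp (4 * M ^ 2 * σ - M * t) +
        P.real (C ∩ {ω | ∃ γ ∈ Γ, cw (m γ) (w ω γ) (fun l => W (g γ l) ω) ≤ x * exp t}) +
        P.real (A ∩ {ω | ∀ γ ∈ Γ, x < cw (m γ) (w ω γ) fun l => W (g γ l) ω})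

/-- chaining for a continuous version -/
def sOscC : Prop :=
  ∀ (Ω : Type) [MeasurableSpace Ω] (P : Measure Ω) [IsProbabilityMeasure P] (H : Type)
    [NormedAddCommGroup H] [InnerProductSpace ℝ H] (W : H →ₗ[ℝ] (Ω → ℝ)), Iso P W →
    ∀ (g : R2 → H) (F : Ω → R2 → ℝ) (L r s : ℝ) (z : R2), 0 ≤ L → 0 < r → 0 ≤ s →
      (∀ x y, ‖g x - g y‖ ≤ L * ‖x - y‖) → (∀ ω, Continuous (F ω)) →
      (∀ x, (fun ω => F ω x) =ᵐ[P] W (g x)) →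
      P.real {ω | ∃ y ∈ Bx z r, 40 * (L * r) * (1 + s) < |F ω y - F ω z|} ≤ exp (-s ^ 2)

/-- approximation by events that depend on finitely many bands -/
def sTail : Prop :=
  ∀ (Ω : Type) [MeasurableSpace Ω] (P : Measure Ω) [IsProbabilityMeasure P] (H : Type)
    [NormedAddCommGroup H] [InnerProductSpace ℝ H] (W : H →ₗ[ℝ] (Ω → ℝ)), Iso P W →
    ∀ (K : Set H) (K' : ℕ → Set H), Monotone K' → K ⊆ closure (⋃ N, K' N) →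
      ∀ B : Set Ω, MeasurableSet[FK W K] B → ∀ ε : ℝ, 0 < ε → ∀ᶠ N : ℕ in atTop,
        ∃ A : Set Ω, MeasurableSet[FK W (K' N)] A ∧ P.real (B ∆ A) ≤ ε

/-- admissible chains -/
def Adm (S : Set R2) (v : R2) (ρ R : ℝ) (w : R2) (δ : ℝ) (m : ℕ) (u : ℕ → R2) : Prop :=
  0 < m ∧ (∀ l, u l ∈ S) ∧ (∀ l, m < l → u l = v) ∧ (u 0 = v ∨ u 0 ∈ Bx v ρ) ∧
    (u m = w ∨ u m ∈ Ot v R) ∧ (∀ l, u l ∈ Bx v (R + 1)) ∧ ∀ l < m, u (l + 1) ∈ Bx (u l) δ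

/-- the weights of the steps of a chain -/
noncomputable def wt (d : Mt) (δ : ℝ) (u : ℕ → R2) (l : ℕ) : ℝ :=
  (wey d (fun _ => 1) (Bx (u l) (2 * δ)) (u l) (u (l + 1))).toReal

/-- discretisation of crossings -/
structure DS : Prop where
  enum : ∀ (S : Set R2) (v w : R2) (ρ R δ : ℝ), S.Countable → (∃ m u, Adm S v ρ R w δ m u) →
    ∃ (mm : ℕ → ℕ) (uu : ℕ → ℕ → R2), (∀ γ, Adm S v ρ R w δ (mm γ) (uu γ)) ∧
      ∀ m u, Adm S v ρ R w δ m u → ∃ γ, mm γ = m ∧ uu γ = u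
  low : ∀ (d d' : Mt) (g : R2 → ℝ) (u : ℕ → R2) (l : ℕ) (δ o : ℝ), IsMet d → IsMet d' →
    Cmp d' d g → u (l + 1) ∈ Bx (u l) δ → (∀ y ∈ Bx (u l) (2 * δ), g y ≤ g (u l) + o) →
    d (u l) (u (l + 1)) ≤ exp o * (wt d' δ u l * exp (g (u l)))
  up : ∀ (d d' : Mt) (g : R2 → ℝ) (S : Set R2) (v w : R2) (ρ R δ o x : ℝ), IsMet d → IsMet d' →
    Cmp d d' (fun y => -g y) → Dense S → v ∈ S → w ∈ S → 0 ≤ ρ → ρ ≤ R → 0 < δ →
    (∀ y ∈ Bx v (R + 1), ∀ y' ∈ Bx y (2 * δ), g y ≤ g y' + o) → Lc d v ρ R w x →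
    ∃ m u, Adm S v ρ R w δ m u ∧ cw m (wt d' δ u) (fun l => g (u l)) ≤ exp o * x

/-- the weights of an almost cheapest chain are spread out -/
def sGI : Prop :=
  ∀ (H : Type) [NormedAddCommGroup H] [InnerProductSpace ℝ H] (a : ℤ → R2 → H) (C0 : ℕ), BZ a C0 →
    ∀ (d : Mt) (μ : ℤ → ℝ) (lm i e N m : ℕ) (v w : R2) (ρ R κ ξ : ℝ) (u : ℕ → R2) (c : ℕ → ℝ),
      IsMet d → GRc μ → NIc lm d μ 0 (i + 1) (Bx v (4 * 2 ^ e)) → 0 ≤ ρ → ρ + 1 ≤ R → R ≤ 2 ^ e →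
      w ∉ Bx v (ρ + 1) → (u 0 = v ∨ u 0 ∈ Bx v ρ) → (u m = w ∨ u m ∈ Ot v R) →
      (∀ l, u l ∈ Bx v (R + 1)) → (∀ l < m, u (l + 1) ∈ Bx (u l) (1 / 2 ^ N)) → 1 ≤ κ →
      (κ ^ 2 - 1) * N ≤ 1 → (∀ l < m, 0 ≤ c l ∧ d (u l) (u (l + 1)) ≤ κ * c l) →
      (∀ y, Lc d v ρ R w y → ∑ l ∈ range m, c l ≤ κ * y) →
      ‖∑ l ∈ range m, (c l / ∑ l ∈ range m, c l) • ξ • ∑ n ∈ range N, a (-(n : ℕ)) (u l)‖ ^ 2 ≤
        ξ ^ 2 * C0 ^ 3 * (6 * 10 ^ 7) * (i + 1 + lm)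

/-- a chain of circles along a segment -/
def sGL : Prop :=
  ∀ (d : Mt) (U : Set R2) (e : R2) (F : Finset (ℝ × ℝ)) (c : ℝ × ℝ → ℝ) (α β : ℝ), IsMet d →
    ‖e‖ = 1 → α ≤ β → (∀ I ∈ F, 0 < I.2 ∧ ∀ u u', dist u (I.1 • e) = I.2 → dist u' (I.1 • e) = I.2 →
      Tc d U u u' (c I)) → (∀ x ∈ Set.Icc α β, ∃ I ∈ F, |x - I.1| < I.2) →
    ∃ I ∈ F, ∃ I' ∈ F, |α - I.1| < I.2 ∧ |β - I'.1| ≤ I'.2 ∧ ∃ u u', dist u (I.1 • e) = I.2 ∧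
      dist u' (I'.1 • e) = I'.2 ∧ Tc d U u u' (∑ J ∈ F, c J)

/-- the square of scale `c + k` off the hole of scale `c` -/
def Anc (z : Z2) (c k : ℕ) : Set R2 := Bx (pt z) (4 * 2 ^ (c + k)) \ Bx (pt z) (2 ^ (c + 17))

/-- greedy pieces of a chain -/
def sBL : Prop :=
  ∀ (d d' : Mt) (G : R2 → ℝ) (μ : ℤ → ℝ) (c n k T a b : ℕ) (y : ℕ → R2) (z : Z2) (o : ℝ), IsMet d →
    IsMet d' → Cmp d' d G → Cmp d d' (fun x => -G x) → QC d 10 T y → Stp 1 T y → b ≤ T + 1 →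
    20 ≤ k → GRc μ → NIc 0 d' μ c n (Anc z c k) →
    (∀ s ∈ Ico a b, y s ∈ Bx (pt z) (2 ^ (c + k))) →
    (∀ q v, gp (c - n) q ∈ Bx (pt z) (4 * 2 ^ (c + k)) → v ∈ Bx (gp (c - n) q) (2 ^ (c + 18)) →
      |G v - G (gp (c - n) q)| ≤ o) →
    ∃ (m : ℕ) (p : ℕ → Z2), Cv (fun s => fz 0 (y s)) a b (10 * 2 ^ (c + 16)) (m + 1) ∧
      Cp (fun q => G (gp (c - n) q)) (fz (c - n) (pt z)) (n + k) n m p (10 ^ 6 * exp (2 * o))

/-- measurability of the events about chains -/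
def sEvM : Prop :=
  ∀ (S : Set R2), S.Countable →
    (∀ K h R r b : ℝ, MeasurableSet {d : Mt | Ev' S d K h R r b}) ∧
      ∀ K β : ℝ, MeasurableSet {d : Mt | EvA S K β d}

/-- change of the metric by a continuous factor -/
def sEvW : Prop :=
  ∀ (S : Set R2) (β : ℝ) (d d' : Mt) (g : R2 → ℝ), IsMet d → IsMet d' → Continuous g →
    (∀ u v, ENNReal.ofReal (d' u v) = wey d (fun x => exp (g x)) Set.univ u v) →
    EvA S 10 β d → EvA S 5 β d'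

/-- from chains to the dimension -/
def sDim : Prop :=
  ∀ (S : Set R2) (β : ℝ) (d : Mt) (p : ℝ → R2) (l : ℝ), IsMet d → Dense S → 0 ≤ β → EvA S 5 β d →
    QG d 4 p l → dimH (p '' Set.Icc 0 l) ≤ ENNReal.ofReal β

end Pool.Agent.GC
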