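import Pool.Agent.Lib.MP_438f30_pr.C.St

/-! The continuum upper bound: the model and the statements of the main blocks. -/

namespace Pool.Agent.GC

open MeasureTheory Real Finset Filter Topology Pool.Agent.Lib.MP_a0a493_pr Pool.Agent.GL
open Pool.Agent.GU (Z2 FK Su Cv Cp Dm BG EH EM EB X)
open scoped InnerProductSpace

/-- a white noise, its bands, and the metrics of the fields with the large scales removed -/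
structure Dat (Ω H : Type) [NormedAddCommGroup H] [InnerProductSpace ℝ H] where
  W : H →ₗ[ℝ] (Ω → ℝ)
  a : ℤ → R2 → H
  K : ℤ → Set R2 → Set H
  C0 : ℕ
  ξ : ℝ
  q : ℝ
  Y : ℤ → Ω → R2 → ℝ
  d : ℤ → Ω → Mt

section
variable {Ω H : Type} [MeasurableSpace Ω] [NormedAddCommGroup H] [InnerProductSpace ℝ H]

/-- the model -/
structure Mo (P : Measure Ω) (M : Dat Ω H) : Prop where
  iso : Iso P M.W
  bz : BZ M.a M.C0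
  xi : 0 < M.ξ
  ver : ∀ k x, (fun ω => M.Y (k + 1) ω x - M.Y k ω x) =ᵐ[P] M.W (M.ξ • M.a (k + 1) x)
  cont : ∀ k ω, Continuous (M.Y k ω)
  met : ∀ k, ∀ᵐ ω ∂P, IsMet (M.d k ω)
  wy : ∀ j k, ∀ᵐ ω ∂P, ∀ u v, ENNReal.ofReal (M.d k ω u v) =
    wey (M.d j ω) (fun x => exp (M.Y k ω x - M.Y j ω x)) Set.univ u v
  loc : ∀ k V, IsOpen V → ∀ u v, ∃ G : Ω → ENNReal, Measurable[FK M.W (M.K k V)] G ∧
    ∀ᵐ ω ∂P, wey (M.d k ω) (fun _ => 1) V u v = G ω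
  mono : ∀ k U V, U ⊆ V → M.K k U ⊆ M.K k V
  o1 : ∀ k b, k < b → ∀ h ∈ M.K k Set.univ, ∀ x, ⟪h, M.a b x⟫_ℝ = 0
  o2 : ∀ (j k : ℤ) (U V : Set R2), j ≤ k → (∀ x ∈ U, ∀ y ∈ V, M.C0 * 2 ^ j ≤ dist x y) →
    ∀ h ∈ M.K j U, ∀ h' ∈ M.K k V, ⟪h, h'⟫_ℝ = 0
  den : M.K 0 Set.univ ⊆ closure (⋃ N, Sb M.a N)
  inv : ∀ (k : ℤ) (z : R2) (B : Set Mt), MeasurableSet B →
    P {ω | (fun u v => exp (-(M.q * k)) * M.d k ω ((2 : ℝ) ^ k • u + z) ((2 : ℝ) ^ k • v + z)) ∈ B} =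
      P {ω | M.d 0 ω ∈ B}
  rot : ∀ L : R2 ≃ₗᵢ[ℝ] R2, LinearMap.det (L.toLinearEquiv : R2 →ₗ[ℝ] R2) = 1 →
    ∀ B : Set Mt, MeasurableSet B →
      P {ω | (fun u v => M.d 0 ω (L u) (L v)) ∈ B} = P {ω | M.d 0 ω ∈ B}

/-- the model, with a small parameter, and the deterministic tools -/
structure Sc (P : Measure Ω) (M : Dat Ω H) (η : ℝ) : Prop extends Mo P M where
  eta : 100 ≤ η
  small : M.ξ ^ 2 * M.C0 ^ 3 * η ≤ 1 / 10 ^ 12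
  ma : MA
  la : LA
  cx : CX
  pa : PA

/-- the bands seen from the lattice of scale `j` -/
noncomputable def sa (M : Dat Ω H) (j : ℤ) (z : R2) (b : ℕ) (x : R2) : H :=
  M.a (j + b) ((2 : ℝ) ^ j • x + z)

/-- the bands `j + 1, …, j + n` -/
noncomputable def bs (M : Dat Ω H) (j : ℤ) (n : ℕ) (x : R2) : H :=
  M.ξ • ∑ i ∈ range n, M.a (j + 1 + i) x

/-- the bands `0, -1, …, 1 - N` -/
noncomputable def bn (M : Dat Ω H) (N : ℕ) (x : R2) : H :=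
  M.ξ • ∑ n ∈ range N, M.a (-(n : ℕ)) x

/-- sums of bands -/
structure BA (P : Measure Ω) (M : Dat Ω H) (η : ℝ) : Prop where
  all : ∀ᵐ ω ∂P, (∀ k, IsMet (M.d k ω)) ∧
    ∀ j k, Cmp (M.d j ω) (M.d k ω) fun x => M.Y k ω x - M.Y j ω x
  sum : ∀ (j : ℤ) (n : ℕ) x, (fun ω => M.Y (j + n) ω x - M.Y j ω x) =ᵐ[P] M.W (bs M j n x)
  lip : ∀ (j : ℤ) (n : ℕ) x y, ‖bs M j n x - bs M j n y‖ ≤ M.ξ * M.C0 / 2 ^ j * ‖x - y‖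
  neg : ∀ N : ℕ, bs M (-N) N = bn M N
  nrm : ∀ (N : ℕ) x, ‖bn M N x‖ ^ 2 ≤ M.ξ ^ 2 * M.C0 ^ 2 * N
  su : ∀ j z, Su P M.W (sa M j z) M.C0 M.ξ η
  lat : ∀ (j : ℤ) (z : R2), ∀ᵐ ω ∂P, ∀ (k c : ℕ) (v : Z2),
    M.Y (j + k) ω ((2 : ℝ) ^ j • pt v + z) - M.Y (j + c) ω ((2 : ℝ) ^ j • pt v + z) =
      X M.W (sa M j z) M.ξ k ω v - X M.W (sa M j z) M.ξ c ω v

/-- local events have local versions -/
structure LC (P : Measure Ω) (M : Dat Ω H) : Prop where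
  ver : ∀ k U p, LB U p →
    ∃ A : Set Ω, MeasurableSet[FK M.W (M.K k U)] A ∧ {ω | p (M.d k ω)} =ᵐ[P] A
  nm : ∀ k U p, LB U p → NullMeasurableSet {ω | p (M.d k ω)} P
  cpl : ∀ k U p, LB U p → P.real {ω | ¬ p (M.d k ω)} = 1 - P.real {ω | p (M.d k ω)}

/-- invariance in law -/
structure IV (P : Measure Ω) (M : Dat Ω H) : Prop where
  ll : ∀ (j : ℤ) (v : R2) (x : ℝ), P.real {ω | LLc (M.d j ω) j v (exp (M.q * j) * x)} =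
    P.real {ω | LLc (M.d 0 ω) 0 0 x}
  tc : ∀ (j : ℤ) (v : R2) (e : Fin 2) (r x : ℝ),
    P.real {ω | ¬ Tc (M.d j ω) (Bx v (r * 2 ^ j)) v (v + (2 : ℝ) ^ j • ax e) (exp (M.q * j) * x)} =
      P.real {ω | ¬ Tc (M.d 0 ω) (Bx 0 r) 0 (ax e) x}
  top : ∀ (j : ℤ) (e : Fin 2) (x : ℝ),
    P.real {ω | M.d j ω 0 ((2 : ℝ) ^ j • ax e) < exp (M.q * j) * x} =
      P.real {ω | M.d 0 ω 0 (ax e) < x}
  gd : ∀ (j : ℤ) (z : R2) (r s S : ℝ),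
    P.real {ω | ¬ Gd (M.d j ω) z (r * 2 ^ j) (exp (M.q * j) * s) (exp (M.q * j) * S)} =
      P.real {ω | ¬ Gd (M.d 0 ω) 0 r s S}
  pt : ∀ (c c' v : R2) (e : Fin 2) (x : ℝ), P.real {ω | M.d 0 ω c c' < x} =
    P.real {ω | M.d 0 ω v (v + ‖c' - c‖ • ax e) < x}

/-- oscillation of a few bands -/
def SPc (P : Measure Ω) (M : Dat Ω H) (η : ℝ) : Prop :=
  ∀ (j : ℤ) (n e : ℕ) (v : R2) (r : ℝ), 1 / 20 ≤ r → n ≤ 100 * r →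
    P.real {ω | ∃ y ∈ Bx v (2 ^ e * 2 ^ j), r < |M.Y (j + n) ω y - M.Y j ω y|} ≤
      300 * 4 ^ e * exp (-(10 ^ 5 * η * r))

/-- the standing assumptions -/
structure Sd (P : Measure Ω) (M : Dat Ω H) (η : ℝ) : Prop extends Sc P M η where
  ba : BA P M η
  lc : LC P M
  iv : IV P M
  sp : SPc P M η

variable (P : Measure Ω) (M : Dat Ω H) (η m : ℝ)

/-- the typical costs -/
noncomputable def mu (j : ℤ) : ℝ := m * exp (M.q * j)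

/-- `m` is a median up to a factor two -/
def Mdc : Prop := 0 < m ∧ 1 / 2 ≤ P.real {ω | LLc (M.d 0 ω) 0 0 m} ∧
  1 / 2 ≤ P.real {ω | ¬ LLc (M.d 0 ω) 0 0 (m / 2)}

/-- lower tail -/
def TLc (lm : ℕ) : Prop :=
  ∀ i : ℕ, P.real {ω | LLc (M.d 0 ω) 0 0 (m * exp (-1 - lm - i / 20))} ≤ exp (-(3 * η * (1 + i)))

/-- upper tail -/
def TUc (lm : ℕ) : Prop :=
  ∀ (e : Fin 2) (i : ℕ), P.real {ω | ¬ Tc (M.d 0 ω) (Bx 0 (2 ^ (16 + 4 * lm + i / 2))) 0 (ax e)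
    (900 * m * exp (lm + i / 20))} ≤ exp (-(2 * η * (1 + i)))

/-- the probability of a bad site -/
def NPc (lm : ℕ) : Prop :=
  ∀ (k : ℤ) (n : ℕ) (v : R2),
    P.real {ω | ¬ Nc lm (M.d k ω) (mu M m) k n v} ≤ exp (-(η * (1 + n)))

/-- concentration of the cost of a crossing -/
def CONc (lm : ℕ) : Prop :=
  ∀ (v w : R2) (ρ R x t : ℝ) (e : ℕ), 0 ≤ ρ → ρ + 1 ≤ R → R ≤ 2 ^ e → w ∉ Bx v (ρ + 1) → 0 < x →
    P.real {ω | ¬ Lc (M.d 0 ω) v ρ R w (x * exp t)} * P.real {ω | Lc (M.d 0 ω) v ρ R w x} ≤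
      10 ^ 4 * 4 ^ e * exp (η * lm + 1.6 * η - 80 * η * t)

/-- crossings are approximated by a finite family of chains -/
def APc : Prop :=
  ∀ (v w : R2) (ρ R o ε : ℝ) (N : ℕ), 0 ≤ ρ → ρ + 1 ≤ R → w ∉ Bx v (ρ + 1) → 0 < o → 0 < ε →
    ∃ (J : ℕ) (mm : ℕ → ℕ) (uu : ℕ → ℕ → R2) (ww : Ω → ℕ → ℕ → ℝ) (B : Set Ω), P.real B ≤ ε ∧
      (∀ γ l, Measurable[FK M.W (M.K (-N) Set.univ)] fun ω => ww ω γ l) ∧
      (∀ γ, (uu γ 0 = v ∨ uu γ 0 ∈ Bx v ρ) ∧ (uu γ (mm γ) = w ∨ uu γ (mm γ) ∈ Ot v R) ∧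
        (∀ l, uu γ l ∈ Bx v (R + 1)) ∧ ∀ l < mm γ, uu γ (l + 1) ∈ Bx (uu γ l) (1 / 2 ^ N)) ∧
      (∀ᵐ ω ∂P, ∀ γ, (∀ l, 0 ≤ ww ω γ l) ∧ 0 < ∑ l ∈ range (mm γ), ww ω γ l) ∧
      ∀ ω ∉ B, IsMet (M.d 0 ω) ∧ (∀ γ, (∀ l, 0 ≤ ww ω γ l) ∧ ∀ l < mm γ,
        M.d 0 ω (uu γ l) (uu γ (l + 1)) ≤ exp o * (ww ω γ l * exp (M.W (bn M N (uu γ l)) ω))) ∧
        ∃ γ < J, ∀ y, Lc (M.d 0 ω) v ρ R w y →
          cw (mm γ) (ww ω γ) (fun l => M.W (bn M N (uu γ l)) ω) ≤ exp o * y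

/-- some displacement is cheap with probability not too small -/
def R1c (lm : ℕ) : Prop :=
  ∃ α : ℝ, 2 ≤ α ∧ α ≤ 9 ∧ ∀ (v : R2) (e : Fin 2),
    exp (-((10 + lm) * η)) ≤ P.real {ω | M.d 0 ω v (v + α • ax e) < 2 * m}

/-- a long segment is cheap -/
def R2c (c s : ℕ) : Prop :=
  ∀ e : Fin 2, P.real {ω | ¬ Tc (M.d 0 ω) (Bx 0 (2 ^ (s + 9 + 3 * c))) 0 ((2 : ℝ) ^ s • ax e)
    (5 / 4 * 2 ^ s * m * exp (1 + c))} ≤ 1 / 4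

/-- a grid edge is cheap with probability one half -/
def RSc (c : ℕ) : Prop :=
  ∀ e : Fin 2, 1 / 2 ≤ P.real {ω | M.d 0 ω 0 (ax e) < 300 * m * exp (5 * c)}

/-- one of many concentric annuli is good -/
def MSc : Prop :=
  ∀ ε : ℝ, 0 < ε → ∃ C : ℝ, 1 ≤ C ∧ ∀ (j : ℤ) (z : R2) (N : ℕ),
    P.real {ω | ∀ i < N, ¬ Gd (M.d (j - 2 * (i : ℕ)) ω) z (M.C0 * 2 ^ (j - 2 * (i : ℕ)))
      (exp (M.q * (j - 2 * (i : ℕ) : ℤ)) / C) (C * exp (M.q * (j - 2 * (i : ℕ) : ℤ)))} ≤ ε ^ N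

/-- a first lower tail -/
def ALc : Prop :=
  ∃ C : ℝ, ∀ t : ℝ, P.real {ω | LLc (M.d 0 ω) 0 0 (exp (-t))} ≤ C * exp (-(60 * η * t))

/-- a first upper tail -/
def AUc : Prop :=
  ∃ C : ℝ, ∀ (e : Fin 2) (t : ℝ),
    P.real {ω | ¬ Tc (M.d 0 ω) (Bx 0 8) 0 (ax e) (exp t)} ≤ C * exp (-(40 * η * t))

end

/-- a statement that holds under the assumptions `Sc` -/
def Al0 (p : ∀ (Ω H : Type) [MeasurableSpace Ω] [NormedAddCommGroup H] [InnerProductSpace ℝ H],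
    Measure Ω → Dat Ω H → ℝ → Prop) : Prop :=
  ∀ (Ω H : Type) [MeasurableSpace Ω] [NormedAddCommGroup H] [InnerProductSpace ℝ H]
    (P : Measure Ω) [IsProbabilityMeasure P] (M : Dat Ω H) (η : ℝ), Sc P M η → p Ω H P M η

/-- a statement that holds under the standing assumptions -/
def All (p : ∀ (Ω H : Type) [MeasurableSpace Ω] [NormedAddCommGroup H] [InnerProductSpace ℝ H],
    Measure Ω → Dat Ω H → ℝ → Prop) : Prop :=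
  ∀ (Ω H : Type) [MeasurableSpace Ω] [NormedAddCommGroup H] [InnerProductSpace ℝ H]
    (P : Measure Ω) [IsProbabilityMeasure P] (M : Dat Ω H) (η : ℝ), Sd P M η → p Ω H P M η

def sBA : Prop := Al0 fun _ _ _ _ _ P M η => BA P M η

def sLC : Prop := Al0 fun _ _ _ _ _ P M _ => LC P M

def sIV : Prop := Al0 fun _ _ _ _ _ P M _ => IV P M

def sSP : Prop := Al0 fun _ _ _ _ _ P M η => BA P M η → SPc P M η

/-- crossings have a positive cost -/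
def sPos : Prop :=
  ∀ (d : Mt) (v w : R2) (ρ R : ℝ), IsMet d → 0 ≤ ρ → ρ + 1 ≤ R → w ∉ Bx v (ρ + 1) →
    ∃ s > (0 : ℝ), ¬ Lc d v ρ R w s

def sMd : Prop := All fun _ _ _ _ _ P M _ => ∃ m, Mdc P M m

def sNP : Prop := All fun _ _ _ _ _ P M η => ∀ (m : ℝ) (lm : ℕ), 0 < m → TLc P M η m lm →
  TUc P M η m lm → NPc P M η m lm

def sApx : Prop := All fun _ _ _ _ _ P M _ => APc P M

def sCON : Prop := All fun _ _ _ _ _ P M η => APc P M → ∀ (m : ℝ) (lm : ℕ), GRc (mu M m) →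
  NPc P M η m lm → CONc P M η lm

def sTL : Prop := All fun _ _ _ _ _ P M η => ∀ (m : ℝ) (lm : ℕ), Mdc P M m → CONc P M η lm →
  TLc P M η m (lm / 14)

def sR1 : Prop := All fun _ _ _ _ _ P M η => ∀ (m : ℝ) (lm : ℕ), Mdc P M m → GRc (mu M m) →
  NPc P M η m lm → R1c P M η m lm

def sR2 : Prop := All fun _ _ _ _ _ P M η => ∀ (m : ℝ) (lm : ℕ), GRc (mu M m) →
  NPc P M η m lm → CONc P M η lm → TLc P M η m (lm / 14) → R1c P M η m lm →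
    R2c P M m (lm / 14) (30 + 5 * lm)

def sR3 : Prop := All fun _ _ _ _ _ P M η => ∀ (m : ℝ) (c s : ℕ), Mdc P M m → s ≤ 100 + 100 * c →
  TLc P M η m c → R2c P M m c s → RSc P M m c

def sTU : Prop := All fun _ _ _ _ _ P M η => ∀ (m : ℝ) (lm : ℕ), 0 < m → CONc P M η lm →
  TLc P M η m (lm / 14) → RSc P M m (lm / 14) → TUc P M η m (6 * (lm / 14))

def sMS : Prop := All fun _ _ _ _ _ P M _ => MSc P M

def sAL : Prop := All fun _ _ _ _ _ P M η => MSc P M → ALc P M η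

def sQ0 : Prop := All fun _ _ _ _ _ P M η => ALc P M η → log (9 / 5) ≤ M.q

/-- cheap circles at all scales along a segment join its ends -/
def sAD : Prop :=
  ∀ (d : Mt) (e : Fin 2) (c K : ℕ) (A : ℝ), IsMet d → 0 < A → 2 ≤ c →
    (∀ m k : ℕ, 2 ^ (c + 2 * (K + m / 8)) ≤ 4 * k → 2 * k ≤ 2 ^ (c + 2 * (K + m / 8)) → ∀ x : ℝ,
      x = k / 2 ^ (m + c + 2 * (K + m / 8)) ∨ x = 1 - k / 2 ^ (m + c + 2 * (K + m / 8)) →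
      ∃ ρ : ℝ, 1 / 2 ^ (m + c + 2 * (K + m / 8)) < ρ ∧ ρ ≤ 1 / (8 * 2 ^ m) ∧ ∀ u u',
        dist u (x • ax e) = ρ → dist u' (x • ax e) = ρ → Tc d (Bx 0 8) u u' (A * √ρ)) →
    Tc d (Bx 0 8) 0 (ax e) (32 * 2 ^ c * 4 ^ K * A + 2)

def sAU : Prop := All fun _ _ _ _ _ P M η => MSc P M → log (9 / 5) ≤ M.q → AUc P M η

def sAP : Prop := All fun _ _ _ _ _ P M η => ∀ m : ℝ, 0 < m → ALc P M η → AUc P M η →
  ∃ lm, TLc P M η m lm ∧ TUc P M η m lm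

def sBoot : Prop := All fun _ _ _ _ _ P M η =>
  log (9 / 5) ≤ M.q ∧ ∃ m, GRc (mu M m) ∧ NPc P M η m 0

/-- a good block -/
def GBc (Cg C' : ℝ) : Prop :=
  ∀ (d d' : Mt) (G : R2 → ℝ) (f : Z2 → ℝ) (F : ℕ → Z2 → ℝ) (μ : ℤ → ℝ) (c k T a b : ℕ)
    (y : ℕ → R2) (z : Z2), IsMet d → IsMet d' → Cmp d' d G → Cmp d d' (fun x => -G x) →
    QC d 10 T y → Stp 1 T y → b ≤ T + 1 → 20 ≤ k → GRc μ → NIc 0 d' μ c 0 (Anc z c k) →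
    BG F Cg C' z c k → (∀ v, G (pt v) = f v - F c v) →
    (∀ v, Near (2 ^ (c + k + 3)) z v → |f v - F (c + k) v - (f z - F (c + k) z)| ≤ 2) →
    (∀ v ∈ Bx (pt z) (8 * 2 ^ (c + k)), |G v - G (pt (fz 0 v))| ≤ 2) →
    (∀ s ∈ Ico a b, y s ∈ Bx (pt z) (2 ^ (c + k))) →
    Cv (fun s => fz 0 (y s)) a b (10 * 2 ^ (c + 16)) (11 * C' * 2 ^ k)

def sGB : Prop := ∀ Cg : ℝ, 1 ≤ Cg → ∃ C' : ℝ, 1 ≤ C' ∧ GBc Cg C'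

/-- any block -/
def sBM : Prop :=
  ∀ (d d' : Mt) (G : R2 → ℝ) (μ : ℤ → ℝ) (c k n T a b : ℕ) (y : ℕ → R2) (z : Z2) (o : ℝ),
    IsMet d → IsMet d' → Cmp d' d G → Cmp d d' (fun x => -G x) → QC d 10 T y → Stp 1 T y →
    b ≤ T + 1 → 20 ≤ k → 0 ≤ o → GRc μ → NIc 0 d' μ c n (Anc z c k) →
    (∀ v ∈ Bx (pt z) (8 * 2 ^ (c + k)), |G v - G (pt z)| ≤ o) →
    (∀ s ∈ Ico a b, y s ∈ Bx (pt z) (2 ^ (c + k))) →
    Cv (fun s => fz 0 (y s)) a b (10 * 2 ^ (c + 16)) (10 ^ 7 * exp (6 * o) * 4 ^ (k + n))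

/-- few scales have bad sites -/
def ENc (d : ℤ → Mt) (μ : ℤ → ℝ) (κ J : ℕ) (x : ℝ) (z : Z2) : Prop :=
  ∃ τ : ℕ → ℕ, (∀ j < J, NIc 0 (d (j * κ : ℕ)) μ (j * κ : ℕ) (τ j) (Anc z (j * κ) (κ + 20))) ∧
    ∑ j ∈ range J, (τ j : ℝ) ≤ x

/-- the field does not oscillate inside the unit cells -/
def Sl (Y : ℤ → R2 → ℝ) (N : ℕ) (x : ℝ) (D : Set R2) : Prop :=
  ∃ θ : ℕ → ℝ, (∀ c, 0 ≤ θ c) ∧ ∑ c ∈ range (N + 1), θ c ≤ x ∧ ∀ c ≤ N, ∀ v ∈ D,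
    |Y N v - Y (c : ℕ) v - (Y N (pt (fz 0 v)) - Y (c : ℕ) (pt (fz 0 v)))| ≤ θ c

/-- the length of a chain in a good environment -/
def sDet : Prop :=
  ∀ (d : ℤ → Mt) (Y : ℤ → R2 → ℝ) (F : ℕ → Z2 → ℝ) (μ : ℤ → ℝ) (xb : ℕ → ℝ) (Cg C' L x₀ : ℝ)
    (κ I J N T : ℕ) (y : ℕ → R2) (D : Set R2), GBc Cg C' → 1 ≤ κ → 11 * C' * 2 ^ 20 ≤ exp L →
    (κ : ℝ) + 70 ≤ L → 1 ≤ C' → GRc μ → (∀ k, IsMet (d k)) →
    (∀ j k, Cmp (d j) (d k) fun x => Y k x - Y j x) →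
    (∀ (k c : ℕ) (v : Z2), Y k (pt v) - Y c (pt v) = F k v - F c v) → J * 2 ^ I * κ + 20 ≤ N →
    QC (d N) 10 T y → Stp 1 T y →
    Dm (fun s => fz 0 (y s)) 0 (T + 1) (10 * 2 ^ (J * 2 ^ I * κ + 16)) → Sl Y N x₀ D →
    (∀ s ≤ T, Bx (pt (fz 0 (y s))) (8 * 2 ^ N) ⊆ D) →
    (∀ s ≤ T, EH (F N) F (J * 2 ^ I * κ + 20) 1 x₀ (fz 0 (y s)) ∧
      EM F κ (J * 2 ^ I) x₀ (fz 0 (y s)) ∧
      (∀ i ≤ I, ENc d μ (2 ^ i * κ) (J * 2 ^ (I - i)) x₀ (fz 0 (y s))) ∧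
      ∀ i ∈ Icc 1 I, EB F Cg C' (2 ^ i * κ) (J * 2 ^ (I - i)) (xb i) (fz 0 (y s))) →
    (T : ℝ) + 1 ≤ exp (J * (κ * log 2 * 2 ^ I + L) +
      (20 * x₀ + L * (∑ i ∈ Icc 1 I, xb i + 3 * I * x₀)))

def sEN : Prop := All fun _ _ _ _ _ P M η => ∀ (m : ℝ) (κ J : ℕ) (x : ℝ) (z : Z2),
  NPc P M η m 0 → M.C0 + 24 ≤ κ → 3 * ((κ : ℝ) + 25) ≤ η → 0 ≤ x →
  P.real {ω | ¬ ENc (fun k => M.d k ω) (mu M m) κ J (2 * x) z} ≤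
    2 * 2 ^ J * exp (-((η / 2 - 1) * x))

def sSub : Prop := All fun _ _ _ _ _ P M _ => ∀ (N e : ℕ) (s : ℝ), 0 ≤ s →
  P.real {ω | ¬ Sl (fun k => M.Y k ω) N (80 * M.ξ * M.C0 * (1 + s)) (Bx 0 (2 ^ e))} ≤
    (N + 1) * (100 * 4 ^ e * exp (-s ^ 2))

/-- the standing assumptions follow from the model -/
def sSd : Prop :=
  ∀ (Ω H : Type) [MeasurableSpace Ω] [NormedAddCommGroup H] [InnerProductSpace ℝ H]
    (P : Measure Ω) [IsProbabilityMeasure P] (M : Dat Ω H) (η : ℝ), Mo P M → 100 ≤ η →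
    M.ξ ^ 2 * M.C0 ^ 3 * η ≤ 1 / 10 ^ 12 → Sd P M η

/-- the bound at one scale -/
def One {Ω H : Type} [MeasurableSpace Ω] [NormedAddCommGroup H] [InnerProductSpace ℝ H]
    (P : Measure Ω) (M : Dat Ω H) (β : ℝ) : Prop :=
  ∃ j : ℕ, ∀ L : ℕ, ∃ A : ℝ, ∀ᶠ n : ℕ in atTop, P.real {ω | ¬ Ev' Set.univ (M.d n ω) 10 1
    (L * 2 ^ n) (2 ^ n / 2 ^ j) (2 ^ (β * n))} ≤ A * (1 / 2) ^ n

def sMod : Prop :=
  ∀ C0 : ℕ, ∃ C ξ₀ : ℝ, 0 < C ∧ 0 < ξ₀ ∧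
    ∀ (Ω H : Type) [MeasurableSpace Ω] [NormedAddCommGroup H] [InnerProductSpace ℝ H]
      (P : Measure Ω) [IsProbabilityMeasure P] (M : Dat Ω H), Mo P M → M.C0 = C0 → M.ξ ≤ ξ₀ →
      log (9 / 5) ≤ M.q ∧ One P M (1 + C * M.ξ ^ (4 / 3 : ℝ))

/-- from one scale to all scales -/
def sBC : Prop :=
  ∀ (Ω H : Type) [MeasurableSpace Ω] [NormedAddCommGroup H] [InnerProductSpace ℝ H]
    (P : Measure Ω) [IsProbabilityMeasure P] (M : Dat Ω H) (β : ℝ) (S : Set R2), Mo P M →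
    S.Countable → One P M β → ∀ᵐ ω ∂P, EvA S 10 β (M.d 0 ω)

/-- the model exists -/
def sInst : Prop :=
  ∃ C0 : ℕ, ∀ (ξ Q : ℝ) (D : ((R2 → ℝ) → ℝ) → R2 → R2 → ℝ), 0 < ξ → IsLQG ξ Q D → IsRot D →
    ∃ (Ω : Type) (_ : MeasurableSpace Ω) (P : Measure Ω) (_ : IsProbabilityMeasure P)
      (M : Dat Ω (HH 2)), Mo P M ∧ M.C0 = C0 ∧ M.ξ = ξ ∧ M.q = ξ * Q * log 2 ∧
      ∃ (ρ : R2 → ℝ) (Φ : (R2 → ℝ) → Ω → ℝ) (g : Ω → R2 → ℝ), Test ρ ∧ ∫ x, ρ x = 1 ∧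
        IsFld P Φ ∧ GFa P Φ (gv0 ρ) ∧ (∀ ω, Continuous (g ω)) ∧ ∀ᵐ ω ∂P, ∀ u v,
          ENNReal.ofReal (D (fun φ => Φ φ ω) u v) =
            wey (M.d 0 ω) (fun x => exp (g ω x)) Set.univ u v

/-- the upper bound for the dimension of geodesics -/
def sUp : Prop :=
  ∃ C ξ₀ : ℝ, 0 < C ∧ 0 < ξ₀ ∧ ∀ (ξ Q : ℝ) (D : ((R2 → ℝ) → ℝ) → R2 → R2 → ℝ), 0 < ξ → ξ ≤ ξ₀ →
    IsLQG ξ Q D → IsRot D → 0 ≤ Q ∧ ∀ (Ω : Type) [MeasurableSpace Ω] (P : Measure Ω)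
      [IsProbabilityMeasure P] (Φ : (R2 → ℝ) → Ω → ℝ), IsFld P Φ →
      ∀ᵐ ω ∂P, ∀ (U : Set R2) (f : R2 → ℝ), IsOpen U → ContinuousOn f U →
        ∀ (p : ℝ → R2) (l : ℝ), 0 ≤ l →
          (∀ s ∈ Set.Icc 0 l, ∀ t ∈ Set.Icc 0 l,
            wey (D fun φ => Φ φ ω) (fun x => exp (ξ * f x)) U (p s) (p t) =
              ENNReal.ofReal |s - t|) →
          dimH (p '' Set.Icc 0 l) ≤ ENNReal.ofReal (1 + C * ξ ^ (4 / 3 : ℝ))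

end Pool.Agent.GC
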