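import Pool.Agent.Lib.MP_438f30_pr.C.DefsT
import Pool.Agent.Lib.MP_438f30_pr.C.DefsR

/-! Linear isometries of determinant one are rotations. -/

namespace Pool.Agent.GL

open MeasureTheory Real
open scoped InnerProductSpace

theorem turn_neg (θ : ℝ) (x : R2) : turn θ (turn (-θ) x) = x := by
  ext i
  fin_cases i <;> simp [turn]
  · linear_combination x 0 * cos_sq_add_sin_sq θ
  · linear_combination x 1 * cos_sq_add_sin_sq θ

theorem ex_turn (L : R2 ≃ₗᵢ[ℝ] R2) (h : LinearMap.det (L.toLinearEquiv : R2 →ₗ[ℝ] R2) = 1) :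
    ∃ θ, ∀ x, L x = turn θ x := by
  obtain ⟨a, ha⟩ : ∃ a, a = L (EuclideanSpace.single 0 1) := ⟨_, rfl⟩
  obtain ⟨b, hb⟩ : ∃ b, b = L (EuclideanSpace.single 1 1) := ⟨_, rfl⟩
  have n : ∀ x : R2, ‖x‖ = 1 → x 0 ^ 2 + x 1 ^ 2 = 1 := fun x hx => by
    have := EuclideanSpace.real_norm_sq_eq x
    rw [hx, Fin.sum_univ_two] at this
    linarith
  have n1 := n a (by rw [ha, L.norm_map]; simp)
  have n2 := n b (by rw [hb, L.norm_map]; simp)
  have d : a 0 * b 1 - b 0 * a 1 = 1 := by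
    rw [← LinearMap.det_toMatrix (EuclideanSpace.basisFun (Fin 2) ℝ).toBasis, Matrix.det_fin_two] at h
    simpa [LinearMap.toMatrix_apply, ha, hb] using h
  have b0 : b 0 = -a 1 := by nlinarith [sq_nonneg (b 0 + a 1), sq_nonneg (b 1 - a 0)]
  have b1 : b 1 = a 0 := by nlinarith [sq_nonneg (b 0 + a 1), sq_nonneg (b 1 - a 0)]
  have z : ‖(⟨a 0, a 1⟩ : ℂ)‖ = 1 := by
    rw [Complex.norm_eq_sqrt_sq_add_sq, n1, sqrt_one]
  have c := Complex.cos_arg (x := ⟨a 0, a 1⟩) fun e => by simp [e] at z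
  have s := Complex.sin_arg ⟨a 0, a 1⟩
  rw [z, div_one] at c s
  refine ⟨Complex.arg ⟨a 0, a 1⟩, fun x => ?_⟩
  have e : x = x 0 • EuclideanSpace.single 0 1 + x 1 • EuclideanSpace.single 1 1 := by
    ext i
    fin_cases i <;> simp
  rw [e, map_add, map_smul, map_smul, ← ha, ← hb, ← e]
  ext i
  fin_cases i <;> simp [turn, c, s, b0, b1] <;> ring

theorem RotCov.isRot {D : ((R2 → ℝ) → ℝ) → R2 → R2 → ℝ} (h : RotCov D) : IsRot D := by
  intro Ω _ P _ Φ hΦ L hL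
  obtain ⟨θ, e⟩ := ex_turn L hL
  have e' : ∀ x, L.symm x = turn (-θ) x := fun x => by
    rw [L.symm_apply_eq, e, turn_neg]
  simp only [e, e']
  exact h Ω P Φ hΦ θ

end Pool.Agent.GL
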